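import Mathlib
import Pool.Agent.Work.MP_1233f5_ag.V.Stmts

/-! Bundle of small proof modules (one section per former module). -/

section

set_option autoImplicit false

namespace Pool.Agent.Work.MP_1233f5_ag.V

open Finset

/-- action of a permutation on tuples of sets -/
def A_act {α : Type} (σ : Equiv.Perm α) {p : ℕ} (t : Fin p → Finset α) : Fin p → Finset α :=
  fun i => (t i).map σ.toEmbedding

theorem A_act_mul {α : Type} (σ τ : Equiv.Perm α) {p : ℕ} (t : Fin p → Finset α) :
    A_act σ (A_act τ t) = A_act (σ * τ) t := by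
  funext i
  simp only [A_act]
  rw [Finset.map_map]
  rfl

theorem A_act_cons {α : Type} (σ : Equiv.Perm α) {p : ℕ} (b : Finset α) (t : Fin p → Finset α) :
    A_act σ (Fin.cons b t : Fin (p + 1) → Finset α) =
      Fin.cons (b.map σ.toEmbedding) (A_act σ t) := by
  funext i
  refine Fin.cases ?_ (fun i => ?_) i
  · simp [A_act]
  · simp [A_act]

theorem A_swap_map {α : Type} [DecidableEq α] (x y : α) (s : Finset α)
    (h : x ∈ s ↔ y ∈ s) : s.map (Equiv.swap x y).toEmbedding = s := by
  ext a
  rw [Finset.mem_map_equiv, Equiv.symm_swap, Equiv.swap_apply_def]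
  split_ifs with h1 h2
  · rw [h1]; exact h.symm
  · rw [h2]; exact h
  · rfl

theorem A_zero {K : Type} [Field K] [CharZero K] {α : Type} [Fintype α] [DecidableEq α] {p : ℕ}
    (Q : Finset α) (u : (Fin p → Finset α) → K)
    (hu : ∀ σ : Equiv.Perm α, (∀ a, a ∉ Q → σ a = a) → ∀ t : Fin p → Finset α,
      u (A_act σ t) = ((Equiv.Perm.sign σ : ℤ) : K) * u t)
    (t : Fin p → Finset α) (x y : α) (hx : x ∈ Q) (hy : y ∈ Q) (hxy : x ≠ y)
    (h : ∀ i, (x ∈ t i ↔ y ∈ t i)) : u t = 0 := by
  have h1 := hu (Equiv.swap x y) (by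
    intro a ha
    apply Equiv.swap_apply_of_ne_of_ne
    · rintro rfl; exact ha hx
    · rintro rfl; exact ha hy) t
  have h2 : A_act (Equiv.swap x y) t = t := by
    funext i
    exact A_swap_map x y (t i) (h i)
  rw [h2, Equiv.Perm.sign_swap hxy] at h1
  have h3 : (2 : K) * u t = 0 := by
    push_cast at h1
    linear_combination h1
  rcases mul_eq_zero.mp h3 with h4 | h4
  · exact absurd h4 two_ne_zero
  · exact h4

theorem A_zero' {K : Type} [Field K] [CharZero K] {α : Type} [Fintype α] [DecidableEq α]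
    {d p : ℕ} (Q : Finset α) (u : (Fin p → Finset α) → K)
    (hu : ∀ σ : Equiv.Perm α, (∀ a, a ∉ Q → σ a = a) → ∀ t : Fin p → Finset α,
      u (A_act σ t) = ((Equiv.Perm.sign σ : ℤ) : K) * u t)
    (t : Fin p → Finset α) (ht : vm d univ p t) (ht' : ¬ vG d univ Q p t) : u t = 0 := by
  by_contra hne
  apply ht'
  refine ⟨ht, fun i => ?_, fun q hq q' hq' h h' => ?_⟩
  · rw [Finset.card_le_one]
    intro x hx y hy
    by_contra hxy
    apply hne
    refine A_zero Q u hu t x y (Finset.mem_inter.1 hx).2 (Finset.mem_inter.1 hy).2 hxy ?_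
    intro j
    by_cases hj : j = i
    · subst hj
      exact ⟨fun _ => (Finset.mem_inter.1 hy).1, fun _ => (Finset.mem_inter.1 hx).1⟩
    · have hd := ht.2 i j (Ne.symm hj)
      constructor
      · intro hxj
        exact absurd hxj (Finset.disjoint_left.1 hd (Finset.mem_inter.1 hx).1)
      · intro hyj
        exact absurd hyj (Finset.disjoint_left.1 hd (Finset.mem_inter.1 hy).1)
  · by_contra hqq
    apply hne
    exact A_zero Q u hu t q q' hq hq' hqq (fun j => ⟨fun hj => absurd hj (h j),
      fun hj => absurd hj (h' j)⟩)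

theorem A_memQ {α : Type} [Fintype α] [DecidableEq α] (Q : Finset α) (σ : Equiv.Perm α)
    (hσ : ∀ a, a ∉ Q → σ a = a) (a : α) : σ a ∈ Q ↔ a ∈ Q := by
  constructor
  · intro h
    by_contra ha
    rw [hσ a ha] at h
    exact ha h
  · intro h
    by_contra ha
    have h1 := hσ _ ha
    have h2 := σ.injective h1
    rw [h2] at ha
    exact ha h

theorem A_vm {α : Type} [Fintype α] [DecidableEq α] {d p : ℕ} (σ : Equiv.Perm α)
    (t : Fin p → Finset α) : vm d univ p (A_act σ t) ↔ vm d univ p t := by
  simp only [vm, A_act, Finset.card_map, Finset.disjoint_map, Finset.subset_univ]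

theorem A_vG {α : Type} [Fintype α] [DecidableEq α] {d p : ℕ} (Q : Finset α) (σ : Equiv.Perm α)
    (hσ : ∀ a, a ∉ Q → σ a = a) (t : Fin p → Finset α) (h : vG d univ Q p t) :
    vG d univ Q p (A_act σ t) := by
  refine ⟨(A_vm σ t).2 h.1, fun i => ?_, fun q hq q' hq' h1 h2 => ?_⟩
  · have h1 : A_act σ t i ∩ Q = (t i ∩ Q).map σ.toEmbedding := by
      ext a
      simp only [A_act, Finset.mem_inter, Finset.mem_map_equiv]
      have := A_memQ Q σ hσ (σ.symm a)
      rw [Equiv.apply_symm_apply] at this
      rw [this]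
    rw [h1, Finset.card_map]
    exact h.2.1 i
  · have key := h.2.2 (σ.symm q) ?_ (σ.symm q') ?_ ?_ ?_
    · exact σ.symm.injective key
    · have := A_memQ Q σ hσ (σ.symm q)
      rw [Equiv.apply_symm_apply] at this
      exact this.1 hq
    · have := A_memQ Q σ hσ (σ.symm q')
      rw [Equiv.apply_symm_apply] at this
      exact this.1 hq'
    · intro i hi
      apply h1 i
      simp only [A_act, Finset.mem_map_equiv]
      exact hi
    · intro i hi
      apply h2 i
      simp only [A_act, Finset.mem_map_equiv]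
      exact hi

theorem pr_A : S_A := by
  classical
  intro K _ _ α _ _ d p Q hV c hc hcyc hinv
  have hinv' : ∀ σ : Equiv.Perm α, (∀ a, a ∉ Q → σ a = a) → ∀ t : Fin p → Finset α,
      c (A_act σ t) = ((Equiv.Perm.sign σ : ℤ) : K) * c t := hinv
  have hsupp : ∀ t, c t ≠ 0 → vG d univ Q p t := by
    intro t ht
    by_contra hn
    exact ht (A_zero' Q c hinv' t (hc.2 t ht) hn)
  have hcyc' : rcyc univ (vG d univ Q) p c := by
    cases p with
    | zero => trivial
    | succ p => intro t ht; exact hcyc t ht.1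
  obtain ⟨g0, hg0, hdd⟩ := hV c ⟨hc.1, hsupp⟩ hcyc'
  set G : Finset (Equiv.Perm α) := univ.filter (fun σ => ∀ a, a ∉ Q → σ a = a) with hG
  have hGmem : ∀ σ, σ ∈ G ↔ ∀ a, a ∉ Q → σ a = a := by
    intro σ; simp [hG]
  have hG1 : (1 : Equiv.Perm α) ∈ G := by
    rw [hGmem]; intro a _; rfl
  have hGc : (G.card : K) ≠ 0 := by
    rw [Nat.cast_ne_zero]
    exact (Finset.card_pos.2 ⟨1, hG1⟩).ne'
  have hsq : ∀ σ : Equiv.Perm α, ((Equiv.Perm.sign σ : ℤ) : K) * ((Equiv.Perm.sign σ : ℤ) : K) = 1 := by
    intro σ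
    rw [← Int.cast_mul, ← Units.val_mul, Int.units_mul_self]; simp
  let g : (Fin (p + 1) → Finset α) → K := fun t =>
    (G.card : K)⁻¹ * ∑ σ ∈ G, ((Equiv.Perm.sign σ : ℤ) : K) * g0 (A_act σ t)
  have hgdd : ∀ t : Fin p → Finset α, dd univ g t =
      (G.card : K)⁻¹ * ∑ σ ∈ G, ((Equiv.Perm.sign σ : ℤ) : K) * dd univ g0 (A_act σ t) := by
    intro t
    simp only [dd, g]
    rw [← Finset.mul_sum, Finset.sum_comm]
    congr 1
    refine Finset.sum_congr rfl (fun σ _ => ?_)
    rw [Finset.mul_sum]
    refine Fintype.sum_equiv (σ.finsetCongr) _ _ (fun b => ?_)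
    rw [A_act_cons]
    rfl
  have hginv : ∀ τ : Equiv.Perm α, (∀ a, a ∉ Q → τ a = a) → ∀ t : Fin p → Finset α,
      dd univ g (A_act τ t) = ((Equiv.Perm.sign τ : ℤ) : K) * dd univ g t := by
    intro τ hτ t
    rw [hgdd, hgdd]
    rw [mul_left_comm]
    congr 1
    rw [Finset.mul_sum]
    refine Finset.sum_bij (fun σ _ => σ * τ) ?_ ?_ ?_ ?_
    · intro σ hσ
      rw [hGmem] at hσ ⊢
      intro a ha
      rw [Equiv.Perm.mul_apply, hτ a ha, hσ a ha]
    · intro σ _ σ' _ h
      exact mul_right_cancel h
    · intro σ hσ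
      refine ⟨σ * τ⁻¹, ?_, by simp⟩
      rw [hGmem] at hσ ⊢
      intro a ha
      have : τ⁻¹ a = a := by
        rw [Equiv.Perm.inv_eq_iff_eq]
        exact (hτ a ha).symm
      rw [Equiv.Perm.mul_apply, this, hσ a ha]
    · intro σ _
      rw [A_act_mul, Equiv.Perm.sign_mul]
      push_cast
      linear_combination (- ((Equiv.Perm.sign σ : ℤ) : K) * dd univ g0 (A_act (σ * τ) t)) * hsq τ
  refine ⟨g, ⟨?_, ?_⟩, ?_⟩
  · intro τ t
    have h2 : ∑ σ ∈ G, ((Equiv.Perm.sign σ : ℤ) : K) * g0 (A_act σ (t ∘ τ)) =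
        ((Equiv.Perm.sign τ : ℤ) : K) * ∑ σ ∈ G, ((Equiv.Perm.sign σ : ℤ) : K) * g0 (A_act σ t) := by
      rw [Finset.mul_sum]
      refine Finset.sum_congr rfl (fun σ _ => ?_)
      have h1 : A_act σ (t ∘ τ) = A_act σ t ∘ τ := rfl
      rw [h1, hg0.1 τ (A_act σ t)]
      ring
    show (G.card : K)⁻¹ * ∑ σ ∈ G, ((Equiv.Perm.sign σ : ℤ) : K) * g0 (A_act σ (t ∘ τ)) =
      ((Equiv.Perm.sign τ : ℤ) : K) *
        ((G.card : K)⁻¹ * ∑ σ ∈ G, ((Equiv.Perm.sign σ : ℤ) : K) * g0 (A_act σ t))
    rw [h2]
    ring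
  · intro t ht
    have : ∃ σ ∈ G, g0 (A_act σ t) ≠ 0 := by
      by_contra hn
      have hn : ∀ σ ∈ G, g0 (A_act σ t) = 0 := by
        intro σ hσ
        by_contra h
        exact hn ⟨σ, hσ, h⟩
      apply ht
      show (G.card : K)⁻¹ * ∑ σ ∈ G, ((Equiv.Perm.sign σ : ℤ) : K) * g0 (A_act σ t) = 0
      have h0 : ∑ σ ∈ G, ((Equiv.Perm.sign σ : ℤ) : K) * g0 (A_act σ t) = 0 :=
        Finset.sum_eq_zero (fun σ hσ => by rw [hn σ hσ, mul_zero])
      rw [h0, mul_zero]
    obtain ⟨σ, _, hσ⟩ := this
    exact (A_vm σ t).1 (hg0.2 _ hσ).1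
  · intro t ht
    by_cases hvG : vG d univ Q p t
    · rw [hgdd]
      have h1 : ∀ σ ∈ G, ((Equiv.Perm.sign σ : ℤ) : K) * dd univ g0 (A_act σ t) = c t := by
        intro σ hσ
        rw [hGmem] at hσ
        rw [hdd _ (A_vG Q σ hσ t hvG), hinv' σ hσ t, ← mul_assoc, hsq, one_mul]
      rw [Finset.sum_congr rfl h1, Finset.sum_const, nsmul_eq_mul, ← mul_assoc,
        inv_mul_cancel₀ hGc, one_mul]
    · rw [A_zero' Q _ hginv t ht hvG, A_zero' Q c hinv' t ht hvG]

end Pool.Agent.Work.MP_1233f5_ag.V

end

section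

set_option autoImplicit false
open scoped TensorProduct

namespace Pool.Agent.Work.MP_1233f5_ag.V

open Finset

theorem lam_swap_aux (n d : ℕ) : ∀ (p : ℕ) (i : Fin p) (t : Fin (p + 1) → (Fin n → ℕ)),
    lam n d (p + 1) (t ∘ Equiv.swap i.castSucc i.succ) = - lam n d (p + 1) t := by
  intro p
  induction p with
  | zero => intro i; exact i.elim0
  | succ p ih =>
    intro i
    refine Fin.cases ?_ (fun k => ?_) i
    · intro t
      have e0 : (t ∘ Equiv.swap (Fin.castSucc (0 : Fin (p + 1))) (Fin.succ (0 : Fin (p + 1)))) 0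
          = t 1 := by
        simp
      have e1 : Fin.tail (t ∘ Equiv.swap (Fin.castSucc (0 : Fin (p + 1)))
          (Fin.succ (0 : Fin (p + 1)))) 0 = t 0 := by
        simp [Fin.tail]
      have e2 : Fin.tail (Fin.tail (t ∘ Equiv.swap (Fin.castSucc (0 : Fin (p + 1)))
          (Fin.succ (0 : Fin (p + 1))))) = Fin.tail (Fin.tail t) := by
        funext k
        have e1 : (k.succ.succ : Fin (p + 2)) ≠ 0 := Fin.succ_ne_zero _
        have e2 : (k.succ.succ : Fin (p + 2)) ≠ 1 := by
          rw [← Fin.succ_zero_eq_one]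
          intro h
          exact Fin.succ_ne_zero k (Fin.succ_injective _ h)
        simp only [Fin.tail, Function.comp_apply, Fin.castSucc_zero, Fin.succ_zero_eq_one]
        rw [Equiv.swap_apply_of_ne_of_ne e1 e2]
      have e3 : Fin.tail t 0 = t 1 := by simp [Fin.tail]
      refine LinearMap.ext (fun x => ?_)
      simp only [lam, LinearMap.comp_apply, LinearMap.neg_apply]
      rw [e0, e1, e2, e3, CliffordAlgebra.contractLeft_comm, map_neg]
    · intro t
      have e0 : (t ∘ Equiv.swap (Fin.castSucc k.succ) (Fin.succ k.succ)) 0 = t 0 := by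
        simp only [Function.comp_apply]
        rw [Equiv.swap_apply_of_ne_of_ne]
        · intro h
          have := congrArg Fin.val h
          simp at this
        · exact (Fin.succ_ne_zero _).symm
      have e1 : Fin.tail (t ∘ Equiv.swap (Fin.castSucc k.succ) (Fin.succ k.succ)) =
          Fin.tail t ∘ Equiv.swap k.castSucc k.succ := by
        funext j
        simp only [Fin.tail, Function.comp_apply]
        congr 1
        rw [Fin.castSucc_succ, Equiv.swap_apply_def, Equiv.swap_apply_def]
        simp only [Fin.succ_inj]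
        split_ifs <;> rfl
      refine LinearMap.ext (fun x => ?_)
      have h1 : ∀ s : Fin (p + 2) → (Fin n → ℕ), lam n d (p + 1 + 1) s x =
          lam n d (p + 1) (Fin.tail s) (CliffordAlgebra.contractLeft
            (Q := (0 : QuadraticForm ℂ (Sd n d))) (co d (toF (s 0))) x) := fun s => rfl
      rw [LinearMap.neg_apply, h1, h1, e0, e1, ih k (Fin.tail t), LinearMap.neg_apply]

theorem lam_perm_aux (n d p : ℕ) (σ : Equiv.Perm (Fin p)) : ∀ (t : Fin p → (Fin n → ℕ)),
    lam n d p (t ∘ σ) = ((Equiv.Perm.sign σ : ℤ) : ℂ) • lam n d p t := by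
  cases p with
  | zero =>
    intro t
    have : σ = 1 := Subsingleton.elim _ _
    subst this
    simp
  | succ p =>
    have hσ : σ ∈ Submonoid.closure (Set.range fun i : Fin p ↦ Equiv.swap i.castSucc i.succ) := by
      rw [Equiv.Perm.mclosure_swap_castSucc_succ]; trivial
    induction hσ using Submonoid.closure_induction with
    | mem x hx =>
      obtain ⟨i, rfl⟩ := hx
      intro t
      have hne : i.castSucc ≠ i.succ := (Fin.castSucc_lt_succ).ne
      rw [lam_swap_aux, Equiv.Perm.sign_swap hne]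
      simp
    | one => intro t; simp
    | mul x y _ _ hx hy =>
      intro t
      have e : t ∘ (x * y : Equiv.Perm (Fin (p + 1))) = (t ∘ x) ∘ y := rfl
      rw [e, hy (t ∘ x), hx t, smul_smul, Equiv.Perm.sign_mul]
      congr 1
      push_cast
      ring

theorem pr_BrAlt : S_BrAlt := by
  intro n d p a x σ t
  simp only [Co, lam_perm_aux n d p σ t]
  rw [TensorProduct.map_smul_left]
  simp

end Pool.Agent.Work.MP_1233f5_ag.V

end

section

set_option autoImplicit false
open scoped TensorProduct

namespace Pool.Agent.Work.MP_1233f5_ag.V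

open Finset

theorem lcoeff_mul_aux {n : ℕ} (v a : Fin n → ℕ) (f : MvPolynomial (Fin n) ℂ) :
    MvPolynomial.coeff (toF a) (MvPolynomial.monomial (toF v) (1 : ℂ) * f) =
      if (∀ j, v j ≤ a j) then MvPolynomial.coeff (toF (a - v)) f else 0 := by
  rw [MvPolynomial.coeff_monomial_mul']
  have h1 : (toF v ≤ toF a) ↔ (∀ j, v j ≤ a j) := by
    rw [Finsupp.le_def]
    exact Iff.rfl
  have h2 : toF a - toF v = toF (a - v) := by
    ext j
    simp [toF]
  rw [h2, one_mul]
  exact if_congr h1 rfl rfl

theorem pr_BrD (hBrSum : S_BrSum) : S_BrD := by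
  intro n d p t a x
  rw [hBrSum n d]
  rw [LinearMap.sum_apply, map_sum]
  refine Finset.sum_congr rfl (fun v _ => ?_)
  induction x using TensorProduct.induction_on with
  | zero => simp
  | add x y hx hy =>
    rw [map_add, map_add, hx, hy, map_add]
    split_ifs <;> simp
  | tmul u f =>
    simp only [Co, LinearMap.comp_apply, TensorProduct.map_tmul, LinearEquiv.coe_coe,
      TensorProduct.lid_tmul, LinearMap.mulLeft_apply, MvPolynomial.lcoeff_apply, lam,
      Fin.cons_zero, Fin.tail_cons]
    rw [lcoeff_mul_aux]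
    split_ifs <;> simp

end Pool.Agent.Work.MP_1233f5_ag.V

end

section

/-! MP_1233f5_ag, base block V, item BrDeg: degrees. -/

set_option autoImplicit false
open scoped TensorProduct

namespace Pool.Agent.Work.MP_1233f5_ag.V

open Finset

/-- contraction lowers the exterior degree. -/
theorem BrDeg_contract {M : Type} [AddCommGroup M] [Module ℂ M] (f : Module.Dual ℂ M) :
    ∀ (p : ℕ) (x : ExteriorAlgebra ℂ M),
      x ∈ (LinearMap.range (ExteriorAlgebra.ι ℂ : M →ₗ[ℂ] ExteriorAlgebra ℂ M)) ^ (p + 1) →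
      CliffordAlgebra.contractLeft (Q := (0 : QuadraticForm ℂ M)) f x ∈
        (LinearMap.range (ExteriorAlgebra.ι ℂ : M →ₗ[ℂ] ExteriorAlgebra ℂ M)) ^ p := by
  intro p
  induction p with
  | zero =>
    intro x hx
    rw [zero_add, pow_one] at hx
    obtain ⟨m, rfl⟩ := hx
    rw [CliffordAlgebra.contractLeft_ι, pow_zero]
    exact Submodule.mem_one.2 ⟨f m, rfl⟩
  | succ p ih =>
    intro x hx
    rw [pow_succ'] at hx
    refine Submodule.mul_induction_on hx ?_ ?_
    · rintro _ ⟨m, rfl⟩ y hy
      rw [CliffordAlgebra.contractLeft_ι_mul]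
      refine Submodule.sub_mem _ (Submodule.smul_mem _ _ hy) ?_
      rw [pow_succ']
      exact Submodule.mul_mem_mul ⟨m, rfl⟩ (ih y hy)
    · intro a b ha hb
      rw [map_add]
      exact Submodule.add_mem _ ha hb

theorem BrDeg_tmul {n d p T : ℕ} (x : ExteriorAlgebra ℂ (Sd n d)) (y : MvPolynomial (Fin n) ℂ)
    (hx : x ∈ (LinearMap.range
      (ExteriorAlgebra.ι ℂ : Sd n d →ₗ[ℂ] ExteriorAlgebra ℂ (Sd n d))) ^ p)
    (hy : y ∈ MvPolynomial.homogeneousSubmodule (Fin n) ℂ T) :
    x ⊗ₜ[ℂ] y ∈ piece n d p T :=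
  ⟨(⟨x, hx⟩ : ↥((LinearMap.range
      (ExteriorAlgebra.ι ℂ : Sd n d →ₗ[ℂ] ExteriorAlgebra ℂ (Sd n d))) ^ p)) ⊗ₜ[ℂ]
    (⟨y, hy⟩ : ↥(MvPolynomial.homogeneousSubmodule (Fin n) ℂ T)), rfl⟩

theorem BrDeg_mono {n T : ℕ} (a : Fin n → ℕ) (ha : a ∈ Mo n T) :
    (MvPolynomial.monomial (toF a) (1 : ℂ)) ∈ MvPolynomial.homogeneousSubmodule (Fin n) ℂ T := by
  rw [MvPolynomial.mem_homogeneousSubmodule]
  apply MvPolynomial.isHomogeneous_monomial
  rw [Finsupp.degree_eq_sum]
  exact (Finset.mem_piAntidiag.1 ha).1

theorem pr_BrDeg (hBrSum : S_BrSum) : S_BrDeg := by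
  intro n d p T
  refine ⟨?_, ?_⟩
  · intro t a ha
    exact BrDeg_tmul _ _ (ExteriorAlgebra.ιMulti_range ℂ p ⟨_, rfl⟩) (BrDeg_mono a ha)
  · rintro _ ⟨z, rfl⟩
    rw [hBrSum n d]
    induction z using TensorProduct.induction_on with
    | zero => simp only [map_zero]; exact Submodule.zero_mem _
    | tmul x y =>
      rw [TensorProduct.map_tmul, LinearMap.sum_apply]
      refine Submodule.sum_mem _ fun v hv => ?_
      rw [TensorProduct.map_tmul]
      refine BrDeg_tmul _ _ (BrDeg_contract _ p _ x.2) ?_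
      rw [MvPolynomial.mem_homogeneousSubmodule]
      have h1 := BrDeg_mono v hv
      have h2 := y.2
      rw [MvPolynomial.mem_homogeneousSubmodule] at h1 h2
      have h3 := h1.mul h2
      rw [add_comm] at h3
      exact h3
    | add x y hx hy =>
      rw [map_add, map_add]
      exact Submodule.add_mem _ hx hy

end Pool.Agent.Work.MP_1233f5_ag.V

end

section

/-! MP_1233f5_ag, item BrRep: the reproducing formula. -/

set_option autoImplicit false
open scoped TensorProduct

namespace Pool.Agent.Work.MP_1233f5_ag.V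

open Finset

namespace BrRep

theorem bas_perm (n d p : ℕ) (t : Fin p → (Fin n → ℕ)) (b : Fin n → ℕ)
    (σ : Equiv.Perm (Fin p)) :
    bas n d p (t ∘ σ) b = ((Equiv.Perm.sign σ : ℤ) : ℂ) • bas n d p t b := by
  unfold bas
  have h := (ExteriorAlgebra.ιMulti ℂ p (M := Sd n d)).map_perm (fun i => mono n d (t i)) σ
  have h2 : (fun i => mono n d ((t ∘ σ) i)) = (fun i => mono n d (t i)) ∘ σ := rfl
  rw [h2, h]
  rw [TensorProduct.smul_tmul']
  congr 1

theorem mem_pi_comp {n d p : ℕ} {t : Fin p → (Fin n → ℕ)}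
    (ht : t ∈ Fintype.piFinset (fun _ : Fin p => Mo n d)) (σ : Equiv.Perm (Fin p)) :
    t ∘ σ ∈ Fintype.piFinset (fun _ : Fin p => Mo n d) := by
  rw [Fintype.mem_piFinset] at ht ⊢
  intro i; exact ht (σ i)

/-- the formula for a basic element -/
theorem rep_bas (hBrVal : S_BrVal) (n d p T : ℕ) (t : Fin p → (Fin n → ℕ)) (b : Fin n → ℕ)
    (ht : t ∈ Fintype.piFinset (fun _ : Fin p => Mo n d)) (hb : b ∈ Mo n T) :
    ((p.factorial : ℂ)⁻¹) • ∑ s ∈ Fintype.piFinset (fun _ : Fin p => Mo n d),
      ∑ a ∈ Mo n T, Co n d p s a (bas n d p t b) • bas n d p s a = bas n d p t b := by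
  classical
  have ht' := Fintype.mem_piFinset.1 ht
  have h1 : ∀ s ∈ Fintype.piFinset (fun _ : Fin p => Mo n d),
      (∑ a ∈ Mo n T, Co n d p s a (bas n d p t b) • bas n d p s a) =
      ∑ σ : Equiv.Perm (Fin p), if s = t ∘ σ.symm then
        ((Equiv.Perm.sign σ : ℤ) : ℂ) • bas n d p s b else 0 := by
    intro s hs
    have hs' := Fintype.mem_piFinset.1 hs
    rw [Finset.sum_eq_single_of_mem b hb]
    · rw [hBrVal n d p s t b b hs' ht', if_pos rfl, Finset.sum_smul]
      refine Finset.sum_congr rfl (fun σ _ => ?_)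
      have : t = s ∘ σ ↔ s = t ∘ σ.symm := by
        constructor
        · intro h; rw [h]; funext i; simp
        · intro h; rw [h]; funext i; simp
      by_cases h : t = s ∘ σ
      · rw [if_pos h, if_pos (this.1 h)]
      · rw [if_neg h, if_neg (fun h' => h (this.2 h')), zero_smul]
    · intro a _ hab
      rw [hBrVal n d p s t a b hs' ht', if_neg hab, zero_smul]
  rw [Finset.sum_congr rfl h1, Finset.sum_comm]
  have h2 : ∀ σ ∈ (Finset.univ : Finset (Equiv.Perm (Fin p))),
      (∑ s ∈ Fintype.piFinset (fun _ : Fin p => Mo n d), if s = t ∘ σ.symm then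
        ((Equiv.Perm.sign σ : ℤ) : ℂ) • bas n d p s b else 0) = bas n d p t b := by
    intro σ _
    rw [Finset.sum_eq_single_of_mem (t ∘ σ.symm) (mem_pi_comp ht σ.symm)]
    · rw [if_pos rfl, bas_perm, smul_smul, Equiv.Perm.sign_symm, ← Int.cast_mul, ← Units.val_mul,
        Int.units_mul_self]
      simp
    · intro s _ hs; rw [if_neg hs]
  rw [Finset.sum_congr rfl h2, Finset.sum_const, Finset.card_univ, Fintype.card_perm,
    Fintype.card_fin]
  rw [← Nat.cast_smul_eq_nsmul ℂ, smul_smul, inv_mul_cancel₀, one_smul]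
  exact_mod_cast (Nat.factorial_pos p).ne'

theorem mem_Mo_iff {n d : ℕ} {v : Fin n → ℕ} : v ∈ Mo n d ↔ ∑ i, v i = d := by
  unfold Mo
  rw [Finset.mem_piAntidiag]
  constructor
  · intro h; exact h.1
  · intro h; exact ⟨h, fun i _ => Finset.mem_univ i⟩

/-- expansion of a homogeneous polynomial -/
theorem expand {n d : ℕ} {f : MvPolynomial (Fin n) ℂ}
    (hf : f ∈ MvPolynomial.homogeneousSubmodule (Fin n) ℂ d) :
    f = ∑ v ∈ Mo n d, MvPolynomial.coeff (toF v) f • MvPolynomial.monomial (toF v) (1 : ℂ) := by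
  classical
  rw [MvPolynomial.mem_homogeneousSubmodule] at hf
  ext m
  rw [MvPolynomial.coeff_sum]
  simp only [MvPolynomial.coeff_smul, MvPolynomial.coeff_monomial, smul_eq_mul]
  have hinj : ∀ v : Fin n → ℕ, toF v = m ↔ v = (m : Fin n → ℕ) := by
    intro v
    unfold toF
    rw [Equiv.symm_apply_eq]
    rfl
  by_cases hm : ∑ i, m i = d
  · have hmem : (m : Fin n → ℕ) ∈ Mo n d := mem_Mo_iff.2 hm
    rw [Finset.sum_eq_single_of_mem _ hmem]
    · rw [if_pos ((hinj _).2 rfl), (hinj _).2 rfl]; ring
    · intro v _ hv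
      rw [if_neg (fun h => hv ((hinj v).1 h))]; ring
  · have h0 : MvPolynomial.coeff m f = 0 := by
      by_contra hne
      have := hf hne
      apply hm
      rw [← this]
      rw [Finsupp.weight_apply]
      rw [Finsupp.sum_fintype _ _ (by simp)]
      simp
    rw [h0, Finset.sum_eq_zero]
    intro v hv
    rw [if_neg, mul_zero]
    intro h
    rw [hinj] at h
    rw [h] at hv
    exact hm (mem_Mo_iff.1 hv)

theorem mono_coe {n d : ℕ} {v : Fin n → ℕ} (hv : v ∈ Mo n d) :
    ((mono n d v : Sd n d) : MvPolynomial (Fin n) ℂ) = MvPolynomial.monomial (toF v) (1 : ℂ) := by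
  unfold mono
  rw [dif_pos]
  rw [MvPolynomial.mem_homogeneousSubmodule]
  apply MvPolynomial.isHomogeneous_monomial
  rw [Finsupp.degree_eq_sum]
  have : ∀ i, (toF v) i = v i := fun i => rfl
  simp only [this]
  exact mem_Mo_iff.1 hv

theorem expandSd {n d : ℕ} (f : Sd n d) :
    f = ∑ v ∈ Mo n d, MvPolynomial.coeff (toF v) (f : MvPolynomial (Fin n) ℂ) • mono n d v := by
  apply Subtype.ext
  have h := expand f.2
  rw [Submodule.coe_sum]
  rw [h]
  refine Finset.sum_congr rfl (fun v hv => ?_)
  rw [Submodule.coe_smul, mono_coe hv, ← h]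

end BrRep

open BrRep in
theorem pr_BrRep (hBrVal : S_BrVal) : S_BrRep := by
  classical
  intro n d p T x hx
  -- the linear map of the right side
  let R : LS n d →ₗ[ℂ] LS n d := ((p.factorial : ℂ)⁻¹) •
    ∑ t ∈ Fintype.piFinset (fun _ : Fin p => Mo n d), ∑ a ∈ Mo n T,
      (Co n d p t a).smulRight (bas n d p t a)
  have hR : ∀ y, R y = ((p.factorial : ℂ)⁻¹) •
      ∑ t ∈ Fintype.piFinset (fun _ : Fin p => Mo n d),
      ∑ a ∈ Mo n T, Co n d p t a y • bas n d p t a := by
    intro y
    simp only [R, LinearMap.smul_apply, LinearMap.sum_apply, LinearMap.smulRight_apply]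
  rw [← hR]
  obtain ⟨y, rfl⟩ := hx
  induction y using TensorProduct.induction_on with
  | zero => simp
  | add y z hy hz => rw [map_add, map_add, ← hy, ← hz]
  | tmul u v =>
    rw [TensorProduct.map_tmul]
    simp only [Submodule.subtype_apply]
    obtain ⟨u, hu⟩ := u
    obtain ⟨v, hv⟩ := v
    simp only
    have hu' : u ∈ Submodule.span ℂ (Set.range (ExteriorAlgebra.ιMulti ℂ p (M := Sd n d))) := by
      rw [ExteriorAlgebra.ιMulti_span_fixedDegree]
      exact hu
    induction hu' using Submodule.span_induction with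
    | zero => simp
    | add a b _ _ ha hb =>
      have h1 : ∀ c ∈ Submodule.span ℂ (Set.range (ExteriorAlgebra.ιMulti ℂ p (M := Sd n d))),
          c ∈ (LinearMap.range (ExteriorAlgebra.ι ℂ : Sd n d →ₗ[ℂ] ExteriorAlgebra ℂ (Sd n d))) ^ p := by
        intro c hc
        rw [ExteriorAlgebra.ιMulti_span_fixedDegree] at hc
        exact hc
      rename_i ha' hb'
      rw [TensorProduct.add_tmul, map_add, ← ha (h1 a ha'), ← hb (h1 b hb')]
    | smul c a ha' ha =>
      have h1 : a ∈ (LinearMap.range (ExteriorAlgebra.ι ℂ : Sd n d →ₗ[ℂ] ExteriorAlgebra ℂ (Sd n d))) ^ p := by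
        rw [ExteriorAlgebra.ιMulti_span_fixedDegree] at ha'
        exact ha'
      rw [← TensorProduct.smul_tmul', map_smul, ← ha h1]
    | mem w hw =>
      obtain ⟨m, rfl⟩ := hw
      have hm : (ExteriorAlgebra.ιMulti ℂ p) m = ∑ r ∈ Fintype.piFinset (fun _ : Fin p => Mo n d),
          (∏ i, MvPolynomial.coeff (toF (r i)) (m i : MvPolynomial (Fin n) ℂ)) •
            (ExteriorAlgebra.ιMulti ℂ p) (fun i => mono n d (r i)) := by
        have h1 : m = fun i => ∑ v ∈ Mo n d,
            MvPolynomial.coeff (toF v) (m i : MvPolynomial (Fin n) ℂ) • mono n d v := by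
          funext i; exact expandSd (m i)
        have h2 := (ExteriorAlgebra.ιMulti ℂ p (M := Sd n d)).toMultilinearMap.map_sum_finset
          (fun (i : Fin p) (v : Fin n → ℕ) =>
            MvPolynomial.coeff (toF v) (m i : MvPolynomial (Fin n) ℂ) • mono n d v)
          (fun _ => Mo n d)
        have h3 : (ExteriorAlgebra.ιMulti ℂ p) m =
            (ExteriorAlgebra.ιMulti ℂ p (M := Sd n d)).toMultilinearMap (fun i => ∑ v ∈ Mo n d,
            MvPolynomial.coeff (toF v) (m i : MvPolynomial (Fin n) ℂ) • mono n d v) := by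
          rw [← h1]; rfl
        rw [h3, h2]
        refine Finset.sum_congr rfl (fun r _ => ?_)
        rw [MultilinearMap.map_smul_univ]
        rfl
      have hvv := expand hv
      have key : (ExteriorAlgebra.ιMulti ℂ p) m ⊗ₜ[ℂ] v =
          ∑ r ∈ Fintype.piFinset (fun _ : Fin p => Mo n d), ∑ b ∈ Mo n T,
            ((∏ i, MvPolynomial.coeff (toF (r i)) (m i : MvPolynomial (Fin n) ℂ)) *
              MvPolynomial.coeff (toF b) v) • bas n d p r b := by
        rw [hm]
        conv_lhs => rw [hvv]
        rw [TensorProduct.sum_tmul]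
        refine Finset.sum_congr rfl (fun r _ => ?_)
        rw [TensorProduct.tmul_sum]
        refine Finset.sum_congr rfl (fun b _ => ?_)
        rw [← TensorProduct.smul_tmul', TensorProduct.tmul_smul, smul_smul]
        rfl
      rw [key, map_sum]
      refine Finset.sum_congr rfl (fun r hr => ?_)
      rw [map_sum]
      refine Finset.sum_congr rfl (fun b hb => ?_)
      rw [map_smul, hR, rep_bas hBrVal n d p T r b hr hb]

end Pool.Agent.Work.MP_1233f5_ag.V

end

section

set_option autoImplicit false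
open scoped TensorProduct

namespace Pool.Agent.Work.MP_1233f5_ag.V

open Finset

theorem pr_BrSum : S_BrSum := by
  classical
  intro n d
  unfold DK
  have hinj : Function.Injective (toF (n := n)) := fun a b h =>
    Finsupp.equivFunOnFinite.symm.injective h
  have hco : ∀ α : Fin n →₀ ℕ, α ∉ (Mo n d).image toF → co d α = 0 := by
    intro α hα
    ext x
    have hx := x.2
    rw [MvPolynomial.mem_homogeneousSubmodule] at hx
    by_contra hne
    apply hα
    have h1 : MvPolynomial.coeff α (x : MvPolynomial (Fin n) ℂ) ≠ 0 := hne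
    have h2 := hx h1
    rw [Finset.mem_image]
    refine ⟨⇑α, ?_, ?_⟩
    · rw [Mo, Finset.mem_piAntidiag]
      refine ⟨?_, fun _ _ => Finset.mem_univ _⟩
      rw [← h2, Finsupp.weight_apply, Finsupp.sum_fintype]
      · simp
      · simp
    · exact Finsupp.equivFunOnFinite.symm_apply_apply α
  rw [finsum_eq_sum_of_support_subset (s := (Mo n d).image toF)]
  · rw [Finset.sum_image (fun a _ b _ h => hinj h)]
  · intro α hα
    by_contra hn
    apply hα
    have h0 := hco α (fun h => hn (by exact_mod_cast h))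
    simp only [h0, map_zero]
    rw [TensorProduct.map_zero_left]

end Pool.Agent.Work.MP_1233f5_ag.V

end

section

set_option autoImplicit false
open scoped TensorProduct

namespace Pool.Agent.Work.MP_1233f5_ag.V

open Finset

theorem BrVal_contract {M : Type*} [AddCommGroup M] [Module ℂ M] (f : M →ₗ[ℂ] ℂ) (p : ℕ) :
    ∀ v : Fin (p + 1) → M,
      CliffordAlgebra.contractLeft (Q := (0 : QuadraticForm ℂ M)) f
        (ExteriorAlgebra.ιMulti ℂ (p + 1) v) =
      ∑ i : Fin (p + 1), ((-1 : ℂ) ^ (i : ℕ) * f (v i)) •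
        ExteriorAlgebra.ιMulti ℂ p (i.removeNth v) := by
  induction p with
  | zero =>
    intro v
    rw [ExteriorAlgebra.ιMulti_succ_apply]
    have h1 := CliffordAlgebra.contractLeft_ι_mul (Q := (0 : QuadraticForm ℂ M)) f (v 0)
      (ExteriorAlgebra.ιMulti ℂ 0 (Matrix.vecTail v))
    have h2 : CliffordAlgebra.contractLeft (Q := (0 : QuadraticForm ℂ M)) f
        (ExteriorAlgebra.ιMulti ℂ 0 (Matrix.vecTail v)) = 0 := by
      rw [ExteriorAlgebra.ιMulti_zero_apply]
      exact CliffordAlgebra.contractLeft_one (Q := (0 : QuadraticForm ℂ M)) f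
    rw [h2, mul_zero, sub_zero] at h1
    refine h1.trans ?_
    simp [ExteriorAlgebra.ιMulti_zero_apply]
  | succ p ih =>
    intro v
    rw [ExteriorAlgebra.ιMulti_succ_apply]
    have h1 := CliffordAlgebra.contractLeft_ι_mul (Q := (0 : QuadraticForm ℂ M)) f (v 0)
      (ExteriorAlgebra.ιMulti ℂ (p + 1) (Matrix.vecTail v))
    rw [ih (Matrix.vecTail v)] at h1
    refine h1.trans ?_
    conv_rhs => rw [Fin.sum_univ_succ]
    rw [Finset.mul_sum, sub_eq_add_neg, ← Finset.sum_neg_distrib]
    congr 1
    · simp only [Fin.val_zero, pow_zero, one_mul]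
      congr 1
    · refine Finset.sum_congr rfl (fun i _ => ?_)
      rw [mul_smul_comm]
      have h3 : ExteriorAlgebra.ιMulti ℂ (p + 1) (i.succ.removeNth v) =
          ExteriorAlgebra.ι ℂ (v 0) * ExteriorAlgebra.ιMulti ℂ p (i.removeNth (Matrix.vecTail v)) := by
        rw [ExteriorAlgebra.ιMulti_succ_apply]
        congr 1
        congr 1
        funext j
        simp [Matrix.vecTail, Fin.removeNth, Fin.succ_succAbove_succ]
      rw [h3, ← neg_smul]
      congr 1
      simp only [Fin.val_succ, pow_succ, Matrix.vecTail, Function.comp_apply]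
      ring

theorem BrVal_lam (n d p : ℕ) : ∀ (s : Fin p → (Fin n → ℕ)) (v : Fin p → Sd n d),
    lam n d p s (ExteriorAlgebra.ιMulti ℂ p v) =
      Matrix.det (fun i j => co d (toF (s i)) (v j)) := by
  induction p with
  | zero =>
    intro s v
    rw [ExteriorAlgebra.ιMulti_zero_apply, Matrix.det_fin_zero]
    show ExteriorAlgebra.algebraMapInv (1 : ExteriorAlgebra ℂ (Sd n d)) = 1
    exact map_one _
  | succ p ih =>
    intro s v
    show lam n d p (Fin.tail s) (CliffordAlgebra.contractLeft
      (Q := (0 : QuadraticForm ℂ (Sd n d))) (co d (toF (s 0))) (ExteriorAlgebra.ιMulti ℂ (p + 1) v)) = _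
    rw [BrVal_contract, map_sum, Matrix.det_succ_row_zero]
    refine Finset.sum_congr rfl (fun i _ => ?_)
    rw [map_smul, ih, smul_eq_mul]
    rfl

theorem BrVal_toF_inj {n : ℕ} {u v : Fin n → ℕ} : toF u = toF v ↔ u = v := by
  unfold toF
  exact Finsupp.equivFunOnFinite.symm.injective.eq_iff

theorem BrVal_mono (n d : ℕ) (v : Fin n → ℕ) (hv : v ∈ Mo n d) :
    ((mono n d v : Sd n d) : MvPolynomial (Fin n) ℂ) = MvPolynomial.monomial (toF v) 1 := by
  have h : (MvPolynomial.monomial (toF v) (1 : ℂ)) ∈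
      MvPolynomial.homogeneousSubmodule (Fin n) ℂ d := by
    rw [MvPolynomial.mem_homogeneousSubmodule]
    apply MvPolynomial.isHomogeneous_monomial
    have h1 : ∑ i, v i = d := by
      have := Finset.mem_piAntidiag.mp hv
      exact this.1
    rw [← h1]
    unfold Finsupp.degree
    simp only [AddMonoidHom.coe_mk, ZeroHom.coe_mk]
    refine Finset.sum_subset (Finset.subset_univ _) (fun i _ hi => ?_)
    simpa using hi
  unfold mono
  rw [dif_pos h]

theorem BrVal_co (n d : ℕ) (s v : Fin n → ℕ) (hv : v ∈ Mo n d) :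
    co d (toF s) (mono n d v) = if v = s then 1 else 0 := by
  show MvPolynomial.coeff (toF s) ((mono n d v : Sd n d) : MvPolynomial (Fin n) ℂ) = _
  rw [BrVal_mono n d v hv, MvPolynomial.coeff_monomial]
  by_cases h : v = s
  · rw [if_pos h, if_pos (BrVal_toF_inj.mpr h)]
  · rw [if_neg h, if_neg (fun h' => h (BrVal_toF_inj.mp h'))]

theorem pr_BrVal : S_BrVal := by
  intro n d p s t a b hs ht
  have h0 : Co n d p s a (bas n d p t b) =
      lam n d p s (ExteriorAlgebra.ιMulti ℂ p (fun i => mono n d (t i))) *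
        MvPolynomial.coeff (toF a) (MvPolynomial.monomial (toF b) (1 : ℂ)) := by
    unfold Co bas
    simp only [LinearMap.comp_apply, TensorProduct.map_tmul, LinearEquiv.coe_coe,
      TensorProduct.lid_tmul, MvPolynomial.lcoeff_apply, smul_eq_mul]
  rw [h0, BrVal_lam, MvPolynomial.coeff_monomial]
  have h1 : (Matrix.det (fun i j => co d (toF (s i)) (mono n d (t j))) : ℂ) =
      ∑ σ : Equiv.Perm (Fin p), if t = s ∘ σ then ((Equiv.Perm.sign σ : ℤ) : ℂ) else 0 := by
    rw [Matrix.det_apply]
    refine Finset.sum_congr rfl (fun σ _ => ?_)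
    have h2 : (∏ i, (fun i j => co d (toF (s i)) (mono n d (t j)) : Matrix (Fin p) (Fin p) ℂ)
        (σ i) i) = if t = s ∘ σ then 1 else 0 := by
      by_cases h : t = s ∘ σ
      · rw [if_pos h]
        refine Finset.prod_eq_one (fun i _ => ?_)
        show co d (toF (s (σ i))) (mono n d (t i)) = 1
        rw [BrVal_co n d _ _ (ht i)]
        exact if_pos (congrFun h i)
      · rw [if_neg h]
        have h3 : ∃ i, t i ≠ s (σ i) := by
          by_contra h4
          push Not at h4
          exact h (funext h4)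
        obtain ⟨i, hi⟩ := h3
        refine Finset.prod_eq_zero (Finset.mem_univ i) ?_
        show co d (toF (s (σ i))) (mono n d (t i)) = 0
        rw [BrVal_co n d _ _ (ht i), if_neg hi]
    rw [h2]
    split_ifs
    · simp [Units.smul_def]
    · simp
  by_cases h : a = b
  · rw [if_pos h, if_pos (BrVal_toF_inj.mpr h.symm), mul_one]
    exact h1
  · rw [if_neg h, if_neg (fun h' => h (BrVal_toF_inj.mp h').symm), mul_zero]

end Pool.Agent.Work.MP_1233f5_ag.V

end

section

/-! MP_1233f5_ag, base block V, item Bridge: from the multigraded vanishing to the Koszul complex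
of the frozen statement. -/

set_option autoImplicit false
open scoped TensorProduct

namespace Pool.Agent.Work.MP_1233f5_ag.V

open Finset

lemma Bridge_mem {n d : ℕ} {v : Fin n → ℕ} : v ∈ Mo n d ↔ ∑ i, v i = d := by
  simp [Mo, Finset.mem_piAntidiag]

lemma Bridge_vw_cons {n d p : ℕ} (w v : Fin n → ℕ) (t : Fin p → (Fin n → ℕ)) (hv : v ∈ Mo n d)
    (ht : ∀ i, t i ∈ Mo n d) :
    vw d w (p + 1) (Fin.cons v t : Fin (p + 1) → (Fin n → ℕ)) ↔ v + ∑ i, t i ≤ w := by
  unfold vw
  rw [Fin.sum_univ_succ]
  simp only [Fin.cons_zero, Fin.cons_succ]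
  constructor
  · exact fun h => h.2
  · intro h
    refine ⟨?_, h⟩
    intro i
    refine Fin.cases ?_ (fun i => ?_) i
    · simpa using hv
    · simpa using ht i

lemma Bridge_sum_cons {n p : ℕ} (v : Fin n → ℕ) (t : Fin p → (Fin n → ℕ)) :
    ∑ i, (Fin.cons v t : Fin (p + 1) → (Fin n → ℕ)) i = v + ∑ i, t i := by
  rw [Fin.sum_univ_succ]
  simp only [Fin.cons_zero, Fin.cons_succ]

lemma Bridge_vw_perm {n d p : ℕ} (w : Fin n → ℕ) (t : Fin p → (Fin n → ℕ))
    (σ : Equiv.Perm (Fin p)) : vw d w p (t ∘ σ) ↔ vw d w p t := by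
  unfold vw
  have h1 : ∑ i, (t ∘ σ) i = ∑ i, t i := Equiv.sum_comp σ t
  rw [h1]
  constructor
  · rintro ⟨h, h'⟩
    refine ⟨fun i => ?_, h'⟩
    have := h (σ.symm i)
    simpa using this
  · rintro ⟨h, h'⟩
    exact ⟨fun i => h (σ i), h'⟩

lemma Bridge_total {n d p : ℕ} (t : Fin p → (Fin n → ℕ)) (ht : ∀ i, t i ∈ Mo n d) :
    ∑ j, (∑ i, t i) j = p * d := by
  simp only [Finset.sum_apply]
  rw [Finset.sum_comm]
  have : ∀ i ∈ (univ : Finset (Fin p)), ∑ j, t i j = d := fun i _ => Bridge_mem.1 (ht i)
  rw [Finset.sum_congr rfl this]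
  simp

open Classical in
/-- the multigraded part of the coefficients of `x`. -/
noncomputable def Bridge_c (n d p : ℕ) (x : LS n d) (w : Fin n → ℕ) :
    (Fin p → (Fin n → ℕ)) → ℂ :=
  fun t => if vw d w p t then Co n d p t (w - ∑ i, t i) x else 0

lemma Bridge_ch (hBrAlt : S_BrAlt) (n d p : ℕ) (x : LS n d) (w : Fin n → ℕ) :
    rCh (vw d w) p (Bridge_c n d p x w) := by
  refine ⟨?_, ?_⟩
  · intro σ t
    unfold Bridge_c
    have h1 : ∑ i, (t ∘ σ) i = ∑ i, t i := Equiv.sum_comp σ t
    by_cases h : vw d w p t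
    · rw [if_pos h, if_pos ((Bridge_vw_perm w t σ).2 h), h1]
      exact hBrAlt n d p (w - ∑ i, t i) x σ t
    · rw [if_neg h, if_neg (fun h' => h ((Bridge_vw_perm w t σ).1 h')), mul_zero]
  · intro t ht
    by_contra h
    exact ht (by unfold Bridge_c; rw [if_neg h])

lemma Bridge_cyc (hBrD : S_BrD) (n d p : ℕ) (x : LS n d) (hx : DK n d x = 0) (w : Fin n → ℕ) :
    rcyc (Mo n d) (vw d w) p (Bridge_c n d p x w) := by
  cases p with
  | zero => trivial
  | succ p =>
    intro t ht
    have h1 := hBrD n d p t (w - ∑ i, t i) x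
    rw [hx, map_zero] at h1
    rw [h1]
    unfold dd
    refine Finset.sum_congr rfl (fun v hv => ?_)
    unfold Bridge_c
    have h2 : vw d w (p + 1) (Fin.cons v t : Fin (p + 1) → (Fin n → ℕ)) ↔
        ∀ j, v j ≤ (w - ∑ i, t i) j := by
      rw [Bridge_vw_cons w v t hv ht.1]
      constructor
      · intro h j
        have h3 := h j
        simp only [Pi.add_apply, Pi.sub_apply] at h3 ⊢
        omega
      · intro h j
        have h3 := h j
        have h4 : (∑ i, t i) j ≤ w j := ht.2 j
        simp only [Pi.add_apply, Pi.sub_apply] at h3 ⊢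
        omega
    by_cases h : ∀ j, v j ≤ (w - ∑ i, t i) j
    · rw [if_pos (h2.2 h), if_pos h, Bridge_sum_cons]
      congr 2
      funext j
      simp only [Pi.add_apply, Pi.sub_apply]
      omega
    · rw [if_neg (fun h' => h (h2.1 h')), if_neg h]

lemma Bridge_eq (hBrRep : S_BrRep) {n d p T : ℕ} {x y : LS n d} (hx : x ∈ piece n d p T)
    (hy : y ∈ piece n d p T)
    (h : ∀ t : Fin p → (Fin n → ℕ), (∀ i, t i ∈ Mo n d) → ∀ a ∈ Mo n T,
      Co n d p t a x = Co n d p t a y) : x = y := by
  rw [hBrRep n d p T x hx, hBrRep n d p T y hy]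
  congr 1
  refine Finset.sum_congr rfl (fun t ht => ?_)
  refine Finset.sum_congr rfl (fun a ha => ?_)
  rw [h t (fun i => Fintype.mem_piFinset.1 ht i) a ha]

theorem pr_Bridge (hBrD : S_BrD) (hBrAlt : S_BrAlt) (hBrVal : S_BrVal) (hBrRep : S_BrRep)
    (hBrDeg : S_BrDeg) : S_Bridge := by
  intro n d p T hvan x hx hDx
  -- the primitives of all multigraded parts
  have hg : ∀ w : Fin n → ℕ, ∃ g : (Fin (p + 1) → (Fin n → ℕ)) → ℂ, ∑ a, w a = p * d + T →
      rCh (vw d w) (p + 1) g ∧
        ∀ t, vw d w p t → dd (Mo n d) g t = Bridge_c n d p x w t := by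
    intro w
    by_cases hw : ∑ a, w a = p * d + T
    · obtain ⟨g, hg1, hg2⟩ := hvan w hw (Bridge_c n d p x w) (Bridge_ch hBrAlt n d p x w)
        (Bridge_cyc hBrD n d p x hDx w)
      exact ⟨g, fun _ => ⟨hg1, hg2⟩⟩
    · exact ⟨fun _ => 0, fun h => absurd h hw⟩
  choose g hg using hg
  -- the coefficients of `x`
  have hco : ∀ t : Fin p → (Fin n → ℕ), (∀ i, t i ∈ Mo n d) → ∀ a ∈ Mo n T,
      Co n d p t a x = ∑ v ∈ Mo n d, g (a + ∑ i, t i) (Fin.cons v t) := by
    intro t ht a ha
    have hw : ∑ j, (a + ∑ i, t i) j = p * d + T := by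
      simp only [Pi.add_apply]
      rw [Finset.sum_add_distrib, Bridge_total t ht, Bridge_mem.1 ha, add_comm]
    have hvw : vw d (a + ∑ i, t i) p t := ⟨ht, by
      intro j; simp only [Pi.add_apply]; omega⟩
    have h1 := (hg _ hw).2 t hvw
    unfold dd at h1
    rw [h1]
    unfold Bridge_c
    rw [if_pos hvw, add_tsub_cancel_right]
  rcases lt_or_ge T d with hTd | hTd
  · -- small degree: `x = 0`
    refine ⟨0, ?_⟩
    rw [map_zero]
    refine Bridge_eq hBrRep (Submodule.zero_mem _) hx ?_
    intro t ht a ha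
    rw [hco t ht a ha, map_zero]
    symm
    refine Finset.sum_eq_zero (fun v hv => ?_)
    have hw : ∑ j, (a + ∑ i, t i) j = p * d + T := by
      simp only [Pi.add_apply]
      rw [Finset.sum_add_distrib, Bridge_total t ht, Bridge_mem.1 ha, add_comm]
    by_contra hne
    have h1 := (hg _ hw).1.2 _ hne
    rw [Bridge_vw_cons _ v t hv ht] at h1
    have h2 : ∀ j ∈ (univ : Finset (Fin n)), v j ≤ a j := by
      intro j _
      have h3 := h1 j
      simp only [Pi.add_apply] at h3
      omega
    have h3 := Finset.sum_le_sum h2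
    rw [Bridge_mem.1 hv, Bridge_mem.1 ha] at h3
    omega
  · obtain ⟨T0, rfl⟩ : ∃ T0, T = T0 + d := ⟨T - d, by omega⟩
    set y : LS n d := (((p + 1).factorial : ℂ)⁻¹) •
      ∑ s ∈ Fintype.piFinset (fun _ : Fin (p + 1) => Mo n d),
        ∑ a ∈ Mo n T0, g (a + ∑ i, s i) s • bas n d (p + 1) s a with hy
    have hypiece : y ∈ piece n d (p + 1) T0 := by
      rw [hy]
      refine Submodule.smul_mem _ _ (Submodule.sum_mem _ (fun s _ => Submodule.sum_mem _
        (fun a ha => Submodule.smul_mem _ _ ((hBrDeg n d (p + 1) T0).1 s a ha))))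
    have hDy : DK n d y ∈ piece n d p (T0 + d) := (hBrDeg n d p T0).2 y hypiece
    -- coefficients of `y`
    have hyc : ∀ s : Fin (p + 1) → (Fin n → ℕ), (∀ i, s i ∈ Mo n d) → ∀ a ∈ Mo n T0,
        Co n d (p + 1) s a y = g (a + ∑ i, s i) s := by
      intro s hs a ha
      have hw : ∑ j, (a + ∑ i, s i) j = p * d + (T0 + d) := by
        simp only [Pi.add_apply]
        rw [Finset.sum_add_distrib, Bridge_total s hs, Bridge_mem.1 ha]
        ring
      have hAlt := (hg _ hw).1.1
      rw [hy, map_smul, map_sum]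
      have h1 : ∀ s' ∈ Fintype.piFinset (fun _ : Fin (p + 1) => Mo n d),
          Co n d (p + 1) s a (∑ a' ∈ Mo n T0, g (a' + ∑ i, s' i) s' • bas n d (p + 1) s' a') =
          ∑ σ : Equiv.Perm (Fin (p + 1)), if s' = s ∘ σ then
            ((Equiv.Perm.sign σ : ℤ) : ℂ) * g (a + ∑ i, s' i) s' else 0 := by
        intro s' hs'
        rw [map_sum]
        have h2 : ∀ a' ∈ Mo n T0, Co n d (p + 1) s a (g (a' + ∑ i, s' i) s' •
            bas n d (p + 1) s' a') = if a = a' then (∑ σ : Equiv.Perm (Fin (p + 1)),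
              if s' = s ∘ σ then ((Equiv.Perm.sign σ : ℤ) : ℂ) * g (a + ∑ i, s' i) s' else 0)
              else 0 := by
          intro a' _
          rw [map_smul, hBrVal n d (p + 1) s s' a a' hs (fun i => Fintype.mem_piFinset.1 hs' i)]
          by_cases haa : a = a'
          · subst haa
            rw [if_pos rfl, if_pos rfl, smul_eq_mul, Finset.mul_sum]
            refine Finset.sum_congr rfl (fun σ _ => ?_)
            split_ifs
            · ring
            · ring
          · rw [if_neg haa, if_neg haa, smul_zero]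
        rw [Finset.sum_congr rfl h2, Finset.sum_ite_eq, if_pos ha]
      rw [Finset.sum_congr rfl h1, Finset.sum_comm]
      have h3 : ∀ σ ∈ (univ : Finset (Equiv.Perm (Fin (p + 1)))),
          (∑ s' ∈ Fintype.piFinset (fun _ : Fin (p + 1) => Mo n d), if s' = s ∘ σ then
            ((Equiv.Perm.sign σ : ℤ) : ℂ) * g (a + ∑ i, s' i) s' else 0) =
          g (a + ∑ i, s i) s := by
        intro σ _
        rw [Finset.sum_ite_eq' (Fintype.piFinset (fun _ : Fin (p + 1) => Mo n d)) (s ∘ σ)
          (fun s' => ((Equiv.Perm.sign σ : ℤ) : ℂ) * g (a + ∑ i, s' i) s')]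
        have h5 : s ∘ σ ∈ Fintype.piFinset (fun _ : Fin (p + 1) => Mo n d) :=
          Fintype.mem_piFinset.2 (fun i => hs (σ i))
        rw [if_pos h5]
        have h4 : ∑ i, (s ∘ σ) i = ∑ i, s i := Equiv.sum_comp σ s
        rw [h4, hAlt σ s, ← mul_assoc, ← Int.cast_mul, ← Units.val_mul, Int.units_mul_self]
        simp
      rw [Finset.sum_congr rfl h3]
      rw [Finset.sum_const, Finset.card_univ, Fintype.card_perm, Fintype.card_fin, smul_eq_mul,
        nsmul_eq_mul, ← mul_assoc, inv_mul_cancel₀, one_mul]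
      exact_mod_cast (p + 1).factorial_ne_zero
    refine ⟨y, ?_⟩
    refine Bridge_eq hBrRep hDy hx ?_
    intro t ht a ha
    rw [hBrD n d p t a y, hco t ht a ha]
    refine Finset.sum_congr rfl (fun v hv => ?_)
    have hw : ∑ j, (a + ∑ i, t i) j = p * d + (T0 + d) := by
      simp only [Pi.add_apply]
      rw [Finset.sum_add_distrib, Bridge_total t ht, Bridge_mem.1 ha, add_comm]
    by_cases hva : ∀ j, v j ≤ a j
    · rw [if_pos hva]
      have hav : a - v ∈ Mo n T0 := by
        rw [Bridge_mem]
        have h1 : ∑ j, (a - v) j + ∑ j, v j = ∑ j, a j := by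
          rw [← Finset.sum_add_distrib]
          refine Finset.sum_congr rfl (fun j _ => ?_)
          have := hva j
          simp only [Pi.sub_apply]
          omega
        rw [Bridge_mem.1 hv, Bridge_mem.1 ha] at h1
        omega
      have hs : ∀ i, (Fin.cons v t : Fin (p + 1) → (Fin n → ℕ)) i ∈ Mo n d := by
        intro i
        refine Fin.cases ?_ (fun i => ?_) i
        · simpa using hv
        · simpa using ht i
      rw [hyc _ hs _ hav, Bridge_sum_cons]
      congr 1
      funext j
      have := hva j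
      simp only [Pi.add_apply, Pi.sub_apply]
      omega
    · rw [if_neg hva]
      symm
      by_contra hne
      have h1 := (hg _ hw).1.2 _ hne
      rw [Bridge_vw_cons _ v t hv ht] at h1
      apply hva
      intro j
      have h3 := h1 j
      simp only [Pi.add_apply] at h3
      omega

end Pool.Agent.Work.MP_1233f5_ag.V

end

section

/-! MP_1233f5_ag, item CardMo: the number of monomials. -/

set_option autoImplicit false

namespace Pool.Agent.Work.MP_1233f5_ag.V

open Finset

theorem pr_CardMo : S_CardMo := by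
  intro n d hn
  have h0 : (Mo n d).card = ((univ : Finset (Fin n)).finsuppAntidiag d).card := by
    apply Finset.card_equiv Finsupp.equivFunOnFinite.symm
    intro f
    simp [Mo]
  have h : (Mo n d).card = (n + d - 1).choose d := by
    rw [h0, Finset.card_finsuppAntidiag_nat_eq_choose, Finset.card_univ, Fintype.card_fin]
  rw [h, show n + d - 1 = d + (n - 1) from by omega, show d + n - 1 = d + (n - 1) from by omega]
  exact Nat.choose_symm_add

end Pool.Agent.Work.MP_1233f5_ag.V

end

section

/-!
# Counting the edges of given type disjoint from a matching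
-/

set_option autoImplicit false

namespace Pool.Agent.Work.MP_1233f5_ag.V

open Finset

theorem Cnt_U {α : Type} [Fintype α] [DecidableEq α] {n p : ℕ} (π : α → Fin n)
    (t : Fin p → Finset α) (ht : ∀ i j, i ≠ j → Disjoint (t i) (t j)) (j : Fin n) :
    #((univ.filter fun x => ∀ i, x ∉ t i).filter fun x => π x = j) =
      fib π j - ∑ i, tyv π (t i) j := by
  have h1 : (univ.filter fun x => ∀ i, x ∉ t i).filter (fun x => π x = j) =
      (univ.filter fun x => π x = j) \ univ.biUnion fun i => (t i).filter fun x => π x = j := by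
    ext x
    simp only [mem_filter, mem_univ, true_and, mem_sdiff, mem_biUnion, not_exists, not_and]
    constructor
    · rintro ⟨h, hj⟩
      exact ⟨hj, fun i hi => absurd hi (h i)⟩
    · rintro ⟨hj, h⟩
      exact ⟨fun i hi => h i hi hj, hj⟩
  have h2 : (univ.biUnion fun i => (t i).filter fun x => π x = j) ⊆
      univ.filter fun x => π x = j := by
    intro x hx
    simp only [mem_biUnion, mem_univ, true_and, mem_filter] at hx ⊢
    obtain ⟨i, -, h⟩ := hx
    exact h
  rw [h1, card_sdiff_of_subset h2, card_biUnion]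
  · rfl
  · intro i _ i' _ hii
    exact (disjoint_filter_filter (ht i i' hii))

theorem pr_Cnt : S_Cnt := by
  intro α _ _ n d p π t v ht hv E hE
  have hv' : ∑ j, v j = d := by
    have := (mem_piAntidiag.1 hv).1
    exact this
  set U : Finset α := univ.filter fun x => ∀ i, x ∉ t i with hU
  have hmem : ∀ e, e ∈ E ↔ e ⊆ U ∧ ∀ j, #(e.filter fun x => π x = j) = v j := by
    intro e
    rw [hE]
    constructor
    · rintro ⟨⟨_, h2⟩, h3⟩
      refine ⟨fun x hx => ?_, fun j => congrFun h3 j⟩
      rw [hU, mem_filter]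
      refine ⟨mem_univ _, fun i hi => ?_⟩
      have := h2 0 i.succ (Fin.succ_ne_zero i).symm
      rw [Fin.cons_zero, Fin.cons_succ] at this
      exact disjoint_left.1 this hx hi
    · rintro ⟨h1, h2⟩
      have hcard : e.card = d := by
        rw [← hv', Finset.card_eq_sum_card_fiberwise (f := π) (t := univ) (fun _ _ => by simp)]
        exact Finset.sum_congr rfl fun j _ => h2 j
      have hdis : ∀ i, Disjoint e (t i) := fun i => disjoint_left.2 fun x hx hi => by
        have := h1 hx
        rw [hU, mem_filter] at this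
        exact this.2 i hi
      refine ⟨⟨fun i => ?_, fun i j hij => ?_⟩, funext h2⟩
      · refine Fin.cases ?_ (fun i => ?_) i
        · rw [Fin.cons_zero]; exact ⟨hcard, subset_univ _⟩
        · rw [Fin.cons_succ]; exact ht.1 i
      · revert hij
        refine Fin.cases ?_ (fun i => ?_) i
        · refine Fin.cases ?_ (fun j => ?_) j
          · intro h; exact absurd rfl h
          · intro _
            rw [Fin.cons_zero, Fin.cons_succ]; exact hdis j
        · refine Fin.cases ?_ (fun j => ?_) j
          · intro _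
            rw [Fin.cons_zero, Fin.cons_succ]; exact (hdis i).symm
          · intro h
            rw [Fin.cons_succ, Fin.cons_succ]
            exact ht.2 i j fun h' => h (by rw [h'])
  have hcount : E.card = #(Fintype.piFinset fun j : Fin n =>
      powersetCard (v j) (U.filter fun x => π x = j)) := by
    refine Finset.card_bij (fun e _ => fun j => e.filter fun x => π x = j) ?_ ?_ ?_
    · intro e he
      rw [Fintype.mem_piFinset]
      intro j
      rw [mem_powersetCard]
      obtain ⟨h1, h2⟩ := (hmem e).1 he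
      exact ⟨filter_subset_filter _ h1, h2 j⟩
    · intro e _ e' _ h
      ext x
      have := congrFun h (π x)
      have h3 : x ∈ e.filter (fun y => π y = π x) ↔ x ∈ e'.filter (fun y => π y = π x) := by
        rw [this]
      simpa using h3
    · intro f hf
      rw [Fintype.mem_piFinset] at hf
      have hf1 : ∀ j, ∀ x ∈ f j, x ∈ U ∧ π x = j := fun j x hx => by
        have := (mem_powersetCard.1 (hf j)).1 hx
        exact mem_filter.1 this
      have hfil : ∀ j, (univ.biUnion f).filter (fun x => π x = j) = f j := by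
        intro j
        ext x
        simp only [mem_filter, mem_biUnion, mem_univ, true_and]
        constructor
        · rintro ⟨⟨i, hi⟩, hj⟩
          have := (hf1 i x hi).2
          rw [← hj, this]; exact hi
        · intro hx
          exact ⟨⟨j, hx⟩, (hf1 j x hx).2⟩
      refine ⟨univ.biUnion f, ?_, funext hfil⟩
      rw [hmem]
      refine ⟨fun x hx => ?_, fun j => ?_⟩
      · obtain ⟨j, _, hj⟩ := mem_biUnion.1 hx
        exact (hf1 j x hj).1
      · rw [hfil]; exact (mem_powersetCard.1 (hf j)).2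
  rw [hcount, Fintype.card_piFinset]
  refine Finset.prod_congr rfl fun j _ => ?_
  rw [card_powersetCard, hU, Cnt_U π t ht.2 j]

end Pool.Agent.Work.MP_1233f5_ag.V

end

section

/-! MP_1233f5_ag, block V, item F: all points of `Q` covered. -/

set_option autoImplicit false

namespace Pool.Agent.Work.MP_1233f5_ag.V

open Finset

section F
variable {K : Type} [Field K] {α : Type} [Fintype α] [DecidableEq α]

/-- the possible edges through `q`. -/
def F_E (d : ℕ) (P Q : Finset α) (q : α) : Finset (Finset α) :=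
  univ.filter (fun e => e.card = d ∧ e ⊆ P ∧ q ∈ e ∧ e ∩ Q = {q})

lemma F_memE {d : ℕ} {P Q : Finset α} {q : α} {e : Finset α} :
    e ∈ F_E d P Q q ↔ e.card = d ∧ e ⊆ P ∧ q ∈ e ∧ e ∩ Q = {q} := by
  simp [F_E]

lemma F_ins {d : ℕ} {P Q : Finset α} {q : α} {e : Finset α} (he : e ∈ F_E d P Q q) {n : ℕ}
    (t : Fin (n + 1) → Finset α) (i : Fin (n + 1)) (hi : t i = e)
    (h : vF d (P \ e) (Q.erase q) n (i.removeNth t)) : vF d P Q (n + 1) t := by
  obtain ⟨hc, hP, hqe, hQ⟩ := F_memE.1 he
  obtain ⟨⟨h1, h2⟩, h3, h4⟩ := h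
  have h1' : ∀ j, (t (i.succAbove j)).card = d ∧ t (i.succAbove j) ⊆ P \ e := h1
  have h2' : ∀ j j', j ≠ j' → Disjoint (t (i.succAbove j)) (t (i.succAbove j')) := h2
  have h3' : ∀ j, (t (i.succAbove j) ∩ Q.erase q).card ≤ 1 := h3
  have h4' : ∀ q' ∈ Q.erase q, ∃ j, q' ∈ t (i.succAbove j) := h4
  have hde : ∀ j, Disjoint e (t (i.succAbove j)) := by
    intro j
    rw [Finset.disjoint_left]
    intro a ha ha'
    exact (Finset.mem_sdiff.1 ((h1' j).2 ha')).2 ha
  refine ⟨⟨fun j => ?_, fun j j' hjj => ?_⟩, fun j => ?_, fun q' hq' => ?_⟩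
  · rcases Fin.eq_self_or_eq_succAbove i j with rfl | ⟨k, rfl⟩
    · rw [hi]
      exact ⟨hc, hP⟩
    · exact ⟨(h1' k).1, (h1' k).2.trans Finset.sdiff_subset⟩
  · rcases Fin.eq_self_or_eq_succAbove i j with rfl | ⟨k, rfl⟩
    · rcases Fin.eq_self_or_eq_succAbove j j' with rfl | ⟨k', rfl⟩
      · exact absurd rfl hjj
      · rw [hi]
        exact hde k'
    · rcases Fin.eq_self_or_eq_succAbove i j' with rfl | ⟨k', rfl⟩
      · rw [hi]
        exact (hde k).symm
      · apply h2'
        rintro rfl
        exact hjj rfl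
  · rcases Fin.eq_self_or_eq_succAbove i j with rfl | ⟨k, rfl⟩
    · rw [hi, hQ, Finset.card_singleton]
    · refine le_trans (Finset.card_le_card ?_) (h3' k)
      intro a ha
      rw [Finset.mem_inter] at ha ⊢
      refine ⟨ha.1, Finset.mem_erase.2 ⟨?_, ha.2⟩⟩
      rintro rfl
      exact (Finset.disjoint_left.1 (hde k)) hqe ha.1
  · by_cases hqq : q' = q
    · exact ⟨i, by rw [hi, hqq]; exact hqe⟩
    · obtain ⟨j, hj⟩ := h4' q' (Finset.mem_erase.2 ⟨hqq, hq'⟩)
      exact ⟨_, hj⟩

lemma F_del {d : ℕ} {P Q : Finset α} {q : α} {e : Finset α} (he : e ∈ F_E d P Q q) {n : ℕ}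
    (t : Fin (n + 1) → Finset α) (i : Fin (n + 1)) (hi : t i = e)
    (h : vF d P Q (n + 1) t) : vF d (P \ e) (Q.erase q) n (i.removeNth t) := by
  obtain ⟨hc, hP, hqe, hQ⟩ := F_memE.1 he
  obtain ⟨⟨h1, h2⟩, h3, h4⟩ := h
  refine ⟨⟨fun j => ?_, fun j j' hjj => ?_⟩, fun j => ?_, fun q' hq' => ?_⟩
  · show (t (i.succAbove j)).card = d ∧ t (i.succAbove j) ⊆ P \ e
    refine ⟨(h1 _).1, fun a ha => Finset.mem_sdiff.2 ⟨(h1 _).2 ha, fun ha' => ?_⟩⟩
    have h5 := h2 i (i.succAbove j) (Fin.succAbove_ne i j).symm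
    rw [hi] at h5
    exact (Finset.disjoint_left.1 h5) ha' ha
  · show Disjoint (t (i.succAbove j)) (t (i.succAbove j'))
    apply h2
    intro h5
    exact hjj (Fin.succAbove_right_injective h5)
  · show (t (i.succAbove j) ∩ Q.erase q).card ≤ 1
    refine le_trans (Finset.card_le_card ?_) (h3 (i.succAbove j))
    exact Finset.inter_subset_inter_left (Finset.erase_subset _ _)
  · show ∃ j, q' ∈ t (i.succAbove j)
    obtain ⟨hqq, hq'⟩ := Finset.mem_erase.1 hq'
    obtain ⟨j, hj⟩ := h4 q' hq'
    rcases Fin.eq_self_or_eq_succAbove i j with rfl | ⟨k, rfl⟩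
    · exfalso
      rw [hi] at hj
      have : q' ∈ e ∩ Q := Finset.mem_inter.2 ⟨hj, hq'⟩
      rw [hQ, Finset.mem_singleton] at this
      exact hqq this
    · exact ⟨k, hj⟩

lemma F_altcons {B : Type} {n : ℕ} {c : (Fin (n + 1) → B) → K} (h : Alt (n + 1) c) (e : B) :
    Alt n (fun t => c (Fin.cons e t)) := by
  intro σ t
  have h1 := h (Equiv.Perm.decomposeFin.symm (0, σ)) (Fin.cons e t)
  have h2 : (Fin.cons e t : Fin (n + 1) → B) ∘ (Equiv.Perm.decomposeFin.symm (0, σ)) =
      Fin.cons e (t ∘ σ) := by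
    funext k
    refine Fin.cases ?_ (fun k => ?_) k
    · simp
    · simp
  rw [h2] at h1
  show c (Fin.cons e (t ∘ σ)) = _ * c (Fin.cons e t)
  rw [h1]
  simp

lemma F_swap {B : Type} {n : ℕ} {c : (Fin (n + 2) → B) → K} (h : Alt (n + 2) c) (b b' : B)
    (t : Fin n → B) :
    c (Fin.cons b (Fin.cons b' t : Fin (n + 1) → B)) =
      - c (Fin.cons b' (Fin.cons b t : Fin (n + 1) → B)) := by
  have h1 := h (Equiv.swap 0 1) (Fin.cons b' (Fin.cons b t) : Fin (n + 2) → B)
  have h2 : (Fin.cons b' (Fin.cons b t) : Fin (n + 2) → B) ∘ (Equiv.swap (0 : Fin (n + 2)) 1) =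
      Fin.cons b (Fin.cons b' t) := by
    funext k
    refine Fin.cases ?_ (fun k => ?_) k
    · simp only [Function.comp_apply, Equiv.swap_apply_left, Fin.cons_zero]
      rfl
    · refine Fin.cases ?_ (fun k => ?_) k
      · simp only [Function.comp_apply, Fin.succ_zero_eq_one, Equiv.swap_apply_right,
          Fin.cons_zero]
        rfl
      · have e1 : (k.succ.succ : Fin (n + 2)) ≠ 0 := Fin.succ_ne_zero _
        have e2 : (k.succ.succ : Fin (n + 2)) ≠ 1 := by
          rw [← Fin.succ_zero_eq_one]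
          intro h
          exact Fin.succ_ne_zero k (Fin.succ_injective _ h)
        simp only [Function.comp_apply, Equiv.swap_apply_of_ne_of_ne e1 e2, Fin.cons_succ]
  rw [h2, Equiv.Perm.sign_swap (by simp)] at h1
  rw [h1]
  push_cast
  ring

lemma F_cyc {d : ℕ} {P Q : Finset α} {q : α} {e : Finset α} (he : e ∈ F_E d P Q q) (n : ℕ)
    (c : (Fin (n + 1) → Finset α) → K) (hA : Alt (n + 1) c)
    (hc : ∀ t : Fin n → Finset α, vF d P Q n t → dd univ c t = 0) :
    rcyc univ (vF d (P \ e) (Q.erase q)) n (fun t => c (Fin.cons e t)) := by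
  cases n with
  | zero => trivial
  | succ n =>
    intro t ht
    have h1 : vF d P Q (n + 1) (Fin.cons e t) := by
      refine F_ins he (Fin.cons e t) 0 rfl ?_
      rw [cons_removeNth_zero]
      exact ht
    have h2 := hc _ h1
    simp only [dd] at h2 ⊢
    have h3 : ∑ b : Finset α, c (Fin.cons e (Fin.cons b t : Fin (n + 1) → Finset α)) =
        - ∑ b : Finset α, c (Fin.cons b (Fin.cons e t : Fin (n + 1) → Finset α)) := by
      rw [← Finset.sum_neg_distrib]
      refine Finset.sum_congr rfl (fun b _ => ?_)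
      exact F_swap hA e b t
    rw [h3, h2, neg_zero]

end F

theorem pr_F : S_F := by
  intro K _ _ α _ _ d m
  induction m with
  | zero =>
    intro p s P Q hd hQP hQ hP h
    have hQ0 : Q = ∅ := Finset.card_eq_zero.1 hQ
    subst hQ0
    have h1 : vF d P ∅ = vm d P := by
      funext n t
      simp [vF]
    rw [h1]
    exact h P (by simpa using hP)
  | succ k ih =>
    intro p s P Q hd hQP hQ hP h
    obtain ⟨q, hq⟩ : Q.Nonempty := by
      rw [← Finset.card_pos]
      omega
    have key : ∀ n, n = p + k → rVan K univ (vF d P Q) (n + 1) := by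
      intro n hn c hc hcyc
      obtain ⟨hA, hS⟩ := hc
      have hcyc' : ∀ t : Fin n → Finset α, vF d P Q n t → dd univ c t = 0 := hcyc
      have hex : ∀ e, ∃ g : (Fin (n + 1) → Finset α) → K, e ∈ F_E d P Q q →
          (rCh (vF d (P \ e) (Q.erase q)) (n + 1) g ∧
            ∀ t, vF d (P \ e) (Q.erase q) n t → dd univ g t = c (Fin.cons e t)) := by
        intro e
        by_cases he : e ∈ F_E d P Q q
        · obtain ⟨hc, heP, hqe, heQ⟩ := F_memE.1 he
          have h1 : Q.erase q ⊆ P \ e := by
            intro a ha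
            obtain ⟨ha1, ha2⟩ := Finset.mem_erase.1 ha
            refine Finset.mem_sdiff.2 ⟨hQP ha2, fun ha3 => ?_⟩
            have : a ∈ e ∩ Q := Finset.mem_inter.2 ⟨ha3, ha2⟩
            rw [heQ, Finset.mem_singleton] at this
            exact ha1 this
          have h2 : (Q.erase q).card = k := by
            rw [Finset.card_erase_of_mem hq, hQ]
            rfl
          have h3 : (P \ e).card = k * d + s := by
            rw [Finset.card_sdiff_of_subset heP, hP, hc, Nat.succ_mul]
            omega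
          have h4 := ih p s (P \ e) (Q.erase q) hd h1 h2 h3 h
          rw [← hn] at h4
          obtain ⟨g, hg1, hg2⟩ := h4 (fun t => c (Fin.cons e t)) ⟨F_altcons hA e, by
            intro t ht
            have h5 := F_del he (Fin.cons e t) 0 rfl (hS _ ht)
            rw [cons_removeNth_zero] at h5
            exact h5⟩ (F_cyc he n c hA hcyc')
          exact ⟨g, fun _ => ⟨hg1, hg2⟩⟩
        · exact ⟨0, fun h' => absurd h' he⟩
      choose g hg using hex
      refine ⟨fun t => (-1) * ∑ e ∈ F_E d P Q q, wdg e (g e) t, ⟨?_, ?_⟩, ?_⟩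
      · apply Alt.smul
        apply Alt.sum
        intro e he
        exact Alt.wdg e (hg e he).1.1
      · intro t ht
        have h1 : ∑ e ∈ F_E d P Q q, wdg e (g e) t ≠ 0 := by
          intro h0
          apply ht
          show (-1) * ∑ e ∈ F_E d P Q q, wdg e (g e) t = 0
          rw [h0, mul_zero]
        obtain ⟨e, he, h2⟩ := Finset.exists_ne_zero_of_sum_ne_zero h1
        simp only [wdg] at h2
        obtain ⟨i, -, h3⟩ := Finset.exists_ne_zero_of_sum_ne_zero h2
        by_cases hi : t i = e
        · rw [if_pos hi] at h3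
          have h4 : g e (i.removeNth t) ≠ 0 := by
            intro h0
            rw [h0, mul_zero] at h3
            exact h3 rfl
          exact F_ins he t i hi ((hg e he).1.2 _ h4)
        · rw [if_neg hi] at h3
          exact absurd rfl h3
      · intro t ht
        -- the edge through `q`
        obtain ⟨i0, hi0⟩ := ht.2.2 q hq
        have hE0 : t i0 ∈ F_E d P Q q := by
          refine F_memE.2 ⟨(ht.1.1 i0).1, (ht.1.1 i0).2, hi0, ?_⟩
          have h1 : q ∈ t i0 ∩ Q := Finset.mem_inter.2 ⟨hi0, hq⟩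
          have h2 := ht.2.1 i0
          symm
          apply Finset.eq_of_subset_of_card_le (Finset.singleton_subset_iff.2 h1)
          rw [Finset.card_singleton]
          exact h2
        have hEu : ∀ i, t i ∈ F_E d P Q q ↔ i = i0 := by
          intro i
          constructor
          · intro h1
            by_contra h2
            exact (Finset.disjoint_left.1 (ht.1.2 i i0 h2)) (F_memE.1 h1).2.2.1 hi0
          · rintro rfl
            exact hE0
        have h1 : ∀ e ∈ F_E d P Q q, dd univ (wdg e (g e)) t =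
            - ∑ i, if t i = e then c t else 0 := by
          intro e he
          have h2 := dd_wdg univ (Finset.mem_univ e) (g e) t
          have h3 : g e t = 0 := by
            by_contra h4
            have h5 := (hg e he).1.2 t h4
            have h6 := (h5.1.1 i0).2 hi0
            exact (Finset.mem_sdiff.1 h6).2 (F_memE.1 he).2.2.1
          have h4 : wdg e (dd univ (g e)) t = ∑ i, if t i = e then c t else 0 := by
            simp only [wdg]
            refine Finset.sum_congr rfl (fun i _ => ?_)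
            by_cases hi : t i = e
            · rw [if_pos hi, if_pos hi, (hg e he).2 _ (F_del he t i hi ht), ← hi,
                Alt.cons_removeNth hA t i, ← mul_assoc, ← pow_add, ← two_mul, pow_mul,
                neg_one_sq, one_pow, one_mul]
            · rw [if_neg hi, if_neg hi]
          rw [h3, h4] at h2
          linear_combination h2
        have h2 : dd univ (fun t => (-1) * ∑ e ∈ F_E d P Q q, wdg e (g e) t) t =
            - ∑ e ∈ F_E d P Q q, dd univ (wdg e (g e)) t := by
          simp only [dd]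
          rw [Finset.sum_comm, ← Finset.sum_neg_distrib]
          refine Finset.sum_congr rfl (fun b _ => ?_)
          ring
        rw [h2, Finset.sum_congr rfl h1, ← Finset.sum_neg_distrib]
        simp only [neg_neg]
        rw [Finset.sum_comm]
        have h3 : ∀ i : Fin (n + 1), (∑ e ∈ F_E d P Q q, if t i = e then c t else 0) =
            if i = i0 then c t else 0 := by
          intro i
          rw [Finset.sum_ite_eq (F_E d P Q q) (t i) (fun _ => c t)]
          simp only [hEu]
        rw [Finset.sum_congr rfl (fun i _ => h3 i), Finset.sum_ite_eq' univ i0 (fun _ => c t)]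
        simp
    exact key (p + k) rfl

end Pool.Agent.Work.MP_1233f5_ag.V

end

section

/-! MP_1233f5_ag, base block V, item G: at most one point of `Q` uncovered. -/

set_option autoImplicit false

namespace Pool.Agent.Work.MP_1233f5_ag.V

open Finset

section
variable {α : Type} [DecidableEq α]

theorem G_vF_vG {d : ℕ} {P Q : Finset α} {n : ℕ} {t : Fin n → Finset α} (h : vF d P Q n t) :
    vG d P Q n t := by
  refine ⟨h.1, h.2.1, fun q hq q' _ hu _ => ?_⟩
  obtain ⟨i, hi⟩ := h.2.2 q hq
  exact absurd hi (hu i)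

theorem G_cons {d : ℕ} {P Q : Finset α} {n : ℕ} {b : Finset α} {t : Fin n → Finset α}
    (h : vF d P Q (n + 1) (Fin.cons b t)) : vG d P Q n t := by
  refine ⟨⟨fun i => ?_, fun i j hij => ?_⟩, fun i => ?_, fun q hq q' hq' hu hu' => ?_⟩
  · simpa using h.1.1 i.succ
  · simpa using h.1.2 i.succ j.succ (fun e => hij (Fin.succ_injective _ e))
  · simpa using h.2.1 i.succ
  · have hb : ∀ x ∈ Q, (∀ i, x ∉ t i) → x ∈ b := by
      intro x hx hux
      obtain ⟨i, hi⟩ := h.2.2 x hx
      revert hi
      refine Fin.cases ?_ (fun i => ?_) i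
      · intro hi; simpa using hi
      · intro hi
        exact absurd (by simpa using hi) (hux i)
    have hc : (b ∩ Q).card ≤ 1 := by simpa using h.2.1 0
    exact Finset.card_le_one.mp hc q (mem_inter.mpr ⟨hb q hq hu, hq⟩) q'
      (mem_inter.mpr ⟨hb q' hq' hu', hq'⟩)

theorem G_er {d : ℕ} {P Q : Finset α} {n : ℕ} {q : α} {t : Fin n → Finset α}
    (h : vF d (P.erase q) (Q.erase q) n t) : vG d P Q n t ∧ ∀ i, q ∉ t i := by
  have hq : ∀ i, q ∉ t i := fun i hi => by
    have := (h.1.1 i).2 hi
    simp at this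
  refine ⟨⟨⟨fun i => ⟨(h.1.1 i).1, (h.1.1 i).2.trans (erase_subset _ _)⟩, h.1.2⟩, fun i => ?_,
    fun x hx y hy hux huy => ?_⟩, hq⟩
  · have e : t i ∩ Q = t i ∩ Q.erase q := by
      ext x
      simp only [mem_inter, mem_erase]
      constructor
      · rintro ⟨h1, h2⟩
        exact ⟨h1, fun e => hq i (e ▸ h1), h2⟩
      · rintro ⟨h1, _, h2⟩
        exact ⟨h1, h2⟩
    rw [e]; exact h.2.1 i
  · have key : ∀ z ∈ Q, (∀ i, z ∉ t i) → z = q := by
      intro z hz huz
      by_contra hne
      obtain ⟨i, hi⟩ := h.2.2 z (mem_erase.mpr ⟨hne, hz⟩)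
      exact huz i hi
    rw [key x hx hux, key y hy huy]

theorem G_toer {d : ℕ} {P Q : Finset α} {n : ℕ} {q : α} {t : Fin n → Finset α}
    (h : vG d P Q n t) (hq : q ∈ Q) (hu : ∀ i, q ∉ t i) :
    vF d (P.erase q) (Q.erase q) n t := by
  refine ⟨⟨fun i => ⟨(h.1.1 i).1, fun x hx => mem_erase.mpr ⟨fun e => hu i (e ▸ hx),
    (h.1.1 i).2 hx⟩⟩, h.1.2⟩, fun i => ?_, fun x hx => ?_⟩
  · exact (card_le_card (inter_subset_inter_left (erase_subset _ _))).trans (h.2.1 i)
  · by_contra hne
    push Not at hne
    exact (mem_erase.mp hx).1 (h.2.2 x (mem_erase.mp hx).2 q hq hne hu)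

theorem G_perm {d : ℕ} {P Q : Finset α} {n : ℕ} (σ : Equiv.Perm (Fin n)) {t : Fin n → Finset α}
    (h : vF d P Q n t) : vF d P Q n (t ∘ σ) := by
  refine ⟨⟨fun i => h.1.1 (σ i), fun i j hij => h.1.2 _ _ (fun e => hij (σ.injective e))⟩,
    fun i => h.2.1 (σ i), fun q hq => ?_⟩
  obtain ⟨i, hi⟩ := h.2.2 q hq
  exact ⟨σ.symm i, by simpa using hi⟩

theorem G_perm_iff {d : ℕ} {P Q : Finset α} {n : ℕ} (σ : Equiv.Perm (Fin n))
    (t : Fin n → Finset α) : vF d P Q n (t ∘ σ) ↔ vF d P Q n t := by
  refine ⟨fun h => ?_, G_perm σ⟩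
  have := G_perm σ.symm h
  have e : (t ∘ σ) ∘ σ.symm = t := by funext i; simp
  rwa [e] at this

theorem G_card {d : ℕ} {P Q : Finset α} {n : ℕ} {t : Fin n → Finset α} (h : vF d P Q n t) :
    Q.card ≤ n ∧ n * d ≤ P.card := by
  constructor
  · have h1 : Q ⊆ (univ : Finset (Fin n)).biUnion (fun i => t i ∩ Q) := by
      intro q hq
      obtain ⟨i, hi⟩ := h.2.2 q hq
      exact mem_biUnion.mpr ⟨i, mem_univ _, mem_inter.mpr ⟨hi, hq⟩⟩
    have h2 := Finset.card_biUnion_le_card_mul (univ : Finset (Fin n)) (fun i => t i ∩ Q) 1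
      (fun i _ => h.2.1 i)
    have h3 := (card_le_card h1).trans h2
    simpa using h3
  · have h1 : (univ : Finset (Fin n)).biUnion t ⊆ P :=
      Finset.biUnion_subset.mpr (fun i _ => (h.1.1 i).2)
    have h2 : ((univ : Finset (Fin n)).biUnion t).card = ∑ i, (t i).card :=
      Finset.card_biUnion (fun i _ j _ hij => h.1.2 i j hij)
    have h3 : ∑ i, (t i).card = n * d := by
      rw [Finset.sum_congr rfl (fun i _ => (h.1.1 i).1)]
      simp
    have h4 := card_le_card h1
    omega

end

theorem G_core (K : Type) [Field K] [CharZero K] (α : Type) [Fintype α] [DecidableEq α]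
    (d N : ℕ) (P Q : Finset α) (hA : rVan K univ (vF d P Q) N)
    (hB : ∀ q ∈ Q, rVan K univ (vF d (P.erase q) (Q.erase q)) N) :
    rVan K univ (vG d P Q) N := by
  classical
  intro c hc hcyc
  -- step (a)
  have hcF : rCh (vF d P Q) N (fun t => if vF d P Q N t then c t else 0) := by
    refine ⟨fun σ t => ?_, fun t ht => ?_⟩
    · by_cases h : vF d P Q N t
      · have h' := G_perm σ h
        simp only [if_pos h, if_pos h']
        exact hc.1 σ t
      · have h' : ¬ vF d P Q N (t ∘ σ) := fun h' => h ((G_perm_iff σ t).mp h')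
        simp only [if_neg h, if_neg h', mul_zero]
    · by_contra h
      exact ht (by simp only [if_neg h])
  have hcF' : rcyc univ (vF d P Q) N (fun t => if vF d P Q N t then c t else 0) := by
    cases N with
    | zero => trivial
    | succ k =>
      intro t ht
      have h0 := hcyc t (G_vF_vG ht)
      refine Eq.trans ?_ h0
      refine Finset.sum_congr rfl (fun b _ => ?_)
      by_cases h : vF d P Q (k + 1) (Fin.cons b t)
      · simp only [if_pos h]
      · simp only [if_neg h]
        by_contra hne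
        have hG := hc.2 (Fin.cons b t) (fun e => hne e.symm)
        refine h ⟨hG.1, hG.2.1, fun q hq => ?_⟩
        obtain ⟨i, hi⟩ := ht.2.2 q hq
        exact ⟨i.succ, by simpa using hi⟩
  obtain ⟨gF, hgF, hgF'⟩ := hA _ hcF hcF'
  have hgF2 : ∀ t, vF d P Q N t → dd univ gF t = c t := by
    intro t ht
    rw [hgF' t ht]
    simp only [if_pos ht]
  -- step (b)
  set c' : (Fin N → Finset α) → K := fun t => c t - dd univ gF t with hc'def
  have hc'1 : Alt N c' := hc.1.sub (Alt.dd univ hgF.1)
  have hdF : ∀ t, dd univ gF t ≠ 0 → vG d P Q N t := by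
    intro t ht
    obtain ⟨b, _, hb⟩ := Finset.exists_ne_zero_of_sum_ne_zero ht
    exact G_cons (hgF.2 _ hb)
  have hc'2 : ∀ t, c' t ≠ 0 → vG d P Q N t := by
    intro t ht
    by_contra h
    have e1 : c t = 0 := by
      by_contra h1
      exact h (hc.2 t h1)
    have e2 : dd univ gF t = 0 := by
      by_contra h1
      exact h (hdF t h1)
    exact ht (by simp only [hc'def, e1, e2, sub_zero])
  have hc'3 : ∀ t, vF d P Q N t → c' t = 0 := by
    intro t ht
    simp only [hc'def, hgF2 t ht, sub_self]
  have hc'4 : rcyc univ (vG d P Q) N c' := by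
    cases N with
    | zero => trivial
    | succ k =>
      intro t ht
      have e : dd univ c' t = dd univ c t - dd univ (dd univ gF) t := by
        simp only [dd, hc'def, Finset.sum_sub_distrib]
      rw [e, hcyc t ht, dd_dd univ hgF.1 t, sub_zero]
  -- step (c)
  have hq : ∀ q ∈ Q, ∃ g : (Fin (N + 1) → Finset α) → K,
      rCh (vF d (P.erase q) (Q.erase q)) (N + 1) g ∧
      ∀ t, vF d (P.erase q) (Q.erase q) N t → dd univ g t = c' t := by
    intro q hq
    have hch : rCh (vF d (P.erase q) (Q.erase q)) N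
        (fun t => if (∀ i, q ∉ t i) then c' t else 0) := by
      refine ⟨fun σ t => ?_, fun t ht => ?_⟩
      · by_cases h : ∀ i, q ∉ t i
        · have h' : ∀ i, q ∉ (t ∘ σ) i := fun i => h (σ i)
          simp only [if_pos h, if_pos h']
          exact hc'1 σ t
        · have h' : ¬ ∀ i, q ∉ (t ∘ σ) i := fun h' => h (fun i => by
            have := h' (σ.symm i)
            simpa using this)
          simp only [if_neg h, if_neg h', mul_zero]
      · by_cases h : ∀ i, q ∉ t i
        · simp only [if_pos h] at ht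
          exact G_toer (hc'2 t ht) hq h
        · simp only [if_neg h] at ht
          exact absurd rfl ht
    have hcy : rcyc univ (vF d (P.erase q) (Q.erase q)) N
        (fun t => if (∀ i, q ∉ t i) then c' t else 0) := by
      cases N with
      | zero => trivial
      | succ k =>
        intro t ht
        obtain ⟨hG, hu⟩ := G_er ht
        have h0 := hc'4 t hG
        refine Eq.trans ?_ h0
        refine Finset.sum_congr rfl (fun b _ => ?_)
        by_cases h : ∀ i, q ∉ (Fin.cons b t : Fin (k + 1) → Finset α) i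
        · simp only [if_pos h]
        · simp only [if_neg h]
          by_contra hne
          have hne' : c' (Fin.cons b t) ≠ 0 := fun e => hne e.symm
          have hG' := hc'2 _ hne'
          have hqb : q ∈ b := by
            by_contra hqb
            refine h (fun i => ?_)
            refine Fin.cases ?_ (fun i => ?_) i
            · simpa using hqb
            · simpa using hu i
          refine hne' (hc'3 _ ⟨hG'.1, hG'.2.1, fun x hx => ?_⟩)
          by_cases hxq : x = q
          · exact ⟨0, by simpa [hxq] using hqb⟩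
          · obtain ⟨i, hi⟩ := ht.2.2 x (mem_erase.mpr ⟨hxq, hx⟩)
            exact ⟨i.succ, by simpa using hi⟩
    obtain ⟨g, hg, hg'⟩ := hB q hq _ hch hcy
    refine ⟨g, hg, fun t ht => ?_⟩
    rw [hg' t ht]
    have := (G_er ht).2
    simp only [if_pos this]
  -- step (d)
  choose! gq hgq hgq' using hq
  refine ⟨fun t => gF t + ∑ q ∈ Q, gq q t, ⟨?_, ?_⟩, ?_⟩
  · exact hgF.1.add (Alt.sum Q gq (fun q hq => (hgq q hq).1))
  · intro t ht
    by_contra h
    have e1 : gF t = 0 := by
      by_contra h1
      exact h (G_vF_vG (hgF.2 t h1))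
    have e2 : ∀ q ∈ Q, gq q t = 0 := by
      intro q hq
      by_contra h1
      exact h (G_er ((hgq q hq).2 t h1)).1
    apply ht
    show gF t + ∑ q ∈ Q, gq q t = 0
    rw [e1, Finset.sum_eq_zero e2, add_zero]
  · intro t ht
    have e : dd univ (fun t => gF t + ∑ q ∈ Q, gq q t) t =
        dd univ gF t + ∑ q ∈ Q, dd univ (gq q) t := by
      simp only [dd, Finset.sum_add_distrib]
      congr 1
      rw [Finset.sum_comm]
    rw [e]
    have hcov : ∀ q ∈ Q, (∃ i, q ∈ t i) → dd univ (gq q) t = 0 := by
      intro q hq hex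
      obtain ⟨i, hi⟩ := hex
      by_contra h1
      obtain ⟨b, _, hb⟩ := Finset.exists_ne_zero_of_sum_ne_zero h1
      have := (G_er ((hgq q hq).2 _ hb)).2 i.succ
      simp only [Fin.cons_succ] at this
      exact this hi
    by_cases hF : vF d P Q N t
    · rw [hgF2 t hF, Finset.sum_eq_zero (fun q hq => hcov q hq (hF.2.2 q hq)), add_zero]
    · have : ∃ q0 ∈ Q, ∀ i, q0 ∉ t i := by
        by_contra hne
        push Not at hne
        exact hF ⟨ht.1, ht.2.1, hne⟩
      obtain ⟨q0, hq0, hu0⟩ := this
      rw [Finset.sum_eq_single q0]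
      · rw [hgq' q0 hq0 t (G_toer ht hq0 hu0)]
        simp only [hc'def]
        ring
      · intro q hq hne
        apply hcov q hq
        by_contra hu
        push Not at hu
        exact hne (ht.2.2 q hq q0 hq0 hu hu0)
      · intro h
        exact absurd hq0 h

theorem pr_G (hF : S_F) : S_G := by
  intro K _ _ α _ _ d m p s P Q hd hQP hQ hP h1 h2
  apply G_core
  · -- hA
    by_cases hp : ∃ p', p = p' + 1 ∧ (m + 1) * d ≤ P.card
    · obtain ⟨p', hp', hle⟩ := hp
      obtain ⟨s', hs'⟩ := Nat.exists_eq_add_of_le hle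
      have h3 := hF K α d (m + 1) p' s' P Q hd hQP hQ hs' (h2 p' s' hp' hs')
      have e : p' + (m + 1) = p + m := by omega
      rwa [e] at h3
    · intro c hc _
      refine ⟨fun _ => 0, ⟨Alt.zero, fun t ht => absurd rfl ht⟩, fun t ht => ?_⟩
      exfalso
      obtain ⟨h3, h4⟩ := G_card ht
      rw [hQ] at h3
      refine hp ⟨p - 1, by omega, ?_⟩
      exact (Nat.mul_le_mul_right d h3).trans h4
  · intro q hq
    apply hF K α d m p s (P.erase q) (Q.erase q) hd
    · exact Finset.erase_subset_erase q hQP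
    · rw [Finset.card_erase_of_mem hq, hQ]; rfl
    · rw [Finset.card_erase_of_mem (hQP hq), hP]; omega
    · exact h1

end Pool.Agent.Work.MP_1233f5_ag.V

end

section

/-! MP_1233f5_ag, base block V, item LemD: exactness in `n` variables (by helper9). -/

set_option autoImplicit false

namespace Pool.Agent.Work.MP_1233f5_ag.V

open Finset

namespace LemD

/-- monomials which are not pure powers. -/
def M1 (n d : ℕ) : Finset (Fin n → ℕ) := (Mo n d).filter (fun v => ∀ i, v ≠ Pi.single i d)

theorem mem_Mo {n d : ℕ} (v : Fin n → ℕ) : v ∈ Mo n d ↔ ∑ a, v a = d := by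
  unfold Mo
  rw [Finset.mem_piAntidiag]
  simp

theorem card_M1 {n d : ℕ} (hd : 1 ≤ d) : (M1 n d).card + n = (Mo n d).card := by
  classical
  have h1 : (Mo n d).filter (fun v => ¬ ∀ i, v ≠ Pi.single i d) =
      (univ : Finset (Fin n)).image (fun i => (Pi.single i d : Fin n → ℕ)) := by
    ext v
    simp only [Finset.mem_filter, mem_Mo, Finset.mem_image, Finset.mem_univ, true_and]
    constructor
    · rintro ⟨_, h⟩
      push Not at h
      obtain ⟨i, hi⟩ := h
      exact ⟨i, hi.symm⟩
    · rintro ⟨i, rfl⟩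
      refine ⟨?_, ?_⟩
      · rw [Finset.sum_pi_single']; simp
      · intro h; exact h i rfl
  have h2 : ((univ : Finset (Fin n)).image (fun i => (Pi.single i d : Fin n → ℕ))).card = n := by
    rw [Finset.card_image_of_injective]
    · simp
    · intro i j hij
      by_contra hne
      have h3 := congrFun hij i
      simp only [Pi.single_eq_same] at h3
      rw [Pi.single_eq_of_ne hne] at h3
      omega
  have h4 := Finset.card_filter_add_card_filter_not (s := Mo n d) (fun v => ∀ i, v ≠ Pi.single i d)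
  rw [h1, h2] at h4
  exact h4

theorem sum_M1 {n d : ℕ} : ∑ a, ∑ v ∈ M1 n d, v a = (M1 n d).card * d := by
  rw [Finset.sum_comm]
  have h : ∀ v ∈ M1 n d, ∑ a, v a = d := fun v hv => (mem_Mo v).1 (Finset.mem_filter.1 hv).1
  rw [Finset.sum_congr rfl h]
  simp

end LemD

theorem pr_LemD (hCardMo : S_CardMo) (hRS : S_RS) (hLift : S_Lift) (hDual : S_Dual)
    (hGreen : S_Green) : S_LemD := by
  intro K _ _ n d p T T' w hn hd hw hTT hle
  have hd1 : 1 ≤ d := by omega
  have hc1 := hCardMo n d hn
  have hc2 := hCardMo n T' hn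
  have hc3 := LemD.card_M1 (n := n) hd1
  obtain ⟨j, hj⟩ : ∃ j, p + j + n = (Mo n d).card := ⟨(Mo n d).card - n - p, by omega⟩
  have hj2 : (Mo n T').card ≤ j := by omega
  have hM1 : (LemD.M1 n d).card = p + j := by omega
  -- descending
  have desc : ∀ s : Finset (Fin n), rVan K (Mo n d) (vJ d w s) p →
      rVan K (Mo n d) (vJ d w ∅) p := by
    intro s
    induction s using Finset.induction_on with
    | empty => exact id
    | insert i s hi ih =>
      intro h
      exact ih (hRS K n d p w s i hd1 hi h)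
  have asc : ∀ (w' : Fin n → ℕ) (s : Finset (Fin n)), rNo K (Mo n d) (vJ d w' ∅) j →
      rNo K (Mo n d) (vJ d w' s) j := by
    intro w' s h
    induction s using Finset.induction_on with
    | empty => exact h
    | insert i s hi ih =>
      exact hLift K n d j w' s i hd1 hi ih
  have hempty : ∀ w' : Fin n → ℕ, (vJ d w' ∅ : Pred (Fin n → ℕ)) = vw d w' := by
    intro w'
    funext q t
    exact propext (by simp [vJ])
  rw [← hempty]
  apply desc univ
  by_cases hA : ∀ a, w a ≤ (∑ v ∈ LemD.M1 n d, v a) + (d - 1)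
  · -- case A
    obtain ⟨w', hw'⟩ : ∃ w' : Fin n → ℕ, ∀ a, w a + w' a = (∑ v ∈ LemD.M1 n d, v a) + (d - 1) :=
      ⟨fun a => (∑ v ∈ LemD.M1 n d, v a) + (d - 1) - w a, fun a => by
        have := hA a
        show w a + ((∑ v ∈ LemD.M1 n d, v a) + (d - 1) - w a) = _
        omega⟩
    have hsum : ∑ a, w' a = j * d + T' := by
      have h1 : ∑ a, (w a + w' a) = ∑ a, ((∑ v ∈ LemD.M1 n d, v a) + (d - 1)) :=
        Finset.sum_congr rfl (fun a _ => hw' a)
      rw [Finset.sum_add_distrib, Finset.sum_add_distrib, LemD.sum_M1, hM1, hw] at h1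
      simp only [Finset.sum_const, Finset.card_univ, Fintype.card_fin, smul_eq_mul] at h1
      rw [← hTT] at h1
      have h2 : (p + j) * d = p * d + j * d := by ring
      omega
    have h1 : rNo K (Mo n d) (vw d w') j := hGreen K n d j T' w' hn hsum hj2
    rw [← hempty] at h1
    exact hDual K n d p j w w' hn hd1 hj hw' (asc w' univ h1)
  · -- case B
    push Not at hA
    obtain ⟨a, ha⟩ := hA
    intro c hc _
    have hzero : ∀ t, c t = 0 := by
      intro t
      by_contra hne
      have hG := hc.2 t hne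
      have hinj : Function.Injective t := by
        intro i i' hii
        by_contra hne'
        exact hne (Alt.eq_zero hc.1 hne' hii)
      have hmem : ∀ i, t i ∈ LemD.M1 n d := by
        intro i
        unfold LemD.M1
        rw [Finset.mem_filter]
        exact ⟨hG.1.1 i, fun b => (hG.2 b (Finset.mem_univ b)).1 i⟩
      have hlt : w a < d + ∑ i, t i a := by
        have := (hG.2 a (Finset.mem_univ a)).2
        simpa [Finset.sum_apply] using this
      have hle2 : ∑ i, t i a ≤ ∑ v ∈ LemD.M1 n d, v a := by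
        classical
        rw [← Finset.sum_image (s := univ) (g := t) (f := fun v : Fin n → ℕ => v a)
          (fun i _ i' _ h => hinj h)]
        apply Finset.sum_le_sum_of_subset
        intro v hv
        rw [Finset.mem_image] at hv
        obtain ⟨i, _, rfl⟩ := hv
        exact hmem i
      omega
    refine ⟨fun _ => 0, ⟨Alt.zero, fun t h => absurd rfl h⟩, ?_⟩
    intro t _
    rw [hzero t]
    simp [dd]

end Pool.Agent.Work.MP_1233f5_ag.V

end

section

set_option autoImplicit false

namespace Pool.Agent.Work.MP_1233f5_ag.V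

open Finset

theorem Lift_perm {n : ℕ} (d : ℕ) (w : Fin n → ℕ) (J : Finset (Fin n)) {p : ℕ}
    (t : Fin p → (Fin n → ℕ)) (σ : Equiv.Perm (Fin p)) : vJ d w J p (t ∘ σ) ↔ vJ d w J p t := by
  have hs : ∑ i, (t ∘ σ) i = ∑ i, t i := Equiv.sum_comp σ t
  have hs' : ∀ j, ∑ i, (t ∘ σ) i j = ∑ i, t i j := fun j => Equiv.sum_comp σ (fun i => t i j)
  unfold vJ vw
  rw [hs]
  simp only [hs']
  have h1 : (∀ i, (t ∘ σ) i ∈ Mo n d) ↔ ∀ i, t i ∈ Mo n d :=
    ⟨fun h i => by simpa using h (σ.symm i), fun h i => h (σ i)⟩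
  have h2 : ∀ j, (∀ i, (t ∘ σ) i ≠ Pi.single j d) ↔ ∀ i, t i ≠ Pi.single j d := fun j =>
    ⟨fun h i => by simpa using h (σ.symm i), fun h i => h (σ i)⟩
  rw [h1]
  simp only [h2]

theorem Lift_single_mem {n : ℕ} (d : ℕ) (i : Fin n) : (Pi.single i d : Fin n → ℕ) ∈ Mo n d := by
  unfold Mo
  rw [mem_piAntidiag]
  refine ⟨?_, fun j _ => mem_univ j⟩
  simp

theorem pr_Lift : S_Lift := by
  classical
  intro K _ _ n d p w J i hd hiJ hno
  have hsub : ∀ (q : ℕ) (t : Fin q → (Fin n → ℕ)), vJ d w (insert i J) q t → vJ d w J q t :=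
    fun q t h => ⟨h.1, fun j hj => h.2 j (mem_insert_of_mem hj)⟩
  rcases p with _ | k
  · intro c hc _ t
    exact hno c ⟨hc.1, fun t' ht' => hsub _ _ (hc.2 t' ht')⟩ trivial t
  · intro c hc hcyc t0
    set M := Mo n d with hM
    set b : Fin n → ℕ := Pi.single i d with hb
    have hbM : b ∈ M := Lift_single_mem d i
    set D : (Fin k → (Fin n → ℕ)) → K := dd M c with hD
    let f : (Fin (k + 1) → (Fin n → ℕ)) → K := fun t => c t - wdg b D t
    let g : (Fin (k + 1) → (Fin n → ℕ)) → K := fun t => if vJ d w J (k + 1) t then f t else 0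
    have hDalt : Alt k D := hc.1.dd M
    have hfalt : Alt (k + 1) f := hc.1.sub (hDalt.wdg b)
    have hgalt : Alt (k + 1) g := by
      intro σ t
      by_cases h : vJ d w J (k + 1) t
      · have h' : vJ d w J (k + 1) (t ∘ σ) := (Lift_perm d w J t σ).mpr h
        simp only [g, if_pos h, if_pos h', hfalt σ t]
      · have h' : ¬ vJ d w J (k + 1) (t ∘ σ) := fun h' => h ((Lift_perm d w J t σ).mp h')
        simp only [g, if_neg h, if_neg h', mul_zero]
    -- the claim
    have claim : ∀ (t : Fin k → (Fin n → ℕ)), vJ d w J k t → ∀ b' ∈ M,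
        f (Fin.cons b' t) ≠ 0 → vJ d w J (k + 1) (Fin.cons b' t) := by
      intro t ht b' hb' hf
      by_cases hc0 : c (Fin.cons b' t) = 0
      · have hw : wdg b D (Fin.cons b' t) ≠ 0 := by
          intro h
          apply hf
          simp only [f, hc0, h, sub_zero]
        unfold wdg at hw
        obtain ⟨m, -, hm⟩ := Finset.exists_ne_zero_of_sum_ne_zero hw
        have hmb : (Fin.cons b' t : Fin (k + 1) → (Fin n → ℕ)) m = b := by
          by_contra h
          exact hm (if_neg h)
        rw [if_pos hmb] at hm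
        set s : Fin k → (Fin n → ℕ) := m.removeNth (Fin.cons b' t : Fin (k + 1) → (Fin n → ℕ))
          with hs
        have hDs : D s ≠ 0 := right_ne_zero_of_mul hm
        have hDs' := hDs
        rw [hD] at hDs'
        unfold dd at hDs'
        obtain ⟨b'', hb'', hcb⟩ := Finset.exists_ne_zero_of_sum_ne_zero hDs'
        have hG'' := hc.2 _ hcb
        -- sums
        have hsum : ∀ j, b' j + ∑ l, t l j = b j + ∑ l, s l j := by
          intro j
          have h1 : ∑ l, (Fin.cons b' t : Fin (k + 1) → (Fin n → ℕ)) l j = b' j + ∑ l, t l j := by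
            rw [Fin.sum_univ_succ]
            simp
          have h2 : ∑ l, (Fin.cons b' t : Fin (k + 1) → (Fin n → ℕ)) l j = b j + ∑ l, s l j := by
            rw [Fin.sum_univ_succAbove _ m, hmb]
            rfl
          rw [← h1, h2]
        have hsle : ∀ j, ∑ l, s l j ≤ w j := by
          intro j
          have h1 := hG''.1.2 j
          rw [Finset.sum_apply, Fin.sum_univ_succ] at h1
          simp only [Fin.cons_zero, Fin.cons_succ] at h1
          omega
        have hsMo : ∀ l, s l ∈ Mo n d := by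
          intro l
          have := hG''.1.1 l.succ
          simpa using this
        have hsne : ∀ j ∈ insert i J, ∀ l, s l ≠ Pi.single j d := by
          intro j hj l
          have := (hG''.2 j hj).1 l.succ
          simpa using this
        have hnot : ¬ vJ d w (insert i J) k s := fun h => hDs (hcyc s h)
        have hex : ∃ j ∈ insert i J, d + ∑ l, s l j ≤ w j := by
          by_contra hcon
          push Not at hcon
          apply hnot
          refine ⟨⟨hsMo, fun j => by rw [Finset.sum_apply]; exact hsle j⟩, fun j hj =>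
            ⟨hsne j hj, hcon j hj⟩⟩
        have hbj : ∀ j, j ≠ i → b j = 0 := fun j hj => by simp [hb, hj]
        have hbi : b i = d := by simp [hb]
        obtain ⟨j, hj, hjle⟩ := hex
        have hji : j = i := by
          by_contra hne
          have hjJ : j ∈ J := by
            rcases mem_insert.mp hj with h | h
            · exact absurd h hne
            · exact h
          have h1 := (ht.2 j hjJ).2
          have h2 := hsum j
          rw [hbj j hne] at h2
          omega
        rw [hji] at hjle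
        refine ⟨⟨?_, ?_⟩, ?_⟩
        · intro l
          refine Fin.cases ?_ (fun l => ?_) l
          · simpa using hb'
          · simpa using ht.1.1 l
        · intro j'
          rw [Finset.sum_apply, Fin.sum_univ_succ]
          simp only [Fin.cons_zero, Fin.cons_succ]
          have h2 := hsum j'
          by_cases hj' : j' = i
          · rw [hj'] at h2 ⊢
            rw [hbi] at h2
            omega
          · rw [hbj j' hj'] at h2
            have := hsle j'
            omega
        · intro j' hj'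
          have hne : j' ≠ i := fun h => hiJ (h ▸ hj')
          refine ⟨?_, ?_⟩
          · intro l
            rcases eq_or_ne l m with rfl | hlm
            · rw [hmb, hb]
              intro h
              have h1 := congrFun h i
              rw [Pi.single_eq_same, Pi.single_eq_of_ne hne.symm] at h1
              omega
            · obtain ⟨l', rfl⟩ := Fin.exists_succAbove_eq hlm
              exact hsne j' (mem_insert_of_mem hj') l'
          · have h1 := (ht.2 j' hj').2
            rw [Fin.sum_univ_succ]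
            simp only [Fin.cons_zero, Fin.cons_succ]
            omega
      · exact hsub _ _ (hc.2 _ hc0)
    have hgcyc : rcyc M (vJ d w J) (k + 1) g := by
      intro t ht
      have h1 : dd M g t = dd M f t := by
        unfold dd
        refine Finset.sum_congr rfl fun b' hb' => ?_
        by_cases h : vJ d w J (k + 1) (Fin.cons b' t)
        · simp only [g, if_pos h]
        · simp only [g, if_neg h]
          by_contra hne
          exact h (claim t ht b' hb' (Ne.symm hne))
      rw [h1]
      have h2 : dd M f t = D t - dd M (wdg b D) t := by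
        simp only [f, hD, dd]
        rw [← Finset.sum_sub_distrib]
      rw [h2]
      rcases k with _ | k'
      · rw [dd_wdg_zero M hbM D t, sub_self]
      · have h3 := dd_wdg M hbM D t
        have h4 : wdg b (dd M D) t = 0 := by
          unfold wdg
          refine Finset.sum_eq_zero fun l _ => ?_
          split_ifs
          · rw [hD, dd_dd M hc.1, mul_zero]
          · rfl
        rw [h4, add_zero] at h3
        rw [h3, sub_self]
    have hg0 := hno g ⟨hgalt, fun t ht => by
      by_contra h
      exact ht (if_neg h)⟩ hgcyc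
    by_contra hne
    have hG' := hc.2 t0 hne
    have h1 := hg0 t0
    simp only [g, if_pos (hsub _ _ hG'), f] at h1
    have h2 : wdg b D t0 = 0 := by
      unfold wdg
      refine Finset.sum_eq_zero fun l _ => ?_
      rw [if_neg]
      exact (hG'.2 i (mem_insert_self _ _)).1 l
    rw [h2, sub_zero] at h1
    exact hne h1

end Pool.Agent.Work.MP_1233f5_ag.V

end

section

set_option autoImplicit false

namespace Pool.Agent.Work.MP_1233f5_ag.V

open Finset

/-- a set with prescribed intersections with the fibres -/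
theorem LiftT_choose {α : Type} [DecidableEq α] {n : ℕ} (π : α → Fin n) (U : Finset α)
    (v : Fin n → ℕ) (h : ∀ j, v j ≤ tyv π U j) : ∃ e : Finset α, e ⊆ U ∧ tyv π e = v := by
  choose f hf hc using fun j => Finset.exists_subset_card_eq (h j)
  have hπ : ∀ j x, x ∈ f j → π x = j := fun j x hx => (Finset.mem_filter.1 (hf j hx)).2
  refine ⟨univ.biUnion f, ?_, ?_⟩
  · intro x hx
    obtain ⟨j, _, hj⟩ := Finset.mem_biUnion.1 hx
    exact (Finset.mem_filter.1 (hf j hj)).1
  · funext j
    rw [← hc j]
    unfold tyv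
    congr 1
    ext x
    simp only [Finset.mem_filter, Finset.mem_biUnion, Finset.mem_univ, true_and]
    constructor
    · rintro ⟨⟨i, hi⟩, hx⟩
      have := hπ i x hi
      rw [← hx, this]
      exact hi
    · intro hx
      exact ⟨⟨j, hx⟩, hπ j x hx⟩

theorem LiftT_sum {α : Type} [DecidableEq α] {n : ℕ} (π : α → Fin n) (e : Finset α) :
    ∑ j, tyv π e j = e.card := by
  unfold tyv
  exact (Finset.card_eq_sum_card_fiberwise (f := π) (s := e) (t := univ) (by simp)).symm

theorem LiftT_sum_tyv {α : Type} [DecidableEq α] {n p : ℕ} (π : α → Fin n)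
    (t : Fin p → Finset α) (ht : ∀ i j, i ≠ j → Disjoint (t i) (t j)) (j : Fin n) :
    ∑ i, tyv π (t i) j = tyv π (univ.biUnion t) j := by
  unfold tyv
  rw [Finset.filter_biUnion, Finset.card_biUnion]
  intro i _ i' _ h
  exact Finset.disjoint_filter_filter (ht i i' h)

theorem LiftT_compl {α : Type} [Fintype α] [DecidableEq α] {n : ℕ} (π : α → Fin n)
    (U : Finset α) (j : Fin n) : tyv π U j + tyv π Uᶜ j = fib π j := by
  unfold fib tyv
  rw [← Finset.card_union_of_disjoint]
  · rw [← Finset.filter_union, Finset.union_compl]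
  · exact Finset.disjoint_filter_filter disjoint_compl_right

theorem pr_LiftT : S_LiftT := by
  intro α _ _ n d p
  induction p with
  | zero =>
    intro π s hs
    exact ⟨fun _ => ∅, ⟨fun i => i.elim0, fun i => i.elim0⟩, fun i => i.elim0⟩
  | succ p ih =>
    intro π s hs
    obtain ⟨hs1, hs2⟩ := hs
    have hsum : ∀ j, s 0 j + ∑ i : Fin p, s i.succ j ≤ fib π j := by
      intro j
      have := hs2 j
      rw [Finset.sum_apply, Fin.sum_univ_succ] at this
      exact this
    obtain ⟨t, ht, hts⟩ := ih π (fun i => s i.succ) ⟨fun i => hs1 i.succ, by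
      intro j
      rw [Finset.sum_apply]
      exact (Nat.le_add_left _ _).trans (hsum j)⟩
    obtain ⟨e, he, hev⟩ := LiftT_choose π (univ.biUnion t)ᶜ (s 0) (by
      intro j
      have h1 := LiftT_compl π (univ.biUnion t) j
      have h2 := LiftT_sum_tyv π t ht.2 j
      have h3 : ∑ i, tyv π (t i) j = ∑ i : Fin p, s i.succ j :=
        Finset.sum_congr rfl fun i _ => by rw [hts i]
      have := hsum j
      omega)
    have hec : e.card = d := by
      rw [← LiftT_sum π e, hev]
      exact (Finset.mem_piAntidiag.1 (hs1 0)).1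
    have hdis : ∀ i, Disjoint e (t i) := by
      intro i
      rw [Finset.disjoint_left]
      intro x hx hxi
      have h1 := Finset.mem_compl.1 (he hx)
      exact h1 (Finset.mem_biUnion.2 ⟨i, Finset.mem_univ _, hxi⟩)
    refine ⟨Fin.cons e t, ⟨?_, ?_⟩, ?_⟩
    · intro i
      refine Fin.cases ?_ (fun i => ?_) i
      · rw [Fin.cons_zero]
        exact ⟨hec, Finset.subset_univ _⟩
      · rw [Fin.cons_succ]
        exact ht.1 i
    · intro i j
      refine Fin.cases ?_ (fun i => ?_) i
      · refine Fin.cases ?_ (fun j => ?_) j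
        · intro h
          exact absurd rfl h
        · intro _
          rw [Fin.cons_zero, Fin.cons_succ]
          exact hdis j
      · refine Fin.cases ?_ (fun j => ?_) j
        · intro _
          rw [Fin.cons_zero, Fin.cons_succ]
          exact (hdis i).symm
        · intro h
          rw [Fin.cons_succ, Fin.cons_succ]
          exact ht.2 i j fun hij => h (by rw [hij])
    · intro i
      refine Fin.cases ?_ (fun i => ?_) i
      · rw [Fin.cons_zero, hev]
      · rw [Fin.cons_succ, hts i]

end Pool.Agent.Work.MP_1233f5_ag.V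

end

section

/-! MP_1233f5_ag, base block V, item Main (helper31). -/

set_option autoImplicit false

namespace Pool.Agent.Work.MP_1233f5_ag.V

open Finset

theorem pr_Main (hStep : S_Step) : S_Main := by
  intro K _ _ d T
  induction T with
  | zero =>
    intro p hd hp
    simp [bnd] at hp
  | succ T ihT =>
    intro p
    induction p using Nat.strong_induction_on with
    | _ p ihp =>
      intro hd hp
      have hp1 : p < theta d (T + 1) := lt_of_lt_of_le hp (min_le_left _ _)
      have hp2 : p < bnd d T + (T + 1) / (d - 1) + 1 := lt_of_lt_of_le hp (min_le_right _ _)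
      have hd1 : 0 < d - 1 := by omega
      have hlt : T + 1 < ((T + 1) / (d - 1) + 1) * (d - 1) := by
        have := Nat.lt_div_mul_add (a := T + 1) hd1
        rw [Nat.add_mul, one_mul]
        exact this
      unfold theta at hp1
      generalize hq : (T + 1) / (d - 1) = q at hp1 hp2 hlt
      refine hStep K d (T + 1) p (q + 1) ((q + 1) * (d - 1) - (T + 1)) hd (Nat.le_add_left _ _)
        (Nat.le_add_left _ _) (Nat.add_sub_of_le hlt.le) ?_ ?_ ?_
      · have e1 : d + (q + 1) - 1 = d + q := by omega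
        have e2 : (q + 1) * (d - 1) - (T + 1) + (q + 1) - 1
            = (q + 1) * (d - 1) - (T + 1) + q := by omega
        rw [e1, e2, Nat.add_sub_cancel]
        omega
      · intro p' hp'
        exact ihp p' (by omega) hd (lt_trans (by omega) hp)
      · intro p' hp'
        exact ihT p' hd (by omega)

end Pool.Agent.Work.MP_1233f5_ag.V

end
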