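import Mathlib
import Pool.Agent.Work.MP_1233f5_ag.V.Stmts
import Pool.Agent.Work.MP_1233f5_ag.Bdx.B01
import Pool.Agent.Work.MP_1233f5_ag.Bd.B01
import Pool.Agent.Work.MP_1233f5_ag.V.I_Dual
import Pool.Agent.Work.MP_1233f5_ag.V.I_Green
import Pool.Agent.Work.MP_1233f5_ag.V.I_TransT
import Pool.Agent.Work.MP_1233f5_ag.X.Basic

/-! Bundle of small proof modules (one section per former module). -/

section

/-! Item PbCh: the pull back of a multigraded chain is an invariant chain. -/

set_option autoImplicit false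

namespace Pool.Agent.Work.MP_1233f5_ag.V

open Finset

namespace PbCh

variable {α : Type} [Fintype α] [DecidableEq α]

lemma vm_comp (d p : ℕ) (σ : Equiv.Perm (Fin p)) (t : Fin p → Finset α) :
    vm d univ p (t ∘ σ) ↔ vm d univ p t := by
  constructor
  · rintro ⟨h1, h2⟩
    refine ⟨fun i => ?_, fun i j hij => ?_⟩
    · have h := h1 (σ.symm i)
      simpa using h
    · have h := h2 (σ.symm i) (σ.symm j) (fun h => hij (σ.symm.injective h))
      simpa using h
  · rintro ⟨h1, h2⟩
    exact ⟨fun i => h1 (σ i), fun i j hij => h2 (σ i) (σ j) (fun h => hij (σ.injective h))⟩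

lemma vm_map (d p : ℕ) (σ : Equiv.Perm α) (t : Fin p → Finset α) :
    vm d univ p (fun i => (t i).map σ.toEmbedding) ↔ vm d univ p t := by
  unfold vm
  simp only [Finset.card_map, Finset.subset_univ, and_true, Finset.disjoint_map]

lemma mu_comp {n : ℕ} (w : Fin n → ℕ) {p : ℕ} (σ : Equiv.Perm (Fin p)) (s : Fin p → (Fin n → ℕ)) :
    mu w (fun i => s (σ i)) = mu w s := by
  unfold mu
  congr 1
  · refine Finset.prod_congr rfl fun j _ => ?_
    have h : ∑ i, s (σ i) j = ∑ i, s i j := Equiv.sum_comp σ (fun i => s i j)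
    rw [h]
  · exact Equiv.prod_comp σ (fun i => ∏ j, (s i j).factorial)

lemma tyv_map {n : ℕ} (π : α → Fin n) (σ : Equiv.Perm α) (hσ : ∀ a, π (σ a) = π a)
    (e : Finset α) : tyv π (e.map σ.toEmbedding) = tyv π e := by
  funext j
  unfold tyv
  rw [Finset.filter_map, Finset.card_map]
  congr 1
  refine Finset.filter_congr fun x _ => ?_
  simp [hσ x]

end PbCh

theorem pr_PbCh (_hTyW : S_TyW) : S_PbCh := by
  intro K _ _ α _ _ n d p π c hc
  refine ⟨⟨?_, ?_⟩, ?_⟩
  · intro σ t
    unfold pb
    by_cases h : vm d univ p t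
    · rw [if_pos ((PbCh.vm_comp d p σ t).2 h), if_pos h]
      have h2 : mu (fib π) (fun i => tyv π ((t ∘ σ) i)) = mu (fib π) (fun i => tyv π (t i)) :=
        PbCh.mu_comp (fib π) σ (fun i => tyv π (t i))
      have h3 : c (fun i => tyv π ((t ∘ σ) i)) =
          ((Equiv.Perm.sign σ : ℤ) : K) * c (fun i => tyv π (t i)) :=
        hc.1 σ (fun i => tyv π (t i))
      rw [h2, h3]
      ring
    · rw [if_neg (fun h' => h ((PbCh.vm_comp d p σ t).1 h')), if_neg h, mul_zero]
  · intro t ht
    unfold pb at ht
    by_contra h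
    rw [if_neg h] at ht
    exact ht rfl
  · intro σ hσ t
    unfold pb
    have h2 : (fun i => tyv π ((fun i => (t i).map σ.toEmbedding) i)) = fun i => tyv π (t i) := by
      funext i
      exact PbCh.tyv_map π σ hσ (t i)
    by_cases h : vm d univ p t
    · rw [if_pos ((PbCh.vm_map d p σ t).2 h), if_pos h, h2]
    · rw [if_neg (fun h' => h ((PbCh.vm_map d p σ t).1 h')), if_neg h]

end Pool.Agent.Work.MP_1233f5_ag.V

end

section

/-! Item PbD: the pull back commutes with the differentials. -/

set_option autoImplicit false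

namespace Pool.Agent.Work.MP_1233f5_ag.V

open Finset

namespace PbD

lemma ty_cons {α : Type} {n p : ℕ} (π : α → Fin n) (e : Finset α) (t : Fin p → Finset α) :
    (fun i => tyv π ((Fin.cons e t : Fin (p + 1) → Finset α) i)) =
      (Fin.cons (tyv π e) (fun i => tyv π (t i)) : Fin (p + 1) → (Fin n → ℕ)) := by
  funext i
  refine Fin.cases ?_ (fun i => ?_) i
  · simp
  · simp

lemma mu_cons {n p : ℕ} (w : Fin n → ℕ) (v : Fin n → ℕ) (S : Fin p → (Fin n → ℕ))
    (h : ∀ j, v j + ∑ i, S i j ≤ w j) :
    (∏ j, (w j - ∑ i, S i j).choose (v j)) * mu w (Fin.cons v S : Fin (p + 1) → (Fin n → ℕ)) =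
      mu w S := by
  have e1 : ∀ j, w j - ∑ i, (Fin.cons v S : Fin (p + 1) → (Fin n → ℕ)) i j =
      (w j - ∑ i, S i j) - v j := by
    intro j
    rw [Fin.sum_univ_succ]
    simp only [Fin.cons_zero, Fin.cons_succ]
    omega
  have e2 : ∏ i, ∏ j, ((Fin.cons v S : Fin (p + 1) → (Fin n → ℕ)) i j).factorial =
      (∏ j, (v j).factorial) * ∏ i, ∏ j, (S i j).factorial := by
    rw [Fin.prod_univ_succ]
    simp only [Fin.cons_zero, Fin.cons_succ]
  unfold mu
  rw [e2]
  simp only [e1]
  rw [← mul_assoc, ← mul_assoc, ← Finset.prod_mul_distrib, ← Finset.prod_mul_distrib]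
  congr 1
  refine Finset.prod_congr rfl fun j _ => ?_
  have h1 := Nat.choose_mul_factorial_mul_factorial (n := w j - ∑ i, S i j) (k := v j)
    (by have := h j; omega)
  rw [← h1]
  ring

end PbD

open Classical in
theorem pr_PbD (hCnt : S_Cnt) (hTyW : S_TyW) : S_PbD := by
  intro K _ _ α _ _ n d p π c hc t ht
  unfold dd
  have h1 : ∀ e : Finset α, pb d π c (Fin.cons e t : Fin (p + 1) → Finset α) =
      if vm d univ (p + 1) (Fin.cons e t : Fin (p + 1) → Finset α) then
        (mu (fib π) (Fin.cons (tyv π e) (fun i => tyv π (t i)) : Fin (p + 1) → (Fin n → ℕ)) : K) *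
          c (Fin.cons (tyv π e) (fun i => tyv π (t i)) : Fin (p + 1) → (Fin n → ℕ)) else 0 := by
    intro e
    unfold pb
    rw [PbD.ty_cons]
  rw [Finset.sum_congr rfl fun e _ => h1 e, ← Finset.sum_filter]
  have hmaps : ∀ e ∈ (univ : Finset (Finset α)).filter
      (fun e => vm d univ (p + 1) (Fin.cons e t : Fin (p + 1) → Finset α)), tyv π e ∈ Mo n d := by
    intro e he
    have h2 := (hTyW α n d (p + 1) π _ (Finset.mem_filter.mp he).2).1 0
    simpa using h2
  rw [← Finset.sum_fiberwise_of_maps_to hmaps, Finset.mul_sum]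
  refine Finset.sum_congr rfl fun v hv => ?_
  rw [Finset.sum_congr rfl (g := fun _ =>
    (mu (fib π) (Fin.cons v (fun i => tyv π (t i)) : Fin (p + 1) → (Fin n → ℕ)) : K) *
      c (Fin.cons v (fun i => tyv π (t i)) : Fin (p + 1) → (Fin n → ℕ)))
    (fun e he => by rw [(Finset.mem_filter.mp he).2])]
  rw [Finset.sum_const, nsmul_eq_mul]
  by_cases hz : c (Fin.cons v (fun i => tyv π (t i)) : Fin (p + 1) → (Fin n → ℕ)) = 0
  · rw [hz]; ring
  · have hw := (hc.2 _ hz).2
    have hw' : ∀ j, v j + ∑ i, tyv π (t i) j ≤ fib π j := by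
      intro j
      have h3 := hw j
      rw [Finset.sum_apply, Fin.sum_univ_succ] at h3
      simpa using h3
    rw [hCnt α n d p π t v ht hv _ (fun e => by
      simp only [Finset.mem_filter, Finset.mem_univ, true_and])]
    have h4 := PbD.mu_cons (fib π) v (fun i => tyv π (t i)) hw'
    rw [← h4]
    push_cast
    ring

end Pool.Agent.Work.MP_1233f5_ag.V

end

section

/-! MP_1233f5_ag, base block V, item PbSurj. -/

set_option autoImplicit false

namespace Pool.Agent.Work.MP_1233f5_ag.V

open Finset

namespace PbSurj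

theorem vw_perm {n d p : ℕ} {w : Fin n → ℕ} {s : Fin p → (Fin n → ℕ)} (σ : Equiv.Perm (Fin p))
    (h : vw d w p s) : vw d w p (s ∘ σ) := by
  refine ⟨fun i => h.1 (σ i), ?_⟩
  have : ∑ i, (s ∘ σ) i = ∑ i, s i := Equiv.sum_comp σ s
  rw [this]
  exact h.2

theorem vm_perm {α : Type} [DecidableEq α] {d p : ℕ} {P : Finset α} {t : Fin p → Finset α}
    (σ : Equiv.Perm (Fin p)) (h : vm d P p t) : vm d P p (t ∘ σ) := by
  refine ⟨fun i => h.1 (σ i), fun i j hij => h.2 (σ i) (σ j) (fun h' => hij (σ.injective h'))⟩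

theorem mu_perm {n p : ℕ} (w : Fin n → ℕ) (s : Fin p → (Fin n → ℕ)) (σ : Equiv.Perm (Fin p)) :
    mu w (s ∘ σ) = mu w s := by
  unfold mu
  congr 1
  · refine Finset.prod_congr rfl (fun j _ => ?_)
    have : ∑ i, (s ∘ σ) i j = ∑ i, s i j := Equiv.sum_comp σ (fun i => s i j)
    rw [this]
  · exact Equiv.prod_comp σ (fun i => ∏ j, (s i j).factorial)

theorem mu_ne_zero {n p : ℕ} (w : Fin n → ℕ) (s : Fin p → (Fin n → ℕ)) : mu w s ≠ 0 := by
  unfold mu
  refine mul_ne_zero ?_ ?_
  · exact Finset.prod_ne_zero_iff.mpr (fun j _ => Nat.factorial_ne_zero _)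
  · exact Finset.prod_ne_zero_iff.mpr (fun i _ =>
      Finset.prod_ne_zero_iff.mpr (fun j _ => Nat.factorial_ne_zero _))

end PbSurj

theorem pr_PbSurj (hLiftT : S_LiftT) (hTransT : S_TransT) (hTyW : S_TyW) : S_PbSurj := by
  classical
  intro K _ _ α _ _ n d p π C hC hInv
  have hlift : ∀ s : Fin p → (Fin n → ℕ), ∃ t : Fin p → Finset α, vw d (fib π) p s →
      vm d univ p t ∧ ∀ i, tyv π (t i) = s i := by
    intro s
    by_cases h : vw d (fib π) p s
    · obtain ⟨t, ht⟩ := hLiftT α n d p π s h
      exact ⟨t, fun _ => ht⟩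
    · exact ⟨fun _ => ∅, fun h' => absurd h' h⟩
  choose L hL using hlift
  have key : ∀ (t : Fin p → Finset α) (s : Fin p → (Fin n → ℕ)), vm d univ p t →
      (∀ i, tyv π (t i) = s i) → vw d (fib π) p s → C (L s) = C t := by
    intro t s ht hts hs
    obtain ⟨hL1, hL2⟩ := hL s hs
    obtain ⟨σ, hσ, hσt⟩ := hTransT α n d p π t (L s) ht hL1 (fun i => by rw [hts i, hL2 i])
    have h1 := hInv σ hσ t
    have h2 : (fun i => (t i).map σ.toEmbedding) = L s := funext hσt
    rw [h2] at h1
    exact h1
  refine ⟨fun s => if vw d (fib π) p s then C (L s) / (mu (fib π) s : K) else 0, ⟨?_, ?_⟩, ?_⟩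
  · intro σ s
    by_cases h : vw d (fib π) p s
    · have h' := PbSurj.vw_perm σ h
      simp only [if_pos h, if_pos h', PbSurj.mu_perm]
      obtain ⟨hL1, hL2⟩ := hL s h
      have h1 : C (L (s ∘ σ)) = C (L s ∘ σ) :=
        key (L s ∘ σ) (s ∘ σ) (PbSurj.vm_perm σ hL1) (fun i => hL2 (σ i)) h'
      rw [h1, hC.1 σ (L s)]
      ring
    · have h' : ¬ vw d (fib π) p (s ∘ σ) := by
        intro h'
        apply h
        have h2 := PbSurj.vw_perm σ⁻¹ h'
        have h3 : (s ∘ σ) ∘ (σ⁻¹ : Equiv.Perm (Fin p)) = s := by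
          funext i
          simp
        rwa [h3] at h2
      simp only [if_neg h, if_neg h', mul_zero]
  · intro s hs
    by_contra h
    exact hs (if_neg h)
  · intro t
    unfold pb
    by_cases ht : vm d univ p t
    · have hw := hTyW α n d p π t ht
      simp only [if_pos ht, if_pos hw]
      rw [key t (fun i => tyv π (t i)) ht (fun i => rfl) hw]
      have hmu : ((mu (fib π) (fun i => tyv π (t i)) : ℕ) : K) ≠ 0 :=
        Nat.cast_ne_zero.mpr (PbSurj.mu_ne_zero _ _)
      field_simp
    · simp only [if_neg ht]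
      by_contra h
      exact ht (hC.2 t (fun h' => h h'.symm))

end Pool.Agent.Work.MP_1233f5_ag.V

end

section

set_option autoImplicit false

namespace Pool.Agent.Work.MP_1233f5_ag.V

open Finset

namespace RS

theorem cons_sum {n q : ℕ} (b : Fin n → ℕ) (t : Fin q → (Fin n → ℕ)) :
    (∑ k, (Fin.cons b t : Fin (q + 1) → (Fin n → ℕ)) k) = b + ∑ k, t k := by
  rw [Fin.sum_univ_succ]
  simp

theorem cons_sum_apply {n q : ℕ} (b : Fin n → ℕ) (t : Fin q → (Fin n → ℕ)) (j : Fin n) :
    (∑ k, (Fin.cons b t : Fin (q + 1) → (Fin n → ℕ)) k j) = b j + ∑ k, t k j := by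
  rw [Fin.sum_univ_succ]
  simp

theorem vJ_perm {n d q : ℕ} {w : Fin n → ℕ} {J : Finset (Fin n)} (σ : Equiv.Perm (Fin q))
    (t : Fin q → (Fin n → ℕ)) : vJ d w J q (t ∘ σ) ↔ vJ d w J q t := by
  have h1 : ∑ k, (t ∘ σ) k = ∑ k, t k := by
    simpa using Equiv.sum_comp σ t
  have h2 : ∀ j, ∑ k, (t ∘ σ) k j = ∑ k, t k j := by
    intro j
    simpa using Equiv.sum_comp σ (fun k => t k j)
  unfold vJ vw
  rw [h1]
  constructor
  · rintro ⟨⟨a1, a2⟩, a3⟩
    refine ⟨⟨fun k => ?_, a2⟩, fun j hj => ⟨fun k => ?_, ?_⟩⟩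
    · have := a1 (σ.symm k); simpa using this
    · have := (a3 j hj).1 (σ.symm k); simpa using this
    · have := (a3 j hj).2; rw [h2] at this; exact this
  · rintro ⟨⟨a1, a2⟩, a3⟩
    refine ⟨⟨fun k => a1 _, a2⟩, fun j hj => ⟨fun k => (a3 j hj).1 _, ?_⟩⟩
    rw [h2]; exact (a3 j hj).2

/-- `G'` implies `G`. -/
theorem vJ_mono {n d q : ℕ} {w : Fin n → ℕ} {J : Finset (Fin n)} {i : Fin n}
    {t : Fin q → (Fin n → ℕ)} (h : vJ d w (insert i J) q t) : vJ d w J q t :=
  ⟨h.1, fun j hj => h.2 j (mem_insert_of_mem hj)⟩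

theorem lemA {n d q : ℕ} {w : Fin n → ℕ} {J : Finset (Fin n)} {i : Fin n}
    {t : Fin q → (Fin n → ℕ)} {b' : Fin n → ℕ} (h : vJ d w (insert i J) q t)
    (h' : vJ d w J (q + 1) (Fin.cons b' t)) : vJ d w (insert i J) (q + 1) (Fin.cons b' t) := by
  refine ⟨h'.1, fun j hj => ?_⟩
  rcases mem_insert.mp hj with rfl | hj
  · have h1 := h.2 j hj
    have h2 := h'.1.2 j
    rw [cons_sum, Pi.add_apply, Finset.sum_apply] at h2
    refine ⟨fun k => ?_, ?_⟩
    · refine Fin.cases ?_ (fun k => ?_) k
      · intro e
        rw [Fin.cons_zero] at e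
        rw [e] at h2
        simp only [Pi.single_eq_same] at h2
        exact absurd h1.2 (not_lt.mpr h2)
      · rw [Fin.cons_succ]; exact h1.1 k
    · rw [cons_sum_apply]
      have := h1.2
      omega
  · exact h'.2 j hj

theorem lemB {n d q : ℕ} {w : Fin n → ℕ} {J : Finset (Fin n)}
    {t : Fin q → (Fin n → ℕ)} {b' b'' : Fin n → ℕ} (h : vJ d w J q t)
    (h' : vJ d w J (q + 2) (Fin.cons b'' (Fin.cons b' t : Fin (q + 1) → (Fin n → ℕ)))) :
    vJ d w J (q + 1) (Fin.cons b' t) := by
  refine ⟨⟨fun k => ?_, ?_⟩, fun j hj => ⟨fun k => ?_, ?_⟩⟩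
  · have := h'.1.1 k.succ
    rwa [Fin.cons_succ] at this
  · have := h'.1.2
    rw [cons_sum] at this
    exact le_trans le_add_self this
  · have := (h'.2 j hj).1 k.succ
    rwa [Fin.cons_succ] at this
  · have := (h.2 j hj).2
    rw [cons_sum_apply]
    omega

theorem lemC {n d q : ℕ} {w : Fin n → ℕ} {J : Finset (Fin n)} {i : Fin n} (hi : i ∉ J)
    {s : Fin q → (Fin n → ℕ)} (h : vJ d w J (q + 1) (Fin.cons (Pi.single i d) s)) :
    vJ d w J q s := by
  refine ⟨⟨fun k => ?_, ?_⟩, fun j hj => ⟨fun k => ?_, ?_⟩⟩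
  · have := h.1.1 k.succ
    rwa [Fin.cons_succ] at this
  · have := h.1.2
    rw [cons_sum] at this
    exact le_trans le_add_self this
  · have := (h.2 j hj).1 k.succ
    rwa [Fin.cons_succ] at this
  · have := (h.2 j hj).2
    rw [cons_sum_apply] at this
    have e : j ≠ i := fun e => hi (e ▸ hj)
    rw [Pi.single_eq_of_ne e] at this
    omega

theorem single_mem {n d : ℕ} (i : Fin n) : (Pi.single i d : Fin n → ℕ) ∈ Mo n d := by
  simp [Mo, Finset.mem_piAntidiag]

theorem lemD {n d q : ℕ} {w : Fin n → ℕ} {J : Finset (Fin n)} {i : Fin n} (hd : 1 ≤ d)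
    (hi : i ∉ J)
    {s : Fin q → (Fin n → ℕ)} (h : vJ d w J q s) (h1 : ∀ k, s k ≠ Pi.single i d)
    (h2 : ¬ vJ d w (insert i J) q s) :
    vJ d w J (q + 1) (Fin.cons (Pi.single i d) s) := by
  have h3 : d + ∑ k, s k i ≤ w i := by
    by_contra hc
    apply h2
    refine ⟨h.1, fun j hj => ?_⟩
    rcases mem_insert.mp hj with rfl | hj
    · exact ⟨h1, not_le.mp hc⟩
    · exact h.2 j hj
  refine ⟨⟨fun k => ?_, ?_⟩, fun j hj => ⟨fun k => ?_, ?_⟩⟩
  · refine Fin.cases ?_ (fun k => ?_) k
    · rw [Fin.cons_zero]; exact single_mem i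
    · rw [Fin.cons_succ]; exact h.1.1 k
  · rw [cons_sum]
    intro j
    rw [Pi.add_apply, Finset.sum_apply]
    by_cases e : j = i
    · rw [e, Pi.single_eq_same]; exact h3
    · rw [Pi.single_eq_of_ne e, zero_add]
      have := h.1.2 j
      rwa [Finset.sum_apply] at this
  · refine Fin.cases ?_ (fun k => ?_) k
    · rw [Fin.cons_zero]
      intro e
      have e1 : j ≠ i := fun e => hi (e ▸ hj)
      have := congrFun e i
      rw [Pi.single_eq_same, Pi.single_eq_of_ne (Ne.symm e1)] at this
      omega
    · rw [Fin.cons_succ]; exact (h.2 j hj).1 k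
  · rw [cons_sum_apply]
    have := (h.2 j hj).2
    omega

/-- moving one entry to the front is a permutation. -/
theorem vJ_cons_removeNth {n d q : ℕ} {w : Fin n → ℕ} {J : Finset (Fin n)}
    (t : Fin (q + 1) → (Fin n → ℕ)) (k : Fin (q + 1)) :
    vJ d w J (q + 1) (Fin.cons (t k) (k.removeNth t)) ↔ vJ d w J (q + 1) t := by
  have h2 : t ∘ (k.cycleRange.symm) = Fin.cons (t k) (k.removeNth t) := by
    funext l
    refine Fin.cases ?_ (fun l => ?_) l
    · simp [Fin.cycleRange_symm_zero]
    · simp [Fin.cycleRange_symm_succ, Fin.removeNth]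
  rw [← h2]
  exact vJ_perm _ _

end RS

open RS in
theorem pr_RS : S_RS := by
  classical
  intro K _ _ n d p w J i hd hi H c hc hcy
  -- step 1
  obtain ⟨g1, hg1, hg1d⟩ := H (fun t => if vJ d w (insert i J) p t then c t else 0)
    ⟨by
      intro σ t
      show (if vJ d w (insert i J) p (t ∘ σ) then c (t ∘ σ) else 0) = _ *
        (if vJ d w (insert i J) p t then c t else 0)
      rw [hc.1 σ t]
      by_cases h : vJ d w (insert i J) p t
      · rw [if_pos h, if_pos ((vJ_perm σ t).mpr h)]
      · rw [if_neg h, if_neg (fun h' => h ((vJ_perm σ t).mp h'))]; simp,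
    by
      intro t ht
      by_contra h
      exact ht (if_neg h)⟩
    (by
      cases p with
      | zero => trivial
      | succ q =>
        intro t ht
        refine Eq.trans (Finset.sum_congr rfl (fun b' _ => ?_)) (hcy t (vJ_mono ht))
        by_cases h : c (Fin.cons b' t) = 0
        · show (if vJ d w (insert i J) (q + 1) (Fin.cons b' t) then c (Fin.cons b' t) else 0) = _
          rw [h, ite_self]
        · exact if_pos (lemA ht (hc.2 _ h)))
  -- step 2
  set c' : (Fin p → (Fin n → ℕ)) → K :=
    fun t => if vJ d w J p t then c t - dd (Mo n d) g1 t else 0 with hc'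
  have hc'alt : Alt p c' := by
    intro σ t
    show (if vJ d w J p (t ∘ σ) then c (t ∘ σ) - dd (Mo n d) g1 (t ∘ σ) else 0) = _ *
      (if vJ d w J p t then c t - dd (Mo n d) g1 t else 0)
    rw [hc.1 σ t, hg1.1.dd (Mo n d) σ t]
    by_cases h : vJ d w J p t
    · rw [if_pos h, if_pos ((vJ_perm σ t).mpr h)]; ring
    · rw [if_neg h, if_neg (fun h' => h ((vJ_perm σ t).mp h'))]; simp
  have hc'0 : ∀ t, vJ d w (insert i J) p t → c' t = 0 := by
    intro t ht
    show (if vJ d w J p t then c t - dd (Mo n d) g1 t else 0) = 0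
    rw [if_pos (vJ_mono ht), hg1d t ht, if_pos ht, sub_self]
  have hc'G : ∀ t, c' t ≠ 0 → vJ d w J p t := by
    intro t ht
    by_contra h
    exact ht (if_neg h)
  -- step 3
  set u : (Fin p → (Fin n → ℕ)) → K :=
    fun t => if ∀ k, t k ≠ Pi.single i d then c' t else 0 with hu
  have hualt : Alt p u := by
    intro σ t
    show (if ∀ k, (t ∘ σ) k ≠ Pi.single i d then c' (t ∘ σ) else 0) = _ *
      (if ∀ k, t k ≠ Pi.single i d then c' t else 0)
    rw [hc'alt σ t]
    have e : (∀ k, (t ∘ σ) k ≠ Pi.single i d) ↔ ∀ k, t k ≠ Pi.single i d := by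
      constructor
      · intro h k
        have := h (σ.symm k)
        simpa using this
      · intro h k
        exact h _
    by_cases h : ∀ k, t k ≠ Pi.single i d
    · rw [if_pos h, if_pos (e.mpr h)]
    · rw [if_neg h, if_neg (fun h' => h (e.mp h'))]; simp
  have hhalt : Alt (p + 1) (wdg (Pi.single i d) u) := hualt.wdg _
  have hhG : ∀ s, wdg (Pi.single i d) u s ≠ 0 → vJ d w J (p + 1) s := by
    intro s hs
    obtain ⟨k, _, hk⟩ := Finset.exists_ne_zero_of_sum_ne_zero hs
    by_cases hk1 : s k = Pi.single i d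
    · rw [if_pos hk1] at hk
      have hk2 : u (k.removeNth s) ≠ 0 := fun e => hk (by rw [e, mul_zero])
      by_cases hk3 : ∀ l, k.removeNth s l ≠ Pi.single i d
      · have hk4 : u (k.removeNth s) = c' (k.removeNth s) := if_pos hk3
        rw [hk4] at hk2
        have h5 := lemD hd hi (hc'G _ hk2) hk3 (fun h => hk2 (hc'0 _ h))
        rw [← hk1] at h5
        exact (vJ_cons_removeNth s k).mp h5
      · exact absurd (if_neg hk3) hk2
    · exact absurd (if_neg hk1) hk
  -- step 4
  have hdh : ∀ t, vJ d w J p t → dd (Mo n d) (wdg (Pi.single i d) u) t = c' t := by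
    cases p with
    | zero =>
      intro t _
      rw [dd_wdg_zero (Mo n d) (single_mem i)]
      exact if_pos (fun k => k.elim0)
    | succ q =>
      -- cycle
      have hc'cy : ∀ t : Fin q → (Fin n → ℕ), vJ d w J q t → dd (Mo n d) c' t = 0 := by
        intro t ht
        have e1 : dd (Mo n d) c' t = dd (Mo n d) c t - dd (Mo n d) (dd (Mo n d) g1) t := by
          show (∑ b ∈ Mo n d, c' (Fin.cons b t)) = (∑ b ∈ Mo n d, c (Fin.cons b t)) -
            ∑ b ∈ Mo n d, dd (Mo n d) g1 (Fin.cons b t)
          rw [← Finset.sum_sub_distrib]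
          refine Finset.sum_congr rfl (fun b' _ => ?_)
          by_cases h : vJ d w J (q + 1) (Fin.cons b' t)
          · exact if_pos h
          · have e2 : c (Fin.cons b' t) = 0 := by
              by_contra h'
              exact h (hc.2 _ h')
            have e3 : dd (Mo n d) g1 (Fin.cons b' t) = 0 := by
              by_contra h'
              obtain ⟨b'', _, hb''⟩ := Finset.exists_ne_zero_of_sum_ne_zero h'
              exact h (lemB ht (vJ_mono (hg1.2 _ hb'')))
            rw [e2, e3, sub_self]
            exact if_neg h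
        rw [e1, dd_dd (Mo n d) hg1.1, hcy t ht, sub_zero]
      intro t ht
      have hW := dd_wdg (Mo n d) (single_mem (d := d) i) u
      by_cases h1 : ∀ k, t k ≠ Pi.single i d
      · have h2 := hW t
        have h3 : wdg (Pi.single i d) (dd (Mo n d) u) t = 0 := by
          refine Finset.sum_eq_zero (fun k _ => ?_)
          exact if_neg (h1 k)
        rw [h3, add_zero] at h2
        rw [h2]
        exact if_pos h1
      · push Not at h1
        obtain ⟨k, hk⟩ := h1
        have a1 := (hhalt.dd (Mo n d)).cons_removeNth t k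
        have a2 := hc'alt.cons_removeNth t k
        have hG := (vJ_cons_removeNth (d := d) (w := w) (J := J) t k).mpr ht
        rw [hk] at a1 a2 hG
        have key : dd (Mo n d) (wdg (Pi.single i d) u) (Fin.cons (Pi.single i d) (k.removeNth t)) =
            c' (Fin.cons (Pi.single i d) (k.removeNth t)) := by
          generalize k.removeNth t = s at hG
          by_cases h3 : ∀ l, s l ≠ Pi.single i d
          · have h4 := hW (Fin.cons (Pi.single i d) s)
            have h5 : u (Fin.cons (Pi.single i d) s) = 0 := by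
              refine if_neg ?_
              intro h
              exact h 0 (by rw [Fin.cons_zero])
            have h6 : wdg (Pi.single i d) (dd (Mo n d) u) (Fin.cons (Pi.single i d) s) =
                dd (Mo n d) u s := by
              show (∑ l : Fin (q + 1), _) = _
              rw [Fin.sum_univ_succ]
              rw [if_pos (by rw [Fin.cons_zero]), cons_removeNth_zero]
              rw [Finset.sum_eq_zero]
              · simp
              · intro l _
                refine if_neg ?_
                rw [Fin.cons_succ]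
                exact h3 l
            have h7 : dd (Mo n d) u s = dd (Mo n d) c' s - c' (Fin.cons (Pi.single i d) s) := by
              show (∑ b ∈ Mo n d, u (Fin.cons b s)) = (∑ b ∈ Mo n d, c' (Fin.cons b s)) - _
              rw [← Finset.add_sum_erase _ _ (single_mem (d := d) i),
                ← Finset.add_sum_erase _ _ (single_mem (d := d) i), h5, zero_add,
                add_sub_cancel_left]
              refine Finset.sum_congr rfl (fun b' hb' => ?_)
              refine if_pos ?_
              intro l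
              refine Fin.cases ?_ (fun l => ?_) l
              · rw [Fin.cons_zero]; exact (mem_erase.mp hb').1
              · rw [Fin.cons_succ]; exact h3 l
            rw [h6, h7, h5, hc'cy s (lemC hi hG)] at h4
            linear_combination h4
          · push Not at h3
            obtain ⟨l, hl⟩ := h3
            have e : (Fin.cons (Pi.single i d) s : Fin (q + 1) → (Fin n → ℕ)) 0 =
                (Fin.cons (Pi.single i d) s : Fin (q + 1) → (Fin n → ℕ)) l.succ := by
              rw [Fin.cons_zero, Fin.cons_succ, hl]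
            rw [(hhalt.dd (Mo n d)).eq_zero (Fin.succ_ne_zero l).symm e,
              hc'alt.eq_zero (Fin.succ_ne_zero l).symm e]
        rw [a1, a2] at key
        have hne : ((-1 : K) ^ (k : ℕ)) ≠ 0 := pow_ne_zero _ (by simp)
        exact mul_left_cancel₀ hne key
  -- step 5
  refine ⟨fun t => g1 t + wdg (Pi.single i d) u t, ⟨hg1.1.add hhalt, ?_⟩, ?_⟩
  · intro t ht
    by_cases h : g1 t = 0
    · refine hhG t (fun h' => ht ?_)
      show g1 t + wdg (Pi.single i d) u t = 0
      rw [h, h', add_zero]
    · exact vJ_mono (hg1.2 t h)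
  · intro t ht
    have e : dd (Mo n d) (fun t => g1 t + wdg (Pi.single i d) u t) t =
        dd (Mo n d) g1 t + dd (Mo n d) (wdg (Pi.single i d) u) t := by
      show (∑ b ∈ Mo n d, _) = (∑ b ∈ Mo n d, _) + ∑ b ∈ Mo n d, _
      rw [← Finset.sum_add_distrib]
    rw [e, hdh t ht]
    have e2 : c' t = c t - dd (Mo n d) g1 t := if_pos ht
    rw [e2]; ring

end Pool.Agent.Work.MP_1233f5_ag.V

end

section

set_option autoImplicit false

namespace Pool.Agent.Work.MP_1233f5_ag.V

open Finset

theorem pr_Rep (hRepGar : S_RepGar) (hRepDesc : S_RepDesc) : S_Rep := by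
  classical
  intro K _ _ α _ _ V _ _ ρ Z B hZ hB n hi hii z0 hz0
  by_contra hz0B
  -- the minimal counterexample
  set r := Fintype.card α with hr
  let S : Set (α → Fin r) := {π | ∃ z ∈ Z, z ∉ B ∧ Inv ρ π z}
  have hSne : S.Nonempty := by
    refine ⟨Fintype.equivFin α, z0, hz0, hz0B, ?_⟩
    intro σ hσ
    have : σ = 1 := by
      ext a
      exact (Fintype.equivFin α).injective (hσ a)
    rw [this, map_one]
    rfl
  obtain ⟨π, ⟨z, hzZ, hzB, hinv⟩, hmin⟩ :=
    S.toFinite.exists_minimalFor (fun π : α → Fin r => ∑ a, (π a : ℕ)) _ hSne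
  have hmin' : ∀ π' : α → Fin r, ∀ y ∈ Z, Inv ρ π' y →
      ∑ a, (π' a : ℕ) < ∑ a, (π a : ℕ) → y ∈ B := by
    intro π' y hy hy' hlt
    by_contra hyB
    have := hmin (j := π') ⟨y, hy, hyB, hy'⟩ hlt.le
    exact absurd this (not_le.mpr hlt)
  let R : Finset (Fin r) := univ.image π
  by_cases hR : R.card ≤ n
  · -- few fibres
    let ι : R → Fin n := fun x => Fin.castLE hR (R.equivFin x)
    have hι : Function.Injective ι := by
      intro x y hxy
      exact R.equivFin.injective (Fin.castLE_injective hR hxy)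
    let π' : α → Fin n := fun a => ι ⟨π a, mem_image_of_mem _ (mem_univ a)⟩
    apply hzB
    refine hi π' z hzZ ?_
    intro σ hσ
    refine hinv σ fun a => ?_
    have := hι (hσ a)
    simpa using this
  · push Not at hR
    let i : Fin (n + 1) → Fin r := fun k => R.orderEmbOfFin rfl (Fin.castLE hR k)
    have himono : ∀ k l : Fin (n + 1), k < l → i k < i l := by
      intro k l hkl
      have : Fin.castLE hR k < Fin.castLE hR l := by simpa using hkl
      simpa [i] using this
    have hiinj : Function.Injective i := (fun k l => by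
      intro h
      rcases lt_trichotomy k l with h1 | h1 | h1
      · exact absurd h (himono _ _ h1).ne
      · exact h1
      · exact absurd h (himono _ _ h1).ne')
    have hiR : ∀ k, ∃ q, π q = i k := by
      intro k
      have : i k ∈ R := R.orderEmbOfFin_mem rfl _
      obtain ⟨q, -, hq⟩ := mem_image.mp this
      exact ⟨q, hq⟩
    choose q hq using hiR
    have hqinj : Function.Injective q := by
      intro k l h
      apply hiinj
      rw [← hq k, ← hq l, h]
    apply hzB
    refine hRepDesc K α V ρ B hB z n q (fun k => univ.filter fun a => π a = i k) ?_ ?_ ?_ ?_ ?_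
    · intro k l hkl
      rw [Finset.disjoint_left]
      intro a ha hb
      rw [mem_filter] at ha hb
      exact hkl (hiinj (ha.2.symm.trans hb.2))
    · intro k
      simp [hq k]
    · intro k a ha
      have ha' : π a = i k := (mem_filter.mp ha).2
      refine hinv _ fun b => ?_
      by_cases hb1 : b = q k
      · rw [hb1, Equiv.swap_apply_left, ha', hq k]
      · by_cases hb2 : b = a
        · rw [hb2, Equiv.swap_apply_right, ha', hq k]
        · rw [Equiv.swap_apply_of_ne_of_ne hb1 hb2]
    · intro k l hkl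
      refine hmin' (Function.update π (q l) (i k)) _ ?_ ?_ ?_
      · refine Z.add_mem hzZ (Z.sum_mem fun a _ => hZ _ _ hzZ)
      · refine hRepGar K α V ρ r π z (q l) (i k) hinv ?_
        rw [hq l]
        exact (himono k l hkl).ne'
      · refine Finset.sum_lt_sum ?_ ⟨q l, mem_univ _, ?_⟩
        · intro a _
          by_cases ha : a = q l
          · rw [ha, Function.update_self, hq l]
            exact (himono k l hkl).le
          · rw [Function.update_of_ne ha]
        · rw [Function.update_self, hq l]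
          exact himono k l hkl
    · refine hii (univ.image q) ?_ _ ?_ ?_
      · rw [card_image_of_injective _ hqinj]
        simp
      · refine Z.sum_mem fun σ _ => Z.smul_mem _ (hZ _ _ hzZ)
      · intro τ hτ
        rw [map_sum, Finset.smul_sum]
        refine Finset.sum_equiv (Equiv.mulLeft τ) ?_ ?_
        · intro σ
          have hfix : ∀ a, (∀ i, q i ≠ a) → τ a = a := by
            intro a ha
            apply hτ
            simpa using ha
          simp only [mem_filter, mem_univ, true_and, Equiv.coe_mulLeft, Equiv.Perm.mul_apply]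
          constructor
          · intro h a ha
            rw [h a ha, hfix a ha]
          · intro h a ha
            exact τ.injective ((h a ha).trans (hfix a ha).symm)
        · intro σ _
          simp only [Equiv.coe_mulLeft, map_smul, map_mul, smul_smul]
          have h1 : (ρ τ) ((ρ σ) z) = (ρ τ * ρ σ) z := rfl
          rw [h1]
          congr 1
          have hs : ((Equiv.Perm.sign τ : ℤ) : K) * ((Equiv.Perm.sign τ : ℤ) : K) = 1 := by
            rcases Int.units_eq_one_or (Equiv.Perm.sign τ) with h | h <;> simp [h]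
          push_cast
          rw [← mul_assoc, hs, one_mul]

end Pool.Agent.Work.MP_1233f5_ag.V

end

section

/-! Item RepDesc: descending through the antisymmetrizers. -/

set_option autoImplicit false

namespace Pool.Agent.Work.MP_1233f5_ag.V

open Finset

section
variable {K : Type} [Field K] {α : Type} [Fintype α] [DecidableEq α]
  {V : Type} [AddCommGroup V] [Module K V]

/-- permutations moving only points of `S` -/
def RepDesc_Fx (S : Finset α) : Finset (Equiv.Perm α) :=
  univ.filter (fun σ : Equiv.Perm α => ∀ a, a ∉ S → σ a = a)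

theorem RepDesc_mem_Fx {S : Finset α} {σ : Equiv.Perm α} :
    σ ∈ RepDesc_Fx S ↔ ∀ a, a ∉ S → σ a = a := by
  simp [RepDesc_Fx]

/-- antisymmetrizer of `S` applied to `z` -/
def RepDesc_A (ρ : Equiv.Perm α →* Module.End K V) (S : Finset α) (z : V) : V :=
  ∑ σ ∈ RepDesc_Fx S, ((Equiv.Perm.sign σ : ℤ) : K) • ρ σ z

theorem RepDesc_mapsS {S : Finset α} {σ : Equiv.Perm α} (h : σ ∈ RepDesc_Fx S) {a : α}
    (ha : a ∈ S) : σ a ∈ S := by
  rw [RepDesc_mem_Fx] at h
  by_contra hc
  have h1 := h _ hc
  have h2 : σ a = a := σ.injective h1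
  rw [h2] at hc
  exact hc ha

theorem RepDesc_inv_mem {S : Finset α} {σ : Equiv.Perm α} (h : σ ∈ RepDesc_Fx S) :
    σ⁻¹ ∈ RepDesc_Fx S := by
  rw [RepDesc_mem_Fx] at h ⊢
  intro a ha
  rw [Equiv.Perm.inv_eq_iff_eq]
  exact (h a ha).symm

theorem RepDesc_fact1 (ρ : Equiv.Perm α →* Module.End K V) (S : Finset α) (q : α) (hq : q ∉ S)
    (z : V) : RepDesc_A ρ (insert q S) z =
      RepDesc_A ρ S z - ∑ c ∈ S, ρ (Equiv.swap q c) (RepDesc_A ρ S z) := by
  have h1 : RepDesc_A ρ (insert q S) z = ∑ c ∈ insert q S, ∑ τ ∈ RepDesc_Fx S,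
      ((Equiv.Perm.sign (Equiv.swap q c * τ) : ℤ) : K) • ρ (Equiv.swap q c * τ) z := by
    rw [RepDesc_A, ← Finset.sum_product']
    refine Finset.sum_nbij' (fun σ => (σ q, Equiv.swap q (σ q) * σ))
      (fun x => Equiv.swap q x.1 * x.2) ?_ ?_ ?_ ?_ ?_
    · intro σ hσ
      rw [Finset.mem_product]
      have hq' : σ q ∈ insert q S := RepDesc_mapsS hσ (Finset.mem_insert_self _ _)
      refine ⟨hq', ?_⟩
      rw [RepDesc_mem_Fx] at hσ ⊢
      intro a ha
      rw [Equiv.Perm.mul_apply]
      by_cases haq : a = q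
      · rw [haq, Equiv.swap_apply_right]
      · have ha' : a ∉ insert q S := by
          rw [Finset.mem_insert]; tauto
        rw [hσ a ha']
        exact Equiv.swap_apply_of_ne_of_ne haq (fun h => ha' (h ▸ hq'))
    · rintro ⟨c, τ⟩ hx
      rw [Finset.mem_product] at hx
      obtain ⟨hc, hτ⟩ := hx
      simp only at hc hτ ⊢
      rw [RepDesc_mem_Fx] at hτ ⊢
      intro a ha
      rw [Equiv.Perm.mul_apply]
      have ha' := Finset.mem_insert.not.mp ha
      rw [hτ a (fun h => ha' (Or.inr h))]
      exact Equiv.swap_apply_of_ne_of_ne (fun h => ha' (Or.inl h)) (fun h => ha (h ▸ hc))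
    · intro σ _
      simp only
      rw [← mul_assoc, Equiv.swap_mul_self, one_mul]
    · rintro ⟨c, τ⟩ hx
      rw [Finset.mem_product] at hx
      obtain ⟨hc, hτ⟩ := hx
      simp only at hc hτ ⊢
      rw [RepDesc_mem_Fx] at hτ
      have h2 : (Equiv.swap q c * τ) q = c := by
        rw [Equiv.Perm.mul_apply, hτ q hq, Equiv.swap_apply_left]
      rw [h2, ← mul_assoc, Equiv.swap_mul_self, one_mul]
    · intro σ _
      simp only
      rw [← mul_assoc, Equiv.swap_mul_self, one_mul]
  rw [h1, Finset.sum_insert hq]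
  have h3 : (∑ τ ∈ RepDesc_Fx S, ((Equiv.Perm.sign (Equiv.swap q q * τ) : ℤ) : K) •
      ρ (Equiv.swap q q * τ) z) = RepDesc_A ρ S z := by
    rw [RepDesc_A]
    refine Finset.sum_congr rfl (fun τ _ => ?_)
    rw [Equiv.swap_self]
    change ((Equiv.Perm.sign (1 * τ) : ℤ) : K) • ρ (1 * τ) z = _
    rw [one_mul]
  rw [h3, sub_eq_add_neg, ← Finset.sum_neg_distrib]
  congr 1
  refine Finset.sum_congr rfl (fun c hc => ?_)
  rw [RepDesc_A, map_sum, ← Finset.sum_neg_distrib]
  refine Finset.sum_congr rfl (fun τ _ => ?_)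
  have hne : q ≠ c := fun h => hq (h ▸ hc)
  rw [map_smul, map_mul, map_mul, Equiv.Perm.sign_swap hne, Module.End.mul_apply, ← neg_smul]
  congr 1
  push_cast
  ring

theorem RepDesc_step [CharZero K] (ρ : Equiv.Perm α →* Module.End K V) (B : Submodule K V)
    (hB : ∀ σ, ∀ z ∈ B, ρ σ z ∈ B) (z : V) (q : α) (S bl : Finset α) (hqbl : q ∈ bl)
    (hdis : ∀ a ∈ bl, a ∉ S) (hinv : ∀ a ∈ bl, ρ (Equiv.swap q a) z = z)
    (hgar : ∀ c ∈ S, z + ∑ a ∈ bl, ρ (Equiv.swap a c) z ∈ B)
    (hA : RepDesc_A ρ (insert q S) z ∈ B) : RepDesc_A ρ S z ∈ B := by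
  have hq : q ∉ S := hdis q hqbl
  set A := RepDesc_A ρ S z with hAdef
  -- swaps `q a` fix `A`
  have hfix : ∀ a ∈ bl, ρ (Equiv.swap q a) A = A := by
    intro a ha
    rw [hAdef, RepDesc_A, map_sum]
    refine Finset.sum_congr rfl (fun σ hσ => ?_)
    rw [map_smul]
    congr 1
    rw [← Module.End.mul_apply, ← map_mul]
    have hσ' := RepDesc_mem_Fx.mp hσ
    have h1 : Equiv.swap q a * σ = σ * Equiv.swap q a := by
      rw [Equiv.mul_swap_eq_swap_mul, hσ' q hq, hσ' a (hdis a ha)]
    rw [h1, map_mul, Module.End.mul_apply, hinv a ha]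
  have hX : ∑ a ∈ bl, ρ (Equiv.swap q a) (RepDesc_A ρ (insert q S) z) ∈ B :=
    Submodule.sum_mem _ (fun a _ => hB _ _ hA)
  have hX2 : ∑ a ∈ bl, ρ (Equiv.swap q a) (RepDesc_A ρ (insert q S) z) =
      (bl.card : K) • A - ∑ a ∈ bl, ∑ c ∈ S, ρ (Equiv.swap a c) A := by
    rw [RepDesc_fact1 ρ S q hq z]
    have h1 : ∀ a ∈ bl, ρ (Equiv.swap q a) (RepDesc_A ρ S z -
        ∑ c ∈ S, ρ (Equiv.swap q c) (RepDesc_A ρ S z)) = A - ∑ c ∈ S, ρ (Equiv.swap a c) A := by
      intro a ha
      rw [map_sub, map_sum]
      congr 1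
      · exact hfix a ha
      · refine Finset.sum_congr rfl (fun c hc => ?_)
        have hcq : c ≠ q := fun h => hq (h ▸ hc)
        have hca : c ≠ a := fun h => hdis a ha (h ▸ hc)
        rw [← Module.End.mul_apply, ← map_mul, Equiv.mul_swap_eq_swap_mul, Equiv.swap_apply_left,
          Equiv.swap_apply_of_ne_of_ne hcq hca, map_mul, Module.End.mul_apply]
        congr 1
        exact hfix a ha
    rw [Finset.sum_congr rfl h1, Finset.sum_sub_distrib, Finset.sum_const, Nat.cast_smul_eq_nsmul]
  have hY : ∑ a ∈ bl, ∑ c ∈ S, ρ (Equiv.swap a c) A + (S.card : K) • A ∈ B := by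
    have h1 : ∑ a ∈ bl, ∑ c ∈ S, ρ (Equiv.swap a c) A + (S.card : K) • A =
        ∑ σ ∈ RepDesc_Fx S, ((Equiv.Perm.sign σ : ℤ) : K) •
          ρ σ (∑ c ∈ S, (z + ∑ a ∈ bl, ρ (Equiv.swap a c) z)) := by
      have h2 : ∀ σ ∈ RepDesc_Fx S, ρ σ (∑ c ∈ S, (z + ∑ a ∈ bl, ρ (Equiv.swap a c) z)) =
          (S.card : K) • ρ σ z + ∑ a ∈ bl, ∑ c ∈ S, ρ (Equiv.swap a c) (ρ σ z) := by
        intro σ hσ
        have hσ' := RepDesc_mem_Fx.mp hσ
        rw [Finset.sum_add_distrib, Finset.sum_const, map_add, map_nsmul, Nat.cast_smul_eq_nsmul]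
        congr 1
        rw [Finset.sum_comm, map_sum]
        refine Finset.sum_congr rfl (fun a ha => ?_)
        rw [map_sum]
        refine Finset.sum_nbij' (fun c => σ c) (fun c => σ⁻¹ c) ?_ ?_ ?_ ?_ ?_
        · intro c hc
          exact RepDesc_mapsS hσ hc
        · intro c hc
          exact RepDesc_mapsS (RepDesc_inv_mem hσ) hc
        · intro c _
          simp
        · intro c _
          simp
        · intro c _
          rw [← Module.End.mul_apply, ← Module.End.mul_apply, ← map_mul, ← map_mul,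
            Equiv.mul_swap_eq_swap_mul, hσ' a (hdis a ha)]
      have h3 : ∑ σ ∈ RepDesc_Fx S, ((Equiv.Perm.sign σ : ℤ) : K) •
          ρ σ (∑ c ∈ S, (z + ∑ a ∈ bl, ρ (Equiv.swap a c) z)) =
          ∑ σ ∈ RepDesc_Fx S, ((Equiv.Perm.sign σ : ℤ) : K) •
          ((S.card : K) • ρ σ z + ∑ a ∈ bl, ∑ c ∈ S, ρ (Equiv.swap a c) (ρ σ z)) :=
        Finset.sum_congr rfl (fun σ hσ => by rw [h2 σ hσ])
      rw [h3]
      simp only [smul_add, Finset.sum_add_distrib]
      rw [add_comm]
      congr 1
      · rw [hAdef, RepDesc_A, Finset.smul_sum]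
        refine Finset.sum_congr rfl (fun σ _ => ?_)
        rw [smul_comm]
      · rw [hAdef, RepDesc_A]
        simp only [map_sum, map_smul, Finset.smul_sum]
        symm
        rw [Finset.sum_comm]
        refine Finset.sum_congr rfl (fun a _ => ?_)
        rw [Finset.sum_comm]
    rw [h1]
    refine Submodule.sum_mem _ (fun σ _ => Submodule.smul_mem _ _ (hB _ _ ?_))
    exact Submodule.sum_mem _ (fun c hc => hgar c hc)
  have hZ : ((bl.card : K) + (S.card : K)) • A ∈ B := by
    have h1 : ((bl.card : K) + (S.card : K)) • A =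
        ∑ a ∈ bl, ρ (Equiv.swap q a) (RepDesc_A ρ (insert q S) z) +
          (∑ a ∈ bl, ∑ c ∈ S, ρ (Equiv.swap a c) A + (S.card : K) • A) := by
      rw [hX2, add_smul]
      abel
    rw [h1]
    exact Submodule.add_mem _ hX hY
  have hne : ((bl.card : K) + (S.card : K)) ≠ 0 := by
    have h1 : 0 < bl.card := Finset.card_pos.mpr ⟨q, hqbl⟩
    have h2 : bl.card + S.card ≠ 0 := by omega
    exact_mod_cast h2
  exact (Submodule.smul_mem_iff B hne).mp hZ

end

theorem pr_RepDesc : S_RepDesc := by
  intro K _ _ α _ _ V _ _ ρ B hB z n q blk hdisj hq hinv hgar hA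
  have key : ∀ k : ℕ, k ≤ n + 1 →
      RepDesc_A ρ ((univ.filter (fun j : Fin (n + 1) => k ≤ (j : ℕ))).image q) z ∈ B := by
    intro k
    induction k with
    | zero =>
      intro _
      have h1 : RepDesc_Fx ((univ.filter (fun j : Fin (n + 1) => 0 ≤ (j : ℕ))).image q) =
          univ.filter (fun σ : Equiv.Perm α => ∀ a, (∀ i, q i ≠ a) → σ a = a) := by
        ext σ
        simp [RepDesc_mem_Fx]
      rw [RepDesc_A, h1]
      exact hA
    | succ k ih =>
      intro hk
      have hk' : k < n + 1 := by omega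
      have h0 := ih (by omega)
      have h1 : (univ.filter (fun j : Fin (n + 1) => k ≤ (j : ℕ))).image q =
          insert (q ⟨k, hk'⟩) ((univ.filter (fun j : Fin (n + 1) => k + 1 ≤ (j : ℕ))).image q) := by
        rw [← Finset.image_insert]
        congr 1
        ext j
        simp only [mem_filter, mem_univ, true_and, mem_insert, Fin.ext_iff]
        omega
      rw [h1] at h0
      refine RepDesc_step ρ B hB z (q ⟨k, hk'⟩) _ (blk ⟨k, hk'⟩) (hq _) ?_ (hinv _) ?_ h0
      · intro a ha hmem
        rw [Finset.mem_image] at hmem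
        obtain ⟨j, hj, hja⟩ := hmem
        have hj' := (Finset.mem_filter.mp hj).2
        have hne : (⟨k, hk'⟩ : Fin (n + 1)) ≠ j := by
          intro h; rw [← h] at hj'; simp at hj'
        have h2 := hdisj _ _ hne
        rw [Finset.disjoint_left] at h2
        exact h2 ha (hja ▸ hq j)
      · intro c hc
        rw [Finset.mem_image] at hc
        obtain ⟨j, hj, hja⟩ := hc
        have hj' := (Finset.mem_filter.mp hj).2
        rw [← hja]
        exact hgar ⟨k, hk'⟩ j (by rw [Fin.lt_def]; exact hj')
  have h := key (n + 1) le_rfl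
  have h1 : (univ.filter (fun j : Fin (n + 1) => n + 1 ≤ (j : ℕ))).image q = ∅ := by
    rw [Finset.image_eq_empty, Finset.filter_eq_empty_iff]
    intro j _
    have := j.2
    omega
  rw [h1] at h
  have h2 : RepDesc_Fx (∅ : Finset α) = {1} := by
    ext σ
    rw [RepDesc_mem_Fx, Finset.mem_singleton]
    constructor
    · intro h
      ext a
      simpa using h a (by simp)
    · rintro rfl a _
      rfl
  rw [RepDesc_A, h2, Finset.sum_singleton] at h
  simpa using h

end Pool.Agent.Work.MP_1233f5_ag.V

end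

section

set_option autoImplicit false

namespace Pool.Agent.Work.MP_1233f5_ag.V

open Finset

theorem pr_RepGar : S_RepGar := by
  intro K _ _ α _ _ V _ _ ρ r π z q i hz hq τ hτ
  have hq' : Function.update π q i q = i := by simp
  have hne : ∀ a, a ≠ q → Function.update π q i a = π a := fun a ha => by
    rw [Function.update_of_ne ha]
  have hsum : z + ∑ a ∈ univ.filter (fun a => π a = i), ρ (Equiv.swap a q) z =
      ∑ b ∈ univ.filter (fun b => Function.update π q i b = i), ρ (Equiv.swap b q) z := by
    have h1 : univ.filter (fun b => Function.update π q i b = i) =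
        insert q (univ.filter (fun a => π a = i)) := by
      ext b
      simp only [mem_filter, mem_univ, true_and, mem_insert, Function.update_apply]
      by_cases hb : b = q
      · simp [hb]
      · simp [hb]
    have h2 : ρ (Equiv.swap q q) z = z := by
      rw [Equiv.swap_self, ← Equiv.Perm.one_def, map_one, Module.End.one_apply]
    rw [h1, sum_insert (by simp [hq]), h2]
  rw [hsum, map_sum]
  have hsw : ∀ b, Function.update π q i b = i → ∀ a,
      Function.update π q i (Equiv.swap b q a) = Function.update π q i a := by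
    intro b hb a
    rw [Equiv.swap_apply_def]
    split_ifs with h1 h2
    · rw [h1, hb, hq']
    · rw [h2, hb, hq']
    · rfl
  have key : ∀ b, Function.update π q i b = i →
      ρ τ (ρ (Equiv.swap b q) z) = ρ (Equiv.swap (τ b) q) z := by
    intro b hb
    have hτb : Function.update π q i (τ b) = i := by rw [hτ, hb]
    have h : ρ (Equiv.swap (τ b) q * τ * Equiv.swap b q) z = z := by
      apply hz
      have hfix : (Equiv.swap (τ b) q * τ * Equiv.swap b q) q = q := by
        simp [Equiv.Perm.mul_apply]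
      have hpres : ∀ a, Function.update π q i ((Equiv.swap (τ b) q * τ * Equiv.swap b q) a) =
          Function.update π q i a := by
        intro a
        rw [Equiv.Perm.mul_apply, Equiv.Perm.mul_apply, hsw _ hτb, hτ, hsw _ hb]
      intro a
      by_cases ha : a = q
      · rw [ha, hfix]
      · have h2 : (Equiv.swap (τ b) q * τ * Equiv.swap b q) a ≠ q := by
          intro h3
          apply ha
          apply (Equiv.swap (τ b) q * τ * Equiv.swap b q).injective
          rw [h3, hfix]
        have h4 := hpres a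
        rw [hne _ h2, hne _ ha] at h4
        exact h4
    have h5 : ρ (Equiv.swap (τ b) q) (ρ (Equiv.swap (τ b) q * τ * Equiv.swap b q) z) =
        ρ τ (ρ (Equiv.swap b q) z) := by
      rw [← Module.End.mul_apply, ← map_mul, ← Module.End.mul_apply, ← map_mul]
      congr 2
      rw [← mul_assoc, ← mul_assoc, Equiv.swap_mul_self, one_mul]
    rw [← h5, h]
  refine Finset.sum_bij (fun b _ => τ b) ?_ (fun a _ b _ h => τ.injective h) ?_ ?_
  · intro b hb
    simp only [mem_filter, mem_univ, true_and] at hb ⊢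
    rw [hτ, hb]
  · intro b hb
    simp only [mem_filter, mem_univ, true_and] at hb
    refine ⟨τ.symm b, ?_, by simp⟩
    simp only [mem_filter, mem_univ, true_and]
    have h1 := hτ (τ.symm b)
    rw [Equiv.apply_symm_apply] at h1
    rw [← h1, hb]
  · intro b hb
    simp only [mem_filter, mem_univ, true_and] at hb
    exact key b hb

end Pool.Agent.Work.MP_1233f5_ag.V

end

section

set_option autoImplicit false

namespace Pool.Agent.Work.MP_1233f5_ag.V

open Finset

namespace Step

section sub
variable {K : Type} [Field K] {B : Type}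

theorem dd_add (M : Finset B) {p : ℕ} (c c' : (Fin (p + 1) → B) → K) (t : Fin p → B) :
    dd M (fun s => c s + c' s) t = dd M c t + dd M c' t := by
  simp [dd, Finset.sum_add_distrib]

theorem dd_smul (M : Finset B) {p : ℕ} (a : K) (c : (Fin (p + 1) → B) → K) (t : Fin p → B) :
    dd M (fun s => a * c s) t = a * dd M c t := by
  simp [dd, Finset.mul_sum]

theorem rCh_zero (G : Pred B) (p : ℕ) : rCh (K := K) G p (fun _ => 0) :=
  ⟨Alt.zero, fun _ h => absurd rfl h⟩

theorem rCh_add {G : Pred B} {p : ℕ} {c c' : (Fin p → B) → K} (h : rCh G p c) (h' : rCh G p c') :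
    rCh G p (fun t => c t + c' t) := by
  refine ⟨h.1.add h'.1, fun t ht => ?_⟩
  by_cases h1 : c t = 0
  · by_cases h2 : c' t = 0
    · exact absurd (by simp [h1, h2]) ht
    · exact h'.2 t h2
  · exact h.2 t h1

theorem rCh_smul {G : Pred B} {p : ℕ} (a : K) {c : (Fin p → B) → K} (h : rCh G p c) :
    rCh G p (fun t => a * c t) := by
  refine ⟨h.1.smul a, fun t ht => h.2 t (fun h1 => ht ?_)⟩
  simp [h1]

/-- cycles -/
def subZ (M : Finset B) (G : Pred B) (p : ℕ) : Submodule K ((Fin p → B) → K) where
  carrier := {c | rCh G p c ∧ rcyc M G p c}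
  zero_mem' := by
    refine ⟨rCh_zero G p, ?_⟩
    rcases p with _ | p
    · trivial
    · intro t _; simp [dd]
  add_mem' := by
    rintro c c' ⟨h1, h2⟩ ⟨h3, h4⟩
    refine ⟨rCh_add h1 h3, ?_⟩
    rcases p with _ | p
    · trivial
    · intro t ht
      have := dd_add M c c' t
      rw [h2 t ht, h4 t ht, add_zero] at this
      exact this
  smul_mem' := by
    rintro a c ⟨h1, h2⟩
    refine ⟨rCh_smul a h1, ?_⟩
    rcases p with _ | p
    · trivial
    · intro t ht
      have := dd_smul M a c t
      rw [h2 t ht, mul_zero] at this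
      exact this

/-- boundaries -/
def subB (M : Finset B) (G : Pred B) (p : ℕ) : Submodule K ((Fin p → B) → K) where
  carrier := {c | ∃ g : (Fin (p + 1) → B) → K, rCh G (p + 1) g ∧ (∀ t, G p t → dd M g t = c t) ∧
    ∀ t, c t ≠ 0 → G p t}
  zero_mem' := ⟨fun _ => 0, rCh_zero G _, fun t _ => by simp [dd], fun t h => absurd rfl h⟩
  add_mem' := by
    rintro c c' ⟨g, h1, h2, h3⟩ ⟨g', h1', h2', h3'⟩
    refine ⟨_, rCh_add h1 h1', fun t ht => ?_, fun t ht => ?_⟩
    · rw [dd_add, h2 t ht, h2' t ht]; rfl
    · by_cases h4 : c t = 0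
      · by_cases h5 : c' t = 0
        · exact absurd (by simp [h4, h5]) ht
        · exact h3' t h5
      · exact h3 t h4
  smul_mem' := by
    rintro a c ⟨g, h1, h2, h3⟩
    refine ⟨_, rCh_smul a h1, fun t ht => ?_, fun t ht => h3 t (fun h => ht ?_)⟩
    · rw [dd_smul, h2 t ht]; rfl
    · simp [h]

end sub

section act
variable {K : Type} [Field K] {α : Type}

/-- the action on functions of tuples of sets. -/
def rho (K : Type) [Field K] (α : Type) (p : ℕ) :
    Equiv.Perm α →* Module.End K ((Fin p → Finset α) → K) where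
  toFun σ :=
    { toFun := fun c t => c (fun i => (t i).map (σ⁻¹ : Equiv.Perm α).toEmbedding)
      map_add' := fun _ _ => rfl
      map_smul' := fun _ _ => rfl }
  map_one' := by
    apply LinearMap.ext
    intro c
    funext t
    simp only [LinearMap.coe_mk, AddHom.coe_mk, Module.End.one_apply]
    congr 1
    funext i
    have h1 : ((1 : Equiv.Perm α)⁻¹).toEmbedding = Function.Embedding.refl α := by
      ext x; rfl
    rw [h1, Finset.map_refl]
  map_mul' σ τ := by
    apply LinearMap.ext
    intro c
    funext t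
    simp only [LinearMap.coe_mk, AddHom.coe_mk, Module.End.mul_apply]
    congr 1
    funext i
    rw [Finset.map_map]
    congr 1

theorem rho_apply (p : ℕ) (σ : Equiv.Perm α) (c : (Fin p → Finset α) → K)
    (t : Fin p → Finset α) :
    rho K α p σ c t = c (fun i => (t i).map (σ⁻¹ : Equiv.Perm α).toEmbedding) := rfl

variable [Fintype α]

theorem vm_map (d p : ℕ) (σ : Equiv.Perm α) {t : Fin p → Finset α}
    (h : vm d univ p (fun i => (t i).map σ.toEmbedding)) : vm d univ p t := by
  refine ⟨fun i => ⟨?_, Finset.subset_univ _⟩, fun i j hij => ?_⟩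
  · have := (h.1 i).1
    simpa using this
  · have := h.2 i j hij
    simpa [Finset.disjoint_map] using this

theorem vm_map' (d p : ℕ) (σ : Equiv.Perm α) {t : Fin p → Finset α}
    (h : vm d univ p t) : vm d univ p (fun i => (t i).map σ.toEmbedding) := by
  refine ⟨fun i => ⟨?_, Finset.subset_univ _⟩, fun i j hij => ?_⟩
  · have := (h.1 i).1
    simpa using this
  · have := h.2 i j hij
    simpa [Finset.disjoint_map] using this

theorem dd_rho (p : ℕ) (σ : Equiv.Perm α) (c : (Fin (p + 1) → Finset α) → K)
    (t : Fin p → Finset α) :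
    dd univ (rho K α (p + 1) σ c) t =
      dd univ c (fun i => (t i).map (σ⁻¹ : Equiv.Perm α).toEmbedding) := by
  simp only [dd, rho_apply]
  refine Fintype.sum_equiv (Equiv.finsetCongr (σ⁻¹ : Equiv.Perm α)) _ _ (fun b => ?_)
  congr 1
  funext i
  refine Fin.cases ?_ (fun i => ?_) i
  · simp [Equiv.finsetCongr_apply]
  · simp

theorem rCh_rho (d p : ℕ) (σ : Equiv.Perm α) {c : (Fin p → Finset α) → K}
    (h : rCh (vm d univ) p c) : rCh (vm d univ) p (rho K α p σ c) := by
  refine ⟨fun τ t => ?_, fun t ht => ?_⟩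
  · rw [rho_apply, rho_apply]
    exact h.1 τ (fun i => (t i).map (σ⁻¹ : Equiv.Perm α).toEmbedding)
  · exact vm_map d p _ (h.2 _ ht)

end act

/-- no matchings if there are too few edges. -/
theorem vG_empty {α : Type} [Fintype α] [DecidableEq α] {d p n : ℕ} {Q : Finset α}
    (hQ : Q.card = n + 1) (hp : p < n) (t : Fin p → Finset α) : ¬ vG d univ Q p t := by
  rintro ⟨_, h1, h2⟩
  have h3 : Q ⊆ (univ.biUnion (fun i => t i ∩ Q)) ∪ Q.filter (fun q => ∀ i, q ∉ t i) := by
    intro q hq
    rw [Finset.mem_union, Finset.mem_biUnion, Finset.mem_filter]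
    by_cases h : ∀ i, q ∉ t i
    · exact Or.inr ⟨hq, h⟩
    · push Not at h
      obtain ⟨i, hi⟩ := h
      exact Or.inl ⟨i, mem_univ _, Finset.mem_inter.mpr ⟨hi, hq⟩⟩
  have h4 := Finset.card_le_card h3
  have h5 := Finset.card_union_le (univ.biUnion (fun i => t i ∩ Q))
    (Q.filter (fun q => ∀ i, q ∉ t i))
  have h6 : (univ.biUnion (fun i => t i ∩ Q)).card ≤ p := by
    refine le_trans Finset.card_biUnion_le ?_
    refine le_trans (Finset.sum_le_card_nsmul _ _ 1 (fun i _ => h1 i)) ?_
    simp
  have h7 : (Q.filter (fun q => ∀ i, q ∉ t i)).card ≤ 1 := by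
    rw [Finset.card_le_one]
    intro a ha b hb
    rw [Finset.mem_filter] at ha hb
    exact h2 a ha.1 b hb.1 ha.2 hb.2
  omega

theorem vG_van (hG : S_G) (hTr : S_Tr) (K : Type) [Field K] [CharZero K] (d T p n : ℕ)
    (hd : 2 ≤ d) (hT : 1 ≤ T) (h1 : ∀ p', p' + (n + 1) = p → ML K d T p')
    (h2 : ∀ p', p' + n = p → ML K d (T - 1) p') (Q : Finset (Fin (p * d + T)))
    (hQ : Q.card = n + 1) : rVan K univ (vG d univ Q) p := by
  rcases Nat.lt_or_ge p n with h | h
  · intro c _ _
    refine ⟨fun _ => 0, rCh_zero _ _, fun t ht => absurd ht (vG_empty hQ h t)⟩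
  · obtain ⟨q, rfl⟩ := Nat.exists_eq_add_of_le' h
    refine hG K _ d n q (q * d + (T - 1)) univ Q (by omega) (Finset.subset_univ _) hQ ?_ ?_ ?_
    · rw [Finset.card_univ, Fintype.card_fin]
      have : (q + n) * d = q * d + n * d := by ring
      omega
    · intro P' hP'
      have h3 := h2 q rfl
      refine hTr K _ _ d q univ P' ?_ h3
      rw [Finset.card_univ, Fintype.card_fin, hP']
    · intro p' s' hq hs P' hP'
      have h3 := h1 p' (by omega)
      refine hTr K _ _ d p' univ P' ?_ h3
      rw [Finset.card_univ, Fintype.card_fin] at hs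
      rw [Finset.card_univ, Fintype.card_fin, hP']
      subst hq
      have : (p' + 1 + n) * d = p' * d + (n + 1) * d := by ring
      omega

end Step

open Step in
theorem pr_Step (hRep : S_Rep) (hG : S_G) (hA : S_A) (hTr : S_Tr) (hTransA : S_TransA)
    (hLemD : S_LemD) : S_Step := by
  intro K _ _ d T p n T' hd hn hT hTT hineq h1 h2
  set α := Fin (p * d + T) with hα
  have key : subZ (K := K) (univ : Finset (Finset α)) (vm d univ) p ≤
      subB (univ : Finset (Finset α)) (vm d univ) p := by
    refine hRep K α _ (rho K α p) _ _ ?_ ?_ n ?_ ?_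
    · rintro σ z ⟨hz1, hz2⟩
      refine ⟨rCh_rho d p σ hz1, ?_⟩
      rcases p with _ | p
      · trivial
      · intro t ht
        rw [dd_rho]
        exact hz2 _ (vm_map' d p _ ht)
    · rintro σ z ⟨g, hg1, hg2, hg3⟩
      refine ⟨rho K α (p + 1) σ g, rCh_rho d _ σ hg1, fun t ht => ?_, fun t ht => ?_⟩
      · rw [dd_rho, hg2 _ (vm_map' d p _ ht)]
        rfl
      · exact vm_map d p _ (hg3 _ ht)
    · rintro π z ⟨hz1, hz2⟩ hinv
      have hv : rVan K (Mo n d) (vw d (fib π)) p := by
        refine hLemD K n d p T T' (fib π) hn hd ?_ hTT hineq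
        have h3 := Finset.card_eq_sum_card_fiberwise (f := π) (s := (univ : Finset α))
          (t := (univ : Finset (Fin n))) (fun x _ => mem_univ _)
        have h4 : (univ : Finset α).card = p * d + T := by
          rw [Finset.card_univ]; exact Fintype.card_fin _
        refine Eq.trans ?_ (h3.symm.trans h4)
        rfl
      obtain ⟨g, hg1, hg2⟩ := hTransA K α n d p π hv z hz1 hz2 (by
        intro σ hσ t
        have h3 := hinv σ⁻¹ (by
          intro a
          have := hσ (σ⁻¹ a)
          rw [show σ (σ⁻¹ a) = a from σ.apply_symm_apply a] at this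
          exact this.symm)
        have h4 := congrFun h3 t
        rw [rho_apply, inv_inv] at h4
        exact h4)
      exact ⟨g, hg1, hg2, hz1.2⟩
    · rintro Q hQ z ⟨hz1, hz2⟩ hanti
      obtain ⟨g, hg1, hg2⟩ := hA K α d p Q (vG_van hG hTr K d T p n hd hT h1 h2 Q hQ) z hz1 hz2 (by
        intro σ hσ t
        have h3 := hanti σ⁻¹ (by
          intro a ha
          have := hσ a ha
          rw [Equiv.Perm.inv_eq_iff_eq]
          exact this.symm)
        have h4 := congrFun h3 t
        rw [rho_apply, inv_inv, Equiv.Perm.sign_inv] at h4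
        exact h4)
      exact ⟨g, hg1, hg2, hz1.2⟩
  intro c hc hcyc
  obtain ⟨g, hg1, hg2, _⟩ := key ⟨hc, hcyc⟩
  exact ⟨g, hg1, hg2⟩

end Pool.Agent.Work.MP_1233f5_ag.V

end

section

/-! MP_1233f5_ag, block V, item Tr (relabelling) (helper27) -/

set_option autoImplicit false

namespace Pool.Agent.Work.MP_1233f5_ag.V

open Finset

section Tr
variable {K : Type} [Field K] {α β : Type} [DecidableEq α] [DecidableEq β]
  {P : Finset α} {P' : Finset β}

/-- transport of a set along a bijection `P ≃ P'` -/
def TrT (φ : P ≃ P') (e : Finset α) : Finset β :=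
  ((univ : Finset {x // x ∈ P}).filter (fun x : {x // x ∈ P} => (x : α) ∈ e)).image
    (fun x : {x // x ∈ P} => ((φ x : P') : β))

theorem mem_TrT (φ : P ≃ P') (e : Finset α) (y : β) :
    y ∈ TrT φ e ↔ ∃ x : P, (x : α) ∈ e ∧ (φ x : β) = y := by
  simp only [TrT, mem_image, mem_filter, mem_univ, true_and]

theorem TrT_subset (φ : P ≃ P') (e : Finset α) : TrT φ e ⊆ P' := by
  intro y hy
  obtain ⟨x, _, rfl⟩ := (mem_TrT φ e y).1 hy
  exact (φ x).2

theorem TrT_inv (φ : P ≃ P') {e : Finset α} (he : e ⊆ P) : TrT φ.symm (TrT φ e) = e := by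
  ext a
  rw [mem_TrT]
  constructor
  · rintro ⟨y, hy, rfl⟩
    obtain ⟨x, hx, hxy⟩ := (mem_TrT φ e y).1 hy
    have : φ x = y := Subtype.ext hxy
    rw [← this, Equiv.symm_apply_apply]
    exact hx
  · intro ha
    refine ⟨φ ⟨a, he ha⟩, (mem_TrT _ _ _).2 ⟨⟨a, he ha⟩, ha, rfl⟩, ?_⟩
    rw [Equiv.symm_apply_apply]

theorem TrT_inv' (φ : P ≃ P') {e : Finset β} (he : e ⊆ P') : TrT φ (TrT φ.symm e) = e :=
  TrT_inv φ.symm he

theorem TrT_card (φ : P ≃ P') {e : Finset α} (he : e ⊆ P) : (TrT φ e).card = e.card := by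
  refine (Finset.card_bij (fun a ha => ((φ ⟨a, he ha⟩ : P') : β)) ?_ ?_ ?_).symm
  · intro a ha
    exact (mem_TrT _ _ _).2 ⟨⟨a, he ha⟩, ha, rfl⟩
  · intro a ha a' ha' h
    have := φ.injective (Subtype.ext h)
    exact congrArg Subtype.val this
  · intro y hy
    obtain ⟨x, hx, rfl⟩ := (mem_TrT _ _ _).1 hy
    exact ⟨x, hx, rfl⟩

theorem TrT_disj (φ : P ≃ P') {e e' : Finset α} (h : Disjoint e e') :
    Disjoint (TrT φ e) (TrT φ e') := by
  rw [Finset.disjoint_left] at h ⊢
  intro y hy hy'
  obtain ⟨x, hx, hxy⟩ := (mem_TrT _ _ _).1 hy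
  obtain ⟨x', hx', hxy'⟩ := (mem_TrT _ _ _).1 hy'
  have : x = x' := φ.injective (Subtype.ext (hxy.trans hxy'.symm))
  exact h hx (this ▸ hx')

theorem TrT_vm (φ : P ≃ P') {d p : ℕ} {t : Fin p → Finset α} (h : vm d P p t) :
    vm d P' p (fun i => TrT φ (t i)) :=
  ⟨fun i => ⟨(TrT_card φ (h.1 i).2).trans (h.1 i).1, TrT_subset φ _⟩,
    fun i j hij => TrT_disj φ (h.2 i j hij)⟩

/-- transport of a chain -/
def TrC (φ : P ≃ P') {p : ℕ} (c : (Fin p → Finset β) → K) : (Fin p → Finset α) → K :=
  fun t => if ∀ i, t i ⊆ P then c (fun i => TrT φ (t i)) else 0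

theorem TrC_rCh (φ : P ≃ P') {d p : ℕ} {c : (Fin p → Finset β) → K} (hc : rCh (vm d P') p c) :
    rCh (vm d P) p (TrC φ c) := by
  constructor
  · intro σ t
    have h1 := hc.1 σ (fun i => TrT φ (t i))
    have h2 : (∀ i, (t ∘ σ) i ⊆ P) ↔ ∀ i, t i ⊆ P :=
      ⟨fun h i => by simpa using h (σ.symm i), fun h i => h (σ i)⟩
    unfold TrC
    by_cases h : ∀ i, t i ⊆ P
    · rw [if_pos (h2.2 h), if_pos h, ← h1]
      rfl
    · rw [if_neg (fun h' => h (h2.1 h')), if_neg h, mul_zero]
  · intro t ht
    unfold TrC at ht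
    split_ifs at ht with h
    · have h1 := TrT_vm φ.symm (hc.2 _ ht)
      have h2 : (fun i => TrT φ.symm (TrT φ (t i))) = t := funext fun i => TrT_inv φ (h i)
      rw [h2] at h1
      exact h1
    · exact absurd rfl ht

theorem TrC_dd [Fintype α] [Fintype β] (φ : P ≃ P') {d p : ℕ} {c : (Fin (p + 1) → Finset β) → K}
    (hc : rCh (vm d P') (p + 1) c) {t : Fin p → Finset α} (ht : ∀ i, t i ⊆ P) :
    dd univ (TrC φ c) t = dd univ c (fun i => TrT φ (t i)) := by
  unfold dd
  have h1 : ∑ b : Finset α, TrC φ c (Fin.cons b t) =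
      ∑ b ∈ P.powerset, c (Fin.cons (TrT φ b) (fun i => TrT φ (t i))) := by
    symm
    rw [← Finset.sum_subset (Finset.subset_univ P.powerset)]
    · refine Finset.sum_congr rfl fun b hb => ?_
      have h : ∀ i, (Fin.cons b t : Fin (p + 1) → Finset α) i ⊆ P := by
        intro i
        refine Fin.cases ?_ (fun j => ?_) i
        · exact Finset.mem_powerset.1 hb
        · simpa using ht j
      unfold TrC
      rw [if_pos h]
      congr 1
      funext i
      refine Fin.cases ?_ (fun j => ?_) i
      · simp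
      · simp
    · intro b _ hb
      unfold TrC
      rw [if_neg]
      intro h
      exact hb (Finset.mem_powerset.2 (by simpa using h 0))
  have h2 : ∑ b : Finset β, c (Fin.cons b (fun i => TrT φ (t i))) =
      ∑ b ∈ P'.powerset, c (Fin.cons b (fun i => TrT φ (t i))) := by
    symm
    refine Finset.sum_subset (Finset.subset_univ _) fun b _ hb => ?_
    by_contra h
    exact hb (Finset.mem_powerset.2 (by simpa using ((hc.2 _ h).1 0).2))
  rw [h1, h2]
  refine Finset.sum_bij' (fun b _ => TrT φ b) (fun b _ => TrT φ.symm b) ?_ ?_ ?_ ?_ ?_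
  · intro b _
    exact Finset.mem_powerset.2 (TrT_subset φ b)
  · intro b _
    exact Finset.mem_powerset.2 (TrT_subset φ.symm b)
  · intro b hb
    exact TrT_inv φ (Finset.mem_powerset.1 hb)
  · intro b hb
    exact TrT_inv φ.symm (Finset.mem_powerset.1 hb)
  · intro b _
    rfl

end Tr

theorem pr_Tr : S_Tr := by
  intro K _ α β _ _ _ _ d p P P' hcard hV c hc hcyc
  let φ : P ≃ P' := Finset.equivOfCardEq hcard
  obtain ⟨g1, hg1, hg2⟩ := hV (TrC φ c) (TrC_rCh φ hc) (by
    cases p with
    | zero => trivial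
    | succ p =>
      intro t ht
      rw [TrC_dd φ hc (fun i => (ht.1 i).2)]
      exact hcyc _ (TrT_vm φ ht))
  refine ⟨TrC φ.symm g1, TrC_rCh φ.symm hg1, fun t ht => ?_⟩
  rw [TrC_dd φ.symm hg1 (fun i => (ht.1 i).2), hg2 _ (TrT_vm φ.symm ht)]
  unfold TrC
  rw [if_pos (fun i => TrT_subset φ.symm (t i))]
  congr 1
  funext i
  exact TrT_inv' φ (ht.1 i).2

end Pool.Agent.Work.MP_1233f5_ag.V

end

section

/-! MP_1233f5_ag, base block V: item TransA. -/

set_option autoImplicit false

namespace Pool.Agent.Work.MP_1233f5_ag.V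

open Finset

theorem TransA_tyw {α : Type} [Fintype α] [DecidableEq α] (n d p : ℕ) (π : α → Fin n)
    (t : Fin p → Finset α) (h : vm d univ p t) : vw d (fib π) p (fun i => tyv π (t i)) := by
  refine ⟨fun i => ?_, ?_⟩
  · rw [Mo, Finset.mem_piAntidiag]
    refine ⟨?_, fun _ _ => mem_univ _⟩
    rw [← (h.1 i).1]
    exact (Finset.card_eq_sum_card_fiberwise (fun x _ => Finset.mem_coe.2 (mem_univ (π x)))).symm
  · intro j
    rw [Finset.sum_apply]
    simp only [tyv, fib]
    rw [← Finset.card_biUnion]
    · refine Finset.card_le_card (fun x hx => ?_)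
      rw [Finset.mem_biUnion] at hx
      obtain ⟨i, _, hi⟩ := hx
      rw [Finset.mem_filter] at hi ⊢
      exact ⟨mem_univ _, hi.2⟩
    · intro i _ i' _ hne
      exact Finset.disjoint_filter_filter (h.2 i i' hne)

theorem TransA_mu {n : ℕ} {K : Type} [Field K] [CharZero K] (w : Fin n → ℕ) {p : ℕ}
    (s : Fin p → (Fin n → ℕ)) : (mu w s : K) ≠ 0 := by
  rw [Nat.cast_ne_zero, mu]
  refine mul_ne_zero ?_ ?_
  · exact Finset.prod_ne_zero_iff.2 (fun j _ => Nat.factorial_ne_zero _)
  · exact Finset.prod_ne_zero_iff.2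
      (fun i _ => Finset.prod_ne_zero_iff.2 (fun j _ => Nat.factorial_ne_zero _))

theorem pr_TransA (hPbD : S_PbD) (hPbCh : S_PbCh) (hPbSurj : S_PbSurj) (hLiftT : S_LiftT) :
    S_TransA := by
  intro K _ _ α _ _ n d p π hv C hC hcyc hinv
  obtain ⟨c, hc, hcC⟩ := hPbSurj K α n d p π C hC hinv
  have hC' : pb d π c = C := funext hcC
  have hc2 : rcyc (Mo n d) (vw d (fib π)) p c := by
    cases p with
    | zero => trivial
    | succ p =>
      intro s hs
      obtain ⟨t, ht, hts⟩ := hLiftT α n d p π s hs
      have h1 := hPbD K α n d p π c hc t ht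
      rw [hC', hcyc t ht] at h1
      have h2 : (fun i => tyv π (t i)) = s := funext hts
      rw [h2] at h1
      rcases mul_eq_zero.1 h1.symm with h3 | h3
      · exact absurd h3 (TransA_mu _ _)
      · exact h3
  obtain ⟨g, hg, hgc⟩ := hv c hc hc2
  refine ⟨pb d π g, (hPbCh K α n d (p + 1) π g hg).1, fun t ht => ?_⟩
  rw [hPbD K α n d p π g hg t ht, hgc _ (TransA_tyw n d p π t ht), ← hcC t, pb, if_pos ht]

end Pool.Agent.Work.MP_1233f5_ag.V

end

section

/-! # Item TransB: from the multilinear to the multigraded vanishing -/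

set_option autoImplicit false

namespace Pool.Agent.Work.MP_1233f5_ag.V

open Finset

/-- the group of fibre-preserving permutations. -/
def TransB_G {α : Type} {n : ℕ} (π : α → Fin n) : Subgroup (Equiv.Perm α) where
  carrier := {σ | ∀ a, π (σ a) = π a}
  mul_mem' := by
    intro σ τ hσ hτ a
    show π (σ (τ a)) = π a
    rw [hσ, hτ]
  one_mem' := by intro a; rfl
  inv_mem' := by
    intro σ hσ a
    have h := hσ (σ⁻¹ a)
    have e : σ (σ⁻¹ a) = a := by simp
    rw [e] at h
    exact h.symm

theorem TransB_vm {α : Type} [Fintype α] [DecidableEq α] (d p : ℕ) (σ : Equiv.Perm α)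
    (t : Fin p → Finset α) (h : vm d univ p (fun i => (t i).map σ.toEmbedding)) :
    vm d univ p t := by
  refine ⟨fun i => ⟨?_, Finset.subset_univ _⟩, fun i j hij => ?_⟩
  · have := (h.1 i).1
    rwa [Finset.card_map] at this
  · exact (Finset.disjoint_map _).1 (h.2 i j hij)

theorem TransB_vm' {α : Type} [Fintype α] [DecidableEq α] (d p : ℕ) (σ : Equiv.Perm α)
    (t : Fin p → Finset α) (h : vm d univ p t) :
    vm d univ p (fun i => (t i).map σ.toEmbedding) := by
  refine ⟨fun i => ⟨?_, Finset.subset_univ _⟩, fun i j hij => ?_⟩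
  · rw [Finset.card_map]; exact (h.1 i).1
  · exact (Finset.disjoint_map _).2 (h.2 i j hij)

theorem TransB_mu {n : ℕ} (w : Fin n → ℕ) {p : ℕ} (s : Fin p → (Fin n → ℕ)) : mu w s ≠ 0 := by
  unfold mu
  refine mul_ne_zero ?_ ?_
  · exact Finset.prod_ne_zero_iff.2 (fun j _ => Nat.factorial_ne_zero _)
  · exact Finset.prod_ne_zero_iff.2 (fun j _ => Finset.prod_ne_zero_iff.2
      (fun j _ => Nat.factorial_ne_zero _))

theorem pr_TransB (hPbD : S_PbD) (hPbCh : S_PbCh) (hPbSurj : S_PbSurj) (hLiftT : S_LiftT)
    (hTyW : S_TyW) : S_TransB := by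
  intro K _ _ α _ _ n d p π hvan c hc hcyc
  classical
  obtain ⟨hC, hCinv⟩ := hPbCh K α n d p π c hc
  have hCc : rcyc univ (vm d (univ : Finset α)) p (pb d π c) := by
    cases p with
    | zero => trivial
    | succ p =>
      intro t ht
      rw [hPbD K α n d p π c hc t ht, hcyc _ (hTyW α n d p π t ht), mul_zero]
  obtain ⟨g, hg, hdg⟩ := hvan (pb d π c) hC hCc
  -- averaging
  let G := TransB_G π
  let N : K := (Fintype.card G : K)
  have hN : N ≠ 0 := by
    simp only [N]
    exact Nat.cast_ne_zero.2 Fintype.card_ne_zero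
  let g' : (Fin (p + 1) → Finset α) → K := fun t =>
    N⁻¹ * ∑ σ : G, g (fun i => (t i).map (σ : Equiv.Perm α).toEmbedding)
  have hg'ch : rCh (vm d (univ : Finset α)) (p + 1) g' := by
    constructor
    · apply Alt.smul
      apply Alt.sum
      intro σ _ τ t
      exact hg.1 τ (fun i => (t i).map (σ : Equiv.Perm α).toEmbedding)
    · intro t ht
      have h1 : (∑ σ : G, g (fun i => (t i).map (σ : Equiv.Perm α).toEmbedding)) ≠ 0 := by
        intro h0
        apply ht
        simp only [g', h0, mul_zero]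
      obtain ⟨σ, _, hσ⟩ := Finset.exists_ne_zero_of_sum_ne_zero h1
      exact TransB_vm d _ σ t (hg.2 _ hσ)
  have hg'inv : InvF π g' := by
    intro τ hτ t
    simp only [g']
    congr 1
    let τ' : G := ⟨τ, hτ⟩
    refine Fintype.sum_equiv (Equiv.mulRight τ') _ _ (fun σ => ?_)
    congr 1
    funext i
    rw [Finset.map_map]
    rfl
  have hdg' : ∀ t, vm d (univ : Finset α) p t → dd univ g' t = pb d π c t := by
    intro t ht
    have h1 : dd univ g' t = N⁻¹ * ∑ σ : G, dd univ g
        (fun i => (t i).map (σ : Equiv.Perm α).toEmbedding) := by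
      simp only [dd, g']
      rw [← Finset.mul_sum, Finset.sum_comm]
      congr 1
      refine Finset.sum_congr rfl (fun σ _ => ?_)
      refine Fintype.sum_equiv (Equiv.finsetCongr (σ : Equiv.Perm α)) _ _ (fun b => ?_)
      congr 1
      funext i
      refine Fin.cases ?_ (fun i => ?_) i
      · simp [Equiv.finsetCongr_apply]
      · simp
    rw [h1]
    have h2 : ∀ σ : G, dd univ g (fun i => (t i).map (σ : Equiv.Perm α).toEmbedding) =
        pb d π c t := by
      intro σ
      rw [hdg _ (TransB_vm' d p σ t ht)]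
      exact hCinv σ σ.2 t
    rw [Finset.sum_congr rfl (fun σ _ => h2 σ), Finset.sum_const, Finset.card_univ, nsmul_eq_mul,
      ← mul_assoc]
    have : N⁻¹ * (Fintype.card G : K) = 1 := inv_mul_cancel₀ hN
    rw [this, one_mul]
  obtain ⟨h, hh, hhe⟩ := hPbSurj K α n d (p + 1) π g' hg'ch hg'inv
  refine ⟨h, hh, fun s hs => ?_⟩
  obtain ⟨t, ht, hts⟩ := hLiftT α n d p π s hs
  have hst : (fun i => tyv π (t i)) = s := funext hts
  have e1 := hPbD K α n d p π h hh t ht
  have e2 : dd univ (pb d π h) t = dd univ g' t := by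
    have : (pb d π h) = g' := funext hhe
    rw [this]
  rw [e2, hdg' t ht, hst] at e1
  have e3 : pb d π c t = (mu (fib π) s : K) * c s := by
    unfold pb
    rw [if_pos ht, hst]
  rw [e3] at e1
  exact (mul_left_cancel₀ (Nat.cast_ne_zero.2 (TransB_mu (fib π) s)) e1).symm

end Pool.Agent.Work.MP_1233f5_ag.V

end

section

set_option autoImplicit false

namespace Pool.Agent.Work.MP_1233f5_ag.V

open Finset

theorem TyW_sum {α : Type} [DecidableEq α] {n : ℕ} (π : α → Fin n) (e : Finset α) :
    ∑ j, tyv π e j = e.card := by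
  unfold tyv
  exact (Finset.card_eq_sum_card_fiberwise (f := π) (s := e) (t := univ) (by simp)).symm

theorem TyW_mem {α : Type} [DecidableEq α] {n d : ℕ} (π : α → Fin n) (e : Finset α)
    (he : e.card = d) : tyv π e ∈ Mo n d := by
  unfold Mo
  rw [Finset.mem_piAntidiag]
  exact ⟨by rw [TyW_sum, he], by simp⟩

theorem TyW_sum_tyv {α : Type} [Fintype α] [DecidableEq α] {n p : ℕ} (π : α → Fin n)
    (t : Fin p → Finset α) (ht : ∀ i j, i ≠ j → Disjoint (t i) (t j)) (j : Fin n) :
    ∑ i, tyv π (t i) j = tyv π (univ.biUnion t) j := by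
  unfold tyv
  rw [Finset.filter_biUnion, Finset.card_biUnion]
  intro i _ i' _ h
  exact Finset.disjoint_filter_filter (ht i i' h)

theorem pr_TyW : S_TyW := by
  intro α _ _ n d p π t ht
  refine ⟨fun i => TyW_mem π _ (ht.1 i).1, ?_⟩
  intro j
  rw [Finset.sum_apply, TyW_sum_tyv π t ht.2 j]
  unfold fib tyv
  exact Finset.card_le_card (Finset.filter_subset_filter _ (Finset.subset_univ _))

end Pool.Agent.Work.MP_1233f5_ag.V

end

section

/-! MP_1233f5_ag: assembly of block V. -/

set_option autoImplicit false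

namespace Pool.Agent.Work.MP_1233f5_ag.V

open Finset

theorem h_F : S_F := pr_F
theorem h_G : S_G := pr_G h_F
theorem h_Rep : S_Rep := pr_Rep pr_RepGar pr_RepDesc
theorem h_PbD : S_PbD := pr_PbD pr_Cnt pr_TyW
theorem h_PbCh : S_PbCh := pr_PbCh pr_TyW
theorem h_PbSurj : S_PbSurj := pr_PbSurj pr_LiftT pr_TransT pr_TyW
theorem h_TransA : S_TransA := pr_TransA h_PbD h_PbCh h_PbSurj pr_LiftT
theorem h_TransB : S_TransB := pr_TransB h_PbD h_PbCh h_PbSurj pr_LiftT pr_TyW
theorem h_LemD : S_LemD := pr_LemD pr_CardMo pr_RS pr_Lift pr_Dual pr_Green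
theorem h_Step : S_Step := pr_Step h_Rep h_G pr_A pr_Tr h_TransA h_LemD
theorem h_Main : S_Main := pr_Main h_Step
theorem h_BrD : S_BrD := pr_BrD pr_BrSum
theorem h_BrDeg : S_BrDeg := pr_BrDeg pr_BrSum
theorem h_BrRep : S_BrRep := pr_BrRep pr_BrVal
theorem h_Bridge : S_Bridge := pr_Bridge h_BrD pr_BrAlt pr_BrVal h_BrRep h_BrDeg

/-- every vector of natural numbers is the vector of the fibre sizes of a map from `Fin N`. -/
theorem exists_fib {n : ℕ} (w : Fin n → ℕ) (N : ℕ) (h : ∑ a, w a = N) :
    ∃ π : Fin N → Fin n, fib π = w := by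
  classical
  have hc : Fintype.card (Σ a : Fin n, Fin (w a)) = N := by simp [h]
  let e : Fin N ≃ (Σ a : Fin n, Fin (w a)) := (Fintype.equivFinOfCardEq hc).symm
  refine ⟨fun x => (e x).1, ?_⟩
  funext j
  unfold fib tyv
  have h1 : (univ.filter (fun x : Fin N => (e x).1 = j)).card =
      (univ.filter (fun y : (Σ a : Fin n, Fin (w a)) => y.1 = j)).card := by
    apply Finset.card_bij (fun x _ => e x)
    · intro x hx
      simpa using hx
    · intro x _ y _ hxy
      exact e.injective hxy
    · intro y hy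
      refine ⟨e.symm y, ?_, by simp⟩
      simpa using hy
  have h2 : (univ.filter (fun y : (Σ a : Fin n, Fin (w a)) => y.1 = j)) =
      (univ : Finset (Fin (w j))).map ⟨fun k => (⟨j, k⟩ : Σ a : Fin n, Fin (w a)), by
        intro a b hab
        simpa using hab⟩ := by
    ext ⟨a, k⟩
    simp only [mem_filter, mem_univ, true_and, mem_map, Function.Embedding.coeFn_mk]
    constructor
    · rintro rfl
      exact ⟨k, rfl⟩
    · rintro ⟨k', hk'⟩
      exact (congrArg Sigma.fst hk').symm
  have h3 : (univ.filter (fun x : Fin N => (fun x => (e x).1) x = j)).card = w j := by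
    have : (univ.filter (fun x : Fin N => (fun x => (e x).1) x = j)).card =
      (univ.filter (fun x : Fin N => (e x).1 = j)).card := rfl
    rw [this, h1, h2, card_map, card_univ, Fintype.card_fin]
  exact h3

/-- from the multilinear vanishing to the Koszul complex. -/
theorem KV_of_ML (n d T p : ℕ) (h : ML ℂ d T p) : KV n d p T := by
  apply h_Bridge
  intro w hw
  obtain ⟨π, hπ⟩ := exists_fib w (p * d + T) hw
  rw [← hπ]
  exact h_TransB ℂ (Fin (p * d + T)) n d p π h

end Pool.Agent.Work.MP_1233f5_ag.V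

end

section

/-! MP_1233f5_ag, block X: the exchange lemma `S_Ext`. -/

set_option autoImplicit false

namespace Pool.Agent.Work.MP_1233f5_ag.V

open Finset

theorem Ext_vm_cons {β : Type} [DecidableEq β] {r p : ℕ} {S : Finset β} {g : Finset β}
    {G : Fin p → Finset β} (hg : g.card = r) (hgS : g ⊆ S) (hG : vm r S p G)
    (hd : ∀ i, Disjoint g (G i)) : vm r S (p + 1) (Fin.cons g G : Fin (p + 1) → Finset β) := by
  refine ⟨fun i => ?_, fun i j hij => ?_⟩
  · refine Fin.cases ?_ (fun i => ?_) i
    · exact ⟨by simpa using hg, by simpa using hgS⟩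
    · simpa using hG.1 i
  · revert hij
    refine Fin.cases ?_ (fun i => ?_) i
    · refine Fin.cases ?_ (fun j => ?_) j
      · intro h; exact absurd rfl h
      · intro _
        simpa using hd j
    · refine Fin.cases ?_ (fun j => ?_) j
      · intro _
        simpa using (hd i).symm
      · intro h
        simpa using hG.2 i j (fun h' => h (by rw [h']))

theorem Ext_vm_removeNth {β : Type} [DecidableEq β] {r p : ℕ} {S : Finset β}
    {G : Fin (p + 1) → Finset β} (hG : vm r S (p + 1) G) (k : Fin (p + 1)) :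
    vm r S p (k.removeNth G) :=
  ⟨fun i => hG.1 _, fun i j hij => hG.2 _ _ (fun h => hij (Fin.succAbove_right_injective h))⟩

theorem Ext_vm_tail {β : Type} [DecidableEq β] {r p : ℕ} {S : Finset β}
    {G : Fin (p + 1) → Finset β} (hG : vm r S (p + 1) G) : vm r S p (Fin.tail G) :=
  ⟨fun i => hG.1 _, fun i j hij => hG.2 _ _ (fun h => hij (Fin.succ_injective _ h))⟩

theorem Ext_vm_mono {β : Type} [DecidableEq β] {r p : ℕ} {S S' : Finset β}
    {G : Fin p → Finset β} (hG : vm r S p G) (h : ∀ i, G i ⊆ S') : vm r S' p G :=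
  ⟨fun i => ⟨(hG.1 i).1, h i⟩, hG.2⟩

theorem Ext_card_biUnion {β : Type} [DecidableEq β] {r p : ℕ} {S : Finset β}
    {G : Fin p → Finset β} (hG : vm r S p G) : (univ.biUnion G).card = p * r := by
  rw [Finset.card_biUnion (fun i _ j _ h => hG.2 i j h)]
  rw [Finset.sum_congr rfl (fun i _ => (hG.1 i).1)]
  simp

theorem pr_Ext : S_Ext := by
  intro K _ _ M _ _ β _ r e
  induction e with
  | zero =>
    intro c S Φ hr hS hc hsym hrel f hf
    obtain ⟨g, hgS, hg⟩ := Finset.exists_subset_card_eq (s := S) (n := r) (by omega)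
    have h1 := hrel (fun _ => g) ⟨fun _ => ⟨hg, hgS⟩, fun i j hij =>
      absurd (Subsingleton.elim (α := Fin 1) i j) hij⟩
    have h2 : ∑ k : Fin (0 + 1), Φ (k.removeNth (fun _ => g)) =
        Φ ((0 : Fin 1).removeNth (fun _ => g)) := Fin.sum_univ_one _
    rw [h2] at h1
    rw [← h1]
    congr 1
    exact Subsingleton.elim _ _
  | succ e ih =>
    intro c S Φ hr hS hc hsym hrel f hf
    -- symmetry with a fixed first entry
    have hsym' : ∀ (a : Finset β) (π : Equiv.Perm (Fin e)) (g : Fin e → Finset β),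
        Φ (Fin.cons a (g ∘ π)) = Φ (Fin.cons a g) := by
      intro a π g
      have h2 : (Fin.cons a g : Fin (e + 1) → Finset β) ∘
          (Equiv.Perm.decomposeFin.symm (0, π)) = Fin.cons a (g ∘ π) := by
        funext k
        refine Fin.cases ?_ (fun k => ?_) k
        · simp
        · simp
      rw [← h2, hsym]
    -- step 1
    have step1 : ∀ (h : Finset β) (x y : β), h ⊆ S → x ∈ S → y ∈ S → x ∉ h → y ∉ h → x ≠ y →
        h.card + 1 = r → ∀ g : Fin e → Finset β, vm r (S \ insert x (insert y h)) e g →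
          Φ (Fin.cons (insert x h) g) = Φ (Fin.cons (insert y h) g) := by
      intro h x y hS' hx hy hxh hyh hxy hcard g hg
      have hxi : x ∉ insert y h := by simp [hxy, hxh]
      have hsub : insert x (insert y h) ⊆ S := by
        intro z hz
        simp only [mem_insert] at hz
        rcases hz with rfl | rfl | hz
        · exact hx
        · exact hy
        · exact hS' hz
      have hc1 : (S \ insert x (insert y h)).card = e * r + (c - 1) := by
        rw [Finset.card_sdiff_of_subset hsub, Finset.card_insert_of_notMem hxi,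
          Finset.card_insert_of_notMem hyh, hS]
        have : (e + 1) * r = e * r + r := by ring
        omega
      have h3 := ih (c - 1) (S \ insert x (insert y h))
        (fun g => Φ (Fin.cons (insert x h) g) - Φ (Fin.cons (insert y h) g)) hr hc1 (by omega)
        (fun π f => by rw [hsym', hsym']) ?_ g hg
      · exact sub_eq_zero.1 h3
      · intro G hG
        have hGS : ∀ i, G i ⊆ S := fun i => ((hG.1 i).2).trans Finset.sdiff_subset
        have hGd : ∀ z ∈ insert x (insert y h), ∀ i, z ∉ G i := by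
          intro z hz i hzi
          exact (Finset.mem_sdiff.1 ((hG.1 i).2 hzi)).2 hz
        have key : ∀ u : Finset β, u ⊆ insert x (insert y h) → u.card = r →
            Φ G + ∑ l : Fin (e + 1), Φ (Fin.cons u (l.removeNth G)) = 0 := by
          intro u hu hur
          have h4 := hrel (Fin.cons u G) (Ext_vm_cons hur (hu.trans hsub)
            (Ext_vm_mono hG hGS) (fun i => Finset.disjoint_left.2 fun z hz =>
              hGd z (hu hz) i))
          rw [Fin.sum_univ_succ, cons_removeNth_zero] at h4
          simp only [cons_removeNth_succ] at h4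
          exact h4
        have k1 := key (insert x h) (by
          intro z hz
          simp only [mem_insert] at hz ⊢
          tauto) (by rw [Finset.card_insert_of_notMem hxh]; exact hcard)
        have k2 := key (insert y h) (by
          intro z hz
          simp only [mem_insert] at hz ⊢
          tauto) (by rw [Finset.card_insert_of_notMem hyh]; exact hcard)
        rw [Finset.sum_sub_distrib]
        have k3 := k1.trans k2.symm
        exact sub_eq_zero.2 (add_left_cancel k3)
    -- step 2
    have step2 : ∀ (n : ℕ) (u v : Finset β) (g : Fin e → Finset β), (u \ v).card = n →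
        u ⊆ S → v ⊆ S → u.card = r → v.card = r → vm r S e g → (∀ i, Disjoint u (g i)) →
        (∀ i, Disjoint v (g i)) → Φ (Fin.cons u g) = Φ (Fin.cons v g) := by
      intro n
      induction n with
      | zero =>
        intro u v g h0 hu hv hur hvr hg hdu hdv
        have h1 : u ⊆ v := by
          rw [← Finset.sdiff_eq_empty_iff_subset]
          exact Finset.card_eq_zero.1 h0
        have h2 : u = v := Finset.eq_of_subset_of_card_le h1 (by omega)
        rw [h2]
      | succ n ihn =>
        intro u v g h0 hu hv hur hvr hg hdu hdv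
        obtain ⟨x, hx⟩ : (u \ v).Nonempty := by
          rw [← Finset.card_pos]; omega
        have h1 : (v \ u).card = (u \ v).card := by
          have e1 := Finset.card_sdiff_add_card_inter u v
          have e2 := Finset.card_sdiff_add_card_inter v u
          rw [Finset.inter_comm] at e2
          omega
        obtain ⟨y, hy⟩ : (v \ u).Nonempty := by
          rw [← Finset.card_pos]; omega
        rw [Finset.mem_sdiff] at hx hy
        have hxy : x ≠ y := fun h => hx.2 (h ▸ hy.1)
        have hxe : insert x (u.erase x) = u := Finset.insert_erase hx.1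
        have hye : y ∉ u.erase x := fun h => hy.2 (Finset.mem_of_mem_erase h)
        have hcr : (u.erase x).card + 1 = r := by
          rw [Finset.card_erase_add_one hx.1]; exact hur
        have h2 := step1 (u.erase x) x y ((Finset.erase_subset _ _).trans hu) (hu hx.1)
          (hv hy.1) (Finset.notMem_erase _ _) hye hxy hcr g (Ext_vm_mono hg (by
            intro i z hz
            rw [Finset.mem_sdiff]
            refine ⟨(hg.1 i).2 hz, fun h => ?_⟩
            simp only [mem_insert] at h
            rcases h with h | h | h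
            · exact Finset.disjoint_left.1 (hdu i) (h ▸ hx.1) hz
            · exact Finset.disjoint_left.1 (hdv i) (h ▸ hy.1) hz
            · exact Finset.disjoint_left.1 (hdu i) (Finset.mem_of_mem_erase h) hz))
        rw [hxe] at h2
        rw [h2]
        refine ihn _ v g ?_ ?_ hv ?_ hvr hg ?_ hdv
        · have h3 : insert y (u.erase x) \ v = (u \ v).erase x := by
            ext z
            simp only [mem_sdiff, mem_insert, mem_erase]
            constructor
            · rintro ⟨h | h, h'⟩
              · exact absurd (h ▸ hy.1) h'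
              · exact ⟨h.1, h.2, h'⟩
            · rintro ⟨h, h', h''⟩
              exact ⟨Or.inr ⟨h, h'⟩, h''⟩
          rw [h3, Finset.card_erase_of_mem (Finset.mem_sdiff.2 hx), h0]
          rfl
        · intro z hz
          simp only [mem_insert, mem_erase] at hz
          rcases hz with rfl | ⟨_, hz⟩
          · exact hv hy.1
          · exact hu hz
        · rw [Finset.card_insert_of_notMem hye]; exact hcr
        · intro i
          rw [Finset.disjoint_left]
          intro z hz hz'
          simp only [mem_insert, mem_erase] at hz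
          rcases hz with h | ⟨_, hz⟩
          · exact Finset.disjoint_left.1 (hdv i) (h ▸ hy.1) hz'
          · exact Finset.disjoint_left.1 (hdu i) hz hz'
    -- step 4
    have hcu := Ext_card_biUnion hf
    have hsubu : univ.biUnion f ⊆ S := by
      rw [Finset.biUnion_subset]
      exact fun i _ => (hf.1 i).2
    have hcs : (S \ univ.biUnion f).card = c := by
      rw [Finset.card_sdiff_of_subset hsubu, hcu, hS]
      omega
    obtain ⟨f0, hf0S, hf0⟩ := Finset.exists_subset_card_eq (s := S \ univ.biUnion f) (n := r)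
      (by omega)
    have hF : vm r S (e + 1 + 1) (Fin.cons f0 f : Fin (e + 1 + 1) → Finset β) := by
      refine Ext_vm_cons hf0 (hf0S.trans Finset.sdiff_subset) hf (fun i => ?_)
      rw [Finset.disjoint_left]
      intro z hz hz'
      exact (Finset.mem_sdiff.1 (hf0S hz)).2 (Finset.mem_biUnion.2 ⟨i, mem_univ _, hz'⟩)
    -- step 3
    have step3 : ∀ k : Fin (e + 1 + 1),
        Φ (k.removeNth (Fin.cons f0 f : Fin (e + 1 + 1) → Finset β)) = Φ f := by
      intro k
      refine Fin.cases ?_ (fun l => ?_) k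
      · rw [cons_removeNth_zero]
      · rw [cons_removeNth_succ]
        have h2 : f ∘ (l.cycleRange.symm) = Fin.cons (f l) (l.removeNth f) := by
          funext k
          refine Fin.cases ?_ (fun k => ?_) k
          · simp [Fin.cycleRange_symm_zero]
          · simp [Fin.cycleRange_symm_succ, Fin.removeNth]
        have h3 : Φ f = Φ (Fin.cons (f l) (l.removeNth f)) := by
          rw [← h2, hsym]
        rw [h3]
        refine step2 _ f0 (f l) _ rfl (hf0S.trans Finset.sdiff_subset) (hf.1 l).2 hf0 (hf.1 l).1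
          (Ext_vm_removeNth hf l) ?_ ?_
        · intro i
          have := hF.2 0 (l.succAbove i).succ (Fin.succ_ne_zero _).symm
          simpa [Fin.removeNth] using this
        · intro i
          exact hf.2 _ _ (Fin.succAbove_ne l i).symm
    have h5 := hrel _ hF
    rw [Finset.sum_congr rfl (fun k _ => step3 k)] at h5
    simp only [Finset.sum_const, Finset.card_univ, Fintype.card_fin] at h5
    have h6 : ((e + 1 + 1 : ℕ) : K) • Φ f = 0 := by
      rw [Nat.cast_smul_eq_nsmul]; exact h5
    rcases smul_eq_zero.1 h6 with h7 | h7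
    · exact absurd h7 (Nat.cast_ne_zero.2 (Nat.succ_ne_zero _))
    · exact h7

end Pool.Agent.Work.MP_1233f5_ag.V

end

section

/-! MP_1233f5_ag, block X, item Main2 (helper53). -/

set_option autoImplicit false

namespace Pool.Agent.Work.MP_1233f5_ag.V

open Finset

theorem pr_Main2 (hStep : S_Step) (hXMain : S_XMain) (hBnd2Val : S_Bnd2Val) : S_Main2 := by
  intro K _ _ d T
  induction T with
  | zero =>
    intro p hd hp
    simp [bnd2] at hp
  | succ T ihT =>
    intro p
    induction p using Nat.strong_induction_on with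
    | _ p ihp =>
      intro hd hp
      have hd1 : 0 < d - 1 := by omega
      have hp1 : p < theta d (T + 1) := lt_of_lt_of_le hp (min_le_left _ _)
      have hp2 : p < bnd2 d T + (T + 1) / (d - 1) + 1 +
          if 4 ≤ d ∧ T + 1 = 2 * d - 1 then 1 else 0 := lt_of_lt_of_le hp (min_le_right _ _)
      have hlt : T + 1 < ((T + 1) / (d - 1) + 1) * (d - 1) := by
        have := Nat.lt_div_mul_add (a := T + 1) hd1
        rw [Nat.add_mul, one_mul]
        exact this
      -- the common part
      have common : (∀ p', p' + ((T + 1) / (d - 1) + 1) = p → ML K d T p') →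
          ML K d (T + 1) p := by
        intro hT
        unfold theta at hp1
        generalize hq : (T + 1) / (d - 1) = q at hp1 hp2 hlt hT
        refine hStep K d (T + 1) p (q + 1) ((q + 1) * (d - 1) - (T + 1)) hd (Nat.le_add_left _ _)
          (Nat.le_add_left _ _) (Nat.add_sub_of_le hlt.le) ?_ ?_ ?_
        · have e1 : d + (q + 1) - 1 = d + q := by omega
          have e2 : (q + 1) * (d - 1) - (T + 1) + (q + 1) - 1
              = (q + 1) * (d - 1) - (T + 1) + q := by omega
          rw [e1, e2, Nat.add_sub_cancel]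
          omega
        · intro p' hp'
          exact ihp p' (by omega) hd (lt_trans (by omega) hp)
        · intro p' hp'
          exact hT p' hp'
      by_cases hc : 4 ≤ d ∧ T + 1 = 2 * d - 1
      · rw [if_pos hc] at hp2
        obtain ⟨hc1, hc2⟩ := hc
        have hT2 : T = 2 * d - 2 := by omega
        have hb : bnd2 d T = d - 1 := by rw [hT2]; exact hBnd2Val d hd
        have hq : (T + 1) / (d - 1) = 2 := by
          rw [hc2]
          apply Nat.div_eq_of_lt_le
          · omega
          · omega
        rw [hb, hq] at hp2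
        rcases Nat.lt_or_ge p (d + 2) with h | h
        · apply common
          intro p' hp'
          rw [hq] at hp'
          exact ihT p' hd (by rw [hb]; omega)
        · have hpe : p = d + 2 := by omega
          have hx := hXMain K (d - 1) (by omega)
          have e1 : d - 1 + 1 = d := by omega
          have e2 : 2 * (d - 1) + 1 = T + 1 := by omega
          have e3 : d - 1 + 3 = p := by omega
          rw [e1, e2, e3] at hx
          exact hx
      · rw [if_neg hc] at hp2
        apply common
        intro p' hp'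
        exact ihT p' hd (by omega)

end Pool.Agent.Work.MP_1233f5_ag.V

end

section

set_option autoImplicit false

namespace Pool.Agent.Work.MP_1233f5_ag.V

open Finset

namespace RSr

/-- the statement for the chains which vanish on the tuples of the full quotient -/
def St (K : Type) [Field K] (n d p : ℕ) (w : Fin n → ℕ) (J : Finset (Fin n)) : Prop :=
  ∀ c : (Fin p → (Fin n → ℕ)) → K, rCh (vJ d w J) p c → rcyc (Mo n d) (vJ d w J) p c →
    (∀ t, vJ d w univ p t → c t = 0) →
    ∃ g : (Fin (p + 1) → (Fin n → ℕ)) → K, rCh (vJ d w J) (p + 1) g ∧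
      ∀ t, vJ d w J p t → dd (Mo n d) g t = c t

theorem St_univ (K : Type) [Field K] (n d p : ℕ) (w : Fin n → ℕ) :
    St K n d p w univ := by
  intro c hc _ h0
  have hc0 : ∀ t, c t = 0 := by
    intro t
    by_contra h
    exact h (h0 t (hc.2 t h))
  refine ⟨fun _ => 0, ⟨Alt.zero, fun t ht => absurd rfl ht⟩, ?_⟩
  intro t _
  rw [hc0 t]
  exact Finset.sum_eq_zero fun _ _ => rfl

open RS in
theorem St_step (K : Type) [Field K] [CharZero K] (n d p : ℕ) (w : Fin n → ℕ)
    (J : Finset (Fin n)) (i : Fin n) (hd : 1 ≤ d) (hi : i ∉ J)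
    (H : St K n d p w (insert i J)) : St K n d p w J := by
  classical
  intro c hc hcy hcU
  -- step 1
  obtain ⟨g1, hg1, hg1d⟩ := H (fun t => if vJ d w (insert i J) p t then c t else 0)
    ⟨by
      intro σ t
      show (if vJ d w (insert i J) p (t ∘ σ) then c (t ∘ σ) else 0) = _ *
        (if vJ d w (insert i J) p t then c t else 0)
      rw [hc.1 σ t]
      by_cases h : vJ d w (insert i J) p t
      · rw [if_pos h, if_pos ((vJ_perm σ t).mpr h)]
      · rw [if_neg h, if_neg (fun h' => h ((vJ_perm σ t).mp h'))]; simp,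
    by
      intro t ht
      by_contra h
      exact ht (if_neg h)⟩
    (by
      cases p with
      | zero => trivial
      | succ q =>
        intro t ht
        refine Eq.trans (Finset.sum_congr rfl (fun b' _ => ?_)) (hcy t (vJ_mono ht))
        by_cases h : c (Fin.cons b' t) = 0
        · show (if vJ d w (insert i J) (q + 1) (Fin.cons b' t) then c (Fin.cons b' t) else 0) = _
          rw [h, ite_self]
        · exact if_pos (lemA ht (hc.2 _ h)))
    (by
      intro t ht
      show (if vJ d w (insert i J) p t then c t else 0) = 0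
      rw [hcU t ht, ite_self])
  -- step 2
  set c' : (Fin p → (Fin n → ℕ)) → K :=
    fun t => if vJ d w J p t then c t - dd (Mo n d) g1 t else 0 with hc'
  have hc'alt : Alt p c' := by
    intro σ t
    show (if vJ d w J p (t ∘ σ) then c (t ∘ σ) - dd (Mo n d) g1 (t ∘ σ) else 0) = _ *
      (if vJ d w J p t then c t - dd (Mo n d) g1 t else 0)
    rw [hc.1 σ t, hg1.1.dd (Mo n d) σ t]
    by_cases h : vJ d w J p t
    · rw [if_pos h, if_pos ((vJ_perm σ t).mpr h)]; ring
    · rw [if_neg h, if_neg (fun h' => h ((vJ_perm σ t).mp h'))]; simp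
  have hc'0 : ∀ t, vJ d w (insert i J) p t → c' t = 0 := by
    intro t ht
    show (if vJ d w J p t then c t - dd (Mo n d) g1 t else 0) = 0
    rw [if_pos (vJ_mono ht), hg1d t ht, if_pos ht, sub_self]
  have hc'G : ∀ t, c' t ≠ 0 → vJ d w J p t := by
    intro t ht
    by_contra h
    exact ht (if_neg h)
  -- step 3
  set u : (Fin p → (Fin n → ℕ)) → K :=
    fun t => if ∀ k, t k ≠ Pi.single i d then c' t else 0 with hu
  have hualt : Alt p u := by
    intro σ t
    show (if ∀ k, (t ∘ σ) k ≠ Pi.single i d then c' (t ∘ σ) else 0) = _ *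
      (if ∀ k, t k ≠ Pi.single i d then c' t else 0)
    rw [hc'alt σ t]
    have e : (∀ k, (t ∘ σ) k ≠ Pi.single i d) ↔ ∀ k, t k ≠ Pi.single i d := by
      constructor
      · intro h k
        have := h (σ.symm k)
        simpa using this
      · intro h k
        exact h _
    by_cases h : ∀ k, t k ≠ Pi.single i d
    · rw [if_pos h, if_pos (e.mpr h)]
    · rw [if_neg h, if_neg (fun h' => h (e.mp h'))]; simp
  have hhalt : Alt (p + 1) (wdg (Pi.single i d) u) := hualt.wdg _
  have hhG : ∀ s, wdg (Pi.single i d) u s ≠ 0 → vJ d w J (p + 1) s := by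
    intro s hs
    obtain ⟨k, _, hk⟩ := Finset.exists_ne_zero_of_sum_ne_zero hs
    by_cases hk1 : s k = Pi.single i d
    · rw [if_pos hk1] at hk
      have hk2 : u (k.removeNth s) ≠ 0 := fun e => hk (by rw [e, mul_zero])
      by_cases hk3 : ∀ l, k.removeNth s l ≠ Pi.single i d
      · have hk4 : u (k.removeNth s) = c' (k.removeNth s) := if_pos hk3
        rw [hk4] at hk2
        have h5 := lemD hd hi (hc'G _ hk2) hk3 (fun h => hk2 (hc'0 _ h))
        rw [← hk1] at h5
        exact (vJ_cons_removeNth s k).mp h5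
      · exact absurd (if_neg hk3) hk2
    · exact absurd (if_neg hk1) hk
  -- step 4
  have hdh : ∀ t, vJ d w J p t → dd (Mo n d) (wdg (Pi.single i d) u) t = c' t := by
    cases p with
    | zero =>
      intro t _
      rw [dd_wdg_zero (Mo n d) (single_mem i)]
      exact if_pos (fun k => k.elim0)
    | succ q =>
      -- cycle
      have hc'cy : ∀ t : Fin q → (Fin n → ℕ), vJ d w J q t → dd (Mo n d) c' t = 0 := by
        intro t ht
        have e1 : dd (Mo n d) c' t = dd (Mo n d) c t - dd (Mo n d) (dd (Mo n d) g1) t := by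
          show (∑ b ∈ Mo n d, c' (Fin.cons b t)) = (∑ b ∈ Mo n d, c (Fin.cons b t)) -
            ∑ b ∈ Mo n d, dd (Mo n d) g1 (Fin.cons b t)
          rw [← Finset.sum_sub_distrib]
          refine Finset.sum_congr rfl (fun b' _ => ?_)
          by_cases h : vJ d w J (q + 1) (Fin.cons b' t)
          · exact if_pos h
          · have e2 : c (Fin.cons b' t) = 0 := by
              by_contra h'
              exact h (hc.2 _ h')
            have e3 : dd (Mo n d) g1 (Fin.cons b' t) = 0 := by
              by_contra h'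
              obtain ⟨b'', _, hb''⟩ := Finset.exists_ne_zero_of_sum_ne_zero h'
              exact h (lemB ht (vJ_mono (hg1.2 _ hb'')))
            rw [e2, e3, sub_self]
            exact if_neg h
        rw [e1, dd_dd (Mo n d) hg1.1, hcy t ht, sub_zero]
      intro t ht
      have hW := dd_wdg (Mo n d) (single_mem (d := d) i) u
      by_cases h1 : ∀ k, t k ≠ Pi.single i d
      · have h2 := hW t
        have h3 : wdg (Pi.single i d) (dd (Mo n d) u) t = 0 := by
          refine Finset.sum_eq_zero (fun k _ => ?_)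
          exact if_neg (h1 k)
        rw [h3, add_zero] at h2
        rw [h2]
        exact if_pos h1
      · push Not at h1
        obtain ⟨k, hk⟩ := h1
        have a1 := (hhalt.dd (Mo n d)).cons_removeNth t k
        have a2 := hc'alt.cons_removeNth t k
        have hG := (vJ_cons_removeNth (d := d) (w := w) (J := J) t k).mpr ht
        rw [hk] at a1 a2 hG
        have key : dd (Mo n d) (wdg (Pi.single i d) u) (Fin.cons (Pi.single i d) (k.removeNth t)) =
            c' (Fin.cons (Pi.single i d) (k.removeNth t)) := by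
          generalize k.removeNth t = s at hG
          by_cases h3 : ∀ l, s l ≠ Pi.single i d
          · have h4 := hW (Fin.cons (Pi.single i d) s)
            have h5 : u (Fin.cons (Pi.single i d) s) = 0 := by
              refine if_neg ?_
              intro h
              exact h 0 (by rw [Fin.cons_zero])
            have h6 : wdg (Pi.single i d) (dd (Mo n d) u) (Fin.cons (Pi.single i d) s) =
                dd (Mo n d) u s := by
              show (∑ l : Fin (q + 1), _) = _
              rw [Fin.sum_univ_succ]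
              rw [if_pos (by rw [Fin.cons_zero]), cons_removeNth_zero]
              rw [Finset.sum_eq_zero]
              · simp
              · intro l _
                refine if_neg ?_
                rw [Fin.cons_succ]
                exact h3 l
            have h7 : dd (Mo n d) u s = dd (Mo n d) c' s - c' (Fin.cons (Pi.single i d) s) := by
              show (∑ b ∈ Mo n d, u (Fin.cons b s)) = (∑ b ∈ Mo n d, c' (Fin.cons b s)) - _
              rw [← Finset.add_sum_erase _ _ (single_mem (d := d) i),
                ← Finset.add_sum_erase _ _ (single_mem (d := d) i), h5, zero_add,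
                add_sub_cancel_left]
              refine Finset.sum_congr rfl (fun b' hb' => ?_)
              refine if_pos ?_
              intro l
              refine Fin.cases ?_ (fun l => ?_) l
              · rw [Fin.cons_zero]; exact (mem_erase.mp hb').1
              · rw [Fin.cons_succ]; exact h3 l
            rw [h6, h7, h5, hc'cy s (lemC hi hG)] at h4
            linear_combination h4
          · push Not at h3
            obtain ⟨l, hl⟩ := h3
            have e : (Fin.cons (Pi.single i d) s : Fin (q + 1) → (Fin n → ℕ)) 0 =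
                (Fin.cons (Pi.single i d) s : Fin (q + 1) → (Fin n → ℕ)) l.succ := by
              rw [Fin.cons_zero, Fin.cons_succ, hl]
            rw [(hhalt.dd (Mo n d)).eq_zero (Fin.succ_ne_zero l).symm e,
              hc'alt.eq_zero (Fin.succ_ne_zero l).symm e]
        rw [a1, a2] at key
        have hne : ((-1 : K) ^ (k : ℕ)) ≠ 0 := pow_ne_zero _ (by simp)
        exact mul_left_cancel₀ hne key
  -- step 5
  refine ⟨fun t => g1 t + wdg (Pi.single i d) u t, ⟨hg1.1.add hhalt, ?_⟩, ?_⟩
  · intro t ht
    by_cases h : g1 t = 0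
    · refine hhG t (fun h' => ht ?_)
      show g1 t + wdg (Pi.single i d) u t = 0
      rw [h, h', add_zero]
    · exact vJ_mono (hg1.2 t h)
  · intro t ht
    have e : dd (Mo n d) (fun t => g1 t + wdg (Pi.single i d) u t) t =
        dd (Mo n d) g1 t + dd (Mo n d) (wdg (Pi.single i d) u) t := by
      show (∑ b ∈ Mo n d, _) = (∑ b ∈ Mo n d, _) + ∑ b ∈ Mo n d, _
      rw [← Finset.sum_add_distrib]
    rw [e, hdh t ht]
    have e2 : c' t = c t - dd (Mo n d) g1 t := if_pos ht
    rw [e2]; ring

theorem St_all (K : Type) [Field K] [CharZero K] (n d p : ℕ) (w : Fin n → ℕ) (hd : 1 ≤ d)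
    (S : Finset (Fin n)) : St K n d p w (univ \ S) := by
  classical
  induction S using Finset.induction_on with
  | empty => rw [Finset.sdiff_empty]; exact St_univ K n d p w
  | insert i S hi ih =>
    refine St_step K n d p w (univ \ insert i S) i hd ?_ ?_
    · simp
    · have e : insert i (univ \ insert i S) = univ \ S := by
        ext x
        simp only [Finset.mem_insert, Finset.mem_sdiff, Finset.mem_univ, true_and, not_or]
        by_cases hx : x = i
        · subst hx
          simp [hi]
        · simp [hx]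
      rw [e]
      exact ih

end RSr

theorem RSr_iff {n d q : ℕ} {w : Fin n → ℕ} (t : Fin q → (Fin n → ℕ)) :
    vJ d w ∅ q t ↔ vw d w q t :=
  ⟨fun h => h.1, fun h => ⟨h, fun j hj => absurd hj (Finset.notMem_empty j)⟩⟩

theorem pr_RSr : S_RSr := by
  intro K _ _ n d p w hd c hc hcy h0
  have h := RSr.St_all K n d p w hd univ
  rw [Finset.sdiff_self] at h
  obtain ⟨g, hg, hgd⟩ := h c ⟨hc.1, fun t ht => (RSr_iff t).2 (hc.2 t ht)⟩ (by
    cases p with
    | zero => trivial
    | succ q =>
      intro t ht
      exact hcy t ((RSr_iff t).1 ht)) h0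
  exact ⟨g, ⟨hg.1, fun t ht => (RSr_iff t).1 (hg.2 t ht)⟩,
    fun t ht => hgd t ((RSr_iff t).2 ht)⟩

end Pool.Agent.Work.MP_1233f5_ag.V

end
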