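import Pool.Agent.Work.MP_1233f5_ag.X.Basic
import Pool.Agent.Work.MP_1233f5_ag.Bd.B02
import Pool.Agent.Work.MP_1233f5_ag.Bd.B01

/-! Bundle of small proof modules (one section per former module). -/

section

/-! MP_1233f5_ag, block X: `a_{X,Y}` is a cycle (XA1). -/

set_option autoImplicit false

namespace Pool.Agent.Work.MP_1233f5_ag.V

open Finset

theorem XA1_eps_comp (d : ℕ) (k : Fin d → ℕ) (σ : Equiv.Perm (Fin d)) :
    eps d (k ∘ σ) = (Equiv.Perm.sign σ : ℤ) * eps d k := by
  unfold eps
  rw [Finset.mul_sum]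
  refine Finset.sum_bij' (fun π _ => π * σ⁻¹) (fun π _ => π * σ) (fun _ _ => mem_univ _)
    (fun _ _ => mem_univ _) (fun π _ => by simp) (fun π _ => by simp) ?_
  intro π _
  have h1 : (∀ i, (k ∘ σ) i = (π i : ℕ)) ↔ ∀ i, k i = ((π * σ⁻¹) i : ℕ) := by
    constructor
    · intro h i
      have := h (σ⁻¹ i)
      simpa using this
    · intro h i
      have := h (σ i)
      simpa using this
  by_cases h : ∀ i, (k ∘ σ) i = (π i : ℕ)
  · rw [if_pos h, if_pos (h1.1 h)]
    have hs : ((Equiv.Perm.sign σ : ℤˣ) : ℤ) * ((Equiv.Perm.sign σ : ℤˣ) : ℤ) = 1 := by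
      rw [← Units.val_mul, Int.units_mul_self, Units.val_one]
    rw [Equiv.Perm.sign_mul, Equiv.Perm.sign_inv, Units.val_mul]
    linear_combination (-((Equiv.Perm.sign π : ℤˣ) : ℤ)) * hs
  · rw [if_neg h, if_neg (fun h' => h (h1.2 h')), mul_zero]

theorem XA1_cons_comp (r j : ℕ) (k : Fin r → ℕ) (σ : Equiv.Perm (Fin r)) :
    (Fin.cons j (k ∘ σ) : Fin (r + 1) → ℕ) =
      (Fin.cons j k : Fin (r + 1) → ℕ) ∘ (Equiv.Perm.decomposeFin.symm (0, σ)) := by
  funext i
  refine Fin.cases ?_ (fun i => ?_) i
  · simp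
  · simp

theorem XA1_Aco_comp (r : ℕ) (k : Fin r → ℕ) (σ : Equiv.Perm (Fin r)) :
    Aco r (k ∘ σ) = (Equiv.Perm.sign σ : ℤ) * Aco r k := by
  unfold Aco
  rw [Finset.mul_sum]
  refine Finset.sum_congr rfl fun j _ => ?_
  rw [XA1_cons_comp, XA1_eps_comp]
  simp

theorem XA1_eps_ne (d : ℕ) (k : Fin d → ℕ) (h : eps d k ≠ 0) :
    ∃ σ : Equiv.Perm (Fin d), ∀ i, k i = (σ i : ℕ) := by
  unfold eps at h
  obtain ⟨σ, -, hσ⟩ := Finset.exists_ne_zero_of_sum_ne_zero h
  exact ⟨σ, by_contra fun h' => hσ (if_neg h')⟩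

theorem XA1_swap (r : ℕ) (j l : ℕ) (y : Fin r → ℕ) :
    eps (r + 2) (Fin.cons l (Fin.cons j y)) = - eps (r + 2) (Fin.cons j (Fin.cons l y)) := by
  have h1 := XA1_eps_comp (r + 2) (Fin.cons j (Fin.cons l y)) (Equiv.swap 0 1)
  have h2 : (Fin.cons j (Fin.cons l y) : Fin (r + 2) → ℕ) ∘ (Equiv.swap (0 : Fin (r + 2)) 1) =
      Fin.cons l (Fin.cons j y) := by
    funext k
    refine Fin.cases ?_ (fun k => ?_) k
    · simp only [Function.comp_apply, Equiv.swap_apply_left, Fin.cons_zero]
      rfl
    · refine Fin.cases ?_ (fun k => ?_) k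
      · simp only [Function.comp_apply, Fin.succ_zero_eq_one, Equiv.swap_apply_right,
          Fin.cons_zero]
        rfl
      · have e1 : (k.succ.succ : Fin (r + 2)) ≠ 0 := Fin.succ_ne_zero _
        have e2 : (k.succ.succ : Fin (r + 2)) ≠ 1 := by
          rw [← Fin.succ_zero_eq_one]
          intro h
          exact Fin.succ_ne_zero k (Fin.succ_injective _ h)
        simp only [Function.comp_apply, Equiv.swap_apply_of_ne_of_ne e1 e2, Fin.cons_succ]
  rw [h2, Equiv.Perm.sign_swap (by simp)] at h1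
  rw [h1]
  simp

theorem XA1_sum_zero (r : ℕ) (y : Fin r → ℕ) :
    ∑ j ∈ range (r + 2), Aco (r + 1) (Fin.cons j y) = 0 := by
  have h : ∑ j ∈ range (r + 2), Aco (r + 1) (Fin.cons j y) =
      - ∑ j ∈ range (r + 2), Aco (r + 1) (Fin.cons j y) := by
    conv_lhs => simp only [Aco]
    rw [Finset.sum_comm, ← Finset.sum_neg_distrib]
    refine Finset.sum_congr rfl fun l _ => ?_
    simp only [Aco]
    rw [← Finset.sum_neg_distrib]
    refine Finset.sum_congr rfl fun j _ => ?_
    exact XA1_swap r j l y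
  omega

/-- values with nonzero contraction -/
theorem XA1_Aco_ne (r : ℕ) (j : ℕ) (y : Fin r → ℕ) (h : Aco (r + 1) (Fin.cons j y) ≠ 0) :
    ∃ l, l ≤ r + 1 ∧ j ≤ r + 1 ∧ 2 * (l + j + ∑ i, y i) = (r + 1) * (r + 2) := by
  unfold Aco at h
  obtain ⟨l, hl, hne⟩ := Finset.exists_ne_zero_of_sum_ne_zero h
  obtain ⟨σ, hσ⟩ := XA1_eps_ne _ _ hne
  refine ⟨l, by have := mem_range.1 hl; omega, ?_, ?_⟩
  · have := hσ 1
    have h1 : (Fin.cons l (Fin.cons j y) : Fin (r + 1 + 1) → ℕ) 1 = j := rfl
    rw [h1] at this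
    have := (σ 1).2
    omega
  · have h1 : ∑ i, (Fin.cons l (Fin.cons j y) : Fin (r + 1 + 1) → ℕ) i = l + (j + ∑ i, y i) := by
      rw [Fin.sum_univ_succ, Fin.sum_univ_succ]
      simp
    have h2 : ∑ i, (Fin.cons l (Fin.cons j y) : Fin (r + 1 + 1) → ℕ) i =
        ∑ i : Fin (r + 1 + 1), (i : ℕ) := by
      rw [Finset.sum_congr rfl fun i _ => hσ i]
      exact Equiv.sum_comp σ (fun i => (i : ℕ))
    have h3 : (∑ i : Fin (r + 1 + 1), (i : ℕ)) * 2 = (r + 2) * (r + 1) := by
      rw [Fin.sum_univ_eq_sum_range (fun i => i), Finset.sum_range_id_mul_two]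
      simp
    rw [h1] at h2
    nlinarith [h2, h3]

section XA1
variable {α : Type} [DecidableEq α]

theorem XA1_vm_comp {d p : ℕ} {P : Finset α} {t : Fin p → Finset α} (h : vm d P p t)
    (σ : Equiv.Perm (Fin p)) : vm d P p (t ∘ σ) :=
  ⟨fun i => h.1 (σ i), fun i j hij => h.2 _ _ (fun h' => hij (σ.injective h'))⟩

theorem XA1_vm_comp_iff {d p : ℕ} {P : Finset α} {t : Fin p → Finset α}
    (σ : Equiv.Perm (Fin p)) : vm d P p (t ∘ σ) ↔ vm d P p t := by
  refine ⟨fun h => ?_, fun h => XA1_vm_comp h σ⟩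
  have := XA1_vm_comp h σ⁻¹
  have e : (t ∘ σ) ∘ (σ⁻¹ : Equiv.Perm (Fin p)) = t := by
    funext i
    simp
  rwa [e] at this

theorem XA1_vm_cons {d p : ℕ} {P : Finset α} (b : Finset α) (t : Fin p → Finset α) :
    vm d P (p + 1) (Fin.cons b t : Fin (p + 1) → Finset α) ↔
      b.card = d ∧ b ⊆ P ∧ (∀ i, Disjoint b (t i)) ∧ vm d P p t := by
  constructor
  · rintro ⟨h1, h2⟩
    refine ⟨(h1 0).1, (h1 0).2, fun i => ?_, fun i => h1 i.succ, fun i j hij => ?_⟩
    · exact h2 0 i.succ (Fin.succ_ne_zero i).symm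
    · exact h2 i.succ j.succ (fun h => hij (Fin.succ_injective _ h))
  · rintro ⟨h1, h2, h3, h4, h5⟩
    refine ⟨fun i => ?_, fun i j hij => ?_⟩
    · refine Fin.cases ⟨h1, h2⟩ (fun i => h4 i) i
    · revert hij
      refine Fin.cases ?_ (fun i => ?_) i
      · refine Fin.cases (fun h => absurd rfl h) (fun j _ => ?_) j
        exact h3 j
      · refine Fin.cases (fun _ => (h3 i).symm) (fun j hij => ?_) j
        exact h5 i j (fun h => hij (by rw [h]))

theorem XA1_alt {K : Type} [Field K] (r : ℕ) (X Y : Finset α) :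
    Alt r (aXY (K := K) r X Y) := by
  intro σ t
  unfold aXY
  by_cases h : vm (r + 1) (X ∪ Y) r t
  · rw [if_pos h, if_pos ((XA1_vm_comp_iff σ).2 h)]
    have e1 : ∏ i, (((t ∘ σ) i ∩ X).card.factorial * ((t ∘ σ) i ∩ Y).card.factorial) =
        ∏ i, ((t i ∩ X).card.factorial * (t i ∩ Y).card.factorial) :=
      Equiv.prod_comp σ (fun i => (t i ∩ X).card.factorial * (t i ∩ Y).card.factorial)
    have e2 : ∑ i, ((t ∘ σ) i ∩ X).card = ∑ i, (t i ∩ X).card :=
      Equiv.sum_comp σ (fun i => (t i ∩ X).card)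
    have e3 : ∑ i, ((t ∘ σ) i ∩ Y).card = ∑ i, (t i ∩ Y).card :=
      Equiv.sum_comp σ (fun i => (t i ∩ Y).card)
    have e4 : Aco r (fun i => ((t ∘ σ) i ∩ Y).card) =
        (Equiv.Perm.sign σ : ℤ) * Aco r (fun i => (t i ∩ Y).card) :=
      XA1_Aco_comp r (fun i => (t i ∩ Y).card) σ
    rw [e1, e2, e3, e4]
    push_cast
    ring
  · rw [if_neg h, if_neg (fun h' => h ((XA1_vm_comp_iff σ).1 h')), mul_zero]

theorem XA1_card_sdiff {p : ℕ} (t : Fin p → Finset α)
    (ht : ∀ i j, i ≠ j → Disjoint (t i) (t j)) (X : Finset α) :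
    (X \ univ.biUnion t).card + ∑ i, (t i ∩ X).card = X.card := by
  have h1 : (univ.biUnion t ∩ X).card = ∑ i, (t i ∩ X).card := by
    rw [Finset.biUnion_inter, Finset.card_biUnion]
    intro i _ j _ hij
    exact (ht i j hij).mono inter_subset_left inter_subset_left
  rw [← h1, Finset.inter_comm, Finset.card_sdiff_add_card_inter]

theorem XA1_sum_pairs {K : Type} [Field K] (A B : Finset α) (hAB : Disjoint A B)
    (f : ℕ → ℕ → K) (X Y : Finset α) (hX : A ⊆ X) (hY : B ⊆ Y) (hXY : Disjoint X Y) :
    ∑ b ∈ (A ∪ B).powerset, f (b ∩ X).card (b ∩ Y).card =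
      ∑ i ∈ range (A.card + 1), ∑ j ∈ range (B.card + 1),
        (A.card.choose i : K) * ((B.card.choose j : K) * f i j) := by
  have h1 : ∑ b ∈ (A ∪ B).powerset, f (b ∩ X).card (b ∩ Y).card =
      ∑ p ∈ A.powerset ×ˢ B.powerset, f p.1.card p.2.card := by
    refine Finset.sum_bij' (fun b _ => (b ∩ A, b ∩ B)) (fun p _ => p.1 ∪ p.2) ?_ ?_ ?_ ?_ ?_
    · intro b _
      exact Finset.mem_product.2 ⟨mem_powerset.2 inter_subset_right,
        mem_powerset.2 inter_subset_right⟩
    · rintro ⟨x, y⟩ h
      obtain ⟨hx, hy⟩ := Finset.mem_product.1 h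
      exact mem_powerset.2 (union_subset_union (mem_powerset.1 hx) (mem_powerset.1 hy))
    · intro b hb
      rw [← Finset.inter_union_distrib_left]
      exact Finset.inter_eq_left.2 (mem_powerset.1 hb)
    · rintro ⟨x, y⟩ h
      obtain ⟨hx, hy⟩ := Finset.mem_product.1 h
      have hx := mem_powerset.1 hx
      have hy := mem_powerset.1 hy
      refine Prod.ext ?_ ?_
      · change (x ∪ y) ∩ A = x
        rw [Finset.union_inter_distrib_right, Finset.inter_eq_left.2 hx,
          (Finset.disjoint_iff_inter_eq_empty.1 (hAB.symm.mono_left hy)), union_empty]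
      · change (x ∪ y) ∩ B = y
        rw [Finset.union_inter_distrib_right, Finset.inter_eq_left.2 hy,
          (Finset.disjoint_iff_inter_eq_empty.1 (hAB.mono_left hx)), empty_union]
    · intro b hb
      have hb := mem_powerset.1 hb
      have e1 : b ∩ X = b ∩ A := by
        ext a
        simp only [mem_inter]
        constructor
        · rintro ⟨h1, h2⟩
          refine ⟨h1, ?_⟩
          rcases mem_union.1 (hb h1) with h | h
          · exact h
          · exact absurd h2 (fun h' => Finset.disjoint_left.1 hXY h' (hY h))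
        · rintro ⟨h1, h2⟩
          exact ⟨h1, hX h2⟩
      have e2 : b ∩ Y = b ∩ B := by
        ext a
        simp only [mem_inter]
        constructor
        · rintro ⟨h1, h2⟩
          refine ⟨h1, ?_⟩
          rcases mem_union.1 (hb h1) with h | h
          · exact absurd h2 (fun h' => Finset.disjoint_left.1 hXY (hX h) h')
          · exact h
        · rintro ⟨h1, h2⟩
          exact ⟨h1, hY h2⟩
      rw [e1, e2]
  rw [h1, Finset.sum_product]
  rw [Finset.sum_powerset_apply_card (fun i => ∑ y ∈ B.powerset, f i y.card)]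
  refine Finset.sum_congr rfl fun i _ => ?_
  rw [Finset.sum_powerset_apply_card (fun j => f i j), nsmul_eq_mul, Finset.mul_sum]
  refine Finset.sum_congr rfl fun j _ => ?_
  rw [nsmul_eq_mul]

end XA1

/-- `a_{X,Y}` is a cycle. -/
theorem pr_XA1 : S_XA1 := by
  classical
  intro K _ _ α _ _ r X Y hr hXY hX hY
  refine ⟨⟨XA1_alt r X Y, ?_⟩, ?_⟩
  · intro t ht
    by_contra h
    exact ht (by unfold aXY; rw [if_neg h])
  obtain ⟨r, rfl⟩ : ∃ r', r = r' + 1 := ⟨r - 1, by omega⟩
  intro t ht
  set y : Fin r → ℕ := fun i => (t i ∩ Y).card with hy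
  set UX := X \ univ.biUnion t with hUX
  set UY := Y \ univ.biUnion t with hUY
  have cX : UX.card + ∑ i, (t i ∩ X).card = X.card := XA1_card_sdiff t ht.2 X
  have cY : UY.card + ∑ i, y i = Y.card := XA1_card_sdiff t ht.2 Y
  have cs : ∑ i, (t i ∩ X).card + ∑ i, y i = r * (r + 2) := by
    rw [← Finset.sum_add_distrib]
    have : ∀ i ∈ (univ : Finset (Fin r)), (t i ∩ X).card + y i = r + 2 := by
      intro i _
      have h1 : (t i ∩ X).card + (t i ∩ Y).card = ((t i ∩ X) ∪ (t i ∩ Y)).card := by
        rw [Finset.card_union_of_disjoint]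
        exact hXY.mono inter_subset_right inter_subset_right
      rw [hy, h1, ← Finset.inter_union_distrib_left, Finset.inter_eq_left.2 (ht.1 i).2]
      exact (ht.1 i).1
    rw [Finset.sum_congr rfl this]
    simp
  let C0 : ℕ := ∏ i, ((t i ∩ X).card.factorial * (t i ∩ Y).card.factorial)
  let A : ℕ → K := fun j => ((Aco (r + 1) (Fin.cons j y) : ℤ) : K)
  let f : ℕ → ℕ → K := fun i j => if i + j = r + 2 then
    ((((i.factorial * j.factorial) * C0) * ((UX.card - i).factorial * (UY.card - j).factorial) :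
      ℕ) : K) * A j else 0
  have hterm : ∀ b : Finset α, aXY (K := K) (r + 1) X Y (Fin.cons b t) =
      if b ∈ (UX ∪ UY).powerset then f (b ∩ X).card (b ∩ Y).card else 0 := by
    intro b
    have hcard : b ⊆ X ∪ Y → (b ∩ X).card + (b ∩ Y).card = b.card := by
      intro hb
      rw [← Finset.card_union_of_disjoint, ← Finset.inter_union_distrib_left,
        Finset.inter_eq_left.2 hb]
      exact hXY.mono inter_subset_right inter_subset_right
    have hUU : UX ∪ UY = (X ∪ Y) \ univ.biUnion t := by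
      rw [hUX, hUY, Finset.union_sdiff_distrib]
    unfold aXY
    by_cases hb : vm (r + 1 + 1) (X ∪ Y) (r + 1) (Fin.cons b t : Fin (r + 1) → Finset α)
    · rw [if_pos hb]
      obtain ⟨h1, h2, h3, -⟩ := (XA1_vm_cons b t).1 hb
      rw [if_pos]
      · simp only [f]
        rw [if_pos (by rw [hcard h2, h1])]
        have e1 : ∏ i, (((Fin.cons b t : Fin (r + 1) → Finset α) i ∩ X).card.factorial *
            ((Fin.cons b t : Fin (r + 1) → Finset α) i ∩ Y).card.factorial) =
            ((b ∩ X).card.factorial * (b ∩ Y).card.factorial) * C0 := by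
          rw [Fin.prod_univ_succ]
          rfl
        have e2 : X.card - ∑ i, ((Fin.cons b t : Fin (r + 1) → Finset α) i ∩ X).card =
            UX.card - (b ∩ X).card := by
          rw [Fin.sum_univ_succ]
          simp only [Fin.cons_zero, Fin.cons_succ]
          omega
        have e3 : Y.card - ∑ i, ((Fin.cons b t : Fin (r + 1) → Finset α) i ∩ Y).card =
            UY.card - (b ∩ Y).card := by
          rw [Fin.sum_univ_succ]
          simp only [Fin.cons_zero, Fin.cons_succ]
          have : ∑ i, y i = ∑ i, (t i ∩ Y).card := rfl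
          omega
        have e4 : (fun i => ((Fin.cons b t : Fin (r + 1) → Finset α) i ∩ Y).card) =
            Fin.cons (b ∩ Y).card y := by
          funext i
          refine Fin.cases ?_ (fun i => ?_) i
          · simp
          · simp [hy]
        rw [e1, e2, e3, e4]
      · rw [hUU, mem_powerset]
        intro a ha
        rw [mem_sdiff]
        refine ⟨h2 ha, ?_⟩
        rw [mem_biUnion]
        rintro ⟨i, -, hi⟩
        exact Finset.disjoint_left.1 (h3 i) ha hi
    · rw [if_neg hb]
      split_ifs with h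
      · rw [hUU, mem_powerset] at h
        have h2 : b ⊆ X ∪ Y := fun a ha => (mem_sdiff.1 (h ha)).1
        simp only [f]
        rw [if_neg]
        intro hc
        apply hb
        rw [XA1_vm_cons]
        refine ⟨by rw [← hcard h2, hc], h2, ?_, ht⟩
        intro i
        rw [Finset.disjoint_left]
        intro a ha hi
        exact (mem_sdiff.1 (h ha)).2 (mem_biUnion.2 ⟨i, mem_univ _, hi⟩)
      · rfl
  change dd univ (aXY (K := K) (r + 1) X Y) t = 0
  unfold dd
  rw [Finset.sum_congr rfl fun b _ => hterm b, ← Finset.sum_filter]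
  have hfil : (univ.filter fun b => b ∈ (UX ∪ UY).powerset) = (UX ∪ UY).powerset := by
    ext b
    simp
  rw [hfil, XA1_sum_pairs UX UY (hXY.mono sdiff_subset sdiff_subset) f X Y sdiff_subset
    sdiff_subset hXY]
  have hstep : ∀ i ∈ range (UX.card + 1), ∀ j ∈ range (UY.card + 1),
      (UX.card.choose i : K) * ((UY.card.choose j : K) * f i j) =
        ((UX.card.factorial * UY.card.factorial * C0 : ℕ) : K) *
          (if i + j = r + 2 then A j else 0) := by
    intro i hi j hj
    have hi := Nat.lt_succ_iff.1 (mem_range.1 hi)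
    have hj := Nat.lt_succ_iff.1 (mem_range.1 hj)
    simp only [f]
    split_ifs with h
    · have h1 := Nat.choose_mul_factorial_mul_factorial hi
      have h2 := Nat.choose_mul_factorial_mul_factorial hj
      rw [← h1, ← h2]
      push_cast
      ring
    · ring
  rw [Finset.sum_congr rfl fun i hi => Finset.sum_congr rfl fun j hj => hstep i hi j hj]
  simp only [← Finset.mul_sum]
  rw [mul_eq_zero]
  right
  rw [Finset.sum_comm]
  have hinner : ∀ j ∈ range (UY.card + 1), (∑ i ∈ range (UX.card + 1),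
      if i + j = r + 2 then A j else 0) = if j ≤ r + 2 ∧ r + 2 - j ≤ UX.card then A j else 0 := by
    intro j _
    by_cases hj : j ≤ r + 2 ∧ r + 2 - j ≤ UX.card
    · rw [if_pos hj, Finset.sum_eq_single (r + 2 - j)]
      · rw [if_pos (by omega)]
      · intro i _ hne
        rw [if_neg (by omega)]
      · intro hni
        exact absurd (mem_range.2 (by omega)) hni
    · rw [if_neg hj]
      refine Finset.sum_eq_zero fun i hi => ?_
      have := mem_range.1 hi
      rw [if_neg (by omega)]
  rw [Finset.sum_congr rfl hinner]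
  have hz : ∑ j ∈ range (r + 2), A j = 0 := by
    have := XA1_sum_zero r y
    simp only [A]
    rw [← Int.cast_sum, this, Int.cast_zero]
  refine Eq.trans ?_ hz
  rw [← Finset.sum_filter_ne_zero (range (UY.card + 1)),
    ← Finset.sum_filter_ne_zero (range (r + 2))]
  have hA : ∀ j, A j ≠ 0 → j ≤ r + 1 ∧ j ≤ UY.card ∧ r + 2 - j ≤ UX.card := by
    intro j hj
    have hne : Aco (r + 1) (Fin.cons j y) ≠ 0 := by
      intro h0
      exact hj (by simp only [A]; rw [h0, Int.cast_zero])
    obtain ⟨l, hl, hj', hs⟩ := XA1_Aco_ne r j y hne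
    refine ⟨hj', ?_, ?_⟩
    · nlinarith
    · have h1 : r + 2 ≤ UX.card + j := by nlinarith
      omega
  refine Finset.sum_congr ?_ ?_
  · ext j
    simp only [mem_filter, mem_range]
    constructor
    · rintro ⟨h1, h2⟩
      have hj : A j ≠ 0 := by
        intro h0
        apply h2
        rw [h0]
        split_ifs <;> rfl
      exact ⟨by have := (hA j hj).1; omega, hj⟩
    · rintro ⟨h1, h2⟩
      obtain ⟨h3, h4, h5⟩ := hA j h2
      refine ⟨by omega, ?_⟩
      rw [if_pos ⟨by omega, h5⟩]
      exact h2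
  · intro j hj
    have h2 := (mem_filter.1 hj).2
    obtain ⟨h3, h4, h5⟩ := hA j h2
    rw [if_pos ⟨by omega, h5⟩]

end Pool.Agent.Work.MP_1233f5_ag.V

end

section

/-! Item XA2: `S_XT2` for subsets. -/

set_option autoImplicit false

namespace Pool.Agent.Work.MP_1233f5_ag.V

open Finset

theorem XA2_vm {α β : Type} [DecidableEq α] [DecidableEq β] (ι : β ↪ α) (d p : ℕ) (P : Finset β)
    (t : Fin p → Finset β) :
    vm d (P.map ι) p (fun i => (t i).map ι) ↔ vm d P p t := by
  unfold vm
  simp only [Finset.card_map, Finset.map_subset_map, Finset.disjoint_map]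

/-- naturality of `aXY` under embeddings. -/
theorem XA2_nat {K : Type} [Field K] {α β : Type} [DecidableEq α] [DecidableEq β] (ι : β ↪ α)
    (r : ℕ) (X Y : Finset β) (t : Fin r → Finset β) :
    aXY (K := K) r (X.map ι) (Y.map ι) (fun i => (t i).map ι) = aXY r X Y t := by
  unfold aXY
  rw [← Finset.map_union]
  simp only [← Finset.map_inter, Finset.card_map]
  by_cases h : vm (r + 1) (X ∪ Y) r t
  · rw [if_pos h, if_pos ((XA2_vm ι (r + 1) r (X ∪ Y) t).mpr h)]
  · rw [if_neg h, if_neg (fun h' => h ((XA2_vm ι (r + 1) r (X ∪ Y) t).mp h'))]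

theorem XA2_sub {K : Type} [Field K] {α : Type} [DecidableEq α] {r : ℕ}
    {c c' : (Fin r → Finset α) → K} {P Q Q' : Finset α} (hQ : Q ⊆ P) (hQ' : Q' ⊆ P)
    (hc : rCh (vm (r + 1) Q) r c) (hc' : rCh (vm (r + 1) Q') r c') :
    rCh (vm (r + 1) P) r (fun t => c t - c' t) := by
  have mono : ∀ {Q : Finset α}, Q ⊆ P → ∀ t, vm (r + 1) Q r t → vm (r + 1) P r t :=
    fun h t ht => ⟨fun i => ⟨(ht.1 i).1, (ht.1 i).2.trans h⟩, ht.2⟩
  refine ⟨fun σ t => ?_, fun t ht => ?_⟩
  · show c (t ∘ σ) - c' (t ∘ σ) = _ * (c t - c' t)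
    rw [hc.1 σ t, hc'.1 σ t, mul_sub]
  · by_cases h : c t = 0
    · by_cases h' : c' t = 0
      · exact absurd (show c t - c' t = 0 by rw [h, h', sub_zero]) ht
      · exact mono hQ' t (hc'.2 t h')
    · exact mono hQ t (hc.2 t h)

theorem pr_XA2 (hXT2 : S_XT2) (hDown : S_Down) (hXA1 : S_XA1) : S_XA2 := by
  intro K _ _ α _ _ r X Y f f' hr hXY hX hY hf hf' hfc hfc'
  have hcY : ∀ g : Finset α, g ⊆ Y → g.card = r → 2 * (Y \ g).card = r * (r + 1) := by
    intro g hg hgc
    rw [Finset.card_sdiff_of_subset hg, hgc]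
    have e1 : r * (r + 3) = r * (r + 1) + 2 * r := by ring
    omega
  have hch : ∀ g : Finset α, g ⊆ Y → g.card = r →
      rCh (vm (r + 1) (X ∪ (Y \ g))) r (aXY (K := K) r X (Y \ g)) := by
    intro g hg hgc
    exact (hXA1 K α r X (Y \ g) hr
      (Finset.disjoint_of_subset_right Finset.sdiff_subset hXY) hX (hcY g hg hgc)).1
  have hsub : ∀ g : Finset α, X ∪ (Y \ g) ⊆ X ∪ Y := fun g =>
    Finset.union_subset_union (Finset.Subset.refl _) Finset.sdiff_subset
  refine (hDown K α (r + 1) r (X ∪ Y) _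
    (XA2_sub (hsub f) (hsub f') (hch f hf hfc) (hch f' hf' hfc'))).2.2 ?_
  -- the subtype
  have key : ∀ g : Finset α, g ⊆ X ∪ Y →
      (g.subtype (fun a => a ∈ X ∪ Y)).map (Function.Embedding.subtype _) = g := fun g hg =>
    Finset.subtype_map_of_mem (fun x hx => hg hx)
  have hX' : (X.subtype (fun a => a ∈ X ∪ Y)).map (Function.Embedding.subtype _) = X :=
    key X Finset.subset_union_left
  have hYg : ∀ g : Finset α, g ⊆ Y →
      (((univ : Finset {a // a ∈ X ∪ Y}) \ X.subtype (fun a => a ∈ X ∪ Y)) \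
        g.subtype (fun a => a ∈ X ∪ Y)).map (Function.Embedding.subtype _) = Y \ g := by
    intro g hg
    ext a
    simp only [Finset.mem_map, Finset.mem_sdiff, Finset.mem_univ, true_and, Finset.mem_subtype,
      Function.Embedding.subtype_apply, Subtype.exists, Finset.mem_union, exists_and_left,
      exists_prop, exists_eq_right_right]
    constructor
    · rintro ⟨⟨h1, h2⟩, h3⟩
      exact ⟨by tauto, by tauto⟩
    · rintro ⟨h1, h2⟩
      have h3 : a ∉ X := fun h => (Finset.disjoint_left.mp hXY h h1)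
      tauto
  have hcard : ∀ g : Finset α, g ⊆ X ∪ Y →
      (g.subtype (fun a => a ∈ X ∪ Y)).card = g.card := by
    intro g hg
    conv_rhs => rw [← key g hg]
    rw [Finset.card_map]
  have hβ : Fintype.card {a // a ∈ X ∪ Y} = r * (r + 3) := by
    rw [Fintype.card_coe, Finset.card_union_of_disjoint hXY]
    omega
  have hfs : ∀ g : Finset α, g ⊆ Y → g.subtype (fun a => a ∈ X ∪ Y) ⊆
      (univ : Finset {a // a ∈ X ∪ Y}) \ X.subtype (fun a => a ∈ X ∪ Y) := by
    intro g hg a ha
    rw [Finset.mem_subtype] at ha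
    rw [Finset.mem_sdiff, Finset.mem_subtype]
    exact ⟨Finset.mem_univ _, fun h => Finset.disjoint_left.mp hXY h (hg ha)⟩
  have hfU : f ⊆ X ∪ Y := hf.trans Finset.subset_union_right
  have hfU' : f' ⊆ X ∪ Y := hf'.trans Finset.subset_union_right
  have main := hXT2 K {a // a ∈ X ∪ Y} r hr hβ (X.subtype (fun a => a ∈ X ∪ Y))
    (f.subtype (fun a => a ∈ X ∪ Y)) (f'.subtype (fun a => a ∈ X ∪ Y))
    (by rw [hcard X Finset.subset_union_left]; exact hX) (hfs f hf) (hfs f' hf')
    (by rw [hcard f hfU]; exact hfc) (by rw [hcard f' hfU']; exact hfc')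
  have e : down (X ∪ Y) (fun t => aXY (K := K) r X (Y \ f) t - aXY r X (Y \ f') t) =
      fun t => aXY (K := K) r (X.subtype (fun a => a ∈ X ∪ Y))
          (((univ : Finset {a // a ∈ X ∪ Y}) \ X.subtype (fun a => a ∈ X ∪ Y)) \
            f.subtype (fun a => a ∈ X ∪ Y)) t -
        aXY r (X.subtype (fun a => a ∈ X ∪ Y))
          (((univ : Finset {a // a ∈ X ∪ Y}) \ X.subtype (fun a => a ∈ X ∪ Y)) \
            f'.subtype (fun a => a ∈ X ∪ Y)) t := by
    funext t
    rw [← XA2_nat (K := K) (Function.Embedding.subtype _) r _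
        (((univ : Finset {a // a ∈ X ∪ Y}) \ X.subtype (fun a => a ∈ X ∪ Y)) \
            f.subtype (fun a => a ∈ X ∪ Y)) t,
      ← XA2_nat (K := K) (Function.Embedding.subtype _) r _
        (((univ : Finset {a // a ∈ X ∪ Y}) \ X.subtype (fun a => a ∈ X ∪ Y)) \
            f'.subtype (fun a => a ∈ X ∪ Y)) t, hYg f hf, hYg f' hf', hX']
    rfl
  rw [e]
  exact main

end Pool.Agent.Work.MP_1233f5_ag.V

end

section

set_option autoImplicit false

namespace Pool.Agent.Work.MP_1233f5_ag.V

open Finset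

section XA3
variable {K : Type} [Field K] {S α : Type} [DecidableEq S] [DecidableEq α] (ι : S ↪ α)

omit [DecidableEq S] [DecidableEq α] in
theorem XA3_vm {d p : ℕ} (P : Finset S) (s : Fin p → Finset S) :
    vm d (P.map ι) p (fun i => (s i).map ι) ↔ vm d P p s := by
  unfold vm
  constructor
  · rintro ⟨h1, h2⟩
    refine ⟨fun i => ⟨?_, Finset.map_subset_map.1 (h1 i).2⟩, fun i j hij => ?_⟩
    · rw [← (h1 i).1]
      exact (Finset.card_map _).symm
    · exact (Finset.disjoint_map ι).1 (h2 i j hij)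
  · rintro ⟨h1, h2⟩
    refine ⟨fun i => ⟨?_, Finset.map_subset_map.2 (h1 i).2⟩, fun i j hij => ?_⟩
    · rw [← (h1 i).1]
      exact Finset.card_map _
    · exact (Finset.disjoint_map _).2 (h2 i j hij)

theorem XA3_aXY (r : ℕ) (X Y : Finset S) (s : Fin r → Finset S) :
    aXY (K := K) r (X.map ι) (Y.map ι) (fun i => (s i).map ι) = aXY r X Y s := by
  unfold aXY
  rw [← Finset.map_union]
  by_cases h : vm (r + 1) (X ∪ Y) r s
  · rw [if_pos h, if_pos ((XA3_vm ι _ _).2 h)]
    simp only [← Finset.map_inter, Finset.card_map]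
  · rw [if_neg h, if_neg fun h' => h ((XA3_vm ι _ _).1 h')]

theorem XA3_zXY (r : ℕ) (X Y : Finset S) (s : Fin r → Finset S) :
    zXY (K := K) r (X.map ι) (Y.map ι) (fun i => (s i).map ι) = zXY r X Y s := by
  unfold zXY
  rw [Finset.powersetCard_map, Finset.sum_map]
  refine Finset.sum_congr rfl fun f _ => ?_
  have h1 : (Y.map ι \ (Finset.mapEmbedding ι).toEmbedding f) = (Y \ f).map ι := by
    have : (Finset.mapEmbedding ι).toEmbedding f = f.map ι := rfl
    rw [this, Finset.map_sdiff]
  rw [h1, XA3_aXY]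

end XA3

theorem XA3_mono {α : Type} [DecidableEq α] {d p : ℕ} {P P' : Finset α} (h : P ⊆ P')
    {t : Fin p → Finset α} (ht : vm d P p t) : vm d P' p t :=
  ⟨fun i => ⟨(ht.1 i).1, (ht.1 i).2.trans h⟩, ht.2⟩

theorem pr_XA3 (hXT3 : S_XT3) (hDown : S_Down) (hXA1 : S_XA1) : S_XA3 := by
  classical
  intro K _ _ α _ _ r A hr hA u hu
  have hcard : Fintype.card {a // a ∈ A} = r * (r + 3) := by
    rw [Fintype.card_coe, hA]
  obtain ⟨l', hl'⟩ := hXT3 K {a // a ∈ A} r hr hcard (down A u)
    ((hDown K α (r + 1) r A u hu.1).2.1 hu)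
  refine ⟨fun X => l' (X.subtype (· ∈ A)), ?_⟩
  -- the chain
  have hz : ∀ X ∈ A.powerset.filter (fun X : Finset α => 2 * X.card = r * (r + 3)),
      rCh (vm (r + 1) A) r (zXY (K := K) r X (A \ X)) := by
    intro X hX
    rw [Finset.mem_filter, Finset.mem_powerset] at hX
    have hf : ∀ f ∈ powersetCard r (A \ X), rCh (vm (r + 1) A) r
        (aXY (K := K) r X ((A \ X) \ f)) := by
      intro f hf
      rw [Finset.mem_powersetCard] at hf
      have hd : Disjoint X ((A \ X) \ f) :=
        Finset.disjoint_of_subset_right Finset.sdiff_subset Finset.disjoint_sdiff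
      have hc : 2 * ((A \ X) \ f).card = r * (r + 1) := by
        rw [Finset.card_sdiff_of_subset hf.1, Finset.card_sdiff_of_subset hX.1, hA, hf.2]
        have h1 := hX.2
        have h2 : r * (r + 3) = r * (r + 1) + 2 * r := by ring
        omega
      have h := (hXA1 K α r X ((A \ X) \ f) hr hd hX.2 hc).1
      refine ⟨h.1, fun t ht => XA3_mono ?_ (h.2 t ht)⟩
      apply Finset.union_subset hX.1
      exact Finset.sdiff_subset.trans Finset.sdiff_subset
    refine ⟨Alt.sum _ _ fun f hf' => (hf f hf').1, fun t ht => ?_⟩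
    obtain ⟨f, hf', hne⟩ := Finset.exists_ne_zero_of_sum_ne_zero ht
    exact (hf f hf').2 t hne
  have hch : rCh (vm (r + 1) A) r (fun t => u t -
      ∑ X ∈ A.powerset.filter (fun X : Finset α => 2 * X.card = r * (r + 3)),
        l' (X.subtype (· ∈ A)) * zXY r X (A \ X) t) := by
    refine ⟨Alt.sub hu.1.1 (Alt.sum _ _ fun X hX => Alt.smul _ (hz X hX).1), fun t ht => ?_⟩
    by_cases h0 : u t = 0
    · have h1 : (∑ X ∈ A.powerset.filter (fun X : Finset α => 2 * X.card = r * (r + 3)),
          l' (X.subtype (· ∈ A)) * zXY r X (A \ X) t) ≠ 0 := by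
        intro h1
        apply ht
        change u t - _ = 0
        rw [h0, h1, sub_zero]
      obtain ⟨X, hX, hne⟩ := Finset.exists_ne_zero_of_sum_ne_zero h1
      exact (hz X hX).2 t (right_ne_zero_of_mul hne)
    · exact hu.1.2 t h0
  refine (hDown K α (r + 1) r A _ hch).2.2 ?_
  have hfun : down A (fun t => u t -
      ∑ X ∈ A.powerset.filter (fun X : Finset α => 2 * X.card = r * (r + 3)),
        l' (X.subtype (· ∈ A)) * zXY r X (A \ X) t) = fun t => down A u t -
      ∑ X ∈ univ.filter (fun X : Finset {a // a ∈ A} => 2 * X.card = r * (r + 3)),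
        l' X * zXY r X (univ \ X) t := by
    funext s
    change u _ - _ = u _ - _
    congr 1
    symm
    refine Finset.sum_bij (fun X _ => X.map (Function.Embedding.subtype _)) ?_ ?_ ?_ ?_
    · intro X hX
      rw [Finset.mem_filter] at hX
      rw [Finset.mem_filter, Finset.mem_powerset, Finset.card_map]
      refine ⟨fun x hx => ?_, hX.2⟩
      obtain ⟨y, -, rfl⟩ := Finset.mem_map.1 hx
      exact y.2
    · intro X _ X' _ h
      exact Finset.map_injective _ h
    · intro X hX
      rw [Finset.mem_filter, Finset.mem_powerset] at hX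
      have hm : (X.subtype (· ∈ A)).map (Function.Embedding.subtype _) = X :=
        Finset.subtype_map_of_mem fun x hx => hX.1 hx
      refine ⟨X.subtype (· ∈ A), ?_, hm⟩
      rw [Finset.mem_filter]
      refine ⟨Finset.mem_univ _, ?_⟩
      rw [← hX.2]
      congr 1
      conv_rhs => rw [← hm]
      rw [Finset.card_map]
    · intro X hX
      have h1 : (X.map (Function.Embedding.subtype _)).subtype (· ∈ A) = X := by
        ext x
        simp
      have h2 : A \ X.map (Function.Embedding.subtype _) =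
          (univ \ X).map (Function.Embedding.subtype (· ∈ A)) := by
        ext x
        simp only [Finset.mem_sdiff, Finset.mem_map, Finset.mem_univ, true_and,
          Function.Embedding.subtype_apply]
        constructor
        · rintro ⟨hx, hn⟩
          exact ⟨⟨x, hx⟩, fun h => hn ⟨_, h, rfl⟩, rfl⟩
        · rintro ⟨y, hy, rfl⟩
          refine ⟨y.2, ?_⟩
          rintro ⟨z, hz', hzy⟩
          exact hy (Subtype.ext hzy ▸ hz')
      rw [h1, h2, XA3_zXY]
  rw [hfun]
  exact hl'

end Pool.Agent.Work.MP_1233f5_ag.V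

end

section

/-! MP_1233f5_ag, block X, item XAnti3: cycles antisymmetric in three points at `(2d-2, d-1)`
are boundaries. -/

set_option autoImplicit false

namespace Pool.Agent.Work.MP_1233f5_ag.V

open Finset

namespace XAnti3

/-- lower bound for `bnd` in the first block -/
theorem bnd_ge (r : ℕ) (hr : 1 ≤ r) : ∀ T : ℕ, T ≤ 2 * r → T - r ≤ bnd (r + 1) T := by
  intro T
  induction T with
  | zero => intro _; omega
  | succ T ih =>
    intro hT
    have h1 := ih (by omega)
    rw [bnd]
    refine le_min ?_ (by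
      generalize (T + 1) / (r + 1 - 1) = q
      omega)
    rcases Nat.lt_or_ge r (T + 1) with h | h
    · rw [theta, Nat.add_sub_cancel]
      rcases Nat.lt_or_ge (T + 1) (2 * r) with h2 | h2
      · have hq : (T + 1) / r = 1 := by
          rw [Nat.div_eq_iff (by omega)]
          omega
        rw [hq, Nat.choose_one_right, Nat.choose_one_right]
        omega
      · have hT2 : T + 1 = 2 * r := by omega
        have hq : (T + 1) / r = 2 := by
          rw [hT2]
          exact Nat.mul_div_cancel _ (by omega)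
        rw [hq, hT2]
        have e1 : (2 + 1) * r - 2 * r + 2 = r + 2 := by omega
        have e2 : r + 1 + 2 = (r + 2) + 1 := by omega
        have e3 : (r + 2 + 1).choose 2 = (r + 2).choose 1 + (r + 2).choose 2 :=
          Nat.choose_succ_succ _ _
        rw [e1, e2, e3, Nat.choose_one_right]
        omega
    · omega

end XAnti3

open XAnti3 in
theorem pr_XAnti3 (hMain : S_Main) (hA : S_A) (hG : S_G) (hTr : S_Tr) : S_XAnti3 := by
  intro K _ _ β _ _ r hr hcard Q hQ z hz hanti
  have hvan : rVan K univ (vG (r + 1) univ Q) r := by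
    obtain ⟨q, rfl⟩ := Nat.exists_eq_add_of_le' hr
    refine hG K β (q + 2 + 1) 2 q (q * (q + 2 + 1) + (2 * (q + 2) - 1)) univ Q (by omega)
      (Finset.subset_univ _) hQ ?_ ?_ ?_
    · rw [Finset.card_univ, hcard]
      have : (q + 2) * (q + 2 + 3) = q * (q + 2 + 1) + 4 * q + 10 := by ring
      omega
    · intro P' hP'
      have h1 := bnd_ge (q + 2) (by omega) (2 * (q + 2) - 1) (by omega)
      have h2 := hMain K (q + 2 + 1) (2 * (q + 2) - 1) q (by omega) (by omega)
      refine hTr K _ _ (q + 2 + 1) q univ P' ?_ h2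
      rw [Finset.card_univ, Fintype.card_fin, hP']
    · intro p' s' hq hs P' hP'
      subst hq
      have h1 := bnd_ge (p' + 1 + 2) (by omega) (2 * (p' + 1 + 2)) (by omega)
      have h2 := hMain K (p' + 1 + 2 + 1) (2 * (p' + 1 + 2)) p' (by omega) (by omega)
      refine hTr K _ _ (p' + 1 + 2 + 1) p' univ P' ?_ h2
      rw [Finset.card_univ, hcard] at hs
      rw [Finset.card_univ, Fintype.card_fin, hP']
      have e1 : (p' + 1 + 2) * (p' + 1 + 2 + 3) = p' * (p' + 1 + 2 + 1) + 5 * p' + 18 := by ring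
      have e2 : (2 + 1) * (p' + 1 + 2 + 1) = 3 * p' + 12 := by ring
      omega
  obtain ⟨g, hg1, hg2⟩ := hA K β (r + 1) r Q hvan z hz.1 hz.2 hanti
  exact ⟨hz.1, g, hg1, hg2⟩

end Pool.Agent.Work.MP_1233f5_ag.V

end

section

set_option autoImplicit false

namespace Pool.Agent.Work.MP_1233f5_ag.V

open Finset

/-- sums of the exponents of an injective tuple of `r` monomials of degree `r + 1` in two variables
which are not powers. -/
theorem XC2a_sum {r : ℕ} (t : Fin r → (Fin 2 → ℕ)) (hinj : Function.Injective t)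
    (hd : ∀ i, t i 0 + t i 1 = r + 1) (h0 : ∀ i, t i 0 ≠ 0) (h1 : ∀ i, t i 1 ≠ 0) :
    2 * ∑ i, t i 0 = r * (r + 1) ∧ 2 * ∑ i, t i 1 = r * (r + 1) := by
  have hk : Function.Injective (fun i => t i 1 - 1) := by
    intro i j hij
    apply hinj
    have e1 := h1 i
    have e2 := h1 j
    have e3 : t i 1 = t j 1 := by simp only at hij; omega
    have e4 := hd i
    have e5 := hd j
    funext a
    fin_cases a
    · show t i 0 = t j 0
      omega
    · exact e3
  have himg : univ.image (fun i => t i 1 - 1) = range r := by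
    refine Finset.eq_of_subset_of_card_le ?_ ?_
    · intro a ha
      rw [Finset.mem_image] at ha
      obtain ⟨i, -, rfl⟩ := ha
      rw [Finset.mem_range]
      have e1 := hd i
      have e2 := h0 i
      have e3 := h1 i
      omega
    · rw [Finset.card_image_of_injective _ hk]; simp
  have hs : ∑ i, (t i 1 - 1) = ∑ k ∈ range r, k := by
    rw [← himg, Finset.sum_image (fun i _ j _ h => hk h)]
  have hs2 : ∑ i, t i 1 = ∑ i, (t i 1 - 1) + r := by
    have : ∑ i, t i 1 = ∑ i, ((t i 1 - 1) + 1) := by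
      refine Finset.sum_congr rfl fun i _ => ?_
      have := h1 i
      omega
    rw [this, Finset.sum_add_distrib]; simp
  have hg := Finset.sum_range_id_mul_two r
  have h2 : 2 * ∑ i, t i 1 = r * (r + 1) := by
    rw [hs2, hs]
    rcases r with _ | r
    · simp
    · simp only [Nat.add_sub_cancel] at hg
      nlinarith
  refine ⟨?_, h2⟩
  have h3 : ∑ i, t i 0 + ∑ i, t i 1 = r * (r + 1) := by
    rw [← Finset.sum_add_distrib, Finset.sum_congr rfl (fun i _ => hd i)]
    simp
  omega

theorem pr_XC2a (hRSr : S_RSr) : S_XC2a := by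
  intro K _ _ r w hr hw hne c hc hcy
  refine hRSr K 2 (r + 1) r w (by omega) c hc hcy ?_
  intro t ht
  by_contra hct
  obtain ⟨⟨hmo, hle⟩, hJ⟩ := ht
  have hinj : Function.Injective t := by
    intro i j hij
    by_contra hne'
    exact hct (hc.1.eq_zero hne' hij)
  have hd : ∀ i, t i 0 + t i 1 = r + 1 := by
    intro i
    have := hmo i
    rw [Mo, Finset.mem_piAntidiag] at this
    have h2 := this.1
    rw [Fin.sum_univ_two] at h2
    exact h2
  have h1 : ∀ i, t i 1 ≠ 0 := by
    intro i h
    apply (hJ 0 (mem_univ _)).1 i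
    have := hd i
    funext a
    fin_cases a
    · show t i 0 = Pi.single (M := fun _ : Fin 2 => ℕ) 0 (r + 1) 0
      rw [Pi.single_eq_same]; omega
    · show t i 1 = Pi.single (M := fun _ : Fin 2 => ℕ) 0 (r + 1) 1
      rw [Pi.single_eq_of_ne (by decide)]; exact h
  have h0 : ∀ i, t i 0 ≠ 0 := by
    intro i h
    apply (hJ 1 (mem_univ _)).1 i
    have := hd i
    funext a
    fin_cases a
    · show t i 0 = Pi.single (M := fun _ : Fin 2 => ℕ) 1 (r + 1) 0
      rw [Pi.single_eq_of_ne (by decide)]; exact h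
    · show t i 1 = Pi.single (M := fun _ : Fin 2 => ℕ) 1 (r + 1) 1
      rw [Pi.single_eq_same]; omega
  obtain ⟨s0, s1⟩ := XC2a_sum t hinj hd h0 h1
  have b0 := (hJ 0 (mem_univ _)).2
  have b1 := (hJ 1 (mem_univ _)).2
  have e : r * (r + 3) = r * (r + 1) + 2 * r := by ring
  apply hne
  omega

end Pool.Agent.Work.MP_1233f5_ag.V

end

section

/-! MP_1233f5_ag, item XC2b: two variables, balanced weight. -/

set_option autoImplicit false

namespace Pool.Agent.Work.MP_1233f5_ag.V

open Finset

theorem XC2b_eps_perm (d : ℕ) (k : Fin d → ℕ) (π : Equiv.Perm (Fin d)) :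
    eps d (k ∘ π) = (Equiv.Perm.sign π : ℤ) * eps d k := by
  unfold eps
  rw [Finset.mul_sum]
  refine Fintype.sum_equiv (Equiv.mulRight π⁻¹) _ _ fun σ => ?_
  have h : (∀ i, (k ∘ π) i = (σ i : ℕ)) ↔ ∀ i, k i = (((Equiv.mulRight π⁻¹) σ) i : ℕ) := by
    constructor
    · intro h i
      have h1 : k (π (π⁻¹ i)) = (σ (π⁻¹ i) : ℕ) := h (π⁻¹ i)
      have h2 : π (π⁻¹ i) = i := π.apply_symm_apply i
      rw [h2] at h1
      rw [h1]
      rfl
    · intro h i
      have h1 := h (π i)
      rw [Function.comp_apply, h1]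
      simp [Equiv.Perm.mul_apply]
  by_cases h1 : ∀ i, (k ∘ π) i = (σ i : ℕ)
  · rw [if_pos h1, if_pos (h.1 h1)]
    have h2 : Equiv.Perm.sign ((Equiv.mulRight π⁻¹) σ) =
        Equiv.Perm.sign σ * Equiv.Perm.sign π := by
      show Equiv.Perm.sign (σ * π⁻¹) = _
      rw [Equiv.Perm.sign_mul, Equiv.Perm.sign_inv]
    rw [h2, Units.val_mul, mul_comm, mul_assoc, ← Units.val_mul, Int.units_mul_self]
    simp
  · rw [if_neg h1, if_neg (fun h2 => h1 (h.2 h2)), mul_zero]

theorem XC2b_Aco_perm (r : ℕ) (k : Fin r → ℕ) (π : Equiv.Perm (Fin r)) :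
    Aco r (k ∘ π) = (Equiv.Perm.sign π : ℤ) * Aco r k := by
  unfold Aco
  rw [Finset.mul_sum]
  refine Finset.sum_congr rfl fun j _ => ?_
  have h2 : (Fin.cons j k : Fin (r + 1) → ℕ) ∘ (Equiv.Perm.decomposeFin.symm (0, π)) =
      Fin.cons j (k ∘ π) := by
    funext i
    refine Fin.cases ?_ (fun i => ?_) i
    · simp
    · simp
  rw [← h2, XC2b_eps_perm]
  simp

theorem XC2b_eps_big (d : ℕ) (k : Fin d → ℕ) (i : Fin d) (h : d ≤ k i) : eps d k = 0 := by
  unfold eps
  refine Finset.sum_eq_zero fun σ _ => ?_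
  rw [if_neg]
  intro h1
  have h2 := h1 i
  have h3 := (σ i).2
  omega

theorem XC2b_eps_ne {d : ℕ} {k : Fin d → ℕ} (h : eps d k ≠ 0) :
    ∃ σ : Equiv.Perm (Fin d), ∀ i, k i = (σ i : ℕ) := by
  unfold eps at h
  obtain ⟨σ, -, hσ⟩ := Finset.exists_ne_zero_of_sum_ne_zero h
  refine ⟨σ, ?_⟩
  by_contra h1
  exact hσ (if_neg h1)

theorem XC2b_eps_swap (r l j : ℕ) (k : Fin r → ℕ) :
    eps (r + 2) (Fin.cons l (Fin.cons j k : Fin (r + 1) → ℕ)) =
      - eps (r + 2) (Fin.cons j (Fin.cons l k : Fin (r + 1) → ℕ)) := by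
  have h2 : (Fin.cons j (Fin.cons l k : Fin (r + 1) → ℕ) : Fin (r + 2) → ℕ) ∘
      (Equiv.swap (0 : Fin (r + 2)) 1) = Fin.cons l (Fin.cons j k : Fin (r + 1) → ℕ) := by
    funext i
    refine Fin.cases ?_ (fun i => ?_) i
    · simp only [Function.comp_apply, Equiv.swap_apply_left, Fin.cons_zero]
      rfl
    · refine Fin.cases ?_ (fun i => ?_) i
      · simp only [Function.comp_apply, Fin.succ_zero_eq_one, Equiv.swap_apply_right,
          Fin.cons_zero]
        rfl
      · have e1 : (i.succ.succ : Fin (r + 2)) ≠ 0 := Fin.succ_ne_zero _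
        have e2 : (i.succ.succ : Fin (r + 2)) ≠ 1 := by
          rw [← Fin.succ_zero_eq_one]
          intro h
          exact Fin.succ_ne_zero i (Fin.succ_injective _ h)
        simp only [Function.comp_apply, Equiv.swap_apply_of_ne_of_ne e1 e2, Fin.cons_succ]
  rw [← h2, XC2b_eps_perm, Equiv.Perm.sign_swap (by simp)]
  simp

/-- the contraction of the contraction is zero. -/
theorem XC2b_Aco_sum (r : ℕ) (k : Fin r → ℕ) :
    ∑ j ∈ range (r + 3), Aco (r + 1) (Fin.cons j k) = 0 := by
  rw [Finset.sum_range_succ]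
  have h1 : Aco (r + 1) (Fin.cons (r + 2) k) = 0 := by
    unfold Aco
    refine Finset.sum_eq_zero fun l _ => ?_
    refine XC2b_eps_big (r + 2) _ 1 ?_
    have h2 : (Fin.cons l (Fin.cons (r + 2) k : Fin (r + 1) → ℕ) : Fin (r + 2) → ℕ) 1 = r + 2 :=
      rfl
    rw [h2]
  rw [h1, add_zero]
  unfold Aco
  have h2 : ∑ j ∈ range (r + 2), ∑ l ∈ range (r + 2),
      eps (r + 2) (Fin.cons l (Fin.cons j k : Fin (r + 1) → ℕ)) =
      - ∑ j ∈ range (r + 2), ∑ l ∈ range (r + 2),
        eps (r + 2) (Fin.cons l (Fin.cons j k : Fin (r + 1) → ℕ)) := by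
    conv_lhs => rw [Finset.sum_comm]
    rw [← Finset.sum_neg_distrib]
    refine Finset.sum_congr rfl fun j _ => ?_
    rw [← Finset.sum_neg_distrib]
    refine Finset.sum_congr rfl fun l _ => ?_
    exact XC2b_eps_swap r j l k
  have h3 : (∑ j ∈ range (r + 1 + 1), ∑ l ∈ range (r + 1 + 1),
      eps (r + 1 + 1) (Fin.cons l (Fin.cons j k : Fin (r + 1) → ℕ))) =
      ∑ j ∈ range (r + 2), ∑ l ∈ range (r + 2),
        eps (r + 2) (Fin.cons l (Fin.cons j k : Fin (r + 1) → ℕ)) := rfl
  rw [h3]
  omega

theorem XC2b_mem_Mo {d : ℕ} {m : Fin 2 → ℕ} : m ∈ Mo 2 d ↔ m 0 + m 1 = d := by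
  unfold Mo
  rw [Finset.mem_piAntidiag, Fin.sum_univ_two]
  constructor
  · exact fun h => h.1
  · exact fun h => ⟨h, fun i _ => Finset.mem_univ i⟩

theorem XC2b_sum_Mo {A : Type*} [AddCommMonoid A] (d : ℕ) (F : ℕ → A) :
    ∑ b ∈ Mo 2 d, F (b 1) = ∑ j ∈ range (d + 1), F j := by
  refine Finset.sum_nbij' (fun b => b 1) (fun j => ![d - j, j]) ?_ ?_ ?_ ?_ ?_
  · intro b hb
    rw [XC2b_mem_Mo] at hb
    rw [Finset.mem_range]
    omega
  · intro j hj
    rw [Finset.mem_range] at hj
    rw [XC2b_mem_Mo]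
    simp only [Matrix.cons_val_zero, Matrix.cons_val_one]
    omega
  · intro b hb
    rw [XC2b_mem_Mo] at hb
    funext x
    fin_cases x
    · simp only [Fin.zero_eta, Matrix.cons_val_zero]
      omega
    · simp
  · intro j _
    simp
  · intro b _
    rfl

theorem XC2b_c0_alt {K : Type} [Field K] (r : ℕ) : Alt r (c0 (K := K) r) := by
  intro σ t
  unfold c0
  have h1 : (∀ i, (t ∘ σ) i 0 + (t ∘ σ) i 1 = r + 1) ↔ ∀ i, t i 0 + t i 1 = r + 1 := by
    constructor
    · intro h i
      have := h (σ.symm i)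
      simpa using this
    · intro h i
      exact h (σ i)
  by_cases h2 : ∀ i, t i 0 + t i 1 = r + 1
  · rw [if_pos h2, if_pos (h1.2 h2)]
    have h3 : (fun i => (t ∘ σ) i 1) = (fun i => t i 1) ∘ σ := rfl
    rw [h3, XC2b_Aco_perm]
    push_cast
    rfl
  · rw [if_neg h2, if_neg (fun h => h2 (h1.1 h)), mul_zero]

theorem XC2b_c0_supp {K : Type} [Field K] (r : ℕ) (w : Fin 2 → ℕ) (hw : w 0 + w 1 = r * (r + 3))
    (hw' : w 0 = w 1) (t : Fin r → (Fin 2 → ℕ)) (ht : c0 (K := K) r t ≠ 0) :
    vw (r + 1) w r t := by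
  unfold c0 at ht
  have h1 : ∀ i, t i 0 + t i 1 = r + 1 := by
    by_contra h
    exact ht (if_neg h)
  rw [if_pos h1] at ht
  have h2 : Aco r (fun i => t i 1) ≠ 0 := by
    intro h
    apply ht
    rw [h, Int.cast_zero]
  unfold Aco at h2
  obtain ⟨j, hj, hj0⟩ := Finset.exists_ne_zero_of_sum_ne_zero h2
  obtain ⟨σ, hσ⟩ := XC2b_eps_ne hj0
  rw [Finset.mem_range] at hj
  have h3 : j + ∑ i, t i 1 = ∑ i : Fin (r + 1), (i : ℕ) := by
    have h4 : ∑ i : Fin (r + 1), (Fin.cons j (fun i => t i 1) : Fin (r + 1) → ℕ) i =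
        ∑ i : Fin (r + 1), (i : ℕ) := by
      rw [Finset.sum_congr rfl fun i _ => hσ i]
      exact Equiv.sum_comp σ (fun i => (i : ℕ))
    rw [Fin.sum_univ_succ] at h4
    simpa using h4
  have h4 : (∑ i : Fin (r + 1), (i : ℕ)) * 2 = (r + 1) * r := by
    rw [Fin.sum_univ_eq_sum_range (fun i => i) (r + 1)]
    exact Finset.sum_range_id_mul_two (r + 1)
  have h5 : ∑ i, t i 0 + ∑ i, t i 1 = r * (r + 1) := by
    rw [← Finset.sum_add_distrib, Finset.sum_congr rfl fun i _ => h1 i]
    simp
  refine ⟨fun i => XC2b_mem_Mo.2 (h1 i), ?_⟩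
  intro x
  rw [Finset.sum_apply]
  have h6 : r * (r + 3) = r * (r + 1) + 2 * r := by ring
  have h7 : (r + 1) * r = r * (r + 1) := by ring
  fin_cases x
  · show ∑ i, t i 0 ≤ w 0
    omega
  · show ∑ i, t i 1 ≤ w 1
    omega

theorem XC2b_c0_cyc {K : Type} [Field K] (r : ℕ) (w : Fin 2 → ℕ) :
    rcyc (Mo 2 (r + 1)) (vw (r + 1) w) r (c0 (K := K) r) := by
  cases r with
  | zero => trivial
  | succ r =>
    intro s hs
    unfold dd
    have h1 : ∀ b ∈ Mo 2 (r + 1 + 1), c0 (K := K) (r + 1) (Fin.cons b s) =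
        (fun j => ((Aco (r + 1) (Fin.cons j (fun i => s i 1)) : ℤ) : K)) (b 1) := by
      intro b hb
      rw [XC2b_mem_Mo] at hb
      unfold c0
      rw [if_pos]
      · have h2 : (fun i => (Fin.cons b s : Fin (r + 1) → (Fin 2 → ℕ)) i 1) =
            Fin.cons (b 1) (fun i => s i 1) := by
          funext i
          refine Fin.cases rfl (fun i => rfl) i
        rw [h2]
      · intro i
        refine Fin.cases ?_ (fun i => ?_) i
        · exact hb
        · exact XC2b_mem_Mo.1 (hs.1 i)
    rw [Finset.sum_congr rfl h1, XC2b_sum_Mo (r + 1 + 1)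
      (fun j => ((Aco (r + 1) (Fin.cons j (fun i => s i 1)) : ℤ) : K)), ← Int.cast_sum]
    have h2 := XC2b_Aco_sum r (fun i => s i 1)
    rw [h2, Int.cast_zero]

/-- the tuple of the interior monomials. -/
def XC2b_m0 (r : ℕ) (i : Fin r) : Fin 2 → ℕ := ![r - i, i + 1]

theorem XC2b_c0_m0 {K : Type} [Field K] (r : ℕ) : c0 (K := K) r (XC2b_m0 r) = 1 := by
  unfold c0
  rw [if_pos]
  · have h1 : Aco r (fun i => XC2b_m0 r i 1) = 1 := by
      unfold Aco
      rw [Finset.sum_eq_single 0]
      · unfold eps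
        rw [Finset.sum_eq_single 1]
        · rw [if_pos]
          · simp
          · intro i
            refine Fin.cases ?_ (fun i => ?_) i
            · simp
            · simp [XC2b_m0]
        · intro σ _ hσ
          rw [if_neg]
          intro h
          apply hσ
          ext i
          rw [← h i]
          refine Fin.cases ?_ (fun i => ?_) i
          · simp
          · simp [XC2b_m0]
        · intro h
          exact absurd (Finset.mem_univ _) h
      · intro j hj hj0
        rw [Finset.mem_range] at hj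
        by_contra h
        obtain ⟨σ, hσ⟩ := XC2b_eps_ne h
        obtain ⟨i, hi⟩ : ∃ i, j = i + 1 := ⟨j - 1, by omega⟩
        have hir : i < r := by omega
        have h1 := hσ 0
        have h2 := hσ (Fin.succ ⟨i, hir⟩)
        simp only [Fin.cons_zero, Fin.cons_succ] at h1 h2
        have h3 : XC2b_m0 r ⟨i, hir⟩ 1 = i + 1 := rfl
        rw [h3] at h2
        have h4 : σ 0 = σ (Fin.succ ⟨i, hir⟩) := by
          apply Fin.ext
          omega
        exact Fin.succ_ne_zero _ (σ.injective h4).symm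
      · intro h
        exfalso
        apply h
        rw [Finset.mem_range]
        omega
    rw [h1, Int.cast_one]
  · intro i
    show r - (i : ℕ) + ((i : ℕ) + 1) = r + 1
    have := i.2
    omega

theorem pr_XC2b (hRSr : S_RSr) : S_XC2b := by
  intro K _ _ r w hr hw hw' c hc hcyc
  obtain ⟨g, hg, hgd⟩ := hRSr K 2 (r + 1) r w (by omega)
    (fun t => c t - c (XC2b_m0 r) * c0 r t) ⟨hc.1.sub ((XC2b_c0_alt r).smul _), fun t ht => by
      by_cases h1 : c t = 0
      · refine XC2b_c0_supp (K := K) r w hw hw' t fun h2 => ht ?_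
        simp only
        rw [h1, h2]
        ring
      · exact hc.2 t h1⟩ (by
      have h0 := XC2b_c0_cyc (K := K) r w
      cases r with
      | zero => trivial
      | succ r =>
        intro t ht
        have h1 := hcyc t ht
        have h2 := h0 t ht
        have h3 : dd (Mo 2 (r + 1 + 1)) (fun t => c t - c (XC2b_m0 (r + 1)) * c0 (r + 1) t) t =
            dd (Mo 2 (r + 1 + 1)) c t -
              c (XC2b_m0 (r + 1)) * dd (Mo 2 (r + 1 + 1)) (c0 (r + 1)) t := by
          simp only [dd]
          rw [Finset.mul_sum, ← Finset.sum_sub_distrib]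
        rw [h3, h1, h2]
        ring) (by
      intro t ht
      by_cases hinj : Function.Injective t
      · have hk : ∀ i, 1 ≤ t i 1 ∧ t i 1 ≤ r ∧ t i 0 + t i 1 = r + 1 := by
          intro i
          have h1 := XC2b_mem_Mo.1 (ht.1.1 i)
          have h2 := (ht.2 0 (Finset.mem_univ _)).1 i
          have h3 := (ht.2 1 (Finset.mem_univ _)).1 i
          refine ⟨?_, ?_, h1⟩
          · by_contra h4
            apply h2
            funext x
            fin_cases x
            · simp only [Fin.zero_eta, Pi.single_eq_same]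
              omega
            · show t i 1 = (Pi.single 0 (r + 1) : Fin 2 → ℕ) 1
              rw [Pi.single_eq_of_ne (by decide)]
              omega
          · by_contra h4
            apply h3
            funext x
            fin_cases x
            · show t i 0 = (Pi.single 1 (r + 1) : Fin 2 → ℕ) 0
              rw [Pi.single_eq_of_ne (by decide)]
              omega
            · show t i 1 = (Pi.single 1 (r + 1) : Fin 2 → ℕ) 1
              rw [Pi.single_eq_same]
              omega
        have hσ : Function.Injective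
            (fun i : Fin r => (⟨t i 1 - 1, by have := hk i; omega⟩ : Fin r)) := by
          intro i j hij
          have h1 : t i 1 - 1 = t j 1 - 1 := congrArg Fin.val hij
          have h2 := hk i
          have h3 := hk j
          apply hinj
          funext x
          fin_cases x
          · show t i 0 = t j 0
            omega
          · show t i 1 = t j 1
            omega
        have htm : t = XC2b_m0 r ∘
            (Equiv.ofBijective _ (Finite.injective_iff_bijective.1 hσ) : Equiv.Perm (Fin r)) := by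
          funext i x
          have h2 := hk i
          fin_cases x
          · show t i 0 = r - (t i 1 - 1)
            omega
          · show t i 1 = t i 1 - 1 + 1
            omega
        rw [htm, hc.1, XC2b_c0_alt, XC2b_c0_m0]
        ring
      · unfold Function.Injective at hinj
        push Not at hinj
        obtain ⟨i, j, hij, hne⟩ := hinj
        rw [hc.1.eq_zero hne hij, (XC2b_c0_alt r).eq_zero hne hij]
        ring)
  exact ⟨c (XC2b_m0 r), g, hg, hgd⟩

end Pool.Agent.Work.MP_1233f5_ag.V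

end

section

set_option autoImplicit false
set_option linter.unusedSectionVars false

namespace Pool.Agent.Work.MP_1233f5_ag.V

open Finset

section XFin

variable {K : Type} [Field K] {α : Type} [Fintype α] [DecidableEq α]

theorem XFin_rCh_add {G : Pred (Finset α)} {p : ℕ} {c c' : (Fin p → Finset α) → K}
    (h : rCh G p c) (h' : rCh G p c') : rCh G p (fun t => c t + c' t) := by
  refine ⟨h.1.add h'.1, fun t ht => ?_⟩
  by_cases hc : c t = 0
  · refine h'.2 t fun hc' => ht ?_
    simp only [hc, hc', add_zero]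
  · exact h.2 t hc

theorem XFin_rCh_smul {G : Pred (Finset α)} {p : ℕ} {c : (Fin p → Finset α) → K} (a : K)
    (h : rCh G p c) : rCh G p (fun t => a * c t) := by
  refine ⟨h.1.smul a, fun t ht => h.2 t fun hc => ht ?_⟩
  simp only [hc, mul_zero]

theorem XFin_rCh_sum {ι : Type*} {G : Pred (Finset α)} {p : ℕ} (s : Finset ι)
    (c : ι → (Fin p → Finset α) → K) (h : ∀ i ∈ s, rCh G p (c i)) :
    rCh G p (fun t => ∑ i ∈ s, c i t) := by
  refine ⟨Alt.sum s c fun i hi => (h i hi).1, fun t ht => ?_⟩
  obtain ⟨i, hi, hne⟩ := Finset.exists_ne_zero_of_sum_ne_zero ht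
  exact (h i hi).2 t hne

theorem XFin_rCh_mono {G G' : Pred (Finset α)} {p : ℕ} {c : (Fin p → Finset α) → K}
    (hG : ∀ t, G p t → G' p t) (h : rCh G p c) : rCh G' p c :=
  ⟨h.1, fun t ht => hG t (h.2 t ht)⟩

theorem XFin_vm_mono {d p : ℕ} {P P' : Finset α} (hP : P ⊆ P') {t : Fin p → Finset α}
    (h : vm d P p t) : vm d P' p t :=
  ⟨fun i => ⟨(h.1 i).1, (h.1 i).2.trans hP⟩, h.2⟩

/-- the subspace of boundaries -/
def XFin_Bd (K : Type) [Field K] (α : Type) [Fintype α] [DecidableEq α] (d : ℕ) (P : Finset α)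
    (p : ℕ) : Submodule K ((Fin p → Finset α) → K) where
  carrier := {c | IsBd d P p c}
  add_mem' := by
    rintro c c' ⟨h1, g, hg, hgc⟩ ⟨h1', g', hg', hgc'⟩
    refine ⟨XFin_rCh_add h1 h1', fun t => g t + g' t, XFin_rCh_add hg hg', fun t ht => ?_⟩
    have : dd univ (fun t => g t + g' t) t = dd univ g t + dd univ g' t := by
      simp only [dd]; rw [← Finset.sum_add_distrib]
    rw [this, hgc t ht, hgc' t ht]; rfl
  zero_mem' := by
    refine ⟨⟨Alt.zero, fun t ht => absurd rfl ht⟩, fun _ => 0,
      ⟨Alt.zero, fun t ht => absurd rfl ht⟩, fun t _ => ?_⟩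
    simp [dd]
  smul_mem' := by
    rintro a c ⟨h1, g, hg, hgc⟩
    refine ⟨XFin_rCh_smul a h1, fun t => a * g t, XFin_rCh_smul a hg, fun t ht => ?_⟩
    rw [dd_smul]
    show a * dd univ g t = a * c t
    rw [hgc t ht]

theorem XFin_mem {d : ℕ} {P : Finset α} {p : ℕ} {c : (Fin p → Finset α) → K} :
    c ∈ XFin_Bd K α d P p ↔ IsBd d P p c := Iff.rfl

theorem XFin_AQ_add (Q : Finset α) {p : ℕ} (c c' : (Fin p → Finset α) → K) :
    AQ Q (fun t => c t + c' t) = fun t => AQ Q c t + AQ Q c' t := by
  funext t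
  simp only [AQ]
  rw [← Finset.sum_add_distrib]
  refine Finset.sum_congr rfl fun σ _ => ?_
  ring

theorem XFin_AQ_smul (Q : Finset α) {p : ℕ} (a : K) (c : (Fin p → Finset α) → K) :
    AQ Q (fun t => a * c t) = fun t => a * AQ Q c t := by
  funext t
  simp only [AQ]
  rw [Finset.mul_sum]
  refine Finset.sum_congr rfl fun σ _ => ?_
  ring

/-- `E0` as a linear map -/
def XFin_E0 (Q : Finset α) {m : ℕ} (q : Fin (m + 1) → α) (f : Fin m → Finset α) (p : ℕ) :
    ((Fin p → Finset α) → K) →ₗ[K] ((Fin (p + m) → Finset α) → K) where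
  toFun := fun u => E0 Q q f u
  map_add' := by
    intro u u'
    show AQ Q (wdgs m _ (fun t => u t + u' t)) = _
    rw [wdgs_add]
    exact XFin_AQ_add (p := p + m) Q _ _
  map_smul' := by
    intro a u
    show AQ Q (wdgs m _ (fun t => a * u t)) = _
    rw [wdgs_smul]
    exact XFin_AQ_smul (p := p + m) Q _ _

theorem XFin_E0_apply (Q : Finset α) {m : ℕ} (q : Fin (m + 1) → α) (f : Fin m → Finset α) {p : ℕ}
    (u : (Fin p → Finset α) → K) : XFin_E0 Q q f p u = E0 Q q f u := rfl

theorem XFin_zXY (r : ℕ) (X Y : Finset α) :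
    (zXY r X Y : (Fin r → Finset α) → K) = ∑ g ∈ powersetCard r Y, aXY r X (Y \ g) := by
  funext t
  rw [Finset.sum_apply]
  rfl

/-- the enlarged edges -/
theorem XFin_EQ {r m : ℕ} (Q : Finset α) (q : Fin (m + 1) → α) (hq : Function.Injective q)
    (hQ : ∀ a, a ∈ Q ↔ ∃ k, q k = a) (f : Fin m → Finset α) (hf : vm r (univ \ Q) m f) :
    EQ (r + 1) Q m (fun k => insert (q k.castSucc) (f k)) ∧
      RQ Q (fun k => insert (q k.castSucc) (f k)) = RQ Q f := by
  have hqQ : ∀ k, q k ∈ Q := fun k => (hQ _).2 ⟨k, rfl⟩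
  have hqf : ∀ k i, q k ∉ f i := by
    intro k i h
    have := (hf.1 i).2 h
    rw [Finset.mem_sdiff] at this
    exact this.2 (hqQ k)
  refine ⟨⟨⟨fun i => ⟨?_, Finset.subset_univ _⟩, fun i j hij => ?_⟩, fun k => ?_⟩, ?_⟩
  · rw [Finset.card_insert_of_notMem (hqf _ _), (hf.1 i).1]
  · rw [Finset.disjoint_left]
    intro a ha hb
    rw [Finset.mem_insert] at ha hb
    rcases ha with rfl | ha
    · rcases hb with hb | hb
      · exact hij (Fin.castSucc_injective _ (hq hb))
      · exact hqf _ _ hb
    · rcases hb with rfl | hb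
      · exact hqf _ _ ha
      · exact Finset.disjoint_left.1 (hf.2 i j hij) ha hb
  · have : insert (q k.castSucc) (f k) ∩ Q = {q k.castSucc} := by
      ext a
      rw [Finset.mem_inter, Finset.mem_insert, Finset.mem_singleton]
      constructor
      · rintro ⟨h | h, ha⟩
        · exact h
        · have := (hf.1 k).2 h
          rw [Finset.mem_sdiff] at this
          exact absurd ha this.2
      · rintro rfl
        exact ⟨Or.inl rfl, hqQ _⟩
    show (insert (q k.castSucc) (f k) ∩ Q).card = 1
    rw [this, Finset.card_singleton]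
  · ext a
    simp only [RQ, Finset.mem_sdiff, Finset.mem_univ, true_and, Finset.mem_biUnion, not_exists,
      Finset.mem_insert, not_or]
    constructor
    · rintro ⟨h1, h2⟩
      exact ⟨h1, fun i => (h2 i).2⟩
    · rintro ⟨h1, h2⟩
      exact ⟨h1, fun i => ⟨fun h => h1 (h ▸ hqQ _), h2 i⟩⟩

theorem XFin_card_biUnion {r m : ℕ} {P : Finset α} {f : Fin m → Finset α} (hf : vm r P m f) :
    (univ.biUnion f).card = m * r := by
  rw [Finset.card_biUnion (fun i _ j _ hij => hf.2 i j hij)]
  rw [Finset.sum_congr rfl (fun i _ => (hf.1 i).1)]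
  simp

theorem XFin_card_sdiff {r m c : ℕ} {S : Finset α} {f : Fin m → Finset α} (hf : vm r S m f)
    (hS : S.card = m * r + c) : (S \ univ.biUnion f).card = c := by
  have h1 : univ.biUnion f ⊆ S := by
    intro a ha
    rw [Finset.mem_biUnion] at ha
    obtain ⟨i, -, hi⟩ := ha
    exact (hf.1 i).2 hi
  rw [Finset.card_sdiff_of_subset h1, XFin_card_biUnion hf, hS]
  omega

theorem XFin_union {r m : ℕ} {Q X : Finset α} (hX : X ⊆ univ \ Q) {f : Fin m → Finset α}
    (hf : vm r ((univ \ Q) \ X) m f) :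
    X ∪ (((univ \ Q) \ X) \ univ.biUnion f) = RQ Q f := by
  ext a
  simp only [RQ, Finset.mem_union, Finset.mem_sdiff, Finset.mem_univ, true_and,
    Finset.mem_biUnion, not_exists]
  constructor
  · rintro (h | ⟨⟨h1, h2⟩, h3⟩)
    · refine ⟨?_, fun i hi => ?_⟩
      · have := hX h
        rw [Finset.mem_sdiff] at this
        exact this.2
      · have := (hf.1 i).2 hi
        rw [Finset.mem_sdiff] at this
        exact this.2 h
    · exact ⟨h1, h3⟩
  · rintro ⟨h1, h2⟩
    by_cases ha : a ∈ X
    · exact Or.inl ha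
    · exact Or.inr ⟨⟨h1, ha⟩, h2⟩

end XFin

theorem pr_XFin (hExt : S_Ext) (hXBd : S_XBd) (hXRel : S_XRel) (hXSym : S_XSym) (hXA1 : S_XA1)
    (hXA2 : S_XA2) (hXA3 : S_XA3) : S_XFin := by
  intro K _ _ α _ _ r m Q q hr hm hmr hq hQ hcard f u hf hu
  classical
  -- cardinality of `Q`
  have hQc : Q.card = m + 1 := by
    have : Q = univ.image q := by
      ext a
      rw [hQ]; simp
    rw [this, Finset.card_image_of_injective _ hq]; simp
  have hUQ : (univ \ Q : Finset α).card = m * r + r * (r + 3) := by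
    rw [Finset.card_sdiff_of_subset (Finset.subset_univ _), Finset.card_univ, hcard, hQc]
    have : m * (r + 1) = m * r + m := by ring
    omega
  -- images of boundaries
  have hbd : ∀ (f : Fin m → Finset α) (u : (Fin r → Finset α) → K), vm r (univ \ Q) m f →
      IsBd (r + 1) (RQ Q f) r u → E0 Q q f u ∈ XFin_Bd K α (r + 1) univ (r + m) := by
    intro f u hf hu
    obtain ⟨h1, h2⟩ := XFin_EQ Q q hq hQ f hf
    rw [← h2] at hu
    exact hXBd K α (r + 1) m r Q hm hQc _ h1 u hu
  -- the classes of `z_X`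
  have key : ∀ X : Finset α, X ⊆ univ \ Q → 2 * X.card = r * (r + 3) →
      ∀ f : Fin m → Finset α, vm r ((univ \ Q) \ X) m f →
        E0 Q q f (zXY r X (((univ \ Q) \ X) \ univ.biUnion f) : (Fin r → Finset α) → K) ∈
          XFin_Bd K α (r + 1) univ (r + m) := by
    intro X hX hXc
    set S : Finset α := (univ \ Q) \ X with hSdef
    have hSQ : S ⊆ univ \ Q := Finset.sdiff_subset
    have hS : S.card = m * r + X.card := by
      rw [hSdef, Finset.card_sdiff_of_subset hX, hUQ]
      omega
    have hdXS : ∀ {Y : Finset α}, Y ⊆ S → Disjoint X Y := by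
      intro Y hY
      rw [Finset.disjoint_left]
      intro a ha hb
      have := hY hb
      rw [hSdef, Finset.mem_sdiff] at this
      exact this.2 ha
    have hrr : r * (r + 3) = r * (r + 1) + 2 * r := by ring
    set Φ : (Fin m → Finset α) → (((Fin (r + m) → Finset α) → K) ⧸
        XFin_Bd K α (r + 1) univ (r + m)) := fun f =>
      if vm r S m f then Submodule.Quotient.mk
        (E0 Q q f (zXY r X (S \ univ.biUnion f) : (Fin r → Finset α) → K)) else 0 with hΦ
    -- independence of the choice of `g`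
    have hind : ∀ (f : Fin m → Finset α), vm r S m f → ∀ g₀ ⊆ S \ univ.biUnion f, g₀.card = r →
        E0 Q q f (zXY r X (S \ univ.biUnion f) : (Fin r → Finset α) → K) -
          ((X.card.choose r : ℕ) : K) •
            E0 Q q f (aXY r X ((S \ univ.biUnion f) \ g₀) : (Fin r → Finset α) → K) ∈
          XFin_Bd K α (r + 1) univ (r + m) := by
      intro f hf g₀ hg₀ hg₀c
      have hY : (S \ univ.biUnion f).card = X.card := XFin_card_sdiff hf hS
      have hun := XFin_union hX hf
      have e1 : E0 Q q f (zXY r X (S \ univ.biUnion f) : (Fin r → Finset α) → K) =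
          ∑ g ∈ powersetCard r (S \ univ.biUnion f),
            E0 Q q f (aXY r X ((S \ univ.biUnion f) \ g) : (Fin r → Finset α) → K) := by
        rw [← XFin_E0_apply, XFin_zXY, map_sum]
        rfl
      have e2 : ((X.card.choose r : ℕ) : K) •
            E0 Q q f (aXY r X ((S \ univ.biUnion f) \ g₀) : (Fin r → Finset α) → K) =
          ∑ g ∈ powersetCard r (S \ univ.biUnion f),
            E0 Q q f (aXY r X ((S \ univ.biUnion f) \ g₀) : (Fin r → Finset α) → K) := by
        rw [Finset.sum_const, Finset.card_powersetCard, hY, Nat.cast_smul_eq_nsmul]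
      rw [e1, e2, ← Finset.sum_sub_distrib]
      refine Submodule.sum_mem _ fun g hg => ?_
      rw [Finset.mem_powersetCard] at hg
      have h1 := hXA2 K α r X (S \ univ.biUnion f) g g₀ hr (hdXS Finset.sdiff_subset) hXc
        (by rw [hY]; exact hXc) hg.1 hg₀ hg.2 hg₀c
      rw [hun] at h1
      have h2 := hbd f _ (XFin_vm_mono hSQ hf) h1
      have h3 : E0 Q q f (fun t => aXY r X ((S \ univ.biUnion f) \ g) t -
          aXY r X ((S \ univ.biUnion f) \ g₀) t : (Fin r → Finset α) → K) =
          E0 Q q f (aXY r X ((S \ univ.biUnion f) \ g) : (Fin r → Finset α) → K) -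
          E0 Q q f (aXY r X ((S \ univ.biUnion f) \ g₀) : (Fin r → Finset α) → K) := by
        have := map_sub (XFin_E0 (K := K) Q q f r)
          (aXY r X ((S \ univ.biUnion f) \ g)) (aXY r X ((S \ univ.biUnion f) \ g₀))
        exact this
      rw [h3] at h2
      exact h2
    -- chains
    have hch : ∀ Y : Finset α, Y ⊆ S → Y.card = X.card →
        rCh (vm (r + 1) (univ \ Q)) r (zXY r X Y : (Fin r → Finset α) → K) := by
      intro Y hYS hYc
      have : (zXY r X Y : (Fin r → Finset α) → K) = fun t => ∑ g ∈ powersetCard r Y,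
          aXY r X (Y \ g) t := rfl
      rw [this]
      refine XFin_rCh_sum _ _ fun g hg => ?_
      rw [Finset.mem_powersetCard] at hg
      have h1 := hXA1 K α r X (Y \ g) hr (hdXS (Finset.sdiff_subset.trans hYS)) hXc (by
        rw [Finset.card_sdiff_of_subset hg.1, hYc, hg.2]
        omega)
      refine XFin_rCh_mono (fun t ht => XFin_vm_mono ?_ ht) h1.1
      exact Finset.union_subset hX (Finset.sdiff_subset.trans (hYS.trans hSQ))
    have hall := hExt K (((Fin (r + m) → Finset α) → K) ⧸ XFin_Bd K α (r + 1) univ (r + m)) α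
      r m X.card S Φ (by omega) hS (by omega) ?_ ?_
    · intro f hf
      have h1 := hall f hf
      rw [hΦ] at h1
      simp only [if_pos hf] at h1
      exact (Submodule.Quotient.mk_eq_zero _).1 h1
    · -- symmetry
      intro π f
      have hvm : vm r S m (f ∘ π) ↔ vm r S m f := by
        constructor
        · intro h
          refine ⟨fun i => ?_, fun i j hij => ?_⟩
          · have := h.1 (π.symm i)
            simpa using this
          · have := h.2 (π.symm i) (π.symm j) (fun e => hij (π.symm.injective e))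
            simpa using this
        · intro h
          exact ⟨fun i => h.1 (π i), fun i j hij => h.2 _ _ (fun e => hij (π.injective e))⟩
      have hbu : univ.biUnion (f ∘ π) = univ.biUnion f := by
        ext a
        simp only [Finset.mem_biUnion, Finset.mem_univ, true_and, Function.comp_apply]
        constructor
        · rintro ⟨i, hi⟩; exact ⟨π i, hi⟩
        · rintro ⟨i, hi⟩; exact ⟨π.symm i, by simpa using hi⟩
      rw [hΦ]
      by_cases h : vm r S m f
      · simp only [if_pos h, if_pos (hvm.2 h), hbu]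
        congr 1
        funext t
        exact hXSym K α (r + 1) m r Q q hq hQ f (fun k => (h.1 k).2.trans hSQ) _
          (hch _ Finset.sdiff_subset (XFin_card_sdiff h hS)) π t
      · simp only [if_neg h, if_neg (fun h' => h (hvm.1 h'))]
    · -- relation
      intro F hF
      have hFk : ∀ k : Fin (m + 1), vm r S m (k.removeNth F) := fun k =>
        ⟨fun i => hF.1 _, fun i j hij => hF.2 _ _ (fun e => hij (Fin.succAbove_right_injective e))⟩
      have hS' : S.card = (m + 1) * r + (X.card - r) := by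
        rw [hS]
        have : (m + 1) * r = m * r + r := by ring
        omega
      have hY'c : (S \ univ.biUnion F).card = X.card - r := XFin_card_sdiff hF hS'
      have hY' : ∀ k : Fin (m + 1), (S \ univ.biUnion (k.removeNth F)) \ F k =
          S \ univ.biUnion F := by
        intro k
        ext a
        simp only [Finset.mem_sdiff, Finset.mem_biUnion, Finset.mem_univ, true_and, not_exists]
        constructor
        · rintro ⟨⟨h1, h2⟩, h3⟩
          refine ⟨h1, ?_⟩
          rw [Fin.forall_iff_succAbove k]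
          exact ⟨h3, h2⟩
        · rintro ⟨h1, h2⟩
          exact ⟨⟨h1, fun i => h2 _⟩, h2 k⟩
      have hFsub : ∀ k : Fin (m + 1), F k ⊆ S \ univ.biUnion (k.removeNth F) := by
        intro k a ha
        simp only [Finset.mem_sdiff, Finset.mem_biUnion, Finset.mem_univ, true_and, not_exists]
        refine ⟨(hF.1 k).2 ha, fun i hi => ?_⟩
        exact Finset.disjoint_left.1 (hF.2 k (k.succAbove i) (Fin.succAbove_ne k i).symm) ha hi
      have hcy : IsCy (K := K) (r + 1) (RQ Q F) r (aXY r X (S \ univ.biUnion F)) := by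
        rw [← XFin_union hX hF]
        refine hXA1 K α r X _ hr (hdXS Finset.sdiff_subset) hXc ?_
        rw [hY'c]
        omega
      have hrel := hXRel K α (r + 1) m r Q q (by omega) hq hQ F (XFin_vm_mono hSQ hF) _ hcy
      have hrel' : ∑ k : Fin (m + 1), E0 Q q (k.removeNth F)
          (aXY r X (S \ univ.biUnion F) : (Fin r → Finset α) → K) ∈
          XFin_Bd K α (r + 1) univ (r + m) := by
        have e : (∑ k : Fin (m + 1), E0 Q q (k.removeNth F)
          (aXY r X (S \ univ.biUnion F) : (Fin r → Finset α) → K)) =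
          fun t => ∑ k : Fin (m + 1), E0 Q q (k.removeNth F)
          (aXY r X (S \ univ.biUnion F) : (Fin r → Finset α) → K) t := by
          funext t
          rw [Finset.sum_apply]
        rw [e]
        exact hrel
      have hsum : ∑ k : Fin (m + 1), E0 Q q (k.removeNth F)
          (zXY r X (S \ univ.biUnion (k.removeNth F)) : (Fin r → Finset α) → K) ∈
          XFin_Bd K α (r + 1) univ (r + m) := by
        have h1 : ∑ k : Fin (m + 1), (E0 Q q (k.removeNth F)
          (zXY r X (S \ univ.biUnion (k.removeNth F)) : (Fin r → Finset α) → K) -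
            ((X.card.choose r : ℕ) : K) • E0 Q q (k.removeNth F)
              (aXY r X (S \ univ.biUnion F) : (Fin r → Finset α) → K)) ∈
          XFin_Bd K α (r + 1) univ (r + m) := by
          refine Submodule.sum_mem _ fun k _ => ?_
          have := hind (k.removeNth F) (hFk k) (F k) (hFsub k) (hF.1 k).1
          rw [hY' k] at this
          exact this
        rw [Finset.sum_sub_distrib, ← Finset.smul_sum] at h1
        have h2 := Submodule.add_mem _ h1 (Submodule.smul_mem _ ((X.card.choose r : ℕ) : K) hrel')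
        rw [sub_add_cancel] at h2
        exact h2
      rw [hΦ]
      simp only [if_pos (hFk _)]
      have : (∑ k : Fin (m + 1), (Submodule.Quotient.mk (E0 Q q (k.removeNth F)
          (zXY r X (S \ univ.biUnion (k.removeNth F)) : (Fin r → Finset α) → K)) :
            ((Fin (r + m) → Finset α) → K) ⧸ XFin_Bd K α (r + 1) univ (r + m))) =
          Submodule.Quotient.mk (∑ k : Fin (m + 1), E0 Q q (k.removeNth F)
          (zXY r X (S \ univ.biUnion (k.removeNth F)) : (Fin r → Finset α) → K)) := by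
        have := map_sum (XFin_Bd K α (r + 1) univ (r + m)).mkQ
          (fun k : Fin (m + 1) => E0 Q q (k.removeNth F)
          (zXY r X (S \ univ.biUnion (k.removeNth F)) : (Fin r → Finset α) → K)) univ
        exact this.symm
      rw [this]
      exact (Submodule.Quotient.mk_eq_zero _).2 hsum
  -- conclusion
  have hA : (RQ Q f).card = r * (r + 3) := XFin_card_sdiff hf hUQ
  obtain ⟨l, hl⟩ := hXA3 K α r (RQ Q f) hr hA u hu
  have h1 := hbd f _ hf hl
  have h2 : ∀ X ∈ (RQ Q f).powerset.filter (fun X : Finset α => 2 * X.card = r * (r + 3)),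
      l X • E0 Q q f (zXY r X (RQ Q f \ X) : (Fin r → Finset α) → K) ∈
        XFin_Bd K α (r + 1) univ (r + m) := by
    intro X hX
    rw [Finset.mem_filter, Finset.mem_powerset] at hX
    refine Submodule.smul_mem _ _ ?_
    have hXQ : X ⊆ univ \ Q := hX.1.trans Finset.sdiff_subset
    have hfX : vm r ((univ \ Q) \ X) m f := by
      refine ⟨fun i => ⟨(hf.1 i).1, fun a ha => ?_⟩, hf.2⟩
      rw [Finset.mem_sdiff]
      refine ⟨(hf.1 i).2 ha, fun hb => ?_⟩
      have := hX.1 hb
      rw [RQ, Finset.mem_sdiff] at this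
      exact this.2 (Finset.mem_biUnion.2 ⟨i, Finset.mem_univ _, ha⟩)
    have h3 := key X hXQ hX.2 f hfX
    have h4 : ((univ \ Q) \ X) \ univ.biUnion f = RQ Q f \ X := by
      ext a
      simp only [RQ, Finset.mem_sdiff]
      tauto
    rw [h4] at h3
    exact h3
  have h3 : E0 Q q f u = E0 Q q f (fun t => u t -
      ∑ X ∈ (RQ Q f).powerset.filter (fun X : Finset α => 2 * X.card = r * (r + 3)),
        l X * zXY r X (RQ Q f \ X) t) +
      ∑ X ∈ (RQ Q f).powerset.filter (fun X : Finset α => 2 * X.card = r * (r + 3)),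
        l X • E0 Q q f (zXY r X (RQ Q f \ X) : (Fin r → Finset α) → K) := by
    have e1 : ∑ X ∈ (RQ Q f).powerset.filter (fun X : Finset α => 2 * X.card = r * (r + 3)),
        l X • E0 Q q f (zXY r X (RQ Q f \ X) : (Fin r → Finset α) → K) =
        XFin_E0 Q q f r (∑ X ∈ (RQ Q f).powerset.filter
          (fun X : Finset α => 2 * X.card = r * (r + 3)), l X • zXY r X (RQ Q f \ X)) := by
      rw [map_sum]
      refine Finset.sum_congr rfl fun X _ => ?_
      rw [map_smul]; rfl
    rw [e1, ← XFin_E0_apply, ← XFin_E0_apply, ← map_add]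
    congr 1
    funext t
    rw [Pi.add_apply, Finset.sum_apply]
    simp only [Pi.smul_apply, smul_eq_mul]
    ring
  rw [h3]
  exact Submodule.add_mem _ h1 (Submodule.sum_mem _ h2)

end Pool.Agent.Work.MP_1233f5_ag.V

end

section

set_option autoImplicit false

namespace Pool.Agent.Work.MP_1233f5_ag.V

open Finset

theorem XI2_vm_comp {α : Type} [DecidableEq α] {d p : ℕ} {P : Finset α} (t : Fin p → Finset α)
    (σ : Equiv.Perm (Fin p)) : vm d P p (t ∘ σ) ↔ vm d P p t := by
  constructor
  · intro h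
    refine ⟨fun i => ?_, fun i j hij => ?_⟩
    · have := h.1 (σ.symm i)
      simpa using this
    · have := h.2 (σ.symm i) (σ.symm j) (fun e => hij (σ.symm.injective e))
      simpa using this
  · intro h
    exact ⟨fun i => h.1 (σ i), fun i j hij => h.2 (σ i) (σ j) (fun e => hij (σ.injective e))⟩

/-- a criterion for boundaries. -/
theorem XI2_IsBd {K : Type} [Field K] {α : Type} [Fintype α] [DecidableEq α] {d p : ℕ}
    {P : Finset α} {F : (Fin p → Finset α) → K} {g : (Fin (p + 1) → Finset α) → K}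
    (hg : rCh (vm d P) (p + 1) g) (h0 : ∀ t, ¬ vm d P p t → F t = 0)
    (h1 : ∀ t, vm d P p t → dd univ g t = F t) : IsBd d P p F := by
  refine ⟨⟨?_, fun t ht => ?_⟩, g, hg, h1⟩
  · intro σ t
    by_cases ht : vm d P p t
    · rw [← h1 _ ((XI2_vm_comp t σ).2 ht), ← h1 t ht]
      exact Alt.dd univ hg.1 σ t
    · rw [h0 t ht, h0 _ (fun h => ht ((XI2_vm_comp t σ).1 h)), mul_zero]
  · by_contra h
    exact ht (h0 t h)

theorem XI2_cyc (hPbD : S_PbD) (hLiftT : S_LiftT) (K : Type) [Field K] [CharZero K] (α : Type)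
    [Fintype α] [DecidableEq α] (n d p : ℕ) (π : α → Fin n) (C : (Fin p → Finset α) → K)
    (c : (Fin p → (Fin n → ℕ)) → K) (hc : rCh (vw d (fib π)) p c)
    (hcC : ∀ t, pb d π c t = C t) (hcyc : rcyc univ (vm d univ) p C) :
    rcyc (Mo n d) (vw d (fib π)) p c := by
  have hC' : pb d π c = C := funext hcC
  cases p with
  | zero => trivial
  | succ p =>
    intro s hs
    obtain ⟨t, ht, hts⟩ := hLiftT α n d p π s hs
    have h1 := hPbD K α n d p π c hc t ht
    rw [hC', hcyc t ht] at h1
    have h2 : (fun i => tyv π (t i)) = s := funext hts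
    rw [h2] at h1
    rcases mul_eq_zero.1 h1.symm with h3 | h3
    · exfalso
      have h4 : ((mu (fib π) s : ℕ) : K) ≠ 0 := by
        rw [Nat.cast_ne_zero, mu]
        refine mul_ne_zero ?_ ?_
        · exact Finset.prod_ne_zero_iff.2 (fun j _ => Nat.factorial_ne_zero _)
        · exact Finset.prod_ne_zero_iff.2
            (fun i _ => Finset.prod_ne_zero_iff.2 (fun j _ => Nat.factorial_ne_zero _))
      exact h4 h3
    · exact h3

theorem pr_XI2 (hXC2a : S_XC2a) (hXC2b : S_XC2b) (hXPb : S_XPb) (hPbSurj : S_PbSurj)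
    (hPbD : S_PbD) (hPbCh : S_PbCh) (hLiftT : S_LiftT) (hTyW : S_TyW) (hTransA : S_TransA) :
    S_XI2 := by
  intro K _ _ β _ _ r hr hβ π z hz hinv
  have hsum : fib π 0 + fib π 1 = r * (r + 3) := by
    have h1 := Finset.card_eq_sum_card_fiberwise (s := (univ : Finset β)) (t := univ) (f := π)
      (fun x _ => Finset.mem_coe.2 (mem_univ (π x)))
    rw [Fin.sum_univ_two, Finset.card_univ, hβ] at h1
    exact h1.symm
  by_cases hw : fib π 0 = fib π 1
  · right
    set X : Finset β := univ.filter (fun a => π a = 0) with hX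
    have hX0 : X.card = fib π 0 := rfl
    have hXc : 2 * X.card = r * (r + 3) := by rw [hX0]; omega
    refine ⟨hXc, ?_⟩
    obtain ⟨c, hc, hcz⟩ := hPbSurj K β 2 (r + 1) r π z hz.1 hinv
    have hc2 := XI2_cyc hPbD hLiftT K β 2 (r + 1) r π z c hc hcz hz.2
    obtain ⟨l, g, hg, hgc⟩ := hXC2b K r (fib π) hr hsum hw c hc hc2
    have hπ : (fun a => if a ∈ X then (0 : Fin 2) else 1) = π := by
      funext a
      by_cases ha : π a = 0
      · rw [if_pos (by rw [hX, mem_filter]; exact ⟨mem_univ _, ha⟩), ha]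
      · rw [if_neg (by rw [hX, mem_filter]; exact fun h => ha h.2)]
        have : π a = 0 ∨ π a = 1 := by
          have h2 : ∀ x : Fin 2, x = 0 ∨ x = 1 := by decide
          exact h2 _
        rcases this with h | h
        · exact absurd h ha
        · exact h.symm
    have hPb : ∀ t : Fin r → Finset β, pb (K := K) (r + 1) π (c0 r) t
        = (r.factorial : K) * zXY r X (univ \ X) t := by
      intro t
      have := hXPb K β r X hr hβ hXc t
      rwa [hπ] at this
    have hrf : (r.factorial : K) ≠ 0 := Nat.cast_ne_zero.2 (Nat.factorial_ne_zero _)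
    refine ⟨l * r.factorial, XI2_IsBd (hPbCh K β 2 (r + 1) (r + 1) π g hg).1 ?_ ?_⟩
    · intro t ht
      have h1 : z t = 0 := by
        by_contra h
        exact ht (hz.1.2 t h)
      have h2 := hPb t
      rw [pb, if_neg ht] at h2
      have h3 : zXY (K := K) r X (univ \ X) t = 0 := by
        rcases mul_eq_zero.1 h2.symm with h | h
        · exact absurd h hrf
        · exact h
      rw [h1, h3, mul_zero, sub_zero]
    · intro t ht
      rw [hPbD K β 2 (r + 1) r π g hg t ht, hgc _ (hTyW β 2 (r + 1) r π t ht)]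
      have h1 : z t = (mu (fib π) (fun i => tyv π (t i)) : K) * c (fun i => tyv π (t i)) := by
        rw [← hcz t, pb, if_pos ht]
      have h2 := hPb t
      rw [pb, if_pos ht] at h2
      rw [h1]
      linear_combination (-l) * h2
  · left
    obtain ⟨g, hg, hgz⟩ := hTransA K β 2 (r + 1) r π (hXC2a K r (fib π) hr hsum hw) z hz.1 hz.2 hinv
    exact ⟨hz.1, g, hg, hgz⟩

end Pool.Agent.Work.MP_1233f5_ag.V

end

section

set_option autoImplicit false

namespace Pool.Agent.Work.MP_1233f5_ag.V

open Finset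

namespace XMain

theorem theta1 (r k : ℕ) (hk : k < r) : theta (r + 1) (r + k) = k := by
  have h1 : (r + k) / (r + 1 - 1) = 1 := by
    rw [Nat.add_sub_cancel]
    rw [Nat.div_eq_iff (by omega)]
    constructor <;> omega
  unfold theta
  rw [h1, Nat.choose_one_right, Nat.choose_one_right]
  simp only [Nat.add_sub_cancel]
  omega

theorem theta2 (r k : ℕ) (hr : 2 ≤ r) (hk : k < 2) :
    (2 * r + k) / (r + 1 - 1) = 2 ∧ theta (r + 1) (2 * r + k) = (k + 1) * r + k := by
  have h1 : (2 * r + k) / (r + 1 - 1) = 2 := by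
    rw [Nat.add_sub_cancel]
    rw [Nat.div_eq_iff (by omega)]
    constructor <;> omega
  refine ⟨h1, ?_⟩
  unfold theta
  rw [h1]
  have h2 : (2 + 1) * (r + 1 - 1) - (2 * r + k) + 2 = r + 2 - k := by
    simp only [Nat.add_sub_cancel]
    omega
  rw [h2]
  have e1 : (r + 1 + 2).choose 2 = (r + 2) + (r + 2).choose 2 := by
    rw [Nat.choose_succ_succ' (r + 2) 1, Nat.choose_one_right]
  have e2 : (r + 2).choose 2 = (r + 1) + (r + 1).choose 2 := by
    rw [Nat.choose_succ_succ' (r + 1) 1, Nat.choose_one_right]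
  rcases Nat.lt_or_ge k 1 with h | h
  · obtain rfl : k = 0 := by omega
    rw [e1, Nat.sub_zero]
    omega
  · obtain rfl : k = 1 := by omega
    rw [e1, e2]
    have : r + 2 - 1 = r + 1 := by omega
    rw [this]
    omega

theorem bnd1 (r : ℕ) (hr : 2 ≤ r) : ∀ k : ℕ, k < r → k ≤ bnd (r + 1) (r + k)
  | 0, _ => Nat.zero_le _
  | k + 1, hk => by
    have ih := bnd1 r hr k (by omega)
    have h1 : bnd (r + 1) (r + (k + 1)) = min (theta (r + 1) (r + k + 1))
      (bnd (r + 1) (r + k) + (r + k + 1) / (r + 1 - 1) + 1) := rfl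
    rw [h1, le_min_iff]
    have h2 := theta1 r (k + 1) hk
    have h3 : r + (k + 1) = r + k + 1 := by omega
    rw [h3] at h2
    rw [h2]
    constructor
    · omega
    · generalize (r + k + 1) / (r + 1 - 1) = x
      omega

theorem bnd2' (r : ℕ) (hr : 2 ≤ r) : r - 1 < bnd (r + 1) (2 * r + 1) := by
  have h1 : bnd (r + 1) (2 * r + 1) = min (theta (r + 1) (2 * r + 1))
      (bnd (r + 1) (2 * r) + (2 * r + 1) / (r + 1 - 1) + 1) := rfl
  obtain ⟨h2, h3⟩ := theta2 r 1 hr (by omega)
  obtain ⟨h4, h5⟩ := theta2 r 0 hr (by omega)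
  obtain ⟨s, rfl⟩ : ∃ s, r = s + 1 := ⟨r - 1, by omega⟩
  have h6 : bnd (s + 1 + 1) (2 * (s + 1)) = min (theta (s + 1 + 1) (2 * (s + 1)))
      (bnd (s + 1 + 1) (2 * s + 1) + (2 * (s + 1)) / (s + 1 + 1 - 1) + 1) := rfl
  have h7 := bnd1 (s + 1) hr s (by omega)
  have h8 : s + 1 + s = 2 * s + 1 := by omega
  rw [h8] at h7
  have h5' : theta (s + 1 + 1) (2 * (s + 1)) = (0 + 1) * (s + 1) := h5
  have h4' : (2 * (s + 1)) / (s + 1 + 1 - 1) = 2 := h4
  rw [h1, h2, h3, h6, h4', h5']
  have h9 : s ≤ min ((0 + 1) * (s + 1)) (bnd (s + 1 + 1) (2 * s + 1) + 2 + 1) := by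
    rw [le_min_iff]
    constructor <;> omega
  generalize min ((0 + 1) * (s + 1)) (bnd (s + 1 + 1) (2 * s + 1) + 2 + 1) = y at h9 ⊢
  rw [lt_min_iff]
  constructor
  · have : (1 + 1) * (s + 1) + 1 = 2 * s + 3 := by ring
    omega
  · omega

end XMain

open Step XMain in
theorem pr_XMain (hRep : S_Rep) (hTransA : S_TransA) (hLemD : S_LemD) (hMain : S_Main)
    (hTr : S_Tr) (hXFin : S_XFin) (hXRed : S_XRed) : S_XMain := by
  intro K _ _ r hr
  unfold ML
  set α := Fin ((r + 3) * (r + 1) + (2 * r + 1)) with hα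
  have hcard : Fintype.card α = 3 * (r + 1) + 1 + r * (r + 3) := by
    refine (Fintype.card_fin _).trans ?_
    ring
  have key : subZ (K := K) (univ : Finset (Finset α)) (vm (r + 1) univ) (r + 3) ≤
      subB (univ : Finset (Finset α)) (vm (r + 1) univ) (r + 3) := by
    refine hRep K α _ (rho K α (r + 3)) _ _ ?_ ?_ 3 ?_ ?_
    · rintro σ z ⟨hz1, hz2⟩
      refine ⟨rCh_rho (r + 1) (r + 3) σ hz1, ?_⟩
      intro t ht
      rw [dd_rho]
      exact hz2 _ (vm_map' (r + 1) (r + 2) _ ht)
    · rintro σ z ⟨g, hg1, hg2, hg3⟩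
      refine ⟨rho K α (r + 3 + 1) σ g, rCh_rho (r + 1) _ σ hg1, fun t ht => ?_, fun t ht => ?_⟩
      · rw [dd_rho, hg2 _ (vm_map' (r + 1) (r + 3) _ ht)]
        rfl
      · exact vm_map (r + 1) (r + 3) _ (hg3 _ ht)
    · rintro π z ⟨hz1, hz2⟩ hinv
      have hv : rVan K (Mo 3 (r + 1)) (vw (r + 1) (fib π)) (r + 3) := by
        refine hLemD K 3 (r + 1) (r + 3) (2 * r + 1) (r - 1) (fib π) (by omega) (by omega) ?_
          (by omega) ?_
        · have h3 := Finset.card_eq_sum_card_fiberwise (f := π) (s := (univ : Finset α))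
            (t := (univ : Finset (Fin 3))) (fun x _ => mem_univ _)
          have h4 : (univ : Finset α).card = (r + 3) * (r + 1) + (2 * r + 1) := by
            rw [Finset.card_univ]; exact Fintype.card_fin _
          refine Eq.trans ?_ (h3.symm.trans h4)
          rfl
        · have e0 : r - 1 + 3 - 1 = r + 1 := by omega
          have e1 : (r + 1 + 3 - 1).choose (3 - 1) = (r + 2) + ((r + 1) + (r + 1).choose 2) := by
            have e3 : r + 1 + 3 - 1 = r + 2 + 1 := by omega
            rw [e3, show 3 - 1 = 1 + 1 from rfl, Nat.choose_succ_succ' (r + 2) 1,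
              Nat.choose_one_right, Nat.choose_succ_succ' (r + 1) 1, Nat.choose_one_right]
          rw [e0, e1, show 3 - 1 = 2 from rfl]
          omega
      obtain ⟨g, hg1, hg2⟩ := hTransA K α 3 (r + 1) (r + 3) π hv z hz1 hz2 (by
        intro σ hσ t
        have h3 := hinv σ⁻¹ (by
          intro a
          have := hσ (σ⁻¹ a)
          rw [show σ (σ⁻¹ a) = a from σ.apply_symm_apply a] at this
          exact this.symm)
        have h4 := congrFun h3 t
        rw [rho_apply, inv_inv] at h4
        exact h4)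
      exact ⟨g, hg1, hg2, hz1.2⟩
    · rintro Q hQ z ⟨hz1, hz2⟩ hanti
      let q : Fin (3 + 1) → α := fun i => (Q.equivFinOfCardEq hQ).symm i
      have hq : Function.Injective q := fun i j hij =>
        (Q.equivFinOfCardEq hQ).symm.injective (Subtype.ext hij)
      have hqQ : ∀ a, a ∈ Q ↔ ∃ k, q k = a := by
        intro a
        constructor
        · intro ha
          refine ⟨(Q.equivFinOfCardEq hQ) ⟨a, ha⟩, ?_⟩
          simp only [q, Equiv.symm_apply_apply]
        · rintro ⟨k, rfl⟩
          exact ((Q.equivFinOfCardEq hQ).symm k).2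
      have h1 : IsBd (K := K) (r + 1) univ (r + 3) z := by
        refine hXRed K α (r + 1) 3 r (r * (r + 3)) Q q (by omega) hq hqQ hcard ?_ ?_ z
          ⟨hz1, hz2⟩ ?_
        · intro p' s' hr' hs' P' hP'
          have h3 : ML K (r + 1) (2 * r + 1) p' := by
            refine hMain K (r + 1) (2 * r + 1) p' (by omega) ?_
            have := bnd2' r (by omega)
            omega
          refine hTr K _ _ (r + 1) p' univ P' ?_ h3
          rw [Finset.card_univ, Fintype.card_fin, hP']
          rw [hcard] at hs'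
          subst hr'
          have : p' * (p' + 1 + 1) + (2 * (p' + 1) + 1) + (3 + 1) * (p' + 1 + 1) =
            3 * (p' + 1 + 1) + 1 + (p' + 1) * (p' + 1 + 3) := by ring
          omega
        · intro f u hf hu
          exact hXFin K α r 3 Q q (by omega) (by omega) (by nlinarith) hq hqQ hcard f u hf hu
        · intro σ hσ t
          have h3 := hanti σ⁻¹ (by
            intro a ha
            have := hσ a ha
            rw [Equiv.Perm.inv_eq_iff_eq]
            exact this.symm)
          have h4 := congrFun h3 t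
          rw [rho_apply, inv_inv, Equiv.Perm.sign_inv] at h4
          exact h4
      obtain ⟨_, g, hg1, hg2⟩ := h1
      exact ⟨g, hg1, hg2, hz1.2⟩
  intro c hc hcyc
  obtain ⟨g, hg1, hg2, _⟩ := key ⟨hc, hcyc⟩
  exact ⟨g, hg1, hg2⟩

end Pool.Agent.Work.MP_1233f5_ag.V

end

section

set_option autoImplicit false

namespace Pool.Agent.Work.MP_1233f5_ag.V

open Finset

theorem XPb_sum_eps {r : ℕ} {k : Fin r → ℕ} {j : ℕ}
    (h : eps (r + 1) (Fin.cons j k) ≠ 0) : 2 * (j + ∑ i, k i) = r * (r + 1) := by
  unfold eps at h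
  obtain ⟨σ, _, hσ⟩ := Finset.exists_ne_zero_of_sum_ne_zero h
  split_ifs at hσ with hk
  · have h1 : ∑ i : Fin (r + 1), (Fin.cons j k : Fin (r + 1) → ℕ) i
        = ∑ i : Fin (r + 1), ((σ i : Fin (r + 1)) : ℕ) :=
      Finset.sum_congr rfl (fun i _ => hk i)
    rw [Fin.sum_univ_succ] at h1
    simp only [Fin.cons_zero, Fin.cons_succ] at h1
    have h2 : ∑ i : Fin (r + 1), ((σ i : Fin (r + 1)) : ℕ) = ∑ i : Fin (r + 1), (i : ℕ) :=
      Equiv.sum_comp σ (fun i => (i : ℕ))
    have h3 : ∑ i : Fin (r + 1), (i : ℕ) = ∑ i ∈ range (r + 1), i :=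
      (Finset.sum_range (fun i => i)).symm
    have h4 := Finset.sum_range_id_mul_two (r + 1)
    rw [h1, h2, h3, mul_comm, h4]
    simp [mul_comm]
  · exact absurd rfl hσ

theorem XPb_Aco {r : ℕ} {k : Fin r → ℕ} (h : Aco r k ≠ 0) : 2 * (∑ i, k i) ≤ r * (r + 1) := by
  unfold Aco at h
  obtain ⟨j, _, hj⟩ := Finset.exists_ne_zero_of_sum_ne_zero h
  have := XPb_sum_eps hj
  omega

theorem XPb_ty0 {β : Type} [DecidableEq β] (X e : Finset β) :
    tyv (fun a => if a ∈ X then (0 : Fin 2) else 1) e 0 = (e ∩ X).card := by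
  unfold tyv
  congr 1
  ext a
  by_cases ha : a ∈ X <;> simp [ha]

theorem XPb_ty1 {β : Type} [Fintype β] [DecidableEq β] (X e : Finset β) :
    tyv (fun a => if a ∈ X then (0 : Fin 2) else 1) e 1 = (e ∩ (univ \ X)).card := by
  unfold tyv
  congr 1
  ext a
  by_cases ha : a ∈ X <;> simp [ha]

theorem pr_XPb : S_XPb := by
  intro K _ _ β _ _ r X hr hβ hX t
  set Y : Finset β := univ \ X with hY
  have hYc : 2 * Y.card = r * (r + 3) := by
    have h1 : Y.card = Fintype.card β - X.card := by
      rw [hY, Finset.card_sdiff_of_subset (subset_univ _), Finset.card_univ]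
    have h2 : X.card ≤ Fintype.card β := Finset.card_le_univ X
    rw [h1]; omega
  have hXY : Disjoint X Y := by
    rw [hY]; exact Finset.disjoint_sdiff
  have hun : X ∪ Y = univ := by
    rw [hY]; simp
  by_cases hvm : vm (r + 1) univ r t
  · -- matching
    have hAB : ∀ i, (t i ∩ X).card + (t i ∩ Y).card = r + 1 := by
      intro i
      rw [← (hvm.1 i).1, ← Finset.card_union_of_disjoint, ← Finset.inter_union_distrib_left, hun,
        Finset.inter_univ]
      exact Finset.disjoint_of_subset_left Finset.inter_subset_right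
        (Finset.disjoint_of_subset_right Finset.inter_subset_right hXY)
    set U : Finset β := Y \ univ.biUnion t with hU
    have hBsum : ∑ i, (t i ∩ Y).card = (Y ∩ univ.biUnion t).card := by
      rw [Finset.inter_biUnion, Finset.card_biUnion]
      · refine Finset.sum_congr rfl (fun i _ => by rw [Finset.inter_comm])
      · intro i _ j _ hij
        exact Finset.disjoint_of_subset_left Finset.inter_subset_right
          (Finset.disjoint_of_subset_right Finset.inter_subset_right (hvm.2 i j hij))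
    have hUc : U.card + ∑ i, (t i ∩ Y).card = Y.card := by
      rw [hBsum, hU]
      have := Finset.card_sdiff_add_card_inter Y (univ.biUnion t)
      exact this
    have hfU : ∀ f ⊆ Y, (vm (r + 1) (X ∪ (Y \ f)) r t ↔ f ⊆ U) := by
      intro f hf
      constructor
      · intro h a ha
        rw [hU, mem_sdiff]
        refine ⟨hf ha, ?_⟩
        rw [mem_biUnion]
        rintro ⟨i, _, hi⟩
        have := (h.1 i).2 hi
        rw [mem_union, mem_sdiff] at this
        rcases this with h1 | h1
        · exact (Finset.disjoint_left.1 hXY h1) (hf ha)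
        · exact h1.2 ha
      · intro h
        refine ⟨fun i => ⟨(hvm.1 i).1, fun a ha => ?_⟩, hvm.2⟩
        rw [mem_union, mem_sdiff]
        by_cases haX : a ∈ X
        · exact Or.inl haX
        · right
          have haY : a ∈ Y := by rw [hY, mem_sdiff]; exact ⟨mem_univ _, haX⟩
          refine ⟨haY, fun haf => ?_⟩
          have := h haf
          rw [hU, mem_sdiff, mem_biUnion] at this
          exact this.2 ⟨i, mem_univ _, ha⟩
    set N0 : ℕ := (∏ i, ((t i ∩ X).card.factorial * (t i ∩ Y).card.factorial)) *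
      (X.card - ∑ i, (t i ∩ X).card).factorial with hN0
    set cA : K := ((Aco r (fun i => (t i ∩ Y).card) : ℤ) : K) with hcA
    have hterm : ∀ f ∈ powersetCard r Y, aXY (K := K) r X (Y \ f) t =
        if f ⊆ U then ((N0 * (U.card - r).factorial : ℕ) : K) * cA else 0 := by
      intro f hf
      rw [mem_powersetCard] at hf
      unfold aXY
      by_cases hfU' : f ⊆ U
      · rw [if_pos ((hfU f hf.1).2 hfU'), if_pos hfU']
        have hti : ∀ i, t i ∩ (Y \ f) = t i ∩ Y := by
          intro i
          ext a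
          simp only [mem_inter, mem_sdiff]
          constructor
          · rintro ⟨h1, h2, _⟩; exact ⟨h1, h2⟩
          · rintro ⟨h1, h2⟩
            refine ⟨h1, h2, fun haf => ?_⟩
            have := hfU' haf
            rw [hU, mem_sdiff, mem_biUnion] at this
            exact this.2 ⟨i, mem_univ _, h1⟩
        simp only [hti]
        have hc : (Y \ f).card = Y.card - r := by
          rw [Finset.card_sdiff_of_subset hf.1, hf.2]
        have hc2 : (Y \ f).card - ∑ i, (t i ∩ Y).card = U.card - r := by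
          rw [hc]; omega
        rw [hc2, hN0, hcA]
        congr 2
        ring
      · rw [if_neg (fun h => hfU' ((hfU f hf.1).1 h)), if_neg hfU']
    have hz : zXY (K := K) r X Y t =
        ((U.card.choose r : ℕ) : K) * (((N0 * (U.card - r).factorial : ℕ) : K) * cA) := by
      unfold zXY
      rw [Finset.sum_congr rfl hterm, ← Finset.sum_filter]
      have hfil : (powersetCard r Y).filter (fun f => f ⊆ U) = powersetCard r U := by
        ext f
        simp only [mem_filter, mem_powersetCard]
        constructor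
        · rintro ⟨⟨_, h2⟩, h3⟩; exact ⟨h3, h2⟩
        · rintro ⟨h1, h2⟩
          exact ⟨⟨h1.trans (by rw [hU]; exact sdiff_subset), h2⟩, h1⟩
      rw [hfil, Finset.sum_const, Finset.card_powersetCard, nsmul_eq_mul]
    have hpb : pb (K := K) (r + 1) (fun a => if a ∈ X then (0 : Fin 2) else 1) (c0 r) t =
        ((N0 * U.card.factorial : ℕ) : K) * cA := by
      unfold pb
      rw [if_pos hvm]
      have hc0 : c0 (K := K) r (fun i => tyv (fun a => if a ∈ X then (0 : Fin 2) else 1) (t i))
          = cA := by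
        unfold c0
        rw [if_pos]
        · simp only [XPb_ty1]
          rw [hcA]
        · intro i
          beta_reduce
          rw [XPb_ty0, XPb_ty1]
          exact hAB i
      rw [hc0]
      congr 2
      unfold mu
      have hfib0 : fib (fun a => if a ∈ X then (0 : Fin 2) else 1) 0 = X.card := by
        unfold fib
        rw [XPb_ty0, Finset.univ_inter]
      have hfib1 : fib (fun a => if a ∈ X then (0 : Fin 2) else 1) 1 = Y.card := by
        unfold fib
        rw [XPb_ty1, Finset.univ_inter]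
      rw [Fin.prod_univ_two, hfib0, hfib1]
      simp only [Fin.prod_univ_two, XPb_ty0, XPb_ty1]
      have hc : Y.card - ∑ i, (t i ∩ Y).card = U.card := by omega
      rw [← hY, hc, hN0]
      ring
    rw [hpb, hz]
    by_cases hu : r ≤ U.card
    · have h1 := Nat.choose_mul_factorial_mul_factorial hu
      have h2 : N0 * U.card.factorial = r.factorial * (U.card.choose r * (N0 * (U.card - r).factorial)) := by
        rw [← h1]; ring
      rw [h2]
      push_cast
      ring
    · have hch : U.card.choose r = 0 := Nat.choose_eq_zero_of_lt (by omega)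
      have hA0 : Aco r (fun i => (t i ∩ Y).card) = 0 := by
        by_contra hne
        have := XPb_Aco hne
        have h5 : r * (r + 3) = r * (r + 1) + 2 * r := by ring
        omega
      have : cA = 0 := by rw [hcA, hA0]; simp
      rw [this, hch]
      simp
  · -- not a matching
    have h1 : pb (K := K) (r + 1) (fun a => if a ∈ X then (0 : Fin 2) else 1) (c0 r) t = 0 := by
      unfold pb; rw [if_neg hvm]
    have h2 : zXY (K := K) r X Y t = 0 := by
      unfold zXY
      refine Finset.sum_eq_zero (fun f _ => ?_)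
      unfold aXY
      rw [if_neg]
      intro h
      exact hvm ⟨fun i => ⟨(h.1 i).1, subset_univ _⟩, h.2⟩
    rw [h1, h2, mul_zero]

end Pool.Agent.Work.MP_1233f5_ag.V

end

section

/-! MP_1233f5_ag, block X, item XRel. -/

set_option autoImplicit false

namespace Pool.Agent.Work.MP_1233f5_ag.V

open Finset

namespace XRel

variable {K : Type} [Field K] {α : Type} [Fintype α] [DecidableEq α]

/-- action on tuples of sets -/
def ac (σ : Equiv.Perm α) {p : ℕ} (t : Fin p → Finset α) : Fin p → Finset α :=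
  fun i => (t i).map σ.toEmbedding

omit [Fintype α] in
theorem wdg_ac (σ : Equiv.Perm α) {p : ℕ} (b : Finset α) (c : (Fin p → Finset α) → K)
    (t : Fin (p + 1) → Finset α) :
    wdg (b.map σ.toEmbedding) c (ac σ t) = wdg b (fun s => c (ac σ s)) t := by
  unfold wdg
  refine Finset.sum_congr rfl fun i _ => ?_
  have h : (ac σ t i = b.map σ.toEmbedding) ↔ t i = b :=
    (Finset.map_injective σ.toEmbedding).eq_iff
  by_cases h' : t i = b
  · rw [if_pos (h.mpr h'), if_pos h']
    rfl
  · rw [if_neg (fun h'' => h' (h.mp h'')), if_neg h']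

omit [Fintype α] in
theorem wdgs_ac (σ : Equiv.Perm α) {p : ℕ} (c : (Fin p → Finset α) → K) :
    ∀ (m : ℕ) (e : Fin m → Finset α) (t : Fin (p + m) → Finset α),
      wdgs m (fun j => (e j).map σ.toEmbedding) c (ac σ t) = wdgs m e (fun s => c (ac σ s)) t
  | 0, _, _ => rfl
  | m + 1, e, t => by
    have h1 : wdgs (m + 1) (fun j => (e j).map σ.toEmbedding) c (ac σ t) =
        wdg ((e 0).map σ.toEmbedding)
          (wdgs m (fun j => (Fin.tail e j).map σ.toEmbedding) c) (ac σ t) := rfl
    have h2 := wdg_ac σ (p := p + m) (e 0)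
      (wdgs m (fun j => (Fin.tail e j).map σ.toEmbedding) c) t
    have h3 : (fun s : Fin (p + m) → Finset α =>
        wdgs m (fun j => (Fin.tail e j).map σ.toEmbedding) c (ac σ s)) =
        wdgs m (Fin.tail e) (fun s => c (ac σ s)) := by
      funext s
      exact wdgs_ac σ c m (Fin.tail e) s
    rw [h3] at h2
    exact h1.trans h2

theorem dd_ac (σ : Equiv.Perm α) {p : ℕ} (c : (Fin (p + 1) → Finset α) → K)
    (t : Fin p → Finset α) :
    dd univ (fun s => c (ac σ s)) t = dd univ c (ac σ t) := by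
  unfold dd
  refine Finset.sum_bij (fun b _ => b.map σ.toEmbedding) (fun _ _ => mem_univ _)
    (fun a _ b _ h => Finset.map_injective σ.toEmbedding h) (fun b _ => ?_) (fun b _ => ?_)
  · refine ⟨b.map σ.symm.toEmbedding, mem_univ _, ?_⟩
    rw [Finset.map_map]
    have : (σ.symm.toEmbedding.trans σ.toEmbedding) = Function.Embedding.refl α := by
      ext a; simp
    rw [this, Finset.map_refl]
  · change c (ac σ (Fin.cons b t)) = c (Fin.cons (b.map σ.toEmbedding) (ac σ t))
    congr 1
    funext i
    refine Fin.cases ?_ (fun i => ?_) i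
    · simp [ac]
    · simp [ac]

theorem AQ_apply (Q : Finset α) {p : ℕ} (c : (Fin p → Finset α) → K) (t : Fin p → Finset α) :
    AQ Q c t = ∑ σ ∈ univ.filter (fun σ : Equiv.Perm α => ∀ a, a ∉ Q → σ a = a),
      ((Equiv.Perm.sign σ : ℤ) : K) * c (ac σ t) := rfl

theorem AQ_dd (Q : Finset α) {p : ℕ} (c : (Fin (p + 1) → Finset α) → K)
    (t : Fin p → Finset α) : AQ Q (dd univ c) t = dd univ (AQ Q c) t := by
  rw [AQ_apply]
  have h : dd univ (AQ Q c) t = ∑ σ ∈ univ.filter
      (fun σ : Equiv.Perm α => ∀ a, a ∉ Q → σ a = a),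
      ((Equiv.Perm.sign σ : ℤ) : K) * dd univ (fun s => c (ac σ s)) t := by
    simp only [dd, AQ_apply, Finset.mul_sum]
    rw [Finset.sum_comm]
  rw [h]
  refine Finset.sum_congr rfl fun σ _ => ?_
  rw [dd_ac]

theorem AQ_sum (Q : Finset α) {p : ℕ} {ι : Type*} (s : Finset ι) (a : ι → K)
    (c : ι → (Fin p → Finset α) → K) (t : Fin p → Finset α) :
    AQ Q (fun s' => ∑ k ∈ s, a k * c k s') t = ∑ k ∈ s, a k * AQ Q (c k) t := by
  simp only [AQ_apply, Finset.mul_sum]
  rw [Finset.sum_comm]
  refine Finset.sum_congr rfl fun k _ => Finset.sum_congr rfl fun σ _ => ?_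
  ring

theorem Alt_AQ (Q : Finset α) {p : ℕ} {c : (Fin p → Finset α) → K} (h : Alt p c) :
    Alt p (AQ Q c) := by
  intro π t
  rw [AQ_apply, AQ_apply, Finset.mul_sum]
  refine Finset.sum_congr rfl fun σ _ => ?_
  have h1 : c (ac σ (t ∘ π)) = c (ac σ t ∘ π) := rfl
  rw [h1, h π (ac σ t)]
  ring

omit [DecidableEq α] in
theorem vm_ac [DecidableEq α] (d : ℕ) (σ : Equiv.Perm α) {p : ℕ} (t : Fin p → Finset α)
    (h : vm d univ p (ac σ t)) : vm d univ p t := by
  obtain ⟨h1, h2⟩ := h
  refine ⟨fun i => ⟨?_, subset_univ _⟩, fun i j hij => ?_⟩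
  · have := (h1 i).1
    unfold ac at this
    rwa [card_map] at this
  · have := h2 i j hij
    unfold ac at this
    rwa [Finset.disjoint_map] at this

theorem rCh_AQ (d : ℕ) (Q : Finset α) {p : ℕ} {c : (Fin p → Finset α) → K}
    (h : rCh (vm d univ) p c) : rCh (vm d univ) p (AQ Q c) := by
  refine ⟨Alt_AQ Q h.1, fun t ht => ?_⟩
  rw [AQ_apply] at ht
  obtain ⟨σ, _, hσ⟩ := Finset.exists_ne_zero_of_sum_ne_zero ht
  exact vm_ac d σ t (h.2 _ (right_ne_zero_of_mul hσ))

omit [Fintype α] in
theorem wdg_support {p : ℕ} (b : Finset α) (c : (Fin p → Finset α) → K)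
    (t : Fin (p + 1) → Finset α) (h : wdg b c t ≠ 0) :
    ∃ i, t i = b ∧ c (i.removeNth t) ≠ 0 := by
  unfold wdg at h
  obtain ⟨i, _, hi⟩ := Finset.exists_ne_zero_of_sum_ne_zero h
  by_cases hb : t i = b
  · rw [if_pos hb] at hi
    exact ⟨i, hb, right_ne_zero_of_mul hi⟩
  · rw [if_neg hb] at hi
    exact absurd rfl hi

omit [Fintype α] in
theorem wdgs_support (d : ℕ) (R : Finset α) {p : ℕ} (u : (Fin p → Finset α) → K)
    (hu : ∀ t, u t ≠ 0 → vm d R p t) :
    ∀ (m : ℕ) (e : Fin m → Finset α), (∀ k, (e k).card = d) →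
      (∀ i j, i ≠ j → Disjoint (e i) (e j)) → (∀ k, Disjoint (e k) R) →
      ∀ t : Fin (p + m) → Finset α, wdgs m e u t ≠ 0 →
        vm d (R ∪ univ.biUnion e) (p + m) t
  | 0, e, _, _, _, t, h => by
    have h1 := hu t h
    refine ⟨fun i => ⟨(h1.1 i).1, (h1.1 i).2.trans subset_union_left⟩, h1.2⟩
  | m + 1, e, h1, h2, h3, t, h => by
    obtain ⟨i, hi, hc⟩ := wdg_support (p := p + m) (e 0) (wdgs m (Fin.tail e) u) t h
    have ih := wdgs_support d R u hu m (Fin.tail e) (fun k => h1 _)
      (fun i j hij => h2 _ _ (fun h => hij (Fin.succ_injective _ h))) (fun k => h3 _) _ hc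
    have hsub : R ∪ univ.biUnion (Fin.tail e) ⊆ R ∪ univ.biUnion e := by
      apply union_subset_union_right
      intro a ha
      rw [mem_biUnion] at ha ⊢
      obtain ⟨k, _, hk⟩ := ha
      exact ⟨k.succ, mem_univ _, hk⟩
    have hdis : Disjoint (e 0) (R ∪ univ.biUnion (Fin.tail e)) := by
      rw [disjoint_union_right, disjoint_biUnion_right]
      exact ⟨h3 0, fun k _ => h2 0 k.succ (Fin.succ_ne_zero k).symm⟩
    have key : ∀ j : Fin (p + m), i.removeNth t j = t (i.succAbove j) := fun j => rfl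
    refine ⟨fun j => ?_, fun j j' hj => ?_⟩
    · rcases eq_or_ne j i with rfl | hji
      · rw [hi]
        refine ⟨h1 0, ?_⟩
        refine Subset.trans ?_ subset_union_right
        exact subset_biUnion_of_mem e (mem_univ 0)
      · obtain ⟨k, rfl⟩ := Fin.exists_succAbove_eq hji
        exact ⟨(ih.1 k).1, (ih.1 k).2.trans hsub⟩
    · rcases eq_or_ne j i with rfl | hji
      · obtain ⟨k', rfl⟩ := Fin.exists_succAbove_eq hj.symm
        rw [hi]
        exact Disjoint.mono_right (ih.1 k').2 hdis
      · obtain ⟨k, rfl⟩ := Fin.exists_succAbove_eq hji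
        rcases eq_or_ne j' i with rfl | hji'
        · rw [hi]
          exact (Disjoint.mono_right (ih.1 k).2 hdis).symm
        · obtain ⟨k', rfl⟩ := Fin.exists_succAbove_eq hji'
          exact ih.2 k k' (fun h => hj (by rw [h]))

omit [Fintype α] in
/-- products of `u` with sets outside its support are invariant under permutations -/
theorem u_ac (d : ℕ) (Q R : Finset α) (hR : Disjoint R Q) {p : ℕ} (u : (Fin p → Finset α) → K)
    (hu : ∀ t, u t ≠ 0 → vm d R p t) (τ : Equiv.Perm α) (hτ : ∀ a, a ∉ Q → τ a = a)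
    (t : Fin p → Finset α) : u (ac τ t) = u t := by
  have hτ' : ∀ s : Finset α, s ⊆ R → s.map τ.toEmbedding = s := by
    intro s hs
    rw [Finset.map_eq_image]
    conv_rhs => rw [← Finset.image_id (s := s)]
    refine Finset.image_congr fun a ha => ?_
    exact hτ a (Finset.disjoint_left.mp hR (hs ha))
  have hτ'' : ∀ s : Finset α, s.map τ.toEmbedding ⊆ R → s.map τ.toEmbedding = s := by
    intro s hs
    have h1 := hτ' _ hs
    exact Finset.map_injective τ.toEmbedding h1
  by_cases h1 : u t = 0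
  · by_contra h2
    have h3 : u (ac τ t) ≠ 0 := fun h => h2 (h.trans h1.symm)
    have h4 := hu _ h3
    apply h2
    congr 1
    funext i
    exact hτ'' _ (h4.1 i).2
  · have h4 := hu _ h1
    congr 1
    funext i
    exact hτ' _ (h4.1 i).2

theorem AQ_shift (Q : Finset α) {p : ℕ} (c c' : (Fin p → Finset α) → K) (τ : Equiv.Perm α)
    (hτ : ∀ a, a ∉ Q → τ a = a) (h : ∀ t, c' (ac τ t) = c t) (t : Fin p → Finset α) :
    AQ Q c t = ((Equiv.Perm.sign τ : ℤ) : K) * AQ Q c' t := by
  rw [AQ_apply, AQ_apply, Finset.mul_sum]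
  have hs : ((Equiv.Perm.sign τ : ℤ) : K) * ((Equiv.Perm.sign τ : ℤ) : K) = 1 := by
    rw [← Int.cast_mul, ← Units.val_mul, Int.units_mul_self]; simp
  refine Finset.sum_bij (fun σ _ => τ * σ) ?_ (fun a _ b _ h => mul_left_cancel h) ?_ ?_
  · intro σ hσ
    rw [mem_filter] at hσ ⊢
    refine ⟨mem_univ _, fun a ha => ?_⟩
    rw [Equiv.Perm.mul_apply, hσ.2 a ha, hτ a ha]
  · intro σ hσ
    rw [mem_filter] at hσ
    refine ⟨τ⁻¹ * σ, ?_, by group⟩
    rw [mem_filter]
    refine ⟨mem_univ _, fun a ha => ?_⟩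
    rw [Equiv.Perm.mul_apply, hσ.2 a ha, Equiv.Perm.inv_eq_iff_eq]
    exact (hτ a ha).symm
  · intro σ _
    have h1 : ac (τ * σ) t = ac τ (ac σ t) := by
      funext i
      unfold ac
      rw [Finset.map_map]
      rfl
    rw [h1, h (ac σ t), Equiv.Perm.sign_mul]
    push_cast
    linear_combination (- ((Equiv.Perm.sign σ : ℤ) : K) * c (ac σ t)) * hs

end XRel

open XRel

theorem pr_XRel : S_XRel := by
  intro K _ _ α _ _ d m p Q q hd hq hQ f hf u hu
  obtain ⟨⟨hua, hus⟩, huc⟩ := hu
  set e : Fin (m + 1) → Finset α := fun k => insert (q k) (f k) with he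
  have hqQ : ∀ k, q k ∈ Q := fun k => (hQ _).mpr ⟨k, rfl⟩
  have hfQ : ∀ k a, a ∈ f k → a ∉ Q := by
    intro k a ha
    have := (hf.1 k).2 ha
    rw [mem_sdiff] at this
    exact this.2
  have hqf : ∀ k j, q k ∉ f j := fun k j h => hfQ j _ h (hqQ k)
  have hecard : ∀ k, (e k).card = d := by
    intro k
    rw [he]
    simp only
    rw [card_insert_of_notMem (hqf k k), (hf.1 k).1]
    omega
  have hedis : ∀ i j, i ≠ j → Disjoint (e i) (e j) := by
    intro i j hij
    rw [he]
    simp only
    rw [disjoint_insert_left, disjoint_insert_right, mem_insert]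
    refine ⟨?_, hqf j i, hf.2 i j hij⟩
    rintro (h | h)
    · exact hij (hq h)
    · exact hqf i j h
  have hRQ : Disjoint (RQ Q f) Q := by
    rw [Finset.disjoint_left]
    intro a ha
    unfold RQ at ha
    rw [mem_sdiff, mem_sdiff] at ha
    exact ha.1.2
  have heR : ∀ k, Disjoint (e k) (RQ Q f) := by
    intro k
    rw [he]
    simp only
    rw [disjoint_insert_left]
    refine ⟨fun h => Finset.disjoint_left.mp hRQ h (hqQ k), ?_⟩
    rw [Finset.disjoint_left]
    intro a ha ha'
    unfold RQ at ha'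
    rw [mem_sdiff, mem_biUnion] at ha'
    exact ha'.2 ⟨k, mem_univ _, ha⟩
  -- the cycle condition everywhere
  have hcyc : ∀ (k : ℕ) (h : p = k + 1), ∀ t,
      dd univ (fun s => u (fun i => s (Fin.cast h i))) t = 0 := by
    intro k h t
    subst h
    change dd univ u t = 0
    by_cases ht : vm d (RQ Q f) k t
    · exact huc t ht
    · refine Finset.sum_eq_zero fun b _ => ?_
      by_contra hne
      apply ht
      have h1 := hus _ hne
      refine ⟨fun i => ?_, fun i j hij => ?_⟩
      · have := h1.1 i.succ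
        rwa [Fin.cons_succ] at this
      · have := h1.2 i.succ j.succ (fun h => hij (Fin.succ_injective _ h))
        rwa [Fin.cons_succ, Fin.cons_succ] at this
  -- chains
  have hchG : rCh (vm d univ) (p + (m + 1)) (wdgs (m + 1) e u) := by
    refine ⟨hua.wdgs (m + 1) e, fun t ht => ?_⟩
    have h1 := wdgs_support d (RQ Q f) u hus (m + 1) e hecard hedis heR t ht
    exact ⟨fun i => ⟨(h1.1 i).1, subset_univ _⟩, h1.2⟩
  have hstd : ∀ k : Fin (m + 1), rCh (vm d univ) (p + m)
      (wdgs m (fun j : Fin m => insert (q j.castSucc) ((k.removeNth f) j)) u) := by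
    intro k
    refine ⟨hua.wdgs m _, fun t ht => ?_⟩
    have h1 := wdgs_support d (RQ Q f) u hus m _ ?_ ?_ ?_ t ht
    · exact ⟨fun i => ⟨(h1.1 i).1, subset_univ _⟩, h1.2⟩
    · intro j
      change (insert (q j.castSucc) (f (k.succAbove j))).card = d
      rw [card_insert_of_notMem (hqf _ _), (hf.1 _).1]
      omega
    · intro i j hij
      change Disjoint (insert (q i.castSucc) (f (k.succAbove i)))
        (insert (q j.castSucc) (f (k.succAbove j)))
      rw [disjoint_insert_left, disjoint_insert_right, mem_insert]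
      refine ⟨?_, hqf _ _, hf.2 _ _ (fun h => hij (Fin.succAbove_right_injective h))⟩
      rintro (h | h)
      · exact hij (Fin.castSucc_injective _ (hq h))
      · exact hqf _ _ h
    · intro j
      change Disjoint (insert (q j.castSucc) (f (k.succAbove j))) (RQ Q f)
      rw [disjoint_insert_left]
      refine ⟨fun h => Finset.disjoint_left.mp hRQ h (hqQ _), ?_⟩
      rw [Finset.disjoint_left]
      intro a ha ha'
      unfold RQ at ha'
      rw [mem_sdiff, mem_biUnion] at ha'
      exact ha'.2 ⟨_, mem_univ _, ha⟩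
  -- the permutation
  have hperm : ∀ (k : Fin (m + 1)) (t : Fin (p + m) → Finset α),
      AQ Q (wdgs m (k.removeNth e) u) t = (-1) ^ (m - (k : ℕ)) * E0 Q q (k.removeNth f) u t := by
    intro k t
    set ρ : Equiv.Perm (Fin (m + 1)) := Fin.cycleIcc k (Fin.last m) with hρ
    set τ : Equiv.Perm α := ρ.viaFintypeEmbedding ⟨q, hq⟩ with hτdef
    have hτq : ∀ j, τ (q j) = q (ρ j) := by
      intro j
      exact Equiv.Perm.viaFintypeEmbedding_apply_image (f := (⟨q, hq⟩ : Fin (m + 1) ↪ α)) ρ j
    have hτQ : ∀ a, a ∉ Q → τ a = a := by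
      intro a ha
      refine Equiv.Perm.viaFintypeEmbedding_apply_notMem_range ρ _ ?_
      rintro ⟨j, hj⟩
      exact ha ((hQ a).mpr ⟨j, hj⟩)
    have hsign : ((Equiv.Perm.sign τ : ℤ) : K) = (-1) ^ (m - (k : ℕ)) := by
      have h1 : Equiv.Perm.sign τ = Equiv.Perm.sign ρ := Equiv.Perm.viaFintypeEmbedding_sign ρ _
      rw [h1, hρ, Fin.sign_cycleIcc_of_le (Fin.le_last k)]
      simp
    have hρj : ∀ j : Fin m, ρ j.castSucc = k.succAbove j := by
      intro j
      have h1 := congrFun (Fin.cycleIcc_comp_succAbove k (Fin.last m) (Fin.le_last k)) j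
      simp only [Function.comp_apply, Fin.succAbove_last] at h1
      exact h1
    have htup : (fun j : Fin m => (insert (q j.castSucc) ((k.removeNth f) j)).map τ.toEmbedding) =
        k.removeNth e := by
      funext j
      change (insert (q j.castSucc) (f (k.succAbove j))).map τ.toEmbedding =
        insert (q (k.succAbove j)) (f (k.succAbove j))
      rw [Finset.map_insert]
      congr 1
      · change τ (q j.castSucc) = _
        rw [hτq, hρj]
      · rw [Finset.map_eq_image]
        conv_rhs => rw [← Finset.image_id (s := f (k.succAbove j))]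
        refine Finset.image_congr fun a ha => ?_
        exact hτQ a (hfQ _ a ha)
    have h1 := AQ_shift Q (wdgs m (fun j : Fin m => insert (q j.castSucc) ((k.removeNth f) j)) u)
      (wdgs m (k.removeNth e) u) τ hτQ ?_ t
    · have h2 : E0 Q q (k.removeNth f) u t =
        AQ Q (wdgs m (fun j : Fin m => insert (q j.castSucc) ((k.removeNth f) j)) u) t := rfl
      rw [h2, h1, hsign, ← mul_assoc, ← pow_add, ← two_mul, pow_mul]
      simp
    · intro s
      rw [← htup, wdgs_ac]
      congr 1
      funext s'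
      exact u_ac d Q (RQ Q f) hRQ u hus τ hτQ s'
  refine ⟨⟨?_, ?_⟩, fun t => (-1) ^ m * AQ Q (wdgs (m + 1) e u) t, ⟨?_, ?_⟩, ?_⟩
  · refine Alt.sum univ (fun k : Fin (m + 1) => E0 Q q (k.removeNth f) u) fun k _ => ?_
    exact (rCh_AQ d Q (hstd k)).1
  · intro t ht
    obtain ⟨k, _, hk⟩ := Finset.exists_ne_zero_of_sum_ne_zero ht
    exact (rCh_AQ d Q (hstd k)).2 t hk
  · exact (rCh_AQ d Q hchG).1.smul _
  · intro t ht
    exact (rCh_AQ d Q hchG).2 t (right_ne_zero_of_mul ht)
  · intro t _
    have h1 : dd univ (fun t => (-1) ^ m * AQ Q (wdgs (m + 1) e u) t) t =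
        (-1) ^ m * dd univ (AQ Q (wdgs (m + 1) e u)) t :=
      congrFun (dd_smul (p := p + m) univ ((-1) ^ m) (AQ Q (wdgs (m + 1) e u))) t
    refine h1.trans ?_
    rw [← AQ_dd (p := p + m)]
    have h2 : dd univ (wdgs (m + 1) e u) = fun s : Fin (p + m) → Finset α =>
        ∑ k : Fin (m + 1), (-1) ^ (k : ℕ) * wdgs m (k.removeNth e) u s := by
      funext s
      exact dd_wdgs_of_cycle univ u hcyc m e (fun k => mem_univ _) s
    have h5 := AQ_sum Q univ (fun k : Fin (m + 1) => (-1 : K) ^ (k : ℕ))
      (fun k => wdgs m (k.removeNth e) u) t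
    refine (congrArg (fun c => (-1 : K) ^ m * AQ Q c t) h2).trans ?_
    refine (congrArg (fun x => (-1 : K) ^ m * x) h5).trans ?_
    rw [Finset.mul_sum]
    refine Finset.sum_congr rfl fun k _ => ?_
    rw [hperm]
    have h3 : (-1 : K) ^ m * (-1) ^ (k : ℕ) * (-1) ^ (m - (k : ℕ)) = 1 := by
      have hk : (k : ℕ) ≤ m := Nat.lt_succ_iff.mp k.isLt
      rw [mul_assoc, ← pow_add, Nat.add_sub_cancel' hk, ← pow_add, ← two_mul, pow_mul]
      simp
    linear_combination (E0 Q q (k.removeNth f) u t) * h3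

end Pool.Agent.Work.MP_1233f5_ag.V

end

section

/-! MP_1233f5_ag, block X, item XSpan: removal of the part with all points of `Q` covered. -/

set_option autoImplicit false

namespace Pool.Agent.Work.MP_1233f5_ag.V

open Finset

section gen
variable {K : Type} [Field K] {B : Type}

/-- the tuple `e 0, e 1, ..., e (m - 1), s`. -/
def XSpan_cs {p : ℕ} : (m : ℕ) → (Fin m → B) → (Fin p → B) → (Fin (p + m) → B)
  | 0, _, s => s
  | m + 1, e, s => Fin.cons (e 0) (XSpan_cs m (Fin.tail e) s)

theorem XSpan_cs_succ {p m : ℕ} (e : Fin (m + 1) → B) (s : Fin p → B) :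
    XSpan_cs (m + 1) e s = (Fin.cons (e 0) (XSpan_cs m (Fin.tail e) s) : Fin (p + m + 1) → B) := rfl

/-- the differential of `C` is zero. -/
def XSpan_cy (M : Finset B) (N : ℕ) (C : (Fin N → B) → K) : Prop :=
  ∀ (n : ℕ) (h : N = n + 1) (t : Fin n → B), dd M (fun s => C (fun i => s (Fin.cast h i))) t = 0

theorem XSpan_alt {p : ℕ} {C : (Fin (p + 1) → B) → K} (h : Alt (p + 1) C) (b : B) :
    Alt p (fun s => C (Fin.cons b s)) := by
  intro σ t
  have h1 := h (Equiv.Perm.decomposeFin.symm (0, σ)) (Fin.cons b t)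
  have h2 : (Fin.cons b t : Fin (p + 1) → B) ∘ (Equiv.Perm.decomposeFin.symm (0, σ)) =
      Fin.cons b (t ∘ σ) := by
    funext k
    refine Fin.cases ?_ (fun k => ?_) k
    · simp
    · simp
  rw [h2] at h1
  show C (Fin.cons b (t ∘ σ)) = _
  rw [h1]
  simp

theorem XSpan_swap {p : ℕ} {C : (Fin (p + 2) → B) → K} (h : Alt (p + 2) C) (b b' : B)
    (t : Fin p → B) : C (Fin.cons b (Fin.cons b' t : Fin (p + 1) → B)) =
      - C (Fin.cons b' (Fin.cons b t : Fin (p + 1) → B)) := by
  have h1 := h (Equiv.swap 0 1) (Fin.cons b (Fin.cons b' t : Fin (p + 1) → B) : Fin (p + 2) → B)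
  have h2 : (Fin.cons b (Fin.cons b' t : Fin (p + 1) → B) : Fin (p + 2) → B) ∘
      (Equiv.swap (0 : Fin (p + 2)) 1) = Fin.cons b' (Fin.cons b t : Fin (p + 1) → B) := by
    funext k
    refine Fin.cases ?_ (fun k => ?_) k
    · simp only [Function.comp_apply, Equiv.swap_apply_left, Fin.cons_zero]
      rfl
    · refine Fin.cases ?_ (fun k => ?_) k
      · simp only [Function.comp_apply, Fin.succ_zero_eq_one, Equiv.swap_apply_right,
          Fin.cons_zero]
        rfl
      · have e1 : (k.succ.succ : Fin (p + 2)) ≠ 0 := Fin.succ_ne_zero _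
        have e2 : (k.succ.succ : Fin (p + 2)) ≠ 1 := by
          rw [← Fin.succ_zero_eq_one]
          intro h
          exact Fin.succ_ne_zero k (Fin.succ_injective _ h)
        simp only [Function.comp_apply, Equiv.swap_apply_of_ne_of_ne e1 e2, Fin.cons_succ]
  rw [h2, Equiv.Perm.sign_swap (by simp)] at h1
  rw [h1]
  push_cast
  ring

theorem XSpan_cy_cons {M : Finset B} {N : ℕ} {C : (Fin (N + 1) → B) → K} (h : Alt (N + 1) C)
    (hC : XSpan_cy M (N + 1) C) (b : B) : XSpan_cy M N (fun s => C (Fin.cons b s)) := by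
  intro n hn t
  subst hn
  have h1 := hC (n + 1) rfl (Fin.cons b t)
  simp only [dd] at h1 ⊢
  rw [← neg_eq_zero, ← Finset.sum_neg_distrib]
  refine Eq.trans (Finset.sum_congr rfl fun b' _ => ?_) h1
  have h2 := XSpan_swap h b b' t
  simp only [Fin.cast_eq_self]
  rw [h2, neg_neg]

theorem XSpan_slice : ∀ (m : ℕ) {p : ℕ} {C : (Fin (p + m) → B) → K} (e : Fin m → B)
    (M : Finset B), Alt (p + m) C → Alt p (fun s => C (XSpan_cs m e s)) ∧
      (XSpan_cy M (p + m) C → XSpan_cy M p (fun s => C (XSpan_cs m e s)))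
  | 0, _, _, _, _, h => ⟨h, fun h' => h'⟩
  | m + 1, p, C, e, M, h => by
    obtain ⟨h1, h2⟩ := XSpan_slice m (C := fun s : Fin (p + m) → B =>
      C (Fin.cons (e 0) s : Fin (p + m + 1) → B)) (Fin.tail e) M (XSpan_alt (p := p + m) h (e 0))
    exact ⟨h1, fun h' => h2 (XSpan_cy_cons (N := p + m) h h' (e 0))⟩

theorem XSpan_cnt (P : B → Prop) [DecidablePred P] {p : ℕ} : ∀ (m : ℕ) (e : Fin m → B)
    (s : Fin p → B), (univ.filter fun i => P (XSpan_cs m e s i)).card =
      (univ.filter fun k => P (e k)).card + (univ.filter fun i => P (s i)).card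
  | 0, e, s => by
    have : (univ.filter fun k : Fin 0 => P (e k)) = ∅ := by
      ext k; exact k.elim0
    rw [this]
    simp only [card_empty, zero_add]
    rfl
  | m + 1, e, s => by
    have ih := XSpan_cnt P m (Fin.tail e) s
    simp only [card_filter] at ih ⊢
    have h1 : (∑ i : Fin (p + (m + 1)), if P (XSpan_cs (m + 1) e s i) then 1 else 0) =
        (if P (e 0) then 1 else 0) +
          ∑ i : Fin (p + m), if P (XSpan_cs m (Fin.tail e) s i) then 1 else 0 := by
      have := Fin.sum_univ_succ (n := p + m) (fun i : Fin (p + m + 1) =>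
        if P (XSpan_cs (m + 1) e s i) then 1 else 0)
      refine this.trans ?_
      rfl
    rw [h1, ih, Fin.sum_univ_succ (fun k => if P (e k) then 1 else 0)]
    exact (add_assoc _ _ _).symm

theorem XSpan_ex (P : B → Prop) {p : ℕ} : ∀ (m : ℕ) (e : Fin m → B) (s : Fin p → B),
    (∃ i, P (XSpan_cs m e s i)) ↔ (∃ k, P (e k)) ∨ ∃ i, P (s i)
  | 0, e, s => by
    constructor
    · rintro ⟨i, hi⟩
      exact Or.inr ⟨i, hi⟩
    · rintro (⟨k, -⟩ | ⟨i, hi⟩)
      · exact k.elim0
      · exact ⟨i, hi⟩
  | m + 1, e, s => by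
    have ih := XSpan_ex P m (Fin.tail e) s
    have h1 : (∃ i : Fin (p + (m + 1)), P (XSpan_cs (m + 1) e s i)) ↔ P (e 0) ∨
        ∃ i : Fin (p + m), P (XSpan_cs m (Fin.tail e) s i) := Fin.exists_fin_succ
    rw [h1, ih, Fin.exists_fin_succ (P := fun k => P (e k)), or_assoc]
    rfl

end gen

section vmm
variable {α : Type}

theorem XSpan_vm_cons {d : ℕ} {P : Finset α} {n : ℕ} {b : Finset α} {t : Fin n → Finset α}
    (h : vm d P (n + 1) (Fin.cons b t)) :
    (b.card = d ∧ b ⊆ P) ∧ vm d P n t ∧ ∀ i, Disjoint b (t i) := by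
  refine ⟨by simpa using h.1 0, ⟨fun i => by simpa using h.1 i.succ, fun i j hij => ?_⟩,
    fun i => ?_⟩
  · simpa using h.2 i.succ j.succ (fun e => hij (Fin.succ_injective _ e))
  · simpa using h.2 0 i.succ (Fin.succ_ne_zero i).symm

theorem XSpan_vm_cons' {d : ℕ} {P : Finset α} {n : ℕ} {b : Finset α} {t : Fin n → Finset α}
    (h1 : b.card = d ∧ b ⊆ P) (h2 : vm d P n t) (h3 : ∀ i, Disjoint b (t i)) :
    vm d P (n + 1) (Fin.cons b t) := by
  refine ⟨fun i => ?_, fun i j hij => ?_⟩
  · refine Fin.cases ?_ (fun i => ?_) i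
    · simpa using h1
    · simpa using h2.1 i
  · revert hij
    refine Fin.cases ?_ (fun i => ?_) i
    · refine Fin.cases ?_ (fun j => ?_) j
      · intro hij; exact absurd rfl hij
      · intro _; simpa using h3 j
    · refine Fin.cases ?_ (fun j => ?_) j
      · intro _; simpa using (h3 i).symm
      · intro hij
        simpa using h2.2 i j (fun e => hij (congrArg Fin.succ e))

theorem XSpan_vm {d : ℕ} {P : Finset α} {p : ℕ} : ∀ (m : ℕ) (e : Fin m → Finset α)
    (s : Fin p → Finset α), vm d P (p + m) (XSpan_cs m e s) →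
      vm d P m e ∧ vm d P p s ∧ ∀ k i, Disjoint (e k) (s i)
  | 0, e, s, h => ⟨⟨fun k => k.elim0, fun k => k.elim0⟩, h, fun k => k.elim0⟩
  | m + 1, e, s, h => by
    obtain ⟨h1, h2, h3⟩ := XSpan_vm_cons (n := p + m) h
    obtain ⟨h4, h5, h6⟩ := XSpan_vm m (Fin.tail e) s h2
    have h7 : ∀ b, (∃ i, XSpan_cs m (Fin.tail e) s i = b) → Disjoint (e 0) b := by
      rintro b ⟨i, rfl⟩
      exact h3 i
    refine ⟨?_, h5, fun k i => ?_⟩
    · have e1 : e = Fin.cons (e 0) (Fin.tail e) := (Fin.cons_self_tail e).symm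
      rw [e1]
      exact XSpan_vm_cons' h1 h4 (fun i => h7 _ ((XSpan_ex (fun b => b = Fin.tail e i) m
        (Fin.tail e) s).2 (Or.inl ⟨i, rfl⟩)))
    · refine Fin.cases ?_ (fun k => ?_) k
      · exact h7 _ ((XSpan_ex (fun b => b = s i) m (Fin.tail e) s).2 (Or.inr ⟨i, rfl⟩))
      · exact h6 k i

end vmm

section sums
variable {K : Type} [Field K] {B : Type} [DecidableEq B]

theorem XSpan_rem {p : ℕ} (E : Finset B) (t : Fin (p + 1) → B) (i : Fin (p + 1)) (hi : t i ∈ E) :
    (univ.filter fun j => t j ∈ E).card = (univ.filter fun j => i.removeNth t j ∈ E).card + 1 := by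
  simp only [card_filter]
  rw [Fin.sum_univ_succAbove _ i, if_pos hi, add_comm]
  rfl

theorem XSpan_step {N : ℕ} (E : Finset B) (m : ℕ) (C : (Fin (N + 1) → B) → K)
    (h : Alt (N + 1) C) (F : B → (Fin N → B) → K)
    (hF : ∀ b s, F b s = (((univ.filter fun i => s i ∈ E).card.descFactorial m : ℕ) : K) *
      C (Fin.cons b s)) (t : Fin (N + 1) → B) :
    ∑ b ∈ E, wdg b (F b) t =
      (((univ.filter fun i => t i ∈ E).card.descFactorial (m + 1) : ℕ) : K) * C t := by
  set D := ((univ.filter fun i => t i ∈ E).card - 1).descFactorial m with hD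
  have h3 : ∀ b ∈ E, wdg b (F b) t =
      ∑ i : Fin (N + 1), if t i = b then (D : K) * C t else 0 := by
    intro b hb
    simp only [wdg, hF]
    refine Finset.sum_congr rfl fun i _ => ?_
    split_ifs with hi
    · have h4 := XSpan_rem E t i (by rw [hi]; exact hb)
      have h5 := h.cons_removeNth t i
      have h6 : (univ.filter fun j => i.removeNth t j ∈ E).card =
          (univ.filter fun i => t i ∈ E).card - 1 := by
        rw [h4]; rfl
      rw [h6, ← hD, ← hi, h5]
      have h7 : ((-1 : K) ^ (i : ℕ)) * (-1) ^ (i : ℕ) = 1 := by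
        rw [← mul_pow]; simp
      linear_combination (D : K) * C t * h7
    · rfl
  rw [Finset.sum_congr rfl h3, Finset.sum_comm]
  have h8 : ∀ i : Fin (N + 1), (∑ b ∈ E, if t i = b then (D : K) * C t else 0) =
      if t i ∈ E then (D : K) * C t else 0 := fun i => Finset.sum_ite_eq E (t i) _
  rw [Finset.sum_congr rfl (fun i _ => h8 i), ← Finset.sum_filter, Finset.sum_const,
    nsmul_eq_mul]
  rcases Nat.eq_zero_or_pos (univ.filter fun i => t i ∈ E).card with h9 | h9
  · rw [h9]
    simp
  · obtain ⟨n, hn⟩ : ∃ n, (univ.filter fun i => t i ∈ E).card = n + 1 :=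
      ⟨_, (Nat.sub_add_cancel h9).symm⟩
    rw [hn, Nat.succ_descFactorial_succ]
    rw [hn] at hD
    rw [hD]
    simp only [Nat.add_sub_cancel]
    push_cast
    ring

theorem XSpan_sum [Fintype B] (E : Finset B) : ∀ (m : ℕ) {p : ℕ} (C : (Fin (p + m) → B) → K),
    Alt (p + m) C → ∀ t : Fin (p + m) → B,
      ∑ e ∈ univ.filter (fun e : Fin m → B => ∀ k, e k ∈ E),
        wdgs m e (fun s => C (XSpan_cs m e s)) t =
      (((univ.filter fun i => t i ∈ E).card.descFactorial m : ℕ) : K) * C t
  | 0, p, C, h, t => by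
    have h1 : (univ.filter fun e : Fin 0 → B => ∀ k, e k ∈ E) = univ := by
      ext e
      simp
    rw [h1, Nat.descFactorial_zero, Nat.cast_one, one_mul]
    rw [Finset.sum_eq_single (fun k : Fin 0 => k.elim0)]
    · rfl
    · intro e _ he
      exact absurd (funext fun k => k.elim0) he
    · intro hh
      exact absurd (mem_univ _) hh
  | m + 1, p, C, h, t => by
    have ih : ∀ (b : B) (s : Fin (p + m) → B),
        ∑ e ∈ univ.filter (fun e : Fin m → B => ∀ k, e k ∈ E),
          wdgs m e (fun s' => C (Fin.cons b (XSpan_cs m e s') : Fin (p + m + 1) → B)) s =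
        (((univ.filter fun i => s i ∈ E).card.descFactorial m : ℕ) : K) *
          C (Fin.cons b s : Fin (p + m + 1) → B) := fun b s =>
      XSpan_sum E m (fun s : Fin (p + m) → B => C (Fin.cons b s : Fin (p + m + 1) → B))
        (XSpan_alt (p := p + m) h b) s
    have h1 : ∑ e ∈ univ.filter (fun e : Fin (m + 1) → B => ∀ k, e k ∈ E),
        wdgs (m + 1) e (fun s => C (XSpan_cs (m + 1) e s)) t =
        ∑ b ∈ E, wdg b (fun s : Fin (p + m) → B =>
          ∑ e ∈ univ.filter (fun e : Fin m → B => ∀ k, e k ∈ E),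
            wdgs m e (fun s' => C (Fin.cons b (XSpan_cs m e s') : Fin (p + m + 1) → B)) s) t := by
      rw [Finset.sum_filter, ← (Fin.consEquiv (fun _ : Fin (m + 1) => B)).sum_comp,
        Fintype.sum_prod_type, ← Finset.sum_subset (Finset.subset_univ E)]
      · refine Finset.sum_congr rfl fun b hb => ?_
        rw [wdg_sum]
        simp only []
        rw [Finset.sum_filter]
        refine Finset.sum_congr rfl fun e _ => ?_
        have h2 : (∀ k, (Fin.consEquiv (fun _ : Fin (m + 1) => B)) (b, e) k ∈ E) ↔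
            ∀ k, e k ∈ E := by
          constructor
          · intro h k
            exact h k.succ
          · intro h k
            refine Fin.cases ?_ (fun k => ?_) k
            · exact hb
            · exact h k
        simp only [h2]
        rfl
      · intro b _ hb
        refine Finset.sum_eq_zero fun e _ => ?_
        rw [if_neg]
        intro h
        exact hb (h 0)
    rw [h1]
    exact XSpan_step (N := p + m) E m C h _ ih t

end sums

section core
variable {K : Type} [Field K] [CharZero K] {α : Type} [Fintype α] [DecidableEq α]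

theorem XSpan_core (d N : ℕ) (Q : Finset α) (hA : rVan K univ (vF d univ Q) N)
    (c : (Fin N → Finset α) → K) (hz : IsCy d univ N c) (hanti : AntiF Q c) :
    ∃ (gF : (Fin (N + 1) → Finset α) → K) (c' : (Fin N → Finset α) → K),
      rCh (vF d univ Q) (N + 1) gF ∧ Alt N c' ∧
      (∀ t, c' t ≠ 0 → vG d univ Q N t ∧ ¬ vF d univ Q N t) ∧ XSpan_cy univ N c' ∧
      ∀ t, c t = dd univ gF t + c' t := by
  classical
  obtain ⟨hc, hcyc⟩ := hz
  have hsupp : ∀ t, c t ≠ 0 → vG d univ Q N t := by
    intro t ht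
    by_contra hn
    exact ht (A_zero' Q c hanti t (hc.2 t ht) hn)
  have hcF : rCh (vF d univ Q) N (fun t => if vF d univ Q N t then c t else 0) := by
    refine ⟨fun σ t => ?_, fun t ht => ?_⟩
    · by_cases h : vF d univ Q N t
      · have h' := G_perm σ h
        simp only [if_pos h, if_pos h']
        exact hc.1 σ t
      · have h' : ¬ vF d univ Q N (t ∘ σ) := fun h' => h ((G_perm_iff σ t).mp h')
        simp only [if_neg h, if_neg h', mul_zero]
    · by_contra h
      exact ht (by simp only [if_neg h])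
  have hcF' : rcyc univ (vF d univ Q) N (fun t => if vF d univ Q N t then c t else 0) := by
    cases N with
    | zero => trivial
    | succ k =>
      intro t ht
      have h0 := hcyc t ht.1
      refine Eq.trans ?_ h0
      refine Finset.sum_congr rfl (fun b _ => ?_)
      by_cases h : vF d univ Q (k + 1) (Fin.cons b t)
      · simp only [if_pos h]
      · simp only [if_neg h]
        by_contra hne
        have hG := hsupp (Fin.cons b t) (fun e => hne e.symm)
        refine h ⟨hG.1, hG.2.1, fun q hq => ?_⟩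
        obtain ⟨i, hi⟩ := ht.2.2 q hq
        exact ⟨i.succ, by simpa using hi⟩
  obtain ⟨gF, hgF, hgF'⟩ := hA _ hcF hcF'
  have hgF2 : ∀ t, vF d univ Q N t → dd univ gF t = c t := by
    intro t ht
    rw [hgF' t ht]
    simp only [if_pos ht]
  refine ⟨gF, fun t => c t - dd univ gF t, hgF, hc.1.sub (Alt.dd univ hgF.1), ?_, ?_, ?_⟩
  · intro t ht
    refine ⟨?_, fun hF => ht (by simp only [hgF2 t hF, sub_self])⟩
    by_contra h
    have e1 : c t = 0 := by
      by_contra h1
      exact h (hsupp t h1)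
    have e2 : dd univ gF t = 0 := by
      by_contra h1
      obtain ⟨b, _, hb⟩ := Finset.exists_ne_zero_of_sum_ne_zero h1
      exact h (G_cons (hgF.2 _ hb))
    exact ht (by simp only [e1, e2, sub_zero])
  · intro n hn t
    subst hn
    simp only [Fin.cast_eq_self]
    have e : dd univ (fun t => c t - dd univ gF t) t = dd univ c t - dd univ (dd univ gF) t := by
      simp only [dd, Finset.sum_sub_distrib]
    have e3 : dd univ c t = 0 := by
      by_contra h1
      obtain ⟨b, _, hb⟩ := Finset.exists_ne_zero_of_sum_ne_zero h1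
      exact h1 (hcyc t (XSpan_vm_cons (hc.2 _ hb)).2.1)
    rw [e, dd_dd univ hgF.1 t, e3, sub_zero]
  · intro t
    ring

theorem XSpan_card {d N m : ℕ} {Q : Finset α} (hQ : Q.card = m + 1) {t : Fin N → Finset α}
    (h : vG d univ Q N t) (h' : ¬ vF d univ Q N t) :
    (univ.filter fun i => t i ∈ univ.filter (fun b : Finset α => (b ∩ Q).card = 1)).card = m := by
  have hex : ∃ q0 ∈ Q, ∀ i, q0 ∉ t i := by
    by_contra hne
    push Not at hne
    exact h' ⟨h.1, h.2.1, hne⟩
  obtain ⟨q0, hq0, hu0⟩ := hex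
  have h1 : (univ : Finset (Fin N)).biUnion (fun i => t i ∩ Q) = Q.erase q0 := by
    ext x
    simp only [mem_biUnion, mem_univ, true_and, mem_inter, mem_erase]
    constructor
    · rintro ⟨i, h1, h2⟩
      refine ⟨?_, h2⟩
      rintro rfl
      exact hu0 i h1
    · rintro ⟨h1, h2⟩
      by_contra hne
      push Not at hne
      exact h1 (h.2.2 x h2 q0 hq0 (fun i hi => hne i hi h2) hu0)
  have h2 : ((univ : Finset (Fin N)).biUnion (fun i => t i ∩ Q)).card = ∑ i, (t i ∩ Q).card :=
    Finset.card_biUnion (fun i _ j _ hij =>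
      (h.1.2 i j hij).mono inter_subset_left inter_subset_left)
  have h3 : ∑ i, (t i ∩ Q).card = m := by
    rw [← h2, h1, Finset.card_erase_of_mem hq0, hQ]
    rfl
  rw [Finset.card_filter, ← h3]
  refine Finset.sum_congr rfl fun i _ => ?_
  have h4 := h.2.1 i
  simp only [mem_filter, mem_univ, true_and]
  split_ifs with h5
  · exact h5.symm
  · omega

end core

theorem pr_XSpan : S_XSpan := by
  classical
  intro K _ _ α _ _ d m p s Q hd hQ hcard hvan z hz hanti
  have hA : rVan K univ (vF d univ Q) (p + m) := by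
    by_cases hp : ∃ p', p = p' + 1 ∧ (m + 1) * d ≤ Fintype.card α
    · obtain ⟨p', hp', hle⟩ := hp
      obtain ⟨s', hs'⟩ := Nat.exists_eq_add_of_le hle
      have h3 := pr_F K α d (m + 1) p' s' univ Q hd (Finset.subset_univ _) hQ
        (by rw [Finset.card_univ]; exact hs') (hvan p' s' hp' hs')
      have e : p' + (m + 1) = p + m := by omega
      rwa [e] at h3
    · intro c hc _
      refine ⟨fun _ => 0, ⟨Alt.zero, fun t ht => absurd rfl ht⟩, fun t ht => ?_⟩
      exfalso
      obtain ⟨h3, h4⟩ := G_card ht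
      rw [hQ] at h3
      rw [Finset.card_univ] at h4
      refine hp ⟨p - 1, by omega, ?_⟩
      exact (Nat.mul_le_mul_right d h3).trans h4
  obtain ⟨gF, c', hgF, hc'1, hc'2, hc'3, hc'4⟩ := XSpan_core d (p + m) Q hA z hz hanti
  set E : Finset (Finset α) := univ.filter (fun b : Finset α => (b ∩ Q).card = 1) with hE
  have hfac : ((m.factorial : ℕ) : K) ≠ 0 := Nat.cast_ne_zero.2 (Nat.factorial_ne_zero m)
  let u : (Fin m → Finset α) → (Fin p → Finset α) → K := fun e =>
    if EQ d Q m e then (fun s => ((m.factorial : ℕ) : K)⁻¹ * c' (XSpan_cs m e s)) else fun _ => 0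
  refine ⟨gF, u, ⟨hgF.1, fun t ht => (hgF.2 t ht).1⟩, fun e => ?_, fun t ht => ?_⟩
  · by_cases he : EQ d Q m e
    · left
      refine ⟨he, ?_⟩
      have hu : u e = fun s => ((m.factorial : ℕ) : K)⁻¹ * c' (XSpan_cs m e s) := if_pos he
      rw [hu]
      obtain ⟨k1, k2⟩ := XSpan_slice m e univ hc'1
      refine ⟨⟨k1.smul _, fun s hs => ?_⟩, ?_⟩
      · have hs' : c' (XSpan_cs m e s) ≠ 0 := fun h => hs (by simp only [h, mul_zero])
        obtain ⟨h1, h2⟩ := hc'2 _ hs'
        obtain ⟨h3, h4, h5⟩ := XSpan_vm m e s h1.1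
        have h6 := XSpan_card hQ h1 h2
        rw [XSpan_cnt (fun b => b ∈ univ.filter (fun b : Finset α => (b ∩ Q).card = 1)) m e s] at h6
        have h7 : (univ.filter fun k => e k ∈ univ.filter
            (fun b : Finset α => (b ∩ Q).card = 1)).card = m := by
          rw [Finset.filter_true_of_mem (fun k _ => by simpa using he.2 k), Finset.card_univ,
            Fintype.card_fin]
        have h8 : ∀ i, ¬ ((s i ∩ Q).card = 1) := by
          intro i hi
          have h9 : (univ.filter fun i => s i ∈ univ.filter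
            (fun b : Finset α => (b ∩ Q).card = 1)).card = 0 := by omega
          rw [Finset.card_eq_zero] at h9
          have h10 : i ∈ (univ.filter fun i => s i ∈ univ.filter
            (fun b : Finset α => (b ∩ Q).card = 1)) := by simpa using hi
          rw [h9] at h10
          simp at h10
        have h11 : ∀ i, (s i ∩ Q).card ≤ 1 := by
          intro i
          obtain ⟨i', hi'⟩ := (XSpan_ex (fun b => b = s i) m e s).2 (Or.inr ⟨i, rfl⟩)
          rw [← hi']
          exact h1.2.1 i'
        have h12 : ∀ i, s i ∩ Q = ∅ := fun i => by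
          rw [← Finset.card_eq_zero]
          have := h8 i
          have := h11 i
          omega
        refine ⟨fun i => ⟨(h4.1 i).1, fun x hx => ?_⟩, h4.2⟩
        simp only [RQ, mem_sdiff, mem_univ, true_and, mem_biUnion, not_exists]
        refine ⟨fun hxQ => ?_, fun k hk => ?_⟩
        · have : x ∈ s i ∩ Q := mem_inter.2 ⟨hx, hxQ⟩
          rw [h12 i] at this
          simp at this
        · exact Finset.disjoint_left.1 (h5 k i) hk hx
      · rcases p with _ | p'
        · trivial
        · intro t _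
          have k3 := k2 hc'3 p' rfl t
          simp only [Fin.cast_eq_self] at k3
          have k4 := congrFun (dd_smul (univ : Finset (Finset α)) ((m.factorial : ℕ) : K)⁻¹
            (fun s => c' (XSpan_cs m e s))) t
          rw [k4]
          show ((m.factorial : ℕ) : K)⁻¹ * dd univ (fun s => c' (XSpan_cs m e s)) t = 0
          rw [k3, mul_zero]
    · right
      exact if_neg he
  · rw [hc'4 t]
    congr 1
    have h1 : ∀ e, wdgs m e (u e) t = if (∀ k, e k ∈ E) then
        ((m.factorial : ℕ) : K)⁻¹ * wdgs m e (fun s => c' (XSpan_cs m e s)) t else 0 := by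
      intro e
      by_cases he : EQ d Q m e
      · have hu : u e = fun s => ((m.factorial : ℕ) : K)⁻¹ * c' (XSpan_cs m e s) := if_pos he
        rw [hu, wdgs_smul, if_pos (fun k => by simpa [hE] using he.2 k)]
      · have hu : u e = fun _ => 0 := if_neg he
        rw [hu, wdgs_zero]
        split_ifs with h2
        · have h3 : (fun s : Fin p → Finset α => c' (XSpan_cs m e s)) = fun _ => 0 := by
            funext s
            by_contra h4
            obtain ⟨h5, h6⟩ := hc'2 _ h4
            exact he ⟨(XSpan_vm m e s h5.1).1, fun k => by simpa [hE] using h2 k⟩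
          rw [h3, wdgs_zero, mul_zero]
        · rfl
    rw [Finset.sum_congr rfl (fun e _ => h1 e), ← Finset.sum_filter, ← Finset.mul_sum,
      XSpan_sum E m c' hc'1 t]
    by_cases h0 : c' t = 0
    · rw [h0, mul_zero, mul_zero]
    · obtain ⟨h2, h3⟩ := hc'2 t h0
      rw [XSpan_card hQ h2 h3, Nat.descFactorial_self, ← mul_assoc, inv_mul_cancel₀ hfac, one_mul]

end Pool.Agent.Work.MP_1233f5_ag.V

end

section

/-! MP_1233f5_ag, block X, item XSym: symmetry of `E0` in the blocks. -/

set_option autoImplicit false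

namespace Pool.Agent.Work.MP_1233f5_ag.V

open Finset

namespace XSym

variable {K : Type} [Field K] {B : Type} [DecidableEq B]

/-- exterior multiplications anticommute -/
theorem wdg_wdg {p : ℕ} (b b' : B) (c : (Fin p → B) → K) (t : Fin (p + 2) → B) :
    wdg b (wdg b' c) t = - wdg b' (wdg b c) t := by
  have e1 : ∀ (x y : B), wdg x (wdg y c) t = ∑ z : Fin (p + 2) × Fin (p + 1),
      if t z.1 = x ∧ t (z.1.succAbove z.2) = y then
        (-1) ^ ((z.1 : ℕ) + (z.2 : ℕ)) * c (z.2.removeNth (z.1.removeNth t)) else 0 := by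
    intro x y
    rw [Fintype.sum_prod_type]
    simp only [wdg]
    refine Finset.sum_congr rfl (fun i _ => ?_)
    by_cases h : t i = x
    · rw [if_pos h, Finset.mul_sum]
      refine Finset.sum_congr rfl (fun j _ => ?_)
      by_cases h' : t (i.succAbove j) = y
      · have h2 : i.removeNth t j = y := h'
        rw [if_pos h2, if_pos ⟨h, h'⟩, pow_add]
        ring
      · have h2 : ¬ i.removeNth t j = y := h'
        rw [if_neg h2, if_neg (fun h3 => h' h3.2), mul_zero]
    · rw [if_neg h]
      refine (Finset.sum_eq_zero (fun j _ => ?_)).symm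
      rw [if_neg (fun h3 => h h3.1)]
  rw [e1, e1, ← Finset.sum_neg_distrib]
  refine Finset.sum_bij' (fun z _ => (z.1.succAbove z.2, z.2.predAbove z.1))
    (fun z _ => (z.1.succAbove z.2, z.2.predAbove z.1)) (fun _ _ => mem_univ _)
    (fun _ _ => mem_univ _) ?_ ?_ ?_
  · intro z _
    ext1
    · exact Fin.succAbove_succAbove_predAbove z.1 z.2
    · exact Fin.predAbove_predAbove_succAbove z.1 z.2
  · intro z _
    ext1
    · exact Fin.succAbove_succAbove_predAbove z.1 z.2
    · exact Fin.predAbove_predAbove_succAbove z.1 z.2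
  · intro z _
    simp only
    rw [Fin.succAbove_succAbove_predAbove, ← Fin.removeNth_removeNth_eq_swap,
      Fin.neg_one_pow_succAbove_add_predAbove]
    by_cases h : t z.1 = b ∧ t (z.1.succAbove z.2) = b'
    · rw [if_pos h, if_pos ⟨h.2, h.1⟩]
      ring
    · rw [if_neg h, if_neg (fun h3 => h ⟨h3.2, h3.1⟩)]
      ring

/-- adjacent transposition -/
theorem wdgs_swap {p : ℕ} (c : (Fin p → B) → K) : ∀ (m : ℕ) (i : Fin m) (e : Fin (m + 1) → B),
    wdgs (m + 1) (e ∘ Equiv.swap i.castSucc i.succ) c = fun t => (-1 : K) * wdgs (m + 1) e c t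
  | 0, i, _ => i.elim0
  | m + 1, i, e => by
    refine Fin.cases ?_ (fun k => ?_) i
    · funext t
      have h0 : (e ∘ Equiv.swap (0 : Fin (m + 1)).castSucc (0 : Fin (m + 1)).succ) 0 = e 1 := by
        simp [Function.comp_apply]
      have h1 : Fin.tail (e ∘ Equiv.swap (0 : Fin (m + 1)).castSucc (0 : Fin (m + 1)).succ) 0
          = e 0 := by
        simp [Fin.tail, Function.comp_apply]
      have h2 : Fin.tail (Fin.tail
          (e ∘ Equiv.swap (0 : Fin (m + 1)).castSucc (0 : Fin (m + 1)).succ)) =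
          Fin.tail (Fin.tail e) := by
        funext j
        simp only [Fin.tail, Function.comp_apply]
        refine congrArg e ?_
        exact Equiv.swap_apply_of_ne_of_ne (Fin.succ_ne_zero _)
          (fun h => Fin.succ_ne_zero _ (Fin.succ_injective _ h))
      have h3 : wdgs (m + 1 + 1) (e ∘ Equiv.swap (0 : Fin (m + 1)).castSucc
          (0 : Fin (m + 1)).succ) c t =
          wdg (e 1) (wdg (e 0) (wdgs m (Fin.tail (Fin.tail e)) c)) t := by
        have h4 : wdgs (m + 1 + 1) (e ∘ Equiv.swap (0 : Fin (m + 1)).castSucc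
          (0 : Fin (m + 1)).succ) c t =
          wdg ((e ∘ Equiv.swap (0 : Fin (m + 1)).castSucc (0 : Fin (m + 1)).succ) 0)
            (wdg (Fin.tail (e ∘ Equiv.swap (0 : Fin (m + 1)).castSucc
              (0 : Fin (m + 1)).succ) 0)
            (wdgs m (Fin.tail (Fin.tail (e ∘ Equiv.swap (0 : Fin (m + 1)).castSucc
              (0 : Fin (m + 1)).succ))) c)) t := rfl
        rw [h4, h0, h1, h2]
      have h5 : wdgs (m + 1 + 1) e c t =
          wdg (e 0) (wdg (e 1) (wdgs m (Fin.tail (Fin.tail e)) c)) t := rfl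
      rw [h3, h5]
      have h6 := wdg_wdg (p := p + m) (e 1) (e 0) (wdgs m (Fin.tail (Fin.tail e)) c) t
      rw [neg_one_mul]
      exact h6
    · have h0 : (e ∘ Equiv.swap (k.succ).castSucc (k.succ).succ) 0 = e 0 := by
        simp only [Function.comp_apply]
        refine congrArg e ?_
        exact Equiv.swap_apply_of_ne_of_ne
          (fun h => absurd (congrArg Fin.val h) (by simp))
          (Fin.succ_ne_zero _).symm
      have h1 : Fin.tail (e ∘ Equiv.swap (k.succ).castSucc (k.succ).succ) =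
          Fin.tail e ∘ Equiv.swap k.castSucc k.succ := by
        funext j
        simp only [Fin.tail, Function.comp_apply]
        congr 1
        rw [Fin.castSucc_succ]
        by_cases h2 : j = k.castSucc
        · subst h2
          simp
        · by_cases h3 : j = k.succ
          · subst h3
            simp
          · rw [Equiv.swap_apply_of_ne_of_ne h2 h3, Equiv.swap_apply_of_ne_of_ne]
            · intro h; exact h2 (Fin.succ_injective _ h)
            · intro h; exact h3 (Fin.succ_injective _ h)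
      have h3 : wdgs (m + 1 + 1) (e ∘ Equiv.swap (k.succ).castSucc (k.succ).succ) c =
          wdg ((e ∘ Equiv.swap (k.succ).castSucc (k.succ).succ) 0)
            (wdgs (m + 1) (Fin.tail (e ∘ Equiv.swap (k.succ).castSucc (k.succ).succ)) c) := rfl
      rw [h3, h0, h1, wdgs_swap c m k (Fin.tail e)]
      exact wdg_smul (p := p + (m + 1)) (e 0) (-1 : K) (wdgs (m + 1) (Fin.tail e) c)

theorem wdgs_perm {p : ℕ} (c : (Fin p → B) → K) (m : ℕ) (π : Equiv.Perm (Fin m)) :
    ∀ e : Fin m → B,
    wdgs m (e ∘ π) c = fun t => ((Equiv.Perm.sign π : ℤ) : K) * wdgs m e c t := by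
  cases m with
  | zero =>
    intro e
    have h : π = 1 := Subsingleton.elim _ _
    subst h
    funext t
    simp
  | succ m =>
    have hπ : π ∈ Submonoid.closure (Set.range fun i : Fin m ↦
        Equiv.swap i.castSucc i.succ) := by
      rw [Equiv.Perm.mclosure_swap_castSucc_succ]
      exact Submonoid.mem_top _
    induction hπ using Submonoid.closure_induction with
    | mem x hx =>
      intro e
      obtain ⟨i, rfl⟩ := hx
      simp only
      rw [wdgs_swap c m i e, Equiv.Perm.sign_swap (Fin.castSucc_lt_succ).ne]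
      simp
    | one =>
      intro e
      funext t
      simp
    | mul x y _ _ hx hy =>
      intro e
      have h1 : e ∘ (x * y : Equiv.Perm (Fin (m + 1))) = (e ∘ x) ∘ y := rfl
      rw [h1, hy (e ∘ x), hx e]
      funext t
      simp only [Equiv.Perm.sign_mul, Units.val_mul, Int.cast_mul]
      ring

theorem wdg_act {p : ℕ} (φ : B → B) (hφ : Function.Injective φ) (b : B)
    (c : (Fin p → B) → K) (t : Fin (p + 1) → B) :
    wdg (φ b) c (φ ∘ t) = wdg b (fun s => c (φ ∘ s)) t := by
  simp only [wdg]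
  refine Finset.sum_congr rfl (fun i _ => ?_)
  by_cases h : t i = b
  · rw [if_pos h, if_pos (by rw [← h]; rfl)]
    rfl
  · rw [if_neg h]
    exact if_neg (fun h2 => h (hφ h2))

theorem wdgs_act {p : ℕ} (φ : B → B) (hφ : Function.Injective φ) (c : (Fin p → B) → K) :
    ∀ (m : ℕ) (e : Fin m → B) (t : Fin (p + m) → B),
    wdgs m (φ ∘ e) c (φ ∘ t) = wdgs m e (fun s => c (φ ∘ s)) t
  | 0, _, _ => rfl
  | m + 1, e, t => by
    have h1 := wdg_act (p := p + m) φ hφ (e 0) (wdgs m (Fin.tail (φ ∘ e)) c) t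
    have h2 : wdgs (m + 1) (φ ∘ e) c (φ ∘ t) =
      wdg (φ (e 0)) (wdgs m (Fin.tail (φ ∘ e)) c) (φ ∘ t) := rfl
    have h3 : wdgs (m + 1) e (fun s => c (φ ∘ s)) t =
      wdg (e 0) (wdgs m (Fin.tail e) (fun s => c (φ ∘ s))) t := rfl
    rw [h2, h3]
    refine h1.trans ?_
    congr 1
    funext s
    exact wdgs_act φ hφ c m (Fin.tail e) s

theorem AQ_act {α : Type} [Fintype α] [DecidableEq α] (Q : Finset α) {p : ℕ}
    (c : (Fin p → Finset α) → K) (τ : Equiv.Perm α) (hτ : ∀ a, a ∉ Q → τ a = a)
    (t : Fin p → Finset α) :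
    AQ Q (fun s => c (fun i => (s i).map τ.toEmbedding)) t =
      ((Equiv.Perm.sign τ : ℤ) : K) * AQ Q c t := by
  simp only [AQ]
  rw [Finset.mul_sum]
  refine Finset.sum_bij' (fun σ _ => τ * σ) (fun σ _ => τ⁻¹ * σ) ?_ ?_ ?_ ?_ ?_
  · intro σ hσ
    rw [mem_filter] at hσ ⊢
    refine ⟨mem_univ _, fun a ha => ?_⟩
    rw [Equiv.Perm.mul_apply, hσ.2 a ha, hτ a ha]
  · intro σ hσ
    rw [mem_filter] at hσ ⊢
    refine ⟨mem_univ _, fun a ha => ?_⟩
    rw [Equiv.Perm.mul_apply, hσ.2 a ha, Equiv.Perm.inv_eq_iff_eq, hτ a ha]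
  · intro σ _
    simp
  · intro σ _
    simp
  · intro σ _
    have h1 : (fun i => ((t i).map σ.toEmbedding).map τ.toEmbedding) =
        fun i => (t i).map (τ * σ : Equiv.Perm α).toEmbedding := by
      funext i
      rw [Finset.map_map]
      rfl
    rw [h1]
    have h2 : ((Equiv.Perm.sign τ : ℤ) : K) * ((Equiv.Perm.sign τ : ℤ) : K) = 1 := by
      rw [← Int.cast_mul, ← Units.val_mul, Int.units_mul_self]; simp
    simp only [Equiv.Perm.sign_mul, Units.val_mul, Int.cast_mul]
    linear_combination (- (((Equiv.Perm.sign σ : ℤ) : K) *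
      c (fun i => (t i).map (τ * σ : Equiv.Perm α).toEmbedding))) * h2

theorem map_eq_self {α : Type} (τ : Equiv.Perm α) (s : Finset α)
    (h : ∀ a ∈ s, τ a = a) : s.map τ.toEmbedding = s := by
  ext a
  rw [Finset.mem_map]
  constructor
  · rintro ⟨x, hx, rfl⟩
    have : τ.toEmbedding x = x := h x hx
    rw [this]
    exact hx
  · intro ha
    exact ⟨a, ha, h a ha⟩

end XSym

open XSym in
theorem pr_XSym : S_XSym := by
  intro K _ _ α _ _ d m p Q q hq hQ f hf u hu π t
  classical
  set emb : Fin m ↪ α := ⟨fun k => q k.castSucc,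
    fun a b hab => Fin.castSucc_injective _ (hq hab)⟩ with hemb
  set τ : Equiv.Perm α := (π⁻¹ : Equiv.Perm (Fin m)).viaFintypeEmbedding emb with hτ
  have hτq : ∀ k : Fin m, τ (q (π k).castSucc) = q k.castSucc := by
    intro k
    have := Equiv.Perm.viaFintypeEmbedding_apply_image (π⁻¹ : Equiv.Perm (Fin m)) emb (π k)
    rw [Equiv.Perm.inv_def, Equiv.symm_apply_apply] at this
    exact this
  have hτQ : ∀ a, a ∉ Q → τ a = a := by
    intro a ha
    refine Equiv.Perm.viaFintypeEmbedding_apply_notMem_range _ _ ?_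
    rintro ⟨k, hk⟩
    exact ha ((hQ a).2 ⟨k.castSucc, hk⟩)
  have hsgn : Equiv.Perm.sign τ = Equiv.Perm.sign π := by
    rw [hτ, Equiv.Perm.viaFintypeEmbedding_sign, Equiv.Perm.sign_inv]
  -- the tuples of edges
  set e : Fin m → Finset α := fun k => insert (q k.castSucc) (f k) with he
  set φ : Finset α → Finset α := fun s => s.map τ.toEmbedding with hφ
  have hφi : Function.Injective φ := Finset.map_injective _
  have he' : (fun k : Fin m => insert (q k.castSucc) ((f ∘ π) k)) = φ ∘ (e ∘ π) := by
    funext k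
    simp only [Function.comp_apply, hφ, he]
    rw [Finset.map_insert]
    have h1 : (f (π k)).map τ.toEmbedding = f (π k) := by
      refine map_eq_self τ _ (fun a ha => hτQ a ?_)
      have := hf (π k) ha
      rw [mem_sdiff] at this
      exact this.2
    rw [h1]
    have h2 : τ.toEmbedding (q (π k).castSucc) = q k.castSucc := hτq k
    rw [h2]
  -- invariance of `u`
  have hu' : (fun s : Fin p → Finset α => u (φ ∘ s)) = u := by
    funext s
    by_cases h : vm d (univ \ Q) p s
    · congr 1
      funext i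
      refine map_eq_self τ _ (fun a ha => hτQ a ?_)
      have := (h.1 i).2 ha
      rw [mem_sdiff] at this
      exact this.2
    · by_cases h' : vm d (univ \ Q) p (φ ∘ s)
      · congr 1
        funext i
        -- s i is fixed as well
        refine map_eq_self τ _ (fun a ha => ?_)
        have h1 : τ a ∈ (φ ∘ s) i := by
          simp only [Function.comp_apply, hφ]
          exact Finset.mem_map_of_mem _ ha
        have h2 := (h'.1 i).2 h1
        rw [mem_sdiff] at h2
        exact τ.injective (hτQ _ h2.2)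
      · have h1 : u s = 0 := by
          by_contra h2
          exact h (hu.2 s h2)
        have h2 : u (φ ∘ s) = 0 := by
          by_contra h2
          exact h' (hu.2 _ h2)
        rw [h1, h2]
  have hsq : ((Equiv.Perm.sign π : ℤ) : K) * ((Equiv.Perm.sign π : ℤ) : K) = 1 := by
    rw [← Int.cast_mul, ← Units.val_mul, Int.units_mul_self]; simp
  have key := AQ_act (K := K) Q (wdgs m (φ ∘ (e ∘ π)) u) τ hτQ t
  have h3 : (fun s : Fin (p + m) → Finset α => wdgs m (φ ∘ (e ∘ π)) u
      (fun i => (s i).map τ.toEmbedding)) =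
      fun s => ((Equiv.Perm.sign π : ℤ) : K) * wdgs m e u s := by
    funext s
    have h4 := wdgs_act (K := K) φ hφi u m (e ∘ π) s
    rw [hu', wdgs_perm u m π e] at h4
    exact h4
  rw [h3, hsgn] at key
  have h5 : AQ Q (fun s => ((Equiv.Perm.sign π : ℤ) : K) * wdgs m e u s) t =
      ((Equiv.Perm.sign π : ℤ) : K) * AQ Q (wdgs m e u) t := by
    simp only [AQ]
    rw [Finset.mul_sum]
    refine Finset.sum_congr rfl (fun σ _ => ?_)
    ring
  rw [h5] at key
  have h6 : E0 Q q (f ∘ π) u t = AQ Q (wdgs m (φ ∘ (e ∘ π)) u) t := by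
    simp only [E0]
    rw [he']
  have h7 : E0 Q q f u t = AQ Q (wdgs m e u) t := rfl
  rw [h6, h7]
  linear_combination (- AQ Q (wdgs m (φ ∘ (e ∘ π)) u) t + AQ Q (wdgs m e u) t) * hsq -
    ((Equiv.Perm.sign π : ℤ) : K) * key

end Pool.Agent.Work.MP_1233f5_ag.V

end

section

/-! MP_1233f5_ag, block X, item XT2: the class of `a_{X,Y∖f}` does not depend on `f`. -/

set_option autoImplicit false

namespace Pool.Agent.Work.MP_1233f5_ag.V

open Finset

namespace XT2

open Step

section gen
variable {K : Type} [Field K] {α : Type} [Fintype α] [DecidableEq α]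

/-- boundaries as a submodule -/
def bdB (K : Type) [Field K] (α : Type) [Fintype α] [DecidableEq α] (d p : ℕ) :
    Submodule K ((Fin p → Finset α) → K) where
  carrier := {c | IsBd d univ p c}
  zero_mem' := ⟨rCh_zero _ _, fun _ => 0, rCh_zero _ _, fun t _ => by simp [dd]⟩
  add_mem' := by
    rintro c c' ⟨h1, g, h2, h3⟩ ⟨h1', g', h2', h3'⟩
    refine ⟨rCh_add h1 h1', _, rCh_add h2 h2', fun t ht => ?_⟩
    rw [dd_add, h3 t ht, h3' t ht]; rfl
  smul_mem' := by
    rintro a c ⟨h1, g, h2, h3⟩
    refine ⟨rCh_smul a h1, _, rCh_smul a h2, fun t ht => ?_⟩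
    rw [Step.dd_smul, h3 t ht]; rfl

theorem bdB_rho {d p : ℕ} (σ : Equiv.Perm α) {c : (Fin p → Finset α) → K}
    (h : c ∈ bdB K α d p) : rho K α p σ c ∈ bdB K α d p := by
  obtain ⟨h1, g, h2, h3⟩ := h
  refine ⟨rCh_rho d p σ h1, rho K α (p + 1) σ g, rCh_rho d _ σ h2, fun t ht => ?_⟩
  rw [dd_rho, h3 _ (vm_map' d p _ ht)]
  rfl

theorem subZ_rho {d p : ℕ} (σ : Equiv.Perm α) {c : (Fin p → Finset α) → K}
    (h : c ∈ subZ univ (vm d univ) p) : rho K α p σ c ∈ subZ univ (vm d univ) p := by
  obtain ⟨hz1, hz2⟩ := h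
  refine ⟨rCh_rho d p σ hz1, ?_⟩
  rcases p with _ | p
  · trivial
  · intro t ht
    rw [dd_rho]
    exact hz2 _ (vm_map' d p _ ht)

theorem cy_univ {d p : ℕ} {P : Finset α} {c : (Fin p → Finset α) → K} (h : IsCy d P p c) :
    c ∈ subZ (K := K) univ (vm d univ) p := by
  obtain ⟨⟨h2, h3⟩, h4⟩ := h
  refine ⟨⟨h2, fun t ht => ?_⟩, ?_⟩
  · have h5 := h3 t ht
    exact ⟨fun i => ⟨(h5.1 i).1, subset_univ _⟩, h5.2⟩
  · rcases p with _ | p
    · trivial
    · intro t ht
      by_cases hv : vm d P p t
      · exact h4 t hv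
      · refine Finset.sum_eq_zero (fun b _ => ?_)
        by_contra hne
        have h5 := h3 _ hne
        apply hv
        refine ⟨fun i => ?_, fun i j hij => ?_⟩
        · have := h5.1 i.succ
          simpa using this
        · have := h5.2 i.succ j.succ (by simpa using hij)
          simpa using this

omit [Fintype α] [DecidableEq α] in
theorem invS_of_rho {X : Finset α} {p : ℕ} {c : (Fin p → Finset α) → K}
    (h : ∀ σ : Equiv.Perm α, (∀ a, a ∉ X → σ a = a) → rho K α p σ c = c) : InvS X c := by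
  intro σ hσ t
  have h3 := h σ⁻¹ (by
    intro a ha
    rw [Equiv.Perm.inv_eq_iff_eq]
    exact (hσ a ha).symm)
  have h4 := congrFun h3 t
  rw [rho_apply, inv_inv] at h4
  exact h4

omit [Fintype α] [DecidableEq α] in
theorem rho_of_invS {X : Finset α} {p : ℕ} {c : (Fin p → Finset α) → K} (h : InvS X c)
    (σ : Equiv.Perm α) (hσ : ∀ a, a ∉ X → σ a = a) : rho K α p σ c = c := by
  funext t
  rw [rho_apply]
  refine h σ⁻¹ ?_ t
  intro a ha
  rw [Equiv.Perm.inv_eq_iff_eq]
  exact (hσ a ha).symm

end gen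

section rep
variable {K : Type} [Field K] {α : Type} [Fintype α] [DecidableEq α] {V : Type}
  [AddCommGroup V] [Module K V] (ρ : Equiv.Perm α →* Module.End K V)

omit [Fintype α] in
theorem gar {X : Finset α} {q : α} (hq : q ∉ X) {z : V}
    (hz : ∀ σ : Equiv.Perm α, (∀ a, a ∉ X → σ a = a) → ρ σ z = z) (τ : Equiv.Perm α)
    (hτ : ∀ a, a ∉ insert q X → τ a = a) :
    ρ τ (z + ∑ a ∈ X, ρ (Equiv.swap a q) z) = z + ∑ a ∈ X, ρ (Equiv.swap a q) z := by
  have hsum : z + ∑ a ∈ X, ρ (Equiv.swap a q) z = ∑ b ∈ insert q X, ρ (Equiv.swap b q) z := by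
    have h2 : ρ (Equiv.swap q q) z = z := by
      rw [Equiv.swap_self, ← Equiv.Perm.one_def, map_one, Module.End.one_apply]
    rw [sum_insert hq, h2]
  rw [hsum, map_sum]
  have hτm : ∀ b, b ∈ insert q X → τ b ∈ insert q X := by
    intro b hb
    by_contra hc
    have h1 := hτ _ hc
    have h2 := τ.injective h1
    rw [h2] at hc
    exact hc hb
  have hsw : ∀ b, b ∈ insert q X → ∀ a, a ∉ insert q X → Equiv.swap b q a = a := by
    intro b hb a ha
    refine Equiv.swap_apply_of_ne_of_ne ?_ ?_
    · rintro rfl; exact ha hb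
    · rintro rfl; exact ha (mem_insert_self _ _)
  have key : ∀ b, b ∈ insert q X →
      ρ τ (ρ (Equiv.swap b q) z) = ρ (Equiv.swap (τ b) q) z := by
    intro b hb
    have h : ρ (Equiv.swap (τ b) q * τ * Equiv.swap b q) z = z := by
      apply hz
      have hfix : (Equiv.swap (τ b) q * τ * Equiv.swap b q) q = q := by
        simp [Equiv.Perm.mul_apply]
      intro a ha
      by_cases haq : a = q
      · rw [haq, hfix]
      · have ha' : a ∉ insert q X := by
          rw [mem_insert]; push Not; exact ⟨haq, ha⟩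
        rw [Equiv.Perm.mul_apply, Equiv.Perm.mul_apply, hsw b hb a ha', hτ a ha',
          hsw _ (hτm b hb) a ha']
    have h5 : ρ (Equiv.swap (τ b) q) (ρ (Equiv.swap (τ b) q * τ * Equiv.swap b q) z) =
        ρ τ (ρ (Equiv.swap b q) z) := by
      rw [← Module.End.mul_apply, ← map_mul, ← Module.End.mul_apply, ← map_mul]
      congr 2
      rw [← mul_assoc, ← mul_assoc, Equiv.swap_mul_self, one_mul]
    rw [← h5, h]
  refine Finset.sum_bij (fun b _ => τ b) (fun b hb => hτm b hb)
    (fun a _ b _ h => τ.injective h) ?_ (fun b hb => key b hb)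
  intro b hb
  refine ⟨τ.symm b, ?_, by simp⟩
  by_contra hc
  have h1 := hτ _ hc
  rw [Equiv.apply_symm_apply] at h1
  rw [← h1] at hc
  exact hc hb

theorem anti {n : ℕ} (q : Fin n → α) (z : V) (τ : Equiv.Perm α)
    (hτ : ∀ a, (∀ i, q i ≠ a) → τ a = a) :
    ρ τ (∑ σ ∈ univ.filter (fun σ : Equiv.Perm α => ∀ a, (∀ i, q i ≠ a) → σ a = a),
      ((Equiv.Perm.sign σ : ℤ) : K) • ρ σ z) =
    ((Equiv.Perm.sign τ : ℤ) : K) •
      ∑ σ ∈ univ.filter (fun σ : Equiv.Perm α => ∀ a, (∀ i, q i ≠ a) → σ a = a),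
      ((Equiv.Perm.sign σ : ℤ) : K) • ρ σ z := by
  rw [map_sum, Finset.smul_sum]
  refine Finset.sum_bij (fun σ _ => τ * σ) ?_ (fun a _ b _ h => mul_left_cancel h) ?_ ?_
  · intro σ hσ
    simp only [mem_filter, mem_univ, true_and] at hσ ⊢
    intro a ha
    rw [Equiv.Perm.mul_apply, hσ a ha, hτ a ha]
  · intro σ hσ
    simp only [mem_filter, mem_univ, true_and] at hσ
    refine ⟨τ⁻¹ * σ, ?_, by simp⟩
    simp only [mem_filter, mem_univ, true_and]
    intro a ha
    rw [Equiv.Perm.mul_apply, hσ a ha, Equiv.Perm.inv_eq_iff_eq]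
    exact (hτ a ha).symm
  · intro σ _
    rw [map_smul, smul_smul, ← Module.End.mul_apply, ← map_mul]
    congr 1
    rw [Equiv.Perm.sign_mul]
    rcases Int.units_eq_one_or (Equiv.Perm.sign τ) with h | h <;>
      rw [h] <;> simp

end rep

section nat
variable {K : Type} [Field K] {α : Type} [DecidableEq α]

theorem vm_map_iff {d p : ℕ} (σ : Equiv.Perm α) (P : Finset α) (t : Fin p → Finset α) :
    vm d (P.map σ.toEmbedding) p (fun i => (t i).map σ.toEmbedding) ↔ vm d P p t := by
  unfold vm
  simp only [card_map, map_subset_map, disjoint_map]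

theorem aXY_map (r : ℕ) (σ : Equiv.Perm α) (X Y : Finset α) (t : Fin r → Finset α) :
    aXY (K := K) r (X.map σ.toEmbedding) (Y.map σ.toEmbedding)
      (fun i => (t i).map σ.toEmbedding) = aXY r X Y t := by
  have hv : vm (r + 1) (X.map σ.toEmbedding ∪ Y.map σ.toEmbedding) r
      (fun i => (t i).map σ.toEmbedding) ↔ vm (r + 1) (X ∪ Y) r t := by
    rw [← map_union]
    exact vm_map_iff σ _ t
  unfold aXY
  by_cases h : vm (r + 1) (X ∪ Y) r t
  · rw [if_pos h, if_pos (hv.2 h)]
    simp only [← map_inter, card_map]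
  · rw [if_neg h, if_neg (fun h' => h (hv.1 h'))]

theorem rho_aXY (r : ℕ) (σ : Equiv.Perm α) (X Y : Finset α) :
    rho K α r σ (aXY r X Y) = aXY r (X.map σ.toEmbedding) (Y.map σ.toEmbedding) := by
  funext t
  rw [rho_apply, ← aXY_map r σ X Y]
  congr 1
  funext i
  rw [Finset.map_map]
  have : (σ⁻¹ : Equiv.Perm α).toEmbedding.trans σ.toEmbedding = Function.Embedding.refl α := by
    ext x; simp
  rw [this, Finset.map_refl]

omit [DecidableEq α] in
theorem map_fix {σ : Equiv.Perm α} {X : Finset α} (h : ∀ a ∈ X, σ a = a) :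
    X.map σ.toEmbedding = X := by
  refine Finset.eq_of_subset_of_card_le ?_ (by rw [card_map])
  intro b hb
  rw [mem_map] at hb
  obtain ⟨a, ha, rfl⟩ := hb
  have : σ.toEmbedding a = a := h a ha
  rw [this]
  exact ha

theorem map_sdiff_swap {Y f : Finset α} {y y' : α} (hy : y ∈ Y) (hy' : y' ∈ Y) (hyf : y ∈ f)
    (hyf' : y' ∉ f) : (Y \ f).map (Equiv.swap y y').toEmbedding =
      Y \ insert y' (f.erase y) := by
  have hyy : y ≠ y' := by rintro rfl; exact hyf' hyf
  ext b
  rw [mem_map_equiv, Equiv.symm_swap]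
  rcases eq_or_ne b y with rfl | hby
  · rw [Equiv.swap_apply_left]
    simp [hy, hy', hyf', hyy]
  · rcases eq_or_ne b y' with rfl | hby'
    · rw [Equiv.swap_apply_right]
      simp [hyf]
    · rw [Equiv.swap_apply_of_ne_of_ne hby hby']
      simp [hby, hby']

theorem indu {V : Type} [AddCommGroup V] [Module K V] {r : ℕ} {Y : Finset α}
    {F : Finset α → V} (B : Submodule K V)
    (hst : ∀ f, f ⊆ Y → f.card = r → ∀ y ∈ f, ∀ y' ∈ Y \ f,
      F f - F (insert y' (f.erase y)) ∈ B) :
    ∀ (n : ℕ) (f f' : Finset α), (f \ f').card = n → f ⊆ Y → f' ⊆ Y → f.card = r →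
      f'.card = r → F f - F f' ∈ B := by
  intro n
  induction n using Nat.strong_induction_on with
  | _ n ih =>
    intro f f' hn hf hf' hfc hfc'
    by_cases hff : f = f'
    · subst hff
      rw [sub_self]
      exact Submodule.zero_mem _
    · have h1 : (f \ f').Nonempty := by
        rw [Finset.sdiff_nonempty]
        intro h
        exact hff (Finset.eq_of_subset_of_card_le h (by omega))
      have h2 : (f' \ f).Nonempty := by
        rw [Finset.sdiff_nonempty]
        intro h
        exact hff (Finset.eq_of_subset_of_card_le h (by omega)).symm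
      obtain ⟨y, hy⟩ := h1
      obtain ⟨y', hy'⟩ := h2
      rw [mem_sdiff] at hy hy'
      have hyy : y ≠ y' := by rintro rfl; exact hy.2 hy'.1
      have h3 := hst f hf hfc y hy.1 y' (mem_sdiff.mpr ⟨hf' hy'.1, hy'.2⟩)
      have h5 : (insert y' (f.erase y) \ f').card < n := by
        rw [← hn]
        refine Finset.card_lt_card ⟨?_, ?_⟩
        · intro b hb
          simp only [mem_sdiff, mem_insert, mem_erase] at hb ⊢
          rcases hb with ⟨h | h, h'⟩
          · subst h; exact absurd hy'.1 h'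
          · exact ⟨h.2, h'⟩
        · intro h
          have := h (mem_sdiff.mpr hy)
          simp only [mem_sdiff, mem_insert, mem_erase] at this
          rcases this with ⟨h | h, _⟩
          · exact hyy h
          · exact h.1 rfl
      have h6 : insert y' (f.erase y) ⊆ Y := by
        intro b hb
        simp only [mem_insert, mem_erase] at hb
        rcases hb with h | h
        · subst h; exact hf' hy'.1
        · exact hf h.2
      have h7 : (insert y' (f.erase y)).card = r := by
        have h0 : 0 < f.card := Finset.card_pos.mpr ⟨y, hy.1⟩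
        rw [card_insert_of_notMem, card_erase_of_mem hy.1, hfc]
        · omega
        · intro h
          exact hy'.2 (mem_of_mem_erase h)
      have h8 := ih _ h5 _ f' rfl h6 hf' h7 hfc'
      have h9 := Submodule.add_mem _ h3 h8
      rw [sub_add_sub_cancel] at h9
      exact h9

end nat

end XT2

open XT2 Step in
theorem pr_XT2 (hXIII : S_XIII) (hXAnti3 : S_XAnti3) (hXA1 : S_XA1) (hRD : S_RepDesc) :
    S_XT2 := by
  intro K _ _ β _ _ r hr hcard X f f' hX hf hf' hfc hfc'
  set Y := univ \ X with hY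
  have hYX : Disjoint X Y := disjoint_sdiff
  have hYc : 2 * Y.card = r * (r + 3) := by
    have h1 : Y.card = Fintype.card β - X.card := by
      rw [hY, ← Finset.compl_eq_univ_sdiff, Finset.card_compl]
    omega
  have hrr : r * (r + 3) = r * r + 3 * r := by ring
  have hrr1 : r * (r + 1) = r * r + r := by ring
  -- the cycle
  have hcyc : ∀ f : Finset β, f ⊆ Y → f.card = r →
      aXY (K := K) r X (Y \ f) ∈ subZ (K := K) univ (vm (r + 1) univ) r := by
    intro f hf hfc
    have hc : (Y \ f).card = Y.card - f.card := card_sdiff_of_subset hf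
    have h1 := hXA1 K β r X (Y \ f) hr (hYX.mono_right sdiff_subset) hX (by
      rw [hc, hfc]; omega)
    exact cy_univ h1
  have hinv : ∀ f : Finset β, f ⊆ Y → ∀ σ : Equiv.Perm β, (∀ a, a ∉ X → σ a = a) →
      rho K β r σ (aXY r X (Y \ f)) = aXY r X (Y \ f) := by
    intro f hf σ hσ
    rw [rho_aXY]
    have h1 : (Y \ f).map σ.toEmbedding = Y \ f := map_fix (fun a ha => hσ a (fun h => by
      have : a ∈ Y := (mem_sdiff.mp ha).1
      exact Finset.disjoint_left.mp hYX h this))
    have h2 : X.map σ.toEmbedding = X := by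
      refine Finset.eq_of_subset_of_card_le ?_ (by rw [card_map])
      intro b hb
      rw [mem_map] at hb
      obtain ⟨a, ha, rfl⟩ := hb
      by_contra hc
      have h3 : σ (σ a) = σ a := hσ _ hc
      have h4 := σ.injective h3
      apply hc
      have : σ.toEmbedding a = σ a := rfl
      rw [this, h4]
      exact ha
    rw [h1, h2]
  have hXne : X.Nonempty := by
    rw [← Finset.card_pos]
    have : 0 < r * r := by positivity
    omega
  obtain ⟨x0, hx0⟩ := hXne
  -- the swap step
  have hswap : ∀ f : Finset β, f ⊆ Y → f.card = r → ∀ y ∈ Y, ∀ y' ∈ Y, y ≠ y' →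
      aXY (K := K) r X (Y \ f) - rho K β r (Equiv.swap y y') (aXY r X (Y \ f)) ∈
        bdB K β (r + 1) r := by
    intro f hf hfc y hy y' hy' hyy
    set a := aXY (K := K) r X (Y \ f) with ha
    set z := a - rho K β r (Equiv.swap y y') a with hz
    have hyX : y ∉ X := fun h => Finset.disjoint_left.mp hYX h hy
    have hyX' : y' ∉ X := fun h => Finset.disjoint_left.mp hYX h hy'
    have hzc : z ∈ subZ (K := K) univ (vm (r + 1) univ) r :=
      Submodule.sub_mem _ (hcyc f hf hfc) (subZ_rho _ (hcyc f hf hfc))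
    have hzi : ∀ σ : Equiv.Perm β, (∀ a, a ∉ X → σ a = a) → rho K β r σ z = z := by
      intro σ hσ
      have h1 : σ * Equiv.swap y y' = Equiv.swap y y' * σ := by
        have := Equiv.mul_swap_eq_swap_mul σ y y'
        rw [this, hσ y hyX, hσ y' hyX']
      rw [hz, map_sub, hinv f hf σ hσ, ← Module.End.mul_apply, ← map_mul, h1, map_mul,
        Module.End.mul_apply, hinv f hf σ hσ]
    have hgar : ∀ q, q ∉ X → z + ∑ a ∈ X, rho K β r (Equiv.swap a q) z ∈
        bdB K β (r + 1) r := by
      intro q hq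
      refine hXIII K β r hr hcard (insert q X) (by rw [card_insert_of_notMem hq]; omega) _ ?_ ?_
      · refine Submodule.add_mem (subZ (K := K) univ (vm (r + 1) univ) r) hzc ?_
        exact Submodule.sum_mem _ (fun a _ => subZ_rho _ hzc)
      · exact invS_of_rho (fun σ hσ => gar _ hq hzi σ hσ)
    refine hRD K β _ (rho K β r) (bdB K β (r + 1) r) (fun σ z hz => bdB_rho σ hz) z 2
      ![x0, y, y'] ![X, {y}, {y'}] ?_ ?_ ?_ ?_ ?_
    · intro i j hij
      have e1 : Disjoint X {y} := by rw [disjoint_singleton_right]; exact hyX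
      have e2 : Disjoint X {y'} := by rw [disjoint_singleton_right]; exact hyX'
      have e3 : Disjoint ({y} : Finset β) {y'} := by
        rw [disjoint_singleton_right, mem_singleton]; exact fun h => hyy h.symm
      fin_cases i <;> fin_cases j
      · exact absurd rfl hij
      · exact e1
      · exact e2
      · exact e1.symm
      · exact absurd rfl hij
      · exact e3
      · exact e2.symm
      · exact e3.symm
      · exact absurd rfl hij
    · intro i
      fin_cases i <;> simp [hx0]
    · intro i b hb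
      fin_cases i
      · have hb' : b ∈ X := by simpa using hb
        refine hzi _ ?_
        intro c hc
        refine Equiv.swap_apply_of_ne_of_ne ?_ ?_
        · rintro rfl; exact hc hx0
        · rintro rfl; exact hc hb'
      · have hb' : b = y := by simpa using hb
        subst hb'
        show rho K β r (Equiv.swap b b) z = z
        rw [Equiv.swap_self, ← Equiv.Perm.one_def, map_one, Module.End.one_apply]
      · have hb' : b = y' := by simpa using hb
        subst hb'
        show rho K β r (Equiv.swap b b) z = z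
        rw [Equiv.swap_self, ← Equiv.Perm.one_def, map_one, Module.End.one_apply]
    · intro i j hij
      fin_cases i <;> fin_cases j
      · exact absurd hij (by decide)
      · exact hgar y hyX
      · exact hgar y' hyX'
      · exact absurd hij (by decide)
      · exact absurd hij (by decide)
      · show z + ∑ a ∈ ({y} : Finset β), rho K β r (Equiv.swap a y') z ∈ _
        rw [Finset.sum_singleton, hz, map_sub, ← Module.End.mul_apply, ← map_mul,
          Equiv.swap_mul_self, map_one, Module.End.one_apply]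
        have : a - rho K β r (Equiv.swap y y') a + (rho K β r (Equiv.swap y y') a - a) = 0 := by
          abel
        rw [this]
        exact Submodule.zero_mem _
      · exact absurd hij (by decide)
      · exact absurd hij (by decide)
      · exact absurd hij (by decide)
    · have hQ : ∀ b : β, (∀ i, (![x0, y, y'] : Fin 3 → β) i ≠ b) ↔
          b ∉ ({x0, y, y'} : Finset β) := by
        intro b
        simp only [Fin.forall_fin_succ, mem_insert, mem_singleton]
        simp
        tauto
      refine hXAnti3 K β r hr hcard {x0, y, y'} ?_ _ ?_ ?_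
      · refine Finset.card_eq_three.mpr ⟨x0, y, y', ?_, ?_, hyy, rfl⟩
        · rintro rfl; exact hyX hx0
        · rintro rfl; exact hyX' hx0
      · exact Submodule.sum_mem (subZ (K := K) univ (vm (r + 1) univ) r)
          (fun σ _ => Submodule.smul_mem _ _ (subZ_rho _ hzc))
      · intro σ hσ t
        have h3 := anti (rho K β r) (![x0, y, y'] : Fin 3 → β) z σ⁻¹ (by
          intro b hb
          rw [hQ] at hb
          rw [Equiv.Perm.inv_eq_iff_eq]
          exact (hσ b hb).symm)
        have h4 := congrFun h3 t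
        rw [rho_apply, inv_inv, Equiv.Perm.sign_inv] at h4
        exact h4
  refine indu (F := fun f => aXY (K := K) r X (Y \ f)) (bdB K β (r + 1) r) ?_ _ f f' rfl
    hf hf' hfc hfc'
  intro f hf hfc y hy y' hy'
  rw [mem_sdiff] at hy'
  have hyy : y ≠ y' := by rintro rfl; exact hy'.2 hy
  have h3 := hswap f hf hfc y (hf hy) y' hy'.1 hyy
  have e1 : X.map (Equiv.swap y y').toEmbedding = X := by
    refine map_fix (fun a ha => ?_)
    refine Equiv.swap_apply_of_ne_of_ne ?_ ?_
    · rintro rfl; exact Finset.disjoint_left.mp hYX ha (hf hy)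
    · rintro rfl; exact Finset.disjoint_left.mp hYX ha hy'.1
  rw [rho_aXY, e1, map_sdiff_swap (hf hy) hy'.1 hy hy'.2] at h3
  exact h3

end Pool.Agent.Work.MP_1233f5_ag.V

end
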